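import Pool.Agent.Lib.MP_e9c0f3_ag.Defs

/-! Common internal definitions. -/

open MvPolynomial Matrix

namespace Pool.Agent.Lib.MP_e9c0f3_ag

/-- The polynomial ring in `N` variables. -/
abbrev Pol (N : ℕ) (R : Type) [CommRing R] : Type := MvPolynomial (Fin N) R

variable {R : Type} [CommRing R] {N : ℕ} {ι κ : Type}

/-- The ideal of the variables. -/
noncomputable def mx (N : ℕ) (R : Type) [CommRing R] : Ideal (Pol N R) := Ideal.span (Set.range X)

/-- The Jacobian ideal. -/
noncomputable def jac (F : Pol N R) : Ideal (Pol N R) :=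
  Ideal.span (Set.range fun i => pderiv i F)

/-- Isolated singularity. -/
def Isol (F : Pol N R) : Prop := ∀ i, ∃ M, (X i : Pol N R) ^ M ∈ jac F

/-- `u` is a regular sequence in every order. -/
def RegAll {S : Type} [CommRing S] (u : Fin N → S) : Prop :=
  ∀ (T : Finset (Fin N)) (j : Fin N), j ∉ T → ∀ a, u j * a ∈ Ideal.span (u '' T) →
    a ∈ Ideal.span (u '' T)

/-- The quotient by `J` is a Frobenius algebra. -/
def Frob {K : Type} [Field K] (J : Ideal (Pol N K)) : Prop :=
  ∃ ρ : Pol N K →ₗ[K] K, (∀ a ∈ J, ρ a = 0) ∧ (∀ a, (∀ b, ρ (a * b) = 0) → a ∈ J) ∧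
    ∀ l : Pol N K →ₗ[K] K, (∀ a ∈ J, l a = 0) → ∃ c, ∀ b, l b = ρ (c * b)

/-- The parity involution. -/
def eps (R : Type) [CommRing R] [DecidableEq ι] (par : ι → ℕ) : Matrix ι ι R :=
  diagonal fun i => (-1) ^ par i

/-- Odd matrices. -/
def OddM (p : ι → ℕ) (q : κ → ℕ) (M : Matrix ι κ R) : Prop := ∀ i j, M i j ≠ 0 → Odd (p i + q j)

/-- Even matrices. -/
def EvenM (p : ι → ℕ) (q : κ → ℕ) (M : Matrix ι κ R) : Prop := ∀ i j, M i j ≠ 0 → Even (p i + q j)

/-- Every endomorphism commuting with `δ` is homotopic to a scalar. -/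
def Cyc [Fintype ι] [DecidableEq ι] (δ : Matrix ι ι R) : Prop :=
  ∀ Θ : Matrix ι ι R, δ * Θ = Θ * δ → ∃ Q η, Θ = scalar ι Q + (δ * η + η * δ)

/-- Polynomials of degree less than `n`. -/
def lt (N : ℕ) (R : Type) [CommRing R] (n : ℕ) : Submodule R (Pol N R) where
  carrier := {p | ∀ m : Fin N →₀ ℕ, n ≤ m.degree → coeff m p = 0}
  add_mem' := fun ha hb m hm => by rw [coeff_add, ha m hm, hb m hm, add_zero]
  zero_mem' := fun _ _ => rfl
  smul_mem' := fun c _ ha m hm => by rw [coeff_smul, ha m hm, smul_zero]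

/-- The twisted differential in top degree. -/
noncomputable def dtw (F : Pol N R) (h : Fin N → Pol N R) : Pol N R :=
  ∑ i, (pderiv i (h i) + pderiv i F * h i)

/-- The twisted differential one degree lower. -/
noncomputable def dtw' (F : Pol N R) (a : Fin N → Fin N → Pol N R) (i : Fin N) : Pol N R :=
  ∑ j, (pderiv j (a i j) + pderiv j F * a i j)

theorem exact_iff {F g : Pol N R} : Exact F g ↔ ∃ h, g = dtw F h := Iff.rfl

end Pool.Agent.Lib.MP_e9c0f3_ag
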