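import Pool.Agent.Lib.MP_e9c0f3_ag.Flat

/-! The Chern form is additive on short exact sequences. -/

open MvPolynomial Matrix

namespace Pool.Agent.Lib.MP_e9c0f3_ag

variable {R : Type} [CommRing R] [Algebra ℚ R] {N : ℕ} {ι κ μ : Type} [Fintype ι] [DecidableEq ι]
  [Fintype κ] [DecidableEq κ] [Fintype μ] [DecidableEq μ]

/-- Integration over the unit interval. -/
noncomputable def contrInt (R : Type) [CommRing R] [Algebra ℚ R] : Polynomial R →ₗ[R] R :=
  Polynomial.lsum fun j => algebraMap ℚ R (1 / (j + 1)) • LinearMap.id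

theorem contrInt_monomial (n : ℕ) (a : R) :
    contrInt R (Polynomial.monomial n a) = algebraMap ℚ R (1 / (n + 1)) * a := by
  simp [contrInt, Polynomial.lsum_apply, Polynomial.sum_monomial_index, Algebra.smul_def]

theorem contrInt_derivative (p : Polynomial R) :
    contrInt R (Polynomial.derivative p) = p.eval 1 - p.eval 0 := by
  induction p using Polynomial.induction_on' with
  | add p q hp hq => simp only [map_add, hp, hq, Polynomial.eval_add]; ring
  | monomial n a =>
    rw [Polynomial.derivative_monomial, contrInt_monomial]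
    rcases n with _ | n
    · simp
    · have h : algebraMap ℚ R (1 / (n + 1)) * ((n + 1 : ℕ) : R) = 1 := by
        rw [← map_natCast (algebraMap ℚ R), ← map_mul]
        have : (1 / ((n : ℚ) + 1)) * ((n + 1 : ℕ) : ℚ) = 1 := by
          push_cast; field_simp
        rw [this, map_one]
      simp only [Nat.add_sub_cancel, Polynomial.eval_monomial, one_pow, mul_one, ne_eq,
        Nat.add_eq_zero_iff, one_ne_zero, and_false, not_false_eq_true, zero_pow, mul_zero,
        sub_zero]
      linear_combination a * h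

theorem contr_cmap_mul (q : Pol N R) (p : Pol N (Polynomial R)) :
    cmap (contrInt R).toAddMonoidHom (map Polynomial.C q * p) =
      q * cmap (contrInt R).toAddMonoidHom p := by
  ext m
  rw [coeff_cmap, coeff_mul, coeff_mul, map_sum]
  refine Finset.sum_congr rfl fun x _ => ?_
  rw [coeff_cmap, coeff_map, ← Polynomial.smul_eq_C_mul]
  simp

/-- Invariance under polynomial homotopies. -/
theorem ch_homotopy (hN : Even N) {F : Pol N R} {par : ι → ℕ}
    {δ : Matrix ι ι (Pol N (Polynomial R))} (hδ : OddM par par δ)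
    (hsq : δ * δ = scalar ι (map Polynomial.C F)) :
    Exact F (ch par (δ.map (map (Polynomial.evalRingHom 1))) -
      ch par (δ.map (map (Polynomial.evalRingHom 0)))) := by
  let D : Polynomial R →+ Polynomial R := (Polynomial.derivative (R := R)).toAddMonoidHom
  obtain ⟨η, -, hη⟩ := ch_flat hN (cmap D) (cmap_leibniz fun a b => Polynomial.derivative_mul)
    (fun i p => cmap_pderiv D i p) hδ (map Polynomial.C F) ⊥
    (fun p hp => by rw [Ideal.mem_bot] at hp ⊢; rw [hp, map_zero])
    (fun i p hp => by rw [Ideal.mem_bot] at hp ⊢; rw [hp, map_zero])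
    (fun i j => by rw [hsq, sub_self]; exact Ideal.zero_mem _)
  have h0 : cmap D (map Polynomial.C F) = 0 := by
    ext m : 1
    rw [coeff_cmap, coeff_map]
    simp [D]
  rw [Ideal.mem_bot, h0, zero_mul, add_zero, sub_eq_zero] at hη
  have h1 := congrArg (cmap (contrInt R).toAddMonoidHom) hη
  refine exact_iff.2 ⟨fun i => cmap (contrInt R).toAddMonoidHom (η i), ?_⟩
  rw [← map_ch, ← map_ch]
  calc _ = cmap (contrInt R).toAddMonoidHom (cmap D (ch par δ)) := by
        ext m : 1
        rw [coeff_cmap, coeff_cmap, coeff_sub, coeff_map, coeff_map]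
        exact (contrInt_derivative _).symm
    _ = _ := by
        rw [h1]
        simp only [dtw, map_sum, map_add, cmap_pderiv, pderiv_map, contr_cmap_mul]

theorem contr_two {α β : Type} (x : Matrix α β (Pol N R)) (h : x + x = 0) : x = 0 := by
  have : x = (1 / 2 : ℚ) • (x + x) := by
    rw [← two_smul ℚ x, smul_smul]; norm_num
  rw [this, h, smul_zero]

theorem contr_ch_eq_zero (hN2 : 2 ≤ N) (F : Pol N R) (par : ι → ℕ) (δ B : Matrix ι ι (Pol N R))
    (h : ∀ a, δ.map (pderiv a) = pderiv a F • B) : ch par δ = 0 := by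
  rw [ch_eq]
  have := std_scalar (E := Matrix ι ι (Pol N R)) contr_two hN2 (fun a => scalar ι (pderiv a F))
    (fun a x => (scalar_commute _ (fun _ => Commute.all _ _) x).eq) B
  simp only [h]
  simp only [scalar_apply, ← smul_eq_diagonal_mul] at this
  rw [this, mul_zero, trace_zero]

theorem contr_oddM {p : ι → ℕ} {M : Matrix ι ι (Pol N R)}
    (h : eps (Pol N R) p * M = -(M * eps (Pol N R) p)) : OddM p p M := by
  intro i j hij
  by_contra hodd
  apply hij
  rw [Nat.not_odd_iff_even] at hodd
  have h1 := congrFun (congrFun h i) j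
  simp only [eps, diagonal_mul, Matrix.neg_apply, mul_diagonal] at h1
  have h2 : ((-1 : Pol N R)) ^ p i * (-1) ^ p j = 1 := by rw [← pow_add, hodd.neg_one_pow]
  have h3 : ((-1 : Pol N R)) ^ p j * (-1) ^ p j = 1 := by
    rw [← pow_add, Even.neg_one_pow ⟨_, rfl⟩]
  have h4 : M i j + M i j = 0 := by
    linear_combination (-1) ^ p j * h1 - M i j * h2 - M i j * h3
  have : M i j = (1 / 2 : ℚ) • (M i j + M i j) := by
    rw [← two_smul ℚ (M i j), smul_smul]; norm_num
  rw [this, h4, smul_zero]

theorem ch_contractible_sq (hN : Even N) (hN2 : 2 ≤ N) {F : Pol N R} {par : ι → ℕ}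
    {δ k : Matrix ι ι (Pol N R)} (hδ : OddM par par δ) (hk : OddM par par k)
    (hsq : δ * δ = scalar ι F) (h1 : δ * k + k * δ = 1) (hkk : k * k = 0) :
    Exact F (ch par δ) := by
  let σ : Pol N R →+* Pol N (Polynomial R) :=
    eval₂Hom (MvPolynomial.C.comp Polynomial.C) fun i => MvPolynomial.C Polynomial.X * X i
  have hs : scalar ι F = F • (1 : Matrix ι ι (Pol N R)) := by
    rw [scalar_apply, smul_one_eq_diagonal]
  have e1 : (δ - F • k) * (δ - F • k) = 0 := by
    simp only [sub_mul, mul_sub, Matrix.smul_mul, Matrix.mul_smul, hkk, hsq, hs, smul_zero]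
    rw [← h1, smul_add]
    abel
  have e2 : (δ - F • k) * k + k * (δ - F • k) = 1 := by
    simp only [sub_mul, mul_sub, Matrix.smul_mul, Matrix.mul_smul, hkk, smul_zero, sub_zero, h1]
  set d := δ - F • k with hd
  have f1 : d.map σ * d.map σ = 0 := by
    have := congrArg σ.mapMatrix e1
    simpa only [map_mul, map_zero, RingHom.mapMatrix_apply] using this
  have f2 : d.map σ * k.map σ + k.map σ * d.map σ = 1 := by
    have := congrArg σ.mapMatrix e2
    simpa only [map_mul, map_add, map_one, RingHom.mapMatrix_apply] using this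
  have f3 : k.map σ * k.map σ = 0 := by
    have := congrArg σ.mapMatrix hkk
    simpa only [map_mul, map_zero, RingHom.mapMatrix_apply] using this
  have key := ch_homotopy (F := F) (par := par) hN
    (δ := d.map σ + (MvPolynomial.map Polynomial.C F) • k.map σ) ?_ ?_
  · have s1 : (MvPolynomial.map (Polynomial.evalRingHom (1 : R))).comp σ = RingHom.id _ := by
      ext <;> simp [σ]
    have s0 : (MvPolynomial.map (Polynomial.evalRingHom (0 : R))).comp σ =
        MvPolynomial.C.comp constantCoeff := by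
      ext <;> simp [σ]
    have t : ∀ x : R, MvPolynomial.map (Polynomial.evalRingHom x)
        (MvPolynomial.map Polynomial.C F) = F := by
      intro x
      rw [MvPolynomial.map_map]
      have : (Polynomial.evalRingHom x).comp Polynomial.C = RingHom.id R := by ext; simp
      rw [this, MvPolynomial.map_id]
    have u1 : (d.map σ + (MvPolynomial.map Polynomial.C F) • k.map σ).map
        (MvPolynomial.map (Polynomial.evalRingHom (1 : R))) = δ := by
      refine Matrix.ext fun i j => ?_
      have a1 := RingHom.congr_fun s1 (d i j)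
      have a2 := RingHom.congr_fun s1 (k i j)
      simp only [RingHom.comp_apply, RingHom.id_apply] at a1 a2
      simp only [map_apply, Matrix.add_apply, Matrix.smul_apply, smul_eq_mul, map_add, map_mul, a1,
        a2, t]
      simp [hd]
    have u0 : ch par ((d.map σ + (MvPolynomial.map Polynomial.C F) • k.map σ).map
        (MvPolynomial.map (Polynomial.evalRingHom (0 : R)))) = 0 := by
      refine contr_ch_eq_zero hN2 F par _ (k.map (MvPolynomial.C.comp constantCoeff)) fun a => ?_
      refine Matrix.ext fun i j => ?_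
      have a1 := RingHom.congr_fun s0 (d i j)
      have a2 := RingHom.congr_fun s0 (k i j)
      simp only [RingHom.comp_apply] at a1 a2
      simp only [map_apply, Matrix.add_apply, Matrix.smul_apply, smul_eq_mul, map_add, map_mul, a1,
        a2, t]
      simp [mul_comm]
    rwa [u1, u0, sub_zero] at key
  · intro i j hij
    by_contra hodd
    apply hij
    have b1 : δ i j = 0 := by by_contra h; exact hodd (hδ i j h)
    have b2 : k i j = 0 := by by_contra h; exact hodd (hk i j h)
    simp [hd, b1, b2]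
  · rw [scalar_apply, ← smul_one_eq_diagonal, ← f2]
    simp only [add_mul, mul_add, Matrix.smul_mul, Matrix.mul_smul, f1, f3, smul_zero, smul_add]
    abel

theorem contr_ring {E : Type} [Ring E] {e δ : E} (hδ : e * δ = -(δ * e)) (n : ℕ) :
    ∀ k : E, e * k = -(k * e) → δ * k + k * δ = 1 → (k * k) ^ (n + 1) = 0 →
      ∃ k' : E, e * k' = -(k' * e) ∧ δ * k' + k' * δ = 1 ∧ k' * k' = 0 := by
  induction n with
  | zero => intro k a b c; exact ⟨k, a, b, by simpa using c⟩
  | succ n ih =>
    intro k hk h1 hn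
    have a1 : δ * k = 1 - k * δ := by rw [← h1]; abel
    have cδ : Commute δ (k * k) := by
      change δ * (k * k) = k * k * δ
      rw [← mul_assoc, a1, sub_mul, mul_assoc k δ, a1]
      noncomm_ring
    have ck : Commute k (k * k) := (mul_assoc k k k).symm
    have ce : Commute e (k * k) := by
      change e * (k * k) = k * k * e
      rw [← mul_assoc, hk, neg_mul, mul_assoc, hk]
      noncomm_ring
    have fδ : Commute δ (δ * δ) := (mul_assoc δ δ δ).symm
    have fk : Commute k (δ * δ) := by
      change k * (δ * δ) = δ * δ * k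
      rw [mul_assoc δ δ k, a1, mul_sub, ← mul_assoc δ k, a1]
      noncomm_ring
    have fe : Commute e (δ * δ) := by
      change e * (δ * δ) = δ * δ * e
      rw [← mul_assoc, hδ, neg_mul, mul_assoc, hδ]
      noncomm_ring
    set c := k * k with hc
    set f := δ * δ with hf
    have cf : Commute c f := fk.mul_left fk
    have hnil : IsNilpotent (c * (f + f)) :=
      (cf.add_right cf).isNilpotent_mul_right ⟨_, hn⟩
    obtain ⟨u, hu⟩ := hnil.isUnit_one_sub
    have hcomm : ∀ x : E, Commute x c → Commute x f → Commute x (↑u⁻¹ : E) := by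
      intro x h h'
      apply Commute.units_inv_right
      rw [hu]
      exact (Commute.one_right x).sub_right (h.mul_right (h'.add_right h'))
    set v : E := ↑u⁻¹ with hv
    have vδ := hcomm δ cδ fδ
    have vk := hcomm k ck fk
    have ve := hcomm e ce fe
    have vc := hcomm c (Commute.refl c) cf
    have vf := hcomm f cf.symm (Commute.refl f)
    have w1 : δ * (k - c * δ) + (k - c * δ) * δ = u := by
      rw [hu, mul_sub, sub_mul, ← mul_assoc, cδ.eq, mul_assoc c δ δ, ← hf, ← h1]
      noncomm_ring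
    have w2 : (k - c * δ) * (k - c * δ) = c ^ 2 * f := by
      have : (k - c * δ) * (k - c * δ) =
          k * k - (k * c * δ + c * (δ * k)) + c * (δ * c) * δ := by noncomm_ring
      rw [this, ck.eq, cδ.eq, ← hc, mul_assoc c k δ, ← mul_add, add_comm (k * δ), h1, hf]
      noncomm_ring
    have w3 : Commute (k - c * δ) v := vk.sub_left (vc.mul_left vδ)
    refine ih ((k - c * δ) * v) ?_ ?_ ?_
    · have : e * (k - c * δ) = -((k - c * δ) * e) := by
        rw [mul_sub, hk, ← mul_assoc, ce.eq, mul_assoc c e δ, hδ]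
        noncomm_ring
      rw [← mul_assoc, this, neg_mul, mul_assoc, ve.eq, mul_assoc (k - c * δ) v e]
    · rw [mul_assoc (k - c * δ) v δ, ← vδ.eq, ← mul_assoc, ← mul_assoc, ← add_mul, w1, hv,
        Units.mul_inv]
    · have : (k - c * δ) * v * ((k - c * δ) * v) = c ^ 2 * (f * (v * v)) := by
        rw [mul_assoc, ← mul_assoc v, ← w3.eq, ← mul_assoc, ← mul_assoc, ← mul_assoc, w2]
        noncomm_ring
      rw [this, Commute.mul_pow ((cf.mul_right (vc.mul_right vc)).pow_left 2), ← pow_mul,
        show 2 * (n + 1) = (n + 1 + 1) + n by ring, pow_add, hn, zero_mul, zero_mul]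

theorem ch_contractible (hN : Even N) (hN2 : 2 ≤ N) {F : Pol N R} {par : ι → ℕ}
    {δ k : Matrix ι ι (Pol N R)} (hδ : OddM par par δ) (hk : OddM par par k)
    (hsq : δ * δ = scalar ι F) (h1 : δ * k + k * δ = 1) (hkk : IsNilpotent (k * k)) :
    Exact F (ch par δ) := by
  obtain ⟨n, hn⟩ := hkk
  obtain ⟨k', a, b, c⟩ := contr_ring hδ.eps_mul n k hk.eps_mul h1 (by rw [pow_succ, hn, zero_mul])
  exact ch_contractible_sq hN hN2 hδ (contr_oddM a) hsq b c

/-- The trivial matrix factorisation. -/
def triv (κ : Type) [DecidableEq κ] {S : Type} [CommRing S] (F : S) : Matrix (κ ⊕ κ) (κ ⊕ κ) S :=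
  fromBlocks 0 (diagonal fun _ => F) 1 0

theorem triv_sq {S : Type} [CommRing S] (F : S) : triv κ F * triv κ F = scalar (κ ⊕ κ) F := by
  rw [triv, fromBlocks_multiply, scalar_apply]
  simp only [Matrix.zero_mul, Matrix.mul_zero, Matrix.mul_one, Matrix.one_mul, zero_add, add_zero,
    fromBlocks_diagonal]
  congr 1
  ext (i | i) <;> rfl

theorem ch_triv (hN2 : 2 ≤ N) (F : Pol N R) (par : κ ⊕ κ → ℕ) : ch par (triv κ F) = 0 := by
  refine contr_ch_eq_zero hN2 F par _ (fromBlocks 0 1 0 0) fun a => ?_
  ext (i | i) (j | j) : 2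
  · simp [triv]
  · by_cases h : i = j <;> simp [triv, h]
  · by_cases h : i = j <;> simp [triv, h]
  · simp [triv]

section

variable {S : Type} [CommRing S]

/-- The even part of a matrix. -/
def contrEv (p : ι → ℕ) (q : κ → ℕ) (M : Matrix ι κ S) : Matrix ι κ S :=
  of fun i j => if Even (p i + q j) then M i j else 0

omit [Fintype ι] [DecidableEq ι] [Fintype κ] [DecidableEq κ] in
theorem contrEv_even (p : ι → ℕ) (q : κ → ℕ) (M : Matrix ι κ S) : EvenM p q (contrEv p q M) := by
  intro i j h
  by_contra hc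
  exact h (by simp [contrEv, hc])

omit [Fintype ι] [DecidableEq ι] [DecidableEq κ] [Fintype μ] [DecidableEq μ] in
theorem contrEv_mul {p : ι → ℕ} {q : κ → ℕ} {r : μ → ℕ} {A : Matrix ι κ S} {B : Matrix κ μ S}
    (hA : EvenM p q A) (hC : EvenM p r (A * B)) : A * contrEv q r B = A * B := by
  ext i j
  by_cases h : Even (p i + r j)
  · simp only [mul_apply]
    refine Finset.sum_congr rfl fun x _ => ?_
    by_cases h0 : A i x = 0
    · simp [h0]
    · have h1 := hA i x h0
      have : Even (q x + r j) := by rw [Nat.even_iff] at *; omega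
      simp [contrEv, this]
  · have h2 : (A * B) i j = 0 := by
      by_contra hc
      exact h (hC i j hc)
    rw [h2, mul_apply]
    refine Finset.sum_eq_zero fun x _ => ?_
    by_cases h0 : A i x = 0
    · simp [h0]
    · have h1 := hA i x h0
      have : ¬ Even (q x + r j) := by rw [Nat.even_iff] at *; omega
      simp [contrEv, this]

omit [Fintype ι] [DecidableEq ι] [DecidableEq κ] [Fintype μ] [DecidableEq μ] in
theorem contr_even_mul {p : ι → ℕ} {q : κ → ℕ} {r : μ → ℕ} {A : Matrix ι κ S} {B : Matrix κ μ S}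
    (hA : EvenM p q A) (hB : EvenM q r B) : EvenM p r (A * B) := by
  intro i j h
  rw [mul_apply] at h
  obtain ⟨x, -, hx⟩ := Finset.exists_ne_zero_of_sum_ne_zero h
  have h1 := hA i x (left_ne_zero_of_mul hx)
  have h2 := hB x j (right_ne_zero_of_mul hx)
  rw [Nat.even_iff] at *; omega

omit [Fintype ι] in
theorem contr_even_one (p : ι → ℕ) : EvenM p p (1 : Matrix ι ι S) := by
  intro i j h
  have : i = j := by
    by_contra hc
    exact h (one_apply_ne hc)
  subst this
  exact ⟨_, rfl⟩

omit [Fintype ι] [DecidableEq ι] [DecidableEq κ] [Fintype μ] [DecidableEq μ] in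
theorem contr_exists_mul_eq (A : Matrix ι κ S) (B : Matrix ι μ S)
    (h : ∀ b, ∃ u, A *ᵥ u = fun i => B i b) : ∃ M : Matrix κ μ S, A * M = B := by
  choose u hu using h
  refine ⟨of fun x b => u b x, ?_⟩
  ext i b
  exact congrFun (hu b) i

/-- `M` raises the level by at least `d`. -/
def ContrLow (h : ι → ℕ) (d : ℕ) (M : Matrix ι ι S) : Prop := ∀ a b, M a b ≠ 0 → h b + d ≤ h a

omit [DecidableEq ι] in
theorem ContrLow.mul {h : ι → ℕ} {d d' : ℕ} {M M' : Matrix ι ι S} (hM : ContrLow h d M)
    (hM' : ContrLow h d' M') : ContrLow h (d + d') (M * M') := by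
  intro a b hab
  rw [mul_apply] at hab
  obtain ⟨x, -, hx⟩ := Finset.exists_ne_zero_of_sum_ne_zero hab
  have h1 := hM a x (left_ne_zero_of_mul hx)
  have h2 := hM' x b (right_ne_zero_of_mul hx)
  omega

omit [Fintype ι] [DecidableEq ι] in
theorem ContrLow.eq_zero {h : ι → ℕ} {d : ℕ} {M : Matrix ι ι S} (hM : ContrLow h d M)
    (hd : ∀ a, h a < d) : M = 0 := by
  ext a b
  by_contra hc
  have := hM a b hc
  have := hd a
  omega

end

theorem contr_ring2 {E : Type} [Ring E] {e T k ν : E} (hT : e * T = -(T * e))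
    (hk : e * k = -(k * e)) (hc : T * T * k = k * (T * T)) (h1 : T * k + k * T = 1 + ν)
    (h3 : ν * ν * ν = 0) :
    e * (k * (1 - ν + ν * ν)) = -(k * (1 - ν + ν * ν) * e) ∧
      T * (k * (1 - ν + ν * ν)) + k * (1 - ν + ν * ν) * T = 1 := by
  have hν : ν = T * k + k * T - 1 := by rw [h1]; abel
  have ce : Commute e ν := by
    change e * ν = ν * e
    rw [hν, mul_sub, mul_add, ← mul_assoc, ← mul_assoc, hT, hk, neg_mul, neg_mul, mul_assoc,
      mul_assoc, hT, hk]
    noncomm_ring
  have cT : Commute T ν := by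
    change T * ν = ν * T
    rw [hν, mul_sub, mul_add, ← mul_assoc, hc]
    noncomm_ring
  have ce' : Commute e (1 - ν + ν * ν) :=
    ((Commute.one_right e).sub_right ce).add_right (ce.mul_right ce)
  have cT' : Commute T (1 - ν + ν * ν) :=
    ((Commute.one_right T).sub_right cT).add_right (cT.mul_right cT)
  constructor
  · rw [← mul_assoc, hk, neg_mul, mul_assoc, ce'.eq, mul_assoc k _ e]
  · rw [mul_assoc k _ T, ← cT'.eq, ← mul_assoc, ← mul_assoc, ← add_mul, h1]
    have : (1 + ν) * (1 - ν + ν * ν) = 1 + ν * ν * ν := by noncomm_ring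
    rw [this, h3, add_zero]

/-- Additivity on short exact sequences. -/
theorem ch_ses (hN : Even N) (hN2 : 2 ≤ N) {F : Pol N R} {pE : ι → ℕ} {pP : κ → ℕ} {pZ : μ → ℕ}
    {δE : Matrix ι ι (Pol N R)} {δP : Matrix κ κ (Pol N R)} {δZ : Matrix μ μ (Pol N R)}
    (hE : OddM pE pE δE) (hP : OddM pP pP δP) (hZ : OddM pZ pZ δZ)
    (hE2 : δE * δE = scalar ι F) (hP2 : δP * δP = scalar κ F) (hZ2 : δZ * δZ = scalar μ F)
    {p : Matrix ι κ (Pol N R)} {j : Matrix κ μ (Pol N R)} (hp : EvenM pE pP p)
    (hj : EvenM pP pZ j) (hpδ : δE * p = p * δP) (hjδ : δP * j = j * δZ) (hpj : p * j = 0)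
    (hs : ∀ v, ∃ u, p *ᵥ u = v) (hi : ∀ v, j *ᵥ v = 0 → v = 0)
    (hex : ∀ u, p *ᵥ u = 0 → ∃ v, j *ᵥ v = u) :
    Exact F (ch pE δE - ch pP δP + ch pZ δZ) := by
  obtain ⟨s₀, hs₀⟩ := contr_exists_mul_eq p (1 : Matrix ι ι (Pol N R)) fun b => hs _
  obtain ⟨s, hse, hps⟩ : ∃ s : Matrix κ ι (Pol N R), EvenM pP pE s ∧ p * s = 1 :=
    ⟨contrEv pP pE s₀, contrEv_even _ _ _,
      by rw [contrEv_mul hp (hs₀ ▸ contr_even_one pE), hs₀]⟩
  have hp1 : p * (1 - s * p) = 0 := by
    rw [Matrix.mul_sub, ← Matrix.mul_assoc, hps, Matrix.mul_one, Matrix.one_mul, sub_self]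
  obtain ⟨r₀, hr₀⟩ := contr_exists_mul_eq j (1 - s * p) fun b => hex _ (by
    ext i : 1
    exact congrFun (congrFun hp1 i) b)
  have hev : EvenM pP pP (1 - s * p) := by
    intro a b h
    by_contra hc
    apply h
    have b1 : (1 : Matrix κ κ (Pol N R)) a b = 0 := by
      by_contra h; exact hc (contr_even_one pP a b h)
    have b2 : (s * p) a b = 0 := by
      by_contra h; exact hc (contr_even_mul hse hp a b h)
    rw [Matrix.sub_apply, b1, b2, sub_zero]
  obtain ⟨r, hre, hjr⟩ : ∃ r : Matrix μ κ (Pol N R), EvenM pZ pP r ∧ j * r = 1 - s * p :=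
    ⟨contrEv pZ pP r₀, contrEv_even _ _ _, by rw [contrEv_mul hj (hr₀ ▸ hev), hr₀]⟩
  have hrj : r * j = 1 := by
    have h0 : j * (r * j - 1 : Matrix μ μ (Pol N R)) = 0 := by
      rw [Matrix.mul_sub, ← Matrix.mul_assoc, hjr, Matrix.sub_mul, Matrix.mul_assoc, hpj]
      simp
    rw [← sub_eq_zero]
    refine Matrix.ext fun a b => ?_
    exact congrFun (hi (fun x => (r * j - 1 : Matrix μ μ (Pol N R)) x b) (by
      ext i : 1
      exact congrFun (congrFun h0 i) b)) a
  let par : ι ⊕ (κ ⊕ μ) → ℕ := Sum.elim pE (Sum.elim (fun i => pP i + 1) pZ)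
  let lev : ι ⊕ (κ ⊕ μ) → ℕ := Sum.elim (fun _ => 0) (Sum.elim (fun _ => 1) fun _ => 2)
  let T : Matrix (ι ⊕ (κ ⊕ μ)) (ι ⊕ (κ ⊕ μ)) (Pol N R) :=
    fromBlocks δE (fromCols p 0) 0 (fromBlocks (-δP) j 0 δZ)
  let k : Matrix (ι ⊕ (κ ⊕ μ)) (ι ⊕ (κ ⊕ μ)) (Pol N R) :=
    fromBlocks 0 0 (fromRows s 0) (fromBlocks 0 0 r 0)
  let ν : Matrix (ι ⊕ (κ ⊕ μ)) (ι ⊕ (κ ⊕ μ)) (Pol N R) :=
    fromBlocks 0 0 (fromRows (s * δE - δP * s) 0) (fromBlocks 0 0 (δZ * r - r * δP) 0)
  have hT : OddM par par T := by
    rintro (a | a | a) (b | b | b) h <;>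
      simp only [T, fromBlocks_apply₁₁, fromBlocks_apply₁₂, fromBlocks_apply₂₁, fromBlocks_apply₂₂,
        fromCols_apply_inl, fromCols_apply_inr, Matrix.zero_apply, Matrix.neg_apply, ne_eq,
        not_true_eq_false, neg_eq_zero] at h <;>
      simp only [par, Sum.elim_inl, Sum.elim_inr]
    · exact hE a b h
    · have := hp a b h
      rw [Nat.even_iff] at this; rw [Nat.odd_iff]; omega
    · have := hP a b h
      rw [Nat.odd_iff] at *; omega
    · have := hj a b h
      rw [Nat.even_iff] at this; rw [Nat.odd_iff]; omega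
    · exact hZ a b h
  have hk : OddM par par k := by
    rintro (a | a | a) (b | b | b) h <;>
      simp only [k, fromBlocks_apply₁₁, fromBlocks_apply₁₂, fromBlocks_apply₂₁, fromBlocks_apply₂₂,
        fromRows_apply_inl, fromRows_apply_inr, Matrix.zero_apply, ne_eq,
        not_true_eq_false] at h <;>
      simp only [par, Sum.elim_inl, Sum.elim_inr]
    · have := hse a b h
      rw [Nat.even_iff] at this; rw [Nat.odd_iff]; omega
    · have := hre a b h
      rw [Nat.even_iff] at this; rw [Nat.odd_iff]; omega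
  have lk : ContrLow lev 1 k := by
    rintro (a | a | a) (b | b | b) h <;> simp [k, lev] at h ⊢
  have lν : ContrLow lev 1 ν := by
    rintro (a | a | a) (b | b | b) h <;> simp [ν, lev] at h ⊢
  have hlev : ∀ a, lev a < 3 := by rintro (a | a | a) <;> simp [lev]
  have hTT : T * T = scalar _ F := by
    simp only [T, fromBlocks_multiply, mul_fromCols, fromCols_mul_fromBlocks, Matrix.mul_zero,
      Matrix.zero_mul, add_zero, zero_add, Matrix.neg_mul, Matrix.mul_neg, neg_neg, hE2, hP2, hZ2,
      hpδ, hjδ, hpj, neg_add_cancel]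
    ext (a | a | a) (b | b | b) : 2 <;> simp [diagonal_apply]
  have h1 : T * k + k * T = 1 + ν := by
    simp only [T, k, ν, fromBlocks_multiply, fromCols_mul_fromRows, fromCols_mul_fromBlocks,
      fromBlocks_mul_fromRows, fromRows_mul, Matrix.mul_zero,
      Matrix.zero_mul, add_zero, zero_add, Matrix.neg_mul, Matrix.mul_neg, hps, hjr, hrj]
    ext (a | a | a) (b | b | b) : 2 <;> simp [one_apply, sub_eq_add_neg, add_comm]
  obtain ⟨a1, a2⟩ := contr_ring2 hT.eps_mul hk.eps_mul
    (by rw [hTT]; exact (scalar_commute _ (fun _ => Commute.all _ _) k).eq) h1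
    (((lν.mul lν).mul lν).eq_zero hlev)
  have l0 : ContrLow lev 0 (1 - ν + ν * ν) := by
    intro a b h
    by_contra hc
    apply h
    have b1 : (1 : Matrix _ _ (Pol N R)) a b = 0 := one_apply_ne (by rintro rfl; omega)
    have b2 : ν a b = 0 := by
      by_contra h; have := lν a b h; omega
    have b3 : (ν * ν) a b = 0 := by
      by_contra h; have := (lν.mul lν) a b h; omega
    rw [Matrix.add_apply, Matrix.sub_apply, b1, b2, b3]; simp
  have l1 := lk.mul l0
  have key := ch_contractible hN hN2 hT (contr_oddM a1) hTT a2 ⟨2, by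
    rw [pow_two]
    exact ((l1.mul l1).mul (l1.mul l1)).eq_zero fun a => (hlev a).trans_le (by norm_num)⟩
  simp only [par, T, ch_fromBlocks, ch_succ, ch_neg hN] at key
  convert key using 1
  ring

end Pool.Agent.Lib.MP_e9c0f3_ag
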