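import Pool.Agent.Lib.MP_e9c0f3_ag.Reg

/-! The Jacobian ring of a smooth hypersurface. -/

open MvPolynomial

namespace Pool.Agent.Lib.MP_e9c0f3_ag

variable {K : Type} [Field K] {N : ℕ}

theorem frob_mx_le_radical (J : Ideal (Pol N K)) (hX : ∀ i, ∃ M, (X i : Pol N K) ^ M ∈ J) :
    mx N K ≤ J.radical := by
  unfold mx
  rw [Ideal.span_le]
  rintro _ ⟨i, rfl⟩
  exact hX i

theorem frob_exists_socle (J : Ideal (Pol N K)) (hX : ∀ i, ∃ M, (X i : Pol N K) ^ M ∈ J)
    (a : Pol N K) (ha : a ∉ J) : ∃ b, a * b ∉ J ∧ ∀ i, X i * (a * b) ∈ J := by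
  classical
  have hfg : (mx N K).FG := ⟨(Set.finite_range (X : Fin N → Pol N K)).toFinset, by simp [mx]⟩
  obtain ⟨r, hr⟩ := Ideal.exists_pow_le_of_le_radical_of_fg (frob_mx_le_radical J hX) hfg
  have hex : ∃ n, ∀ b ∈ mx N K ^ n, a * b ∈ J := ⟨r, fun b hb => J.mul_mem_left a (hr hb)⟩
  have h0 : Nat.find hex ≠ 0 := by
    intro h
    have h1 := Nat.find_spec hex
    rw [h] at h1
    exact ha (by simpa using h1 1 (by simp))
  obtain ⟨k, hk⟩ := Nat.exists_eq_succ_of_ne_zero h0
  have h1 := Nat.find_spec hex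
  have h2 := Nat.find_min hex (m := k) (by omega)
  push Not at h2
  obtain ⟨b, hb, hab⟩ := h2
  refine ⟨b, hab, fun i => ?_⟩
  have h3 : b * X i ∈ mx N K ^ (k + 1) := by
    rw [pow_succ]
    exact Ideal.mul_mem_mul hb (Ideal.subset_span ⟨i, rfl⟩)
  rw [hk] at h1
  have h4 := h1 _ h3
  have h5 : X i * (a * b) = a * (b * X i) := by ring
  rw [h5]
  exact h4

theorem frob_sub_const (J : Ideal (Pol N K)) (Δ : Pol N K) (hΔ : ∀ i, X i * Δ ∈ J)
    (c : Pol N K) : c * Δ - coeff 0 c • Δ ∈ J := by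
  induction c using MvPolynomial.induction_on with
  | C a => simp [smul_eq_C_mul]
  | add p q hp hq =>
    have : (p + q) * Δ - coeff 0 (p + q) • Δ
        = (p * Δ - coeff 0 p • Δ) + (q * Δ - coeff 0 q • Δ) := by
      rw [coeff_add, add_smul]; ring
    rw [this]
    exact J.add_mem hp hq
  | mul_X p i _ =>
    have h0 : coeff 0 (p * X i) = 0 := by
      change constantCoeff (p * X i) = 0
      simp
    rw [h0, zero_smul, sub_zero, mul_assoc]
    exact J.mul_mem_left p (hΔ i)

theorem frob_finite (J : Ideal (Pol N K)) (hX : ∀ i, ∃ M, (X i : Pol N K) ^ M ∈ J) :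
    Module.Finite K (Pol N K ⧸ J) := by
  have hint : Algebra.IsIntegral K (Pol N K ⧸ J) := by
    refine ⟨fun x => ?_⟩
    obtain ⟨p, rfl⟩ := Ideal.Quotient.mk_surjective x
    induction p using MvPolynomial.induction_on with
    | C a => exact isIntegral_algebraMap (R := K) (A := Pol N K ⧸ J) (x := a)
    | add p q hp hq => rw [map_add]; exact hp.add hq
    | mul_X p i hp =>
      rw [map_mul]
      refine hp.mul ?_
      obtain ⟨M, hM⟩ := hX i
      refine IsIntegral.of_pow (n := M + 1) (by omega) ?_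
      have : Ideal.Quotient.mk J (X i : Pol N K) ^ (M + 1) = 0 := by
        rw [← map_pow, Ideal.Quotient.eq_zero_iff_mem, pow_succ]
        exact J.mul_mem_right _ hM
      rw [this]
      exact isIntegral_zero
  exact Algebra.IsIntegral.finite

theorem frob_of_socle (J : Ideal (Pol N K)) (hX : ∀ i, ∃ M, (X i : Pol N K) ^ M ∈ J)
    (Δ : Pol N K) (hΔ : ∀ i, X i * Δ ∈ J)
    (hs : ∀ a : Pol N K, (∀ i, X i * a ∈ J) → ∃ c : Pol N K, a - c * Δ ∈ J) : Frob J := by
  by_cases hD : Δ ∈ J
  · have hall : ∀ a, a ∈ J := by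
      intro a
      by_contra ha
      obtain ⟨b, hab, hb⟩ := frob_exists_socle J hX a ha
      obtain ⟨c, hc⟩ := hs _ hb
      apply hab
      have : a * b = (a * b - c * Δ) + c * Δ := by ring
      rw [this]
      exact J.add_mem hc (J.mul_mem_left c hD)
    exact ⟨0, fun _ _ => rfl, fun a _ => hall a, fun l hl => ⟨0, fun b => hl b (hall b)⟩⟩
  · let W : Submodule K (Pol N K) := J.restrictScalars K
    obtain ⟨ρ, hρ, hρ0⟩ := Submodule.exists_dual_map_eq_bot_of_notMem (p := W) (x := Δ) hD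
      inferInstance
    have hz : ∀ a ∈ J, ρ a = 0 := by
      intro a ha
      have : ρ a ∈ W.map ρ := Submodule.mem_map_of_mem ha
      rwa [hρ0, Submodule.mem_bot] at this
    have hnd : ∀ a, (∀ b, ρ (a * b) = 0) → a ∈ J := by
      intro a ha
      by_contra haJ
      obtain ⟨b, hab, hb⟩ := frob_exists_socle J hX a haJ
      obtain ⟨c, hc⟩ := hs _ hb
      have h1 := frob_sub_const J Δ hΔ c
      have h2 : a * b - coeff 0 c • Δ ∈ J := by
        have : a * b - coeff 0 c • Δ = (a * b - c * Δ) + (c * Δ - coeff 0 c • Δ) := by ring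
        rw [this]
        exact J.add_mem hc h1
      have h3 := hz _ h2
      rw [map_sub, ha b, map_smul, zero_sub, neg_eq_zero, smul_eq_mul, mul_eq_zero] at h3
      rcases h3 with h3 | h3
      · rw [h3, zero_smul, sub_zero] at h2
        exact hab h2
      · exact hρ h3
    refine ⟨ρ, hz, hnd, fun l hl => ?_⟩
    let Φ : Pol N K →ₗ[K] Module.Dual K (Pol N K) := (LinearMap.mul K (Pol N K)).compr₂ ρ
    have hΦ : ∀ c b, Φ c b = ρ (c * b) := fun _ _ => rfl
    have hker : LinearMap.ker Φ = W := by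
      ext a
      rw [LinearMap.mem_ker]
      constructor
      · intro h
        exact hnd a fun b => by rw [← hΦ, h]; rfl
      · intro h
        exact LinearMap.ext fun b => hz _ (J.mul_mem_right b h)
    have hle : LinearMap.range Φ ≤ W.dualAnnihilator := by
      rintro _ ⟨c, rfl⟩
      rw [Submodule.mem_dualAnnihilator]
      intro w hw
      exact hz _ (J.mul_mem_left c hw)
    have hfin := frob_finite J hX
    have hfinW : Module.Finite K (Pol N K ⧸ W) :=
      Module.Finite.equiv (Submodule.Quotient.restrictScalarsEquiv K J).symm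
    have hfinA : Module.Finite K W.dualAnnihilator :=
      Module.Finite.equiv W.dualQuotEquivDualAnnihilator
    have hrk : Module.finrank K (LinearMap.range Φ) = Module.finrank K W.dualAnnihilator := by
      rw [← Φ.quotKerEquivRange.finrank_eq, ← W.dualQuotEquivDualAnnihilator.finrank_eq,
        Subspace.dual_finrank_eq, hker]
    have heq := Submodule.eq_of_le_of_finrank_eq hle hrk
    have hlm : l ∈ LinearMap.range Φ := by
      rw [heq, Submodule.mem_dualAnnihilator]
      exact hl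
    obtain ⟨c, hc⟩ := hlm
    exact ⟨c, fun b => by rw [← hΦ, hc]⟩

theorem isol_of_smooth [IsAlgClosed K] {F : Pol N K}
    (h : ∀ z : Fin N → K, (∀ i, eval z (pderiv i F) = 0) → z = 0) : Isol F := by
  intro i
  have h1 : (X i : Pol N K) ∈ (jac F).radical := by
    rw [← vanishingIdeal_zeroLocus_eq_radical (K := K), mem_vanishingIdeal_iff]
    intro z hz
    have h2 : z = 0 := h z fun j => by
      have := hz (pderiv j F) (Ideal.subset_span ⟨j, rfl⟩)
      simpa [aeval_eq_eval] using this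
    simp [h2]
  exact h1

theorem Isol.map {L : Type} [CommRing L] {F : Pol N K} (h : Isol F) (f : K →+* L) :
    Isol (map f F) := by
  intro i
  obtain ⟨M, hM⟩ := h i
  refine ⟨M, ?_⟩
  have h1 := Ideal.mem_map_of_mem (MvPolynomial.map (σ := Fin N) f) hM
  rw [map_pow, map_X] at h1
  refine (?_ : Ideal.map (MvPolynomial.map (σ := Fin N) f) (jac F) ≤ jac (MvPolynomial.map f F)) h1
  unfold jac
  rw [Ideal.map_span, Ideal.span_le]
  rintro _ ⟨_, ⟨j, rfl⟩, rfl⟩
  exact Ideal.subset_span ⟨j, pderiv_map⟩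

theorem Isol.regAll {F : Pol N K} {d : ℕ} (hd : 2 ≤ d) (hF : F.IsHomogeneous d) (h : Isol F) :
    RegAll fun i => pderiv i F :=
  regAll_of_param _ (fun _ => ⟨d - 1, by omega, hF.pderiv⟩) h

theorem Isol.frob {F : Pol N K} {d : ℕ} (hd : 2 ≤ d) (hF : F.IsHomogeneous d) (h : Isol F) :
    Frob (jac F) := by
  obtain ⟨Δ, h1, h2⟩ := socle_of_param (fun i => pderiv i F)
    (fun _ => ⟨d - 1, by omega, hF.pderiv⟩) h
  exact frob_of_socle _ h Δ h1 h2

/-- A power of each element of the ideal of the variables lies in the Jacobian ideal. -/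
theorem Isol.pow_mem {F : Pol N K} (h : Isol F) {a : Pol N K} (ha : a ∈ mx N K) :
    ∃ r : ℕ, a ^ r ∈ jac F :=
  frob_mx_le_radical _ h ha

end Pool.Agent.Lib.MP_e9c0f3_ag
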