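import Pool.Agent.Lib.MP_e9c0f3_ag.Link2
import Pool.Agent.Lib.MP_e9c0f3_ag.Frob

/-! The stable endomorphism ring of a licci cycle is cyclic. -/

open MvPolynomial Matrix

namespace Pool.Agent.Lib.MP_e9c0f3_ag

section

variable {R : Type} [CommRing R] {ι : Type} [Fintype ι] [DecidableEq ι]

/-- The part of `δ` that raises `par` by one. -/
def up (par : ι → ℕ) (δ : Matrix ι ι R) : Matrix ι ι R :=
  of fun i j => if par i = par j + 1 then δ i j else 0

/-- The consequences of `Resolves` used below. -/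
structure RData (F : R) (I : Ideal R) (par : ι → ℕ) (δ : Matrix ι ι R) (i₀ : ι) : Prop where
  odd : OddM par par δ
  sq : δ * δ = scalar ι F
  zero : ∀ i, par i = 0 ↔ i = i₀
  tri : ∀ i j, par i + 1 < par j → δ i j = 0
  res : Res (low par δ) I (Pi.single i₀ 1) (Pi.single i₀ 1)
  mem : F ∈ I

omit [Fintype ι] [DecidableEq ι] in
theorem cyc_term {par : ι → ℕ} {δ : Matrix ι ι R} (odd : OddM par par δ)
    (tri : ∀ i j, par i + 1 < par j → δ i j = 0) (i k j : ι) :
    δ i k * δ k j = 0 ∨ (par k ≤ par i + 1 ∧ par j ≤ par k + 1 ∧ (par i + par k) % 2 = 1) := by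
  by_cases h1 : δ i k = 0
  · left; rw [h1, zero_mul]
  by_cases h2 : δ k j = 0
  · left; rw [h2, mul_zero]
  right
  refine ⟨?_, ?_, Nat.odd_iff.1 (odd i k h1)⟩
  · by_contra h; exact h1 (tri _ _ (by omega))
  · by_contra h; exact h2 (tri _ _ (by omega))

theorem cyc_low_low {F : R} {par : ι → ℕ} {δ : Matrix ι ι R} (odd : OddM par par δ)
    (tri : ∀ i j, par i + 1 < par j → δ i j = 0) (sq : δ * δ = scalar ι F) :
    low par δ * low par δ = 0 := by
  ext i j
  by_cases hij : par i + 2 = par j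
  · have hne : i ≠ j := by rintro rfl; omega
    have h1 : (δ * δ) i j = 0 := by rw [sq, scalar_apply, diagonal_apply_ne _ hne]
    rw [Matrix.zero_apply, ← h1, mul_apply, mul_apply]
    refine Finset.sum_congr rfl fun k _ => ?_
    simp only [low, of_apply]
    rcases cyc_term odd tri i k j with h | h
    · split_ifs <;> simp [h]
    · rw [if_pos (by omega), if_pos (by omega)]
  · rw [Matrix.zero_apply, mul_apply]
    refine Finset.sum_eq_zero fun k _ => ?_
    simp only [low, of_apply]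
    split_ifs
    · omega
    all_goals simp

omit [DecidableEq ι] in
theorem cyc_vecMul_mem {κ : Type} {I : Ideal R} {w : ι → R} (hw : ∀ i, w i ∈ I)
    (X : Matrix ι κ R) (j : κ) : (w ᵥ* X) j ∈ I :=
  I.sum_mem fun i _ => I.mul_mem_right _ (hw i)

omit [DecidableEq ι] in
theorem cyc_homotopy {I : Ideal R} {d : Matrix ι ι R} {w : ι → R} (hw : w ∈ Zc I d)
    (ρ : Matrix ι ι R) : w ᵥ* (d * ρ + ρ * d) ∈ Bd I d := by
  refine ⟨w ᵥ* ρ, fun j => ?_⟩
  rw [vecMul_add, vecMul_vecMul, add_sub_cancel_right, ← vecMul_vecMul]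
  exact cyc_vecMul_mem hw ρ j

theorem Resolves.rdata {F : R} {I : Ideal R} {par : ι → ℕ} {δ : Matrix ι ι R}
    (h : Resolves par δ I) (odd : OddM par par δ) (sq : δ * δ = scalar ι F) :
    ∃ i₀, RData F I par δ i₀ := by
  obtain ⟨i₀, h0, tri, hI, hex⟩ := h
  have dd := cyc_low_low odd tri sq
  have hp : par i₀ = 0 := (h0 i₀).2 rfl
  have hm : ∀ j, low par δ i₀ j ∈ I := fun j => hI ▸ Ideal.subset_span ⟨j, rfl⟩
  refine ⟨i₀, odd, sq, h0, tri, ⟨dd, fun j => ?_, ?_, ?_, fun v hv hv' => ?_⟩, ?_⟩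
  · simpa using hm j
  · ext i
    simp [low, hp]
  · simp
  · have h1 : v i₀ ∈ Ideal.span (Set.range (low par δ i₀)) := by simpa [hI] using hv'
    obtain ⟨c, hc⟩ := Ideal.mem_span_range_iff_exists_fun.1 h1
    obtain ⟨u, hu⟩ := hex (v - low par δ *ᵥ c)
      (by rw [mulVec_sub, hv, mulVec_mulVec, dd, zero_mulVec, sub_zero])
      (by rw [Pi.sub_apply, ← hc, sub_eq_zero]; simp [mulVec, dotProduct, mul_comm])
    exact ⟨u + c, by rw [mulVec_add, ← hu, sub_add_cancel]⟩
  · have h1 : (δ * δ) i₀ i₀ = F := by rw [sq, scalar_apply, diagonal_apply_eq]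
    rw [← h1, mul_apply]
    refine I.sum_mem fun k _ => ?_
    rcases cyc_term odd tri i₀ k i₀ with h | h
    · rw [h]; exact I.zero_mem
    · refine I.mul_mem_right _ ?_
      have := hm k
      rwa [low, of_apply, if_pos (by omega)] at this

omit [Fintype ι] [DecidableEq ι] in
theorem gr_low (par : ι → ℕ) (δ : Matrix ι ι R) : Gr par (low par δ) := by
  intro i j h
  by_contra h1
  exact h (by rw [low, of_apply, if_neg h1])

variable {F : R} {I : Ideal R} {par : ι → ℕ} {δ : Matrix ι ι R} {i₀ : ι}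

theorem RData.low_up (h : RData F I par δ i₀) :
    low par δ * up par δ + up par δ * low par δ = scalar ι F := by
  ext i j
  rw [Matrix.add_apply, mul_apply, mul_apply, ← Finset.sum_add_distrib]
  by_cases hij : par i = par j
  · rw [← h.sq, mul_apply]
    refine Finset.sum_congr rfl fun k _ => ?_
    simp only [low, up, of_apply]
    rcases cyc_term h.odd h.tri i k j with h1 | h1
    · split_ifs <;> simp [h1]
    · split_ifs <;> first | omega | simp
  · have hne : i ≠ j := by rintro rfl; exact hij rfl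
    rw [scalar_apply, diagonal_apply_ne _ hne]
    refine Finset.sum_eq_zero fun k _ => ?_
    simp only [low, up, of_apply]
    split_ifs <;> first | omega | simp

theorem RData.up_up (h : RData F I par δ i₀) :
    ∃ s : Matrix ι ι R, up par δ * up par δ + (low par δ * s + s * low par δ) = 0 := by
  refine ⟨of fun i j => if par i = par j + 3 then δ i j else 0, ?_⟩
  ext i j
  rw [Matrix.add_apply, Matrix.add_apply, mul_apply, mul_apply, mul_apply, ← Finset.sum_add_distrib,
    ← Finset.sum_add_distrib, Matrix.zero_apply]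
  by_cases hij : par i = par j + 2
  · have hne : i ≠ j := by rintro rfl; omega
    have h0 : (δ * δ) i j = 0 := by rw [h.sq, scalar_apply, diagonal_apply_ne _ hne]
    refine Eq.trans ?_ h0
    rw [mul_apply]
    refine Finset.sum_congr rfl fun k _ => ?_
    simp only [low, up, of_apply]
    rcases cyc_term h.odd h.tri i k j with h1 | h1
    · split_ifs <;> simp [h1]
    · split_ifs <;> first | omega | simp
  · refine Finset.sum_eq_zero fun k _ => ?_
    simp only [low, up, of_apply]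
    split_ifs <;> first | omega | simp

/-- Transfer of the depth and vanishing properties to another resolution. -/
theorem Good.transfer {𝔪 : Ideal R} {g n : ℕ} (h : Good 𝔪 g n I) {d : Matrix ι ι R} {π e : ι → R}
    {hd : ι → ℕ} (hr : Res d I π e) (hg : Gr hd d) (hπ : ∀ i, hd i ≠ 0 → π i = 0) :
    Dp 𝔪 n (Uc I d) ∧ ∀ m, g < m → ∀ w ∈ Zc I d, w ᵥ* pj R hd m ∈ Bd I d := by
  have hf := hg.flag
  obtain ⟨κ, _, _, d', hd', π', e', r, hs, hdp⟩ := h
  obtain ⟨α, hα, hα', hα''⟩ := hr.lift_gr hg hs.gr hs.res.dd hπ hs.supp hs.res.pd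
  obtain ⟨β, hβ, hβ'⟩ := hs.res.lift hf hr.dd hr.pd
  obtain ⟨ρ, hρ⟩ := hr.null hf hr.dd (M := α * β - 1) (w := 0)
    (by rw [Matrix.mul_sub, Matrix.sub_mul, ← Matrix.mul_assoc, hα, Matrix.mul_assoc, hβ,
      Matrix.mul_assoc, Matrix.mul_one, Matrix.one_mul]) (fun j => by
      have e1 : π ᵥ* (α * β - 1) - 0 ᵥ* d = (π ᵥ* α - π') ᵥ* β + (π' ᵥ* β - π) := by
        rw [zero_vecMul, sub_zero, vecMul_sub, vecMul_one, sub_vecMul, vecMul_vecMul]
        abel
      rw [e1]
      exact I.add_mem (cyc_vecMul_mem hα' β j) (hβ' j))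
  have aZ : ∀ w ∈ Zc I d, w ᵥ* α ∈ Zc I d' := fun w hw =>
    vecMul_mem_Zc (Y := α) (fun i j => by rw [hα, sub_self]; exact I.zero_mem) hw
  have aB : ∀ w ∈ Bd I d, w ᵥ* α ∈ Bd I d' := fun w hw =>
    vecMul_mem_Bd (Y := α) (fun i j => by rw [hα, sub_self]; exact I.zero_mem) hw
  have bZ : ∀ w ∈ Zc I d', w ᵥ* β ∈ Zc I d := fun w hw =>
    vecMul_mem_Zc (Y := β) (fun i j => by rw [hβ, sub_self]; exact I.zero_mem) hw
  have bB : ∀ w ∈ Bd I d', w ᵥ* β ∈ Bd I d := fun w hw =>
    vecMul_mem_Bd (Y := β) (fun i j => by rw [hβ, sub_self]; exact I.zero_mem) hw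
  have key : ∀ w ∈ Zc I d, (w ᵥ* α) ᵥ* β - w ∈ Bd I d := fun w hw => by
    have := cyc_homotopy hw ρ
    rwa [← hρ, vecMul_sub, vecMul_one, ← vecMul_vecMul] at this
  refine ⟨Dp.retract (Uc.map I α aZ aB) (Uc.map I β bZ bB) (fun x => ?_) hdp,
    fun m hm w hw => ?_⟩
  · obtain ⟨w, rfl⟩ := Submodule.Quotient.mk_surjective _ x
    rw [Uc.map_mk, Uc.map_mk, Submodule.Quotient.eq]
    exact key w w.2
  · have hZ : w ᵥ* pj R hd m ∈ Zc I d :=
      vecMul_mem_Zc (Y := pj R hd (m + 1)) (fun i j => by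
        rw [hg.pj_mul, sub_self]; exact I.zero_mem) hw
    have h0 : pj R hd m * α = α * pj R hd' m := by
      ext i j
      rw [pj, pj, diagonal_mul, mul_diagonal]
      by_cases h1 : α i j = 0
      · rw [h1, mul_zero, zero_mul]
      · rw [hα'' i j h1, mul_comm]
    have h1 : (w ᵥ* pj R hd m) ᵥ* α ∈ Bd I d' := by
      rw [vecMul_vecMul, h0]
      by_cases h2 : m = g + 1
      · refine ⟨w ᵥ* (α * (pj R hd' (g + 1) * r)), fun j => ?_⟩
        rw [vecMul_vecMul, Matrix.mul_assoc, hs.top, h2, sub_self]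
        exact I.zero_mem
      · rw [link_pj_zero fun i => by have := hs.le i; omega, Matrix.mul_zero, vecMul_zero]
        exact Submodule.zero_mem _
    have h2 := (Bd I d).sub_mem (bB _ h1) (key _ hZ)
    rwa [sub_sub_cancel] at h2

/-- Exactness of the contraction with `F` in positive degrees. -/
def RowEx (I : Ideal R) (par : ι → ℕ) (δ : Matrix ι ι R) : Prop :=
  ∀ n, ∀ w ∈ Zc I (low par δ), (∀ i, par i ≠ n + 1 → w i = 0) →
    w ᵥ* up par δ ∈ Bd I (low par δ) →
      ∃ w' ∈ Zc I (low par δ), (∀ i, par i ≠ n + 2 → w' i = 0) ∧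
        w - w' ᵥ* up par δ ∈ Bd I (low par δ)

end

end Pool.Agent.Lib.MP_e9c0f3_ag
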