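import Pool.Agent.Lib.MP_e9c0f3_ag.Cyc

/-! Cyclicity of the stable endomorphism ring. -/

open MvPolynomial Matrix

namespace Pool.Agent.Lib.MP_e9c0f3_ag

section

variable {R : Type} [CommRing R] {ι : Type} [Fintype ι] [DecidableEq ι]
  {F : R} {I : Ideal R} {par : ι → ℕ} {δ : Matrix ι ι R} {i₀ : ι}

theorem RData.cyc2_deg (h : RData F I par δ i₀) {i j : ι} (hz : δ i j ≠ 0) :
    par j ≤ par i + 1 ∧ (par i + par j) % 2 = 1 :=
  ⟨not_lt.1 fun e => hz (h.tri i j e), Nat.odd_iff.1 (h.odd i j hz)⟩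

theorem RData.cyc2_low_mem (h : RData F I par δ i₀) (j : ι) : low par δ i₀ j ∈ I := by
  simpa using h.res.pd j

theorem RData.cyc2_mem (h : RData F I par δ i₀) (j : ι) : δ i₀ j ∈ I := by
  by_cases hz : δ i₀ j = 0
  · rw [hz]; exact I.zero_mem
  have h1 := h.cyc2_deg hz
  have h2 := (h.zero i₀).2 rfl
  have h3 := h.cyc2_low_mem j
  rwa [low, of_apply, if_pos (by omega)] at h3

theorem RData.cyc2_comm (h : RData F I par δ i₀) (ρ : Matrix ι ι R) :
    δ * (δ * ρ + ρ * δ) = (δ * ρ + ρ * δ) * δ := by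
  rw [mul_add, add_mul, ← mul_assoc, mul_assoc ρ, h.sq, mul_assoc, add_comm,
    (scalar_commute F (fun _ => Commute.all _ _) ρ).eq]

omit [DecidableEq ι] in
theorem cyc2_vecMul {w : ι → R} (hw : ∀ i, w i ∈ I) (M : Matrix ι ι R) (j : ι) :
    (w ᵥ* M) j ∈ I :=
  I.sum_mem fun i _ => I.mul_mem_right _ (hw i)

theorem RData.cyc2_step (h : RData F I par δ i₀) (hex : RowEx I par δ) {w : ι → R}
    (hw : w ∈ Zc I δ) {n : ℕ} (hn : ∀ i, n + 2 ≤ par i → w i ∈ I) :
    ∃ v : ι → R, ∀ j, n + 1 ≤ par j → (w - v ᵥ* δ) j ∈ I := by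
  have h1 : (fun i => if par i = n + 1 then w i else 0) ∈ Zc I (low par δ) := by
    intro j
    by_cases hj : par j = n + 2
    · refine (Submodule.sub_mem_iff_right I (hw j)).1 ?_
      simp only [vecMul, dotProduct, ← Finset.sum_sub_distrib, low, of_apply]
      refine I.sum_mem fun i _ => ?_
      by_cases hz : δ i j = 0
      · simp [hz]
      have := h.cyc2_deg hz
      by_cases hi : par i = n + 1
      · rw [if_pos hi, if_pos (by omega), sub_self]
        exact I.zero_mem
      · rw [if_neg hi, zero_mul, sub_zero]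
        exact I.mul_mem_right _ (hn i (by omega))
    · simp only [vecMul, dotProduct, low, of_apply]
      refine I.sum_mem fun i _ => ?_
      by_cases hi : par i = n + 1
      · rw [if_neg (show ¬par i + 1 = par j by omega), mul_zero]
        exact I.zero_mem
      · rw [if_neg hi, zero_mul]
        exact I.zero_mem
  have h2 : (fun i => if par i = n + 1 then w i else 0) ᵥ* up par δ ∈ Bd I (low par δ) := by
    refine ⟨fun i => if par i + 1 = n then -w i else 0, fun j => ?_⟩
    by_cases hj : par j = n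
    · refine (Submodule.sub_mem_iff_right I (hw j)).1 ?_
      simp only [Pi.sub_apply, vecMul, dotProduct, ← Finset.sum_sub_distrib, low, up, of_apply]
      refine I.sum_mem fun i _ => ?_
      by_cases hz : δ i j = 0
      · simp [hz]
      have := h.cyc2_deg hz
      by_cases hi : par i = n + 1
      · rw [if_pos hi, if_pos (by omega), if_neg (by omega), zero_mul, sub_zero, sub_self]
        exact I.zero_mem
      · rw [if_neg hi, zero_mul]
        by_cases hi' : par i + 1 = n
        · rw [if_pos hi', if_pos (by omega), neg_mul, sub_neg_eq_add, zero_add, sub_self]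
          exact I.zero_mem
        · rw [if_neg hi', zero_mul, sub_zero, sub_zero]
          exact I.mul_mem_right _ (hn i (by omega))
    · simp only [Pi.sub_apply, vecMul, dotProduct, ← Finset.sum_sub_distrib, low, up, of_apply]
      refine I.sum_mem fun i _ => ?_
      have e1 : (if par i = n + 1 then w i else 0) * (if par i = par j + 1 then δ i j else 0)
          = 0 := by
        by_cases hi : par i = n + 1
        · rw [if_neg (show ¬par i = par j + 1 by omega), mul_zero]
        · rw [if_neg hi, zero_mul]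
      have e2 : (if par i + 1 = n then -w i else 0) * (if par i + 1 = par j then δ i j else 0)
          = 0 := by
        by_cases hi : par i + 1 = n
        · rw [if_neg (show ¬par i + 1 = par j by omega), mul_zero]
        · rw [if_neg hi, zero_mul]
      rw [e1, e2, sub_zero]
      exact I.zero_mem
  obtain ⟨w', hw', hs, u, hu⟩ := hex n _ h1 (fun i hi => if_neg hi) h2
  refine ⟨w' + fun i => if par i = n then u i else 0, fun j hj => ?_⟩
  rcases hj.eq_or_lt with hj | hj
  · have h3 := hu j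
    have e : (w - (w' + fun i => if par i = n then u i else 0) ᵥ* δ) j =
        ((fun i => if par i = n + 1 then w i else 0) - w' ᵥ* up par δ - u ᵥ* low par δ) j := by
      simp only [Pi.sub_apply, Pi.add_apply, vecMul, dotProduct, low, up, of_apply]
      rw [if_pos hj.symm, sub_sub, ← Finset.sum_add_distrib]
      refine congrArg _ (Finset.sum_congr rfl fun i _ => ?_)
      by_cases hi : par i = n + 2
      · rw [if_neg (by omega), if_pos (by omega), if_neg (by omega), add_zero, mul_zero, add_zero]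
      · rw [hs i hi, zero_add, zero_mul, zero_add]
        by_cases hi' : par i = n
        · rw [if_pos hi', if_pos (by omega)]
        · rw [if_neg hi', if_neg (by omega), zero_mul, mul_zero]
    rwa [e]
  · have e : ((w' + fun i => if par i = n then u i else 0) ᵥ* δ) j = (w' ᵥ* low par δ) j := by
      simp only [Pi.add_apply, vecMul, dotProduct, low, of_apply]
      refine Finset.sum_congr rfl fun i _ => ?_
      by_cases hz : δ i j = 0
      · simp [hz]
      have := h.cyc2_deg hz
      rw [if_neg (show ¬par i = n by omega), add_zero]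
      by_cases hi : par i = n + 2
      · rw [if_pos (by omega)]
      · rw [hs i hi, zero_mul, zero_mul]
    rw [Pi.sub_apply, e]
    exact I.sub_mem (hn j (by omega)) (hw' j)

theorem RData.row (h : RData F I par δ i₀) (hex : RowEx I par δ) {w : ι → R} (hw : w ∈ Zc I δ) :
    ∃ (Q : R) (u : ι → R), ∀ j, (w - (Pi.single i₀ Q : ι → R) - u ᵥ* δ) j ∈ I := by
  have key : ∀ n, ∀ w ∈ Zc I δ, (∀ i, n + 1 ≤ par i → w i ∈ I) →
      ∃ (Q : R) (u : ι → R), ∀ j, (w - (Pi.single i₀ Q : ι → R) - u ᵥ* δ) j ∈ I := by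
    intro n
    induction n with
    | zero =>
      intro w _ hn
      refine ⟨w i₀, 0, fun j => ?_⟩
      rw [zero_vecMul, sub_zero, Pi.sub_apply]
      by_cases hj : j = i₀
      · rw [hj, Pi.single_eq_same, sub_self]
        exact I.zero_mem
      · rw [Pi.single_eq_of_ne hj, sub_zero]
        exact hn j (Nat.pos_of_ne_zero fun e => hj ((h.zero j).1 e))
    | succ n ih =>
      intro w hw hn
      obtain ⟨v, hv⟩ := h.cyc2_step hex hw hn
      have hz : v ᵥ* δ ∈ Zc I δ := fun j => by
        rw [vecMul_vecMul, h.sq, scalar_apply, vecMul_diagonal]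
        exact I.mul_mem_left _ h.mem
      obtain ⟨Q, u, hu⟩ := ih _ (Submodule.sub_mem _ hw hz) hv
      refine ⟨Q, u + v, fun j => ?_⟩
      have e : w - (Pi.single i₀ Q : ι → R) - (u + v) ᵥ* δ =
          w - v ᵥ* δ - (Pi.single i₀ Q : ι → R) - u ᵥ* δ := by
        rw [add_vecMul]
        abel
      rw [e]
      exact hu j
  exact key (Finset.univ.sup par) w hw fun i hi =>
    absurd (Finset.le_sup (f := par) (Finset.mem_univ i)) (by omega)

theorem RData.cyc2_null_step (h : RData F I par δ i₀) {Θ : Matrix ι ι R} (hΘ : δ * Θ = Θ * δ)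
    (h0 : ∀ j, Θ i₀ j ∈ I) {n B : ℕ} (hn : ∀ i j, par i + n < par j + B → Θ i j = 0) :
    ∃ ρ : Matrix ι ι R, (∀ j, ρ i₀ j ∈ I) ∧
      ∀ i j, par i + n ≤ par j + B → Θ i j = (δ * ρ + ρ * δ) i j := by
  obtain ⟨T, hT⟩ : ∃ T : Matrix ι ι R,
      T = of fun i j => if par i + n = par j + B then Θ i j else 0 := ⟨_, rfl⟩
  have hc : low par δ * T = T * low par δ := by
    ext i j
    by_cases hij : par i + n + 1 = par j + B
    · have e1 : (low par δ * T) i j = (δ * Θ) i j := by
        simp only [mul_apply, hT, low, of_apply]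
        refine Finset.sum_congr rfl fun k _ => ?_
        by_cases hz : δ i k = 0
        · simp [hz]
        have := h.cyc2_deg hz
        by_cases hk : par i + 1 = par k
        · rw [if_pos hk, if_pos (by omega)]
        · rw [if_neg hk, hn k j (by omega), zero_mul, mul_zero]
      have e2 : (T * low par δ) i j = (Θ * δ) i j := by
        simp only [mul_apply, hT, low, of_apply]
        refine Finset.sum_congr rfl fun k _ => ?_
        by_cases hz : δ k j = 0
        · simp [hz]
        have := h.cyc2_deg hz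
        by_cases hk : par k + 1 = par j
        · rw [if_pos hk, if_pos (by omega)]
        · rw [if_neg hk, hn i k (by omega), ite_self, mul_zero, zero_mul]
      rw [e1, e2, hΘ]
    · simp only [mul_apply, hT, low, of_apply]
      refine (Finset.sum_eq_zero fun k _ => ?_).trans (Finset.sum_eq_zero fun k _ => ?_).symm
      · by_cases hk : par i + 1 = par k
        · rw [if_neg (show ¬par k + n = par j + B by omega), mul_zero]
        · rw [if_neg hk, zero_mul]
      · by_cases hk : par k + 1 = par j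
        · rw [if_neg (show ¬par i + n = par k + B by omega), zero_mul]
        · rw [if_neg hk, mul_zero]
  obtain ⟨ρ, hρ, e⟩ := (gr_low par δ).flag.nullhomotopic h.res.dd (low par δ)
    (Submodule.comap (LinearMap.proj i₀) I)
    (fun v hv hv0 => by
      obtain ⟨u, hu, e⟩ := h.res.ex' hv0 (by simpa using hv)
      exact ⟨u, by simpa using hu, e⟩)
    (fun v _ => I.sum_mem fun k _ => I.mul_mem_right _ (h.cyc2_low_mem k)) (χ := T)
    (fun j => by
      show T i₀ j ∈ I
      rw [hT, of_apply]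
      split_ifs
      · exact h0 j
      · exact I.zero_mem) hc
  refine ⟨of fun i j => if par i + n = par j + B + 1 then ρ i j else 0, fun j => ?_,
    fun i j hij => ?_⟩
  · rw [of_apply]
    split_ifs
    · exact hρ j
    · exact I.zero_mem
  rcases hij.eq_or_lt with hij | hij
  · have e1 : Θ i j = T i j := by rw [hT, of_apply, if_pos hij]
    rw [e1, e]
    simp only [Matrix.add_apply, mul_apply, low, of_apply]
    congr 1
    · refine Finset.sum_congr rfl fun k _ => ?_
      by_cases hz : δ i k = 0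
      · simp [hz]
      have := h.cyc2_deg hz
      by_cases hk : par i + 1 = par k
      · rw [if_pos hk, if_pos (by omega)]
      · rw [if_neg hk, if_neg (by omega), zero_mul, mul_zero]
    · refine Finset.sum_congr rfl fun k _ => ?_
      by_cases hz : δ k j = 0
      · simp [hz]
      have := h.cyc2_deg hz
      by_cases hk : par k + 1 = par j
      · rw [if_pos hk, if_pos (by omega)]
      · rw [if_neg hk, if_neg (by omega), zero_mul, mul_zero]
  · rw [hn i j hij]
    simp only [Matrix.add_apply, mul_apply, of_apply]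
    rw [Finset.sum_eq_zero, Finset.sum_eq_zero, add_zero]
    · intro k _
      by_cases hz : δ k j = 0
      · rw [hz, mul_zero]
      have := h.cyc2_deg hz
      rw [if_neg (by omega), zero_mul]
    · intro k _
      by_cases hz : δ i k = 0
      · rw [hz, zero_mul]
      have := h.cyc2_deg hz
      rw [if_neg (by omega), mul_zero]

theorem RData.null (h : RData F I par δ i₀) {Θ : Matrix ι ι R} (hΘ : δ * Θ = Θ * δ)
    (h0 : ∀ j, Θ i₀ j ∈ I) : ∃ η, Θ = δ * η + η * δ := by
  have hB : ∀ i, par i ≤ Finset.univ.sup par := fun i =>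
    Finset.le_sup (f := par) (Finset.mem_univ i)
  have key : ∀ n, ∀ Θ : Matrix ι ι R, δ * Θ = Θ * δ → (∀ j, Θ i₀ j ∈ I) →
      (∀ i j, par i + n ≤ par j + Finset.univ.sup par → Θ i j = 0) →
      ∃ η, Θ = δ * η + η * δ := by
    intro n
    induction n with
    | zero =>
      intro Θ _ _ hn
      refine ⟨0, ?_⟩
      ext i j
      rw [hn i j (by have := hB i; omega)]
      simp
    | succ n ih =>
      intro Θ hΘ h0 hn
      obtain ⟨ρ, hρ, e⟩ := h.cyc2_null_step hΘ h0 (n := n) (B := Finset.univ.sup par)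
        fun i j hij => hn i j hij
      obtain ⟨η, hη⟩ := ih (Θ - (δ * ρ + ρ * δ)) (by rw [mul_sub, sub_mul, hΘ, h.cyc2_comm])
        (fun j => I.sub_mem (h0 j) (I.add_mem
          (I.sum_mem fun k _ => I.mul_mem_right _ (h.cyc2_mem k))
          (I.sum_mem fun k _ => I.mul_mem_right _ (hρ k))))
        fun i j hij => by rw [Matrix.sub_apply, e i j hij, sub_self]
      refine ⟨η + ρ, ?_⟩
      rw [sub_eq_iff_eq_add.1 hη, mul_add, add_mul]
      abel
  exact key (2 * Finset.univ.sup par + 1) Θ hΘ h0 fun i j hij => by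
    have := hB j
    omega

theorem RData.cyc (h : RData F I par δ i₀) (hex : RowEx I par δ) : Cyc δ := by
  intro Θ hΘ
  have hw : Θ i₀ ∈ Zc I δ := fun j => by
    have e : (Θ i₀ ᵥ* δ) j = (δ * Θ) i₀ j := by rw [hΘ]; rfl
    rw [e]
    exact I.sum_mem fun k _ => I.mul_mem_right _ (h.cyc2_mem k)
  obtain ⟨Q, u, hu⟩ := h.row hex hw
  obtain ⟨ρ, hρ⟩ : ∃ ρ : Matrix ι ι R, ρ = vecMulVec (Pi.single i₀ 1) u := ⟨_, rfl⟩
  obtain ⟨η, hη⟩ := h.null (Θ := Θ - scalar ι Q - (δ * ρ + ρ * δ))
    (by rw [mul_sub, sub_mul, mul_sub, sub_mul, hΘ, h.cyc2_comm,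
      (scalar_commute Q (fun _ => Commute.all _ _) δ).eq])
    (fun j => by
      have e1 : (ρ * δ) i₀ j = (u ᵥ* δ) j := by
        simp [hρ, mul_apply, vecMulVec_apply, vecMul, dotProduct]
      have e2 : scalar ι Q i₀ j = (Pi.single i₀ Q : ι → R) j := by
        rw [scalar_apply, diagonal_apply, Pi.single_apply]
        exact if_congr eq_comm rfl rfl
      have e : (Θ - scalar ι Q - (δ * ρ + ρ * δ)) i₀ j =
          (Θ i₀ - (Pi.single i₀ Q : ι → R) - u ᵥ* δ) j - (δ * ρ) i₀ j := by
        simp only [Matrix.sub_apply, Matrix.add_apply, Pi.sub_apply, e1, e2]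
        ring
      rw [e]
      exact I.sub_mem (hu j) (I.sum_mem fun k _ => I.mul_mem_right _ (h.cyc2_mem k)))
  refine ⟨Q, η + ρ, ?_⟩
  rw [sub_sub, sub_eq_iff_eq_add] at hη
  rw [hη, mul_add, add_mul]
  abel

theorem cyc2_pjZ {d : Matrix ι ι R} (hd : Gr par d) (n : ℕ) :
    ∀ w ∈ Zc I d, w ᵥ* pj R par n ∈ Zc I d := fun _ hw =>
  vecMul_mem_Zc (Y := pj R par (n + 1))
    (fun i j => by rw [hd.pj_mul, sub_self]; exact I.zero_mem) hw

theorem cyc2_pjB {d : Matrix ι ι R} (hd : Gr par d) (n : ℕ) :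
    ∀ w ∈ Bd I d, w ᵥ* pj R par n ∈ Bd I d := fun _ hw => by
  cases n with
  | zero =>
    exact vecMul_mem_Bd (Y := 0)
      (fun i j => by rw [hd.mul_pj_zero, zero_mul, sub_self]; exact I.zero_mem) hw
  | succ n =>
    exact vecMul_mem_Bd (Y := pj R par n)
      (fun i j => by rw [hd.pj_mul, sub_self]; exact I.zero_mem) hw

theorem cyc2_scalar_mem (hF : F ∈ I) (i j : ι) : scalar ι F i j ∈ I := by
  rw [scalar_apply, diagonal_apply]
  split_ifs
  · exact hF
  · exact I.zero_mem

theorem RData.cyc2_upZ (h : RData F I par δ i₀) :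
    ∀ w ∈ Zc I (low par δ), w ᵥ* up par δ ∈ Zc I (low par δ) := fun _ hw =>
  vecMul_mem_Zc (Y := -up par δ) (fun i j => by
    rw [mul_neg, sub_neg_eq_add, add_comm, h.low_up]
    exact cyc2_scalar_mem h.mem i j) hw

theorem RData.cyc2_upB (h : RData F I par δ i₀) :
    ∀ w ∈ Bd I (low par δ), w ᵥ* up par δ ∈ Bd I (low par δ) := fun _ hw =>
  vecMul_mem_Bd (Y := -up par δ) (fun i j => by
    rw [neg_mul, sub_neg_eq_add, h.low_up]
    exact cyc2_scalar_mem h.mem i j) hw

theorem cyc2_pj_up (par : ι → ℕ) (δ : Matrix ι ι R) (n : ℕ) :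
    pj R par (n + 1) * up par δ = up par δ * pj R par n := by
  ext i j
  simp only [pj, up, diagonal_mul, mul_diagonal, of_apply]
  by_cases h1 : par i = par j + 1
  · by_cases h2 : par j = n
    · rw [if_pos h2, if_pos (by omega), one_mul, mul_one]
    · rw [if_neg h2, if_neg (by omega), zero_mul, mul_zero]
  · rw [if_neg h1, zero_mul, mul_zero]

theorem cyc2_pj_apply (w : ι → R) (n : ℕ) (i : ι) :
    (w ᵥ* pj R par n) i = if par i = n then w i else 0 := by
  rw [pj, vecMul_diagonal, mul_ite, mul_one, mul_zero]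

omit [DecidableEq ι] in
theorem cyc2_mk_eq {d : Matrix ι ι R} {x y : Zc I d} :
    (Submodule.Quotient.mk x : Uc I d) = Submodule.Quotient.mk y ↔
      (x : ι → R) - y ∈ Bd I d :=
  Submodule.Quotient.eq _

omit [DecidableEq ι] in
theorem cyc2_mk_zero {d : Matrix ι ι R} {x : Zc I d} :
    (Submodule.Quotient.mk x : Uc I d) = 0 ↔ (x : ι → R) ∈ Bd I d :=
  Submodule.Quotient.mk_eq_zero _

omit [DecidableEq ι] in
/-- The computation behind the torsion property. -/
theorem cyc2_tor {L U lam mu T : Matrix ι ι R} (h1 : lam * L + L * lam = 0)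
    (h2 : lam * U + L * mu + (mu * L + U * lam) = T) {w : ι → R} (hw : w ∈ Zc I L)
    (hU : w ᵥ* U ∈ Bd I L) : w ᵥ* T - (w ᵥ* lam) ᵥ* U ∈ Bd I L := by
  obtain ⟨u, hu⟩ := hU
  refine ⟨w ᵥ* mu - u ᵥ* lam, fun j => ?_⟩
  have e1 : (u ᵥ* lam) ᵥ* L = -((u ᵥ* L) ᵥ* lam) := by
    rw [vecMul_vecMul, vecMul_vecMul, eq_neg_of_add_eq_zero_left h1, vecMul_neg]
  have e : w ᵥ* T - (w ᵥ* lam) ᵥ* U - (w ᵥ* mu - u ᵥ* lam) ᵥ* L =
      (w ᵥ* L) ᵥ* mu + (w ᵥ* U - u ᵥ* L) ᵥ* lam := by
    rw [← h2, sub_vecMul, sub_vecMul, e1]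
    simp only [vecMul_add, vecMul_vecMul]
    abel
  rw [e]
  exact I.add_mem (cyc2_vecMul hw _ j) (cyc2_vecMul hu _ j)

end

variable {K : Type} [Field K] {N : ℕ} {ι : Type} [Fintype ι] [DecidableEq ι]

omit [DecidableEq ι] in
theorem cyc2_leibniz (a : Fin N) (A B : Matrix ι ι (Pol N K)) :
    (A * B).map (pderiv a) = A.map (pderiv a) * B + A * B.map (pderiv a) := by
  refine Matrix.ext fun i j => ?_
  simp only [Matrix.map_apply, Matrix.add_apply, Matrix.mul_apply, map_sum, Derivation.leibniz, smul_eq_mul,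
    ← Finset.sum_add_distrib]
  exact Finset.sum_congr rfl fun k _ => by ring

theorem RData.rowEx {F : Pol N K} {I : Ideal (Pol N K)} {par : ι → ℕ} {δ : Matrix ι ι (Pol N K)}
    {i₀ : ι} (h : RData F I par δ i₀) (hF : Isol F) {g : ℕ}
    (hdp : Dp (mx N K) g (Uc I (low par δ)))
    (hv : ∀ n, g < n → ∀ w ∈ Zc I (low par δ), w ᵥ* pj (Pol N K) par n ∈ Bd I (low par δ)) :
    RowEx I par δ := by
  have hg := gr_low par δ
  obtain ⟨P, hP⟩ : ∃ P : ℕ → Uc I (low par δ) →ₗ[Pol N K] Uc I (low par δ),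
      ∀ n (w : Zc I (low par δ)), P n (Submodule.Quotient.mk w) =
        Submodule.Quotient.mk ⟨w.1 ᵥ* pj (Pol N K) par n, cyc2_pjZ hg n _ w.2⟩ :=
    ⟨fun n => Uc.map I _ (cyc2_pjZ hg n) (cyc2_pjB hg n), fun _ _ => rfl⟩
  obtain ⟨D, hD⟩ : ∃ D : Uc I (low par δ) →ₗ[Pol N K] Uc I (low par δ),
      ∀ w : Zc I (low par δ), D (Submodule.Quotient.mk w) =
        Submodule.Quotient.mk ⟨w.1 ᵥ* up par δ, h.cyc2_upZ _ w.2⟩ :=
    ⟨Uc.map I _ h.cyc2_upZ h.cyc2_upB, fun _ => rfl⟩
  have hmem : ∀ n x, x ∈ LinearMap.range (P n) ↔ ∃ w : Zc I (low par δ),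
      (∀ i, par i ≠ n → w.1 i = 0) ∧ Submodule.Quotient.mk w = x := by
    intro n x
    constructor
    · rintro ⟨y, rfl⟩
      obtain ⟨w, rfl⟩ := Submodule.Quotient.mk_surjective _ y
      exact ⟨_, fun i hi => (cyc2_pj_apply _ _ _).trans (if_neg hi), (hP n w).symm⟩
    · rintro ⟨w, hw, rfl⟩
      refine ⟨Submodule.Quotient.mk w, (hP n w).trans (congrArg _ (Subtype.ext ?_))⟩
      funext i
      show (w.1 ᵥ* pj (Pol N K) par n) i = w.1 i
      rw [cyc2_pj_apply]
      split_ifs with hi
      · rfl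
      · exact (hw i hi).symm
  have hPP : ∀ n, ∀ x ∈ LinearMap.range (P n), P n x = x := by
    intro n x hx
    obtain ⟨w, hw, rfl⟩ := (hmem n x).1 hx
    refine (hP n w).trans (congrArg _ (Subtype.ext ?_))
    funext i
    show (w.1 ᵥ* pj (Pol N K) par n) i = w.1 i
    rw [cyc2_pj_apply]
    split_ifs with hi
    · rfl
    · exact (hw i hi).symm
  have key := Dp.acyclic (𝔪 := mx N K) (g := g) (fun n => LinearMap.range (P n)) D
    (fun x => by
      obtain ⟨w, rfl⟩ := Submodule.Quotient.mk_surjective _ x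
      obtain ⟨s, hs⟩ := h.up_up
      rw [hD, hD, cyc2_mk_zero]
      refine ⟨-(w.1 ᵥ* s), fun j => ?_⟩
      have e : (w.1 ᵥ* up par δ) ᵥ* up par δ - (-(w.1 ᵥ* s)) ᵥ* low par δ =
          -((w.1 ᵥ* low par δ) ᵥ* s) := by
        rw [vecMul_vecMul, eq_neg_of_add_eq_zero_left hs, neg_vecMul]
        simp only [vecMul_neg, vecMul_add, vecMul_vecMul]
        abel
      show ((w.1 ᵥ* up par δ) ᵥ* up par δ - (-(w.1 ᵥ* s)) ᵥ* low par δ) j ∈ I
      rw [e]
      exact I.neg_mem (cyc2_vecMul w.2 _ j))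
    (fun n x hx => by
      obtain ⟨y, rfl⟩ := hx
      obtain ⟨w, rfl⟩ := Submodule.Quotient.mk_surjective _ y
      refine ⟨D (Submodule.Quotient.mk w), ?_⟩
      rw [hD, hP, hP, hD]
      refine congrArg _ (Subtype.ext ?_)
      show (w.1 ᵥ* up par δ) ᵥ* pj (Pol N K) par n = (w.1 ᵥ* pj (Pol N K) par (n + 1)) ᵥ* up par δ
      rw [vecMul_vecMul, vecMul_vecMul, cyc2_pj_up])
    (fun n hn => by
      rw [LinearMap.range_eq_bot]
      ext x
      rw [LinearMap.comp_apply, Submodule.mkQ_apply, hP, LinearMap.comp_apply,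
        LinearMap.zero_apply, cyc2_mk_zero]
      exact hv n hn _ x.2)
    (fun n => hdp.retract (LinearMap.range (P n)).subtype (P n).rangeRestrict
      fun x => Subtype.ext (hPP n x.1 x.2))
    (fun n x hx hDx a ha => by
      obtain ⟨w, hw, rfl⟩ := (hmem _ x).1 hx
      rw [hD, cyc2_mk_zero] at hDx
      obtain ⟨r, hr⟩ := hF.pow_mem ha
      refine ⟨r, ?_⟩
      generalize a ^ r = c at hr
      induction hr using Submodule.span_induction with
      | mem c hc =>
        obtain ⟨b, rfl⟩ := hc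
        have h1 : (low par δ).map (pderiv b) * low par δ +
            low par δ * (low par δ).map (pderiv b) = 0 := by
          rw [← cyc2_leibniz, h.res.dd, Matrix.map_zero _ (map_zero _)]
        have h2 : (low par δ).map (pderiv b) * up par δ + low par δ * (up par δ).map (pderiv b) +
            ((up par δ).map (pderiv b) * low par δ + up par δ * (low par δ).map (pderiv b)) =
            scalar ι (pderiv b F) := by
          rw [← cyc2_leibniz, ← cyc2_leibniz, ← Matrix.map_add _ (map_add _), h.low_up,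
            scalar_apply, scalar_apply, diagonal_map (map_zero _)]
        have h3 : w.1 ᵥ* (low par δ).map (pderiv b) ∈ Zc I (low par δ) :=
          vecMul_mem_Zc (Y := -(low par δ).map (pderiv b))
            (fun i j => by rw [mul_neg, sub_neg_eq_add, h1]; exact I.zero_mem) w.2
        refine ⟨Submodule.Quotient.mk ⟨_, h3⟩, (hmem _ _).2 ⟨_, fun j hj => ?_, rfl⟩, ?_⟩
        · refine Finset.sum_eq_zero fun i _ => ?_
          show w.1 i * pderiv b (low par δ i j) = 0
          by_cases hi : par i = n + 1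
          · have hz : low par δ i j = 0 := if_neg (by omega)
            rw [hz, map_zero, mul_zero]
          · rw [hw i hi, zero_mul]
        · rw [hD, ← Submodule.Quotient.mk_smul, cyc2_mk_eq]
          have h4 := cyc2_tor h1 h2 w.2 hDx
          have e : w.1 ᵥ* scalar ι (pderiv b F) = pderiv b F • w.1 := by
            funext j
            rw [scalar_apply, vecMul_diagonal, mul_comm]
            rfl
          rw [e] at h4
          exact h4
      | zero => exact ⟨0, Submodule.zero_mem _, by rw [zero_smul, map_zero]⟩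
      | add c c' _ _ h1 h2 =>
        obtain ⟨y, hy, e⟩ := h1
        obtain ⟨y', hy', e'⟩ := h2
        exact ⟨y + y', Submodule.add_mem _ hy hy', by rw [add_smul, map_add, e, e']⟩
      | smul c c' _ h1 =>
        obtain ⟨y, hy, e⟩ := h1
        exact ⟨c • y, Submodule.smul_mem _ _ hy, by rw [smul_eq_mul, mul_smul, map_smul, e]⟩)
  intro n w hw hs hU
  obtain ⟨y, hy, e⟩ := key n (Submodule.Quotient.mk ⟨w, hw⟩) ((hmem _ _).2 ⟨_, hs, rfl⟩)
    (by rw [hD, cyc2_mk_zero]; exact hU)
  obtain ⟨w', hw', rfl⟩ := (hmem _ y).1 hy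
  rw [hD, cyc2_mk_eq] at e
  exact ⟨w'.1, w'.2, hw', e⟩

theorem Licci.cyc {g : ℕ} (hN : N = 2 * g) {F : Pol N K} (hF : Isol F) {I : Ideal (Pol N K)}
    (hI : Licci g I) {par : ι → ℕ} {δ : Matrix ι ι (Pol N K)} (odd : OddM par par δ)
    (sq : δ * δ = scalar ι F) (h : Resolves par δ I) : Cyc δ := by
  obtain ⟨i₀, hd⟩ := h.rdata odd sq
  obtain ⟨h1, h2⟩ := (hI.good (dp_pol (K := K) (N := N))).transfer hd.res (gr_low par δ)
    fun i hi => Pi.single_eq_of_ne (fun e => hi ((hd.zero i).2 e)) _
  exact hd.cyc (hd.rowEx hF (g := g) (h1.mono (by omega)) h2)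

end Pool.Agent.Lib.MP_e9c0f3_ag
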