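import Pool.Agent.Lib.MP_e9c0f3_ag.Tw

/-! Strictness of the pole order filtration. -/

open MvPolynomial

namespace Pool.Agent.Lib.MP_e9c0f3_ag

variable {R : Type} [CommRing R] {N : ℕ}

theorem tw2_koszul {S : Type} [CommRing S] {u : Fin N → S} (hu : RegAll u) (T : Finset (Fin N)) :
    ∀ h : Fin N → S, (∀ i, i ∉ T → h i = 0) → ∑ i, u i * h i = 0 →
      ∃ a : Fin N → Fin N → S, (∀ i j, a j i = -a i j) ∧ (∀ i, a i i = 0) ∧
        ∀ i, h i = ∑ j, u j * a i j := by
  induction T using Finset.induction_on with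
  | empty =>
    intro h h0 _
    exact ⟨0, fun i j => by simp, fun i => rfl, fun i => by simp [h0 i (by simp)]⟩
  | insert k T hk ih =>
    intro h h0 hh
    have hsplit : ∀ g : Fin N → S, ∑ i, g i = g k + ∑ i ∈ Finset.univ.erase k, g i :=
      fun g => (Finset.add_sum_erase _ g (Finset.mem_univ k)).symm
    have hmem : u k * h k ∈ Ideal.span (u '' T) := by
      rw [hsplit] at hh
      rw [eq_neg_of_add_eq_zero_left hh]
      refine neg_mem (Ideal.sum_mem _ fun i hi => ?_)
      by_cases hiT : i ∈ T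
      · exact Ideal.mul_mem_right _ _ (Ideal.subset_span ⟨i, hiT, rfl⟩)
      · rw [h0 i (by simp [hiT, Finset.ne_of_mem_erase hi]), mul_zero]
        exact zero_mem _
    obtain ⟨c₀, hc₀⟩ := (Submodule.mem_span_image_finset_iff_exists_fun' S).1 (hu T k hk _ hmem)
    let c : Fin N → S := fun i => if i ∈ T then c₀ i else 0
    have hck : c k = 0 := if_neg hk
    have hc : ∑ j, u j * c j = h k := by
      rw [← hc₀, ← Finset.sum_subset (Finset.subset_univ T)]
      · exact Finset.sum_congr rfl fun j hj => by simp [c, hj, mul_comm]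
      · intro j _ hj
        simp [c, hj]
    let b : Fin N → Fin N → S := fun i j => (if i = k then c j else 0) - (if j = k then c i else 0)
    have hb : ∀ i, ∑ j, u j * b i j = (if i = k then h k else 0) - u k * c i := by
      intro i
      simp only [b, mul_sub, Finset.sum_sub_distrib, mul_ite, mul_zero, Finset.sum_ite_eq',
        Finset.mem_univ, if_true]
      split_ifs with hi
      · rw [hc]
      · simp
    obtain ⟨a, ha, ha0, hah⟩ := ih (fun i => h i - ∑ j, u j * b i j) (fun i hi => by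
      rw [hb]
      by_cases hik : i = k
      · subst hik
        simp [hck]
      · rw [h0 i (by simp [hi, hik]), if_neg hik]
        simp [c, hi]) (by
      simp only [hb, mul_sub, Finset.sum_sub_distrib, hh, mul_ite, mul_zero, Finset.sum_ite_eq',
        Finset.mem_univ, if_true]
      have : ∑ i, u i * (u k * c i) = u k * h k := by
        rw [← hc, Finset.mul_sum]
        exact Finset.sum_congr rfl fun i _ => by ring
      rw [this]
      ring)
    refine ⟨fun i j => a i j + b i j, fun i j => ?_, fun i => ?_, fun i => ?_⟩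
    · beta_reduce
      rw [ha i j]
      simp only [b]
      ring
    · beta_reduce
      rw [ha0 i]
      simp [b]
    · simp only [mul_add, Finset.sum_add_distrib, ← hah i]
      ring

/-- Koszul relations of a regular sequence. -/
theorem RegAll.koszul {S : Type} [CommRing S] {u : Fin N → S} (hu : RegAll u) {h : Fin N → S}
    (hh : ∑ i, u i * h i = 0) :
    ∃ a : Fin N → Fin N → S, (∀ i j, a j i = -a i j) ∧ (∀ i, a i i = 0) ∧
      ∀ i, h i = ∑ j, u j * a i j :=
  tw2_koszul hu Finset.univ h (fun i hi => absurd (Finset.mem_univ i) hi) hh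

theorem tw2_hc_mul {t : Pol N R} {e : ℕ} (ht : t.IsHomogeneous e) (n : ℕ) (p : Pol N R) :
    homogeneousComponent n (t * p) =
      if e ≤ n then t * homogeneousComponent (n - e) p else 0 := by
  induction p using MvPolynomial.induction_on' with
  | monomial m c =>
    have h1 : (monomial m c : Pol N R).IsHomogeneous m.degree := isHomogeneous_monomial c rfl
    rw [homogeneousComponent_of_mem (ht.mul h1), homogeneousComponent_of_mem h1]
    split_ifs with h2 h3 h4 h5 h6
    · rfl
    · omega
    · omega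
    · omega
    · simp
    · rfl
  | add p q hp hq =>
    rw [mul_add, map_add, hp, hq, map_add]
    split_ifs
    · rw [mul_add]
    · simp

theorem tw2_hc_eq_zero {p : Pol N R} {n k : ℕ} (h : p ∈ lt N R n) (hk : n ≤ k) :
    homogeneousComponent k p = 0 := by
  ext m
  rw [coeff_homogeneousComponent]
  split_ifs with hm
  · exact h m (hm ▸ hk)
  · rfl

theorem tw2_sub_hc {p : Pol N R} {n : ℕ} (h : p ∈ lt N R (n + 1)) :
    p - homogeneousComponent n p ∈ lt N R n := by
  intro m hm
  rw [coeff_sub, coeff_homogeneousComponent]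
  split_ifs with h1
  · exact sub_self _
  · rw [sub_zero]
    exact h m (by omega)

theorem tw2_hc_dtw {F : Pol N R} {d : ℕ} (hF : F.IsHomogeneous d) {n : ℕ} {h : Fin N → Pol N R}
    (hh : ∀ i, h i ∈ lt N R (n + 1)) :
    homogeneousComponent (n + (d - 1)) (dtw F h) =
      ∑ i, pderiv i F * homogeneousComponent n (h i) := by
  unfold dtw
  rw [map_sum]
  refine Finset.sum_congr rfl fun i _ => ?_
  rw [map_add, tw2_hc_eq_zero (pderiv_mem_lt (hh i) i) (by omega), zero_add,
    tw2_hc_mul hF.pderiv, if_pos (by omega), Nat.add_sub_cancel]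

theorem tw2_dtw'_add (F : Pol N R) (a b : Fin N → Fin N → Pol N R) (i : Fin N) :
    dtw' F (fun i j => a i j + b i j) i = dtw' F a i + dtw' F b i := by
  simp only [dtw', map_add, mul_add, Finset.sum_add_distrib]
  ring

theorem tw2_dtw'_zero (F : Pol N R) (i : Fin N) : dtw' F (fun _ _ => 0) i = 0 := by
  simp [dtw']

theorem tw_reduce {F : Pol N R} {d : ℕ} (hd : 2 ≤ d) (hF : F.IsHomogeneous d)
    (hr : RegAll fun i => pderiv i F) (m n : ℕ) {h : Fin N → Pol N R} (hh : ∀ i, h i ∈ lt N R n)
    (hm : dtw F h ∈ lt N R (m + (d - 1))) :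
    ∃ a : Fin N → Fin N → Pol N R, (∀ i j, a j i = -a i j) ∧ (∀ i, a i i = 0) ∧
      (∀ i j, a i j ∈ lt N R (n - (d - 1))) ∧ ∀ i, h i - dtw' F a i ∈ lt N R m := by
  induction n generalizing h with
  | zero =>
    refine ⟨fun _ _ => 0, fun _ _ => by simp, fun _ => rfl, fun _ _ => zero_mem _, fun i => ?_⟩
    rw [tw2_dtw'_zero, sub_zero]
    exact lt_mono (Nat.zero_le m) (hh i)
  | succ n ih =>
    by_cases hmn : n + 1 ≤ m
    · refine ⟨fun _ _ => 0, fun _ _ => by simp, fun _ => rfl, fun _ _ => zero_mem _, fun i => ?_⟩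
      rw [tw2_dtw'_zero, sub_zero]
      exact lt_mono hmn (hh i)
    have h0 : ∑ i, pderiv i F * homogeneousComponent n (h i) = 0 := by
      rw [← tw2_hc_dtw hF hh]
      exact tw2_hc_eq_zero hm (by omega)
    obtain ⟨a, ha, ha0, hah⟩ := hr.koszul h0
    have hah' : ∀ i, homogeneousComponent n (h i) =
        ∑ j, if d - 1 ≤ n then pderiv j F * homogeneousComponent (n - (d - 1)) (a i j) else 0 := by
      intro i
      rw [← homogeneousComponent_eq_self (homogeneousComponent_isHomogeneous n (h i)), hah i,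
        map_sum]
      exact Finset.sum_congr rfl fun j _ => tw2_hc_mul hF.pderiv n (a i j)
    by_cases hdn : d - 1 ≤ n
    · let b : Fin N → Fin N → Pol N R := fun i j => homogeneousComponent (n - (d - 1)) (a i j)
      have hb : ∀ i j, b j i = -b i j := fun i j => by simp only [b, ha i j, map_neg]
      have hb0 : ∀ i, b i i = 0 := fun i => by simp only [b, ha0 i, map_zero]
      have hbl : ∀ i j, b i j ∈ lt N R (n + 1 - (d - 1)) := fun i j =>
        mem_lt_of_isHomogeneous (homogeneousComponent_isHomogeneous _ _) (by omega)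
      have h1 : ∀ i, (h - dtw' F b) i ∈ lt N R n := by
        intro i
        have e : (h - dtw' F b) i =
            (h i - homogeneousComponent n (h i)) - ∑ j, pderiv j (b i j) := by
          simp only [Pi.sub_apply, dtw', Finset.sum_add_distrib, hah' i, if_pos hdn, b]
          ring
        rw [e]
        refine sub_mem (tw2_sub_hc (hh i)) (Submodule.sum_mem _ fun j _ => ?_)
        exact lt_mono (by omega) (pderiv_mem_lt (hbl i j) j)
      obtain ⟨c, hc, hc0, hcl, hch⟩ := ih h1 (by rw [dtw_sub, dtw_dtw' F hb hb0, sub_zero]; exact hm)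
      refine ⟨fun i j => b i j + c i j, fun i j => ?_, fun i => ?_, fun i j => ?_, fun i => ?_⟩
      · beta_reduce
        rw [hb i j, hc i j]
        ring
      · beta_reduce
        rw [hb0, hc0, add_zero]
      · exact add_mem (hbl i j) (lt_mono (by omega) (hcl i j))
      · rw [tw2_dtw'_add, ← sub_sub]
        exact hch i
    · have h1 : ∀ i, h i ∈ lt N R n := by
        intro i
        have := tw2_sub_hc (hh i)
        rwa [hah' i, Finset.sum_eq_zero fun j _ => if_neg hdn, sub_zero] at this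
      obtain ⟨c, hc, hc0, hcl, hch⟩ := ih h1 hm
      exact ⟨c, hc, hc0, fun i j => lt_mono (by omega) (hcl i j), hch⟩

theorem tw_strict {F : Pol N R} {d : ℕ} (hd : 2 ≤ d) (hF : F.IsHomogeneous d)
    (hr : RegAll fun i => pderiv i F) {m : ℕ} {g : Pol N R} (hg : Exact F g)
    (hm : g ∈ lt N R (m + (d - 1))) : ∃ h, (∀ i, h i ∈ lt N R m) ∧ g = dtw F h := by
  obtain ⟨h, rfl⟩ := exact_iff.1 hg
  obtain ⟨n, hn⟩ := exists_mem_lt h
  obtain ⟨a, ha, ha0, -, hah⟩ := tw_reduce hd hF hr m n hn hm
  exact ⟨h - dtw' F a, hah, by rw [dtw_sub, dtw_dtw' F ha ha0, sub_zero]⟩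

theorem tw_top {F : Pol N R} {d : ℕ} (hd : 2 ≤ d) (hF : F.IsHomogeneous d)
    (hr : RegAll fun i => pderiv i F) {n : ℕ} {γ τ : Pol N R}
    (hτ : τ.IsHomogeneous (n + (d - 1))) (hγ : γ ∈ lt N R (n + (d - 1)))
    (he : Exact F (γ - τ)) : τ ∈ jac F := by
  obtain ⟨h, hh, e⟩ := tw_strict (m := n + 1) hd hF hr he
    (sub_mem (lt_mono (by omega) hγ) (mem_lt_of_isHomogeneous hτ (by omega)))
  have e2 := tw2_hc_dtw hF hh
  rw [← e, map_sub, tw2_hc_eq_zero hγ le_rfl, homogeneousComponent_eq_self hτ, zero_sub] at e2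
  rw [← neg_mem_iff, e2]
  exact Ideal.sum_mem _ fun i _ => Ideal.mul_mem_right _ _ (Ideal.subset_span ⟨i, rfl⟩)

theorem tw_ker {F : Pol N R} {d : ℕ} (hd : 2 ≤ d) (hF : F.IsHomogeneous d)
    (hr : RegAll fun i => pderiv i F) {n : ℕ} {h : Fin N → Pol N R} (hh : ∀ i, h i ∈ lt N R n)
    (h0 : dtw F h = 0) :
    ∃ a : Fin N → Fin N → Pol N R, (∀ i j, a j i = -a i j) ∧ (∀ i, a i i = 0) ∧
      (∀ i j, a i j ∈ lt N R (n - (d - 1))) ∧ h = dtw' F a := by
  have hm : dtw F h ∈ lt N R (0 + (d - 1)) := by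
    rw [h0]
    exact Submodule.zero_mem _
  obtain ⟨a, ha, ha0, hal, hah⟩ := tw_reduce hd hF hr 0 n hh hm
  refine ⟨a, ha, ha0, hal, ?_⟩
  funext i
  have e : h i - dtw' F a i = 0 := eq_zero_of_mem_lt_zero (hah i)
  exact sub_eq_zero.1 e

end Pool.Agent.Lib.MP_e9c0f3_ag
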