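import Pool.Agent.Lib.MP_e9c0f3_ag.Std2
import Pool.Agent.Lib.MP_e9c0f3_ag.Tw2

/-! From jets to the generic point, and descent of the ground field. -/

open MvPolynomial Matrix

namespace Pool.Agent.Lib.MP_e9c0f3_ag

variable {N : ℕ}

/-- The twisted differential as a linear map. -/
noncomputable def glob_dtwL {R : Type} [CommRing R] (F : Pol N R) :
    (Fin N → Pol N R) →ₗ[R] Pol N R where
  toFun := dtw F
  map_add' := dtw_add F
  map_smul' := dtw_smul F

/-- Images of the monomial vectors of degree less than `n`. -/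
def glob_gens {R : Type} [CommRing R] (F : Pol N R) (n : ℕ) : Set (Pol N R) :=
  (fun p : Fin N × (Fin N →₀ ℕ) => dtw F (Pi.single p.1 (monomial p.2 1))) ''
    (Set.univ ×ˢ {m : Fin N →₀ ℕ | m.degree < n})

theorem glob_gens_finite {R : Type} [CommRing R] (F : Pol N R) (n : ℕ) :
    (glob_gens F n).Finite :=
  (Set.finite_univ.prod (Finsupp.finite_of_degree_lt n)).image _

theorem glob_monomial_mem_lt {R : Type} [CommRing R] {m : Fin N →₀ ℕ} {n : ℕ}
    (h : m.degree < n) (c : R) : (monomial m c : Pol N R) ∈ lt N R n := by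
  intro m' hm'
  rw [coeff_monomial, if_neg]
  rintro rfl
  omega

theorem glob_exists_of_mem {R : Type} [CommRing R] {F : Pol N R} {n : ℕ} {y : Pol N R}
    (hy : y ∈ Submodule.span R (glob_gens F n)) :
    ∃ w : Fin N → Pol N R, (∀ i, w i ∈ lt N R n) ∧ y = dtw F w := by
  induction hy using Submodule.span_induction with
  | mem x hx =>
    obtain ⟨⟨i, m⟩, ⟨-, hm⟩, rfl⟩ := hx
    refine ⟨Pi.single i (monomial m 1), fun j => ?_, rfl⟩
    by_cases hj : j = i
    · subst hj
      rw [Pi.single_eq_same]
      exact glob_monomial_mem_lt hm 1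
    · rw [Pi.single_eq_of_ne hj]
      exact zero_mem _
  | zero => exact ⟨0, fun _ => zero_mem _, (dtw_zero F).symm⟩
  | add x y _ _ hx hy =>
    obtain ⟨w, hw, rfl⟩ := hx
    obtain ⟨w', hw', rfl⟩ := hy
    exact ⟨w + w', fun i => add_mem (hw i) (hw' i), (dtw_add F w w').symm⟩
  | smul c x _ hx =>
    obtain ⟨w, hw, rfl⟩ := hx
    exact ⟨c • w, fun i => Submodule.smul_mem _ c (hw i), (dtw_smul F c w).symm⟩

theorem glob_dtw_mem {R : Type} [CommRing R] (F : Pol N R) {n : ℕ} (I : Ideal R)
    {w : Fin N → Pol N R} (hw : ∀ i, w i ∈ lt N R n) (hI : ∀ i m, coeff m (w i) ∈ I) :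
    dtw F w ∈ I • Submodule.span R (glob_gens F n) := by
  have e : w = ∑ i, ∑ m ∈ (w i).support,
      coeff m (w i) • (Pi.single i (monomial m 1) : Fin N → Pol N R) := by
    funext j
    rw [Finset.sum_apply, Finset.sum_eq_single j]
    · rw [Finset.sum_apply]
      conv_lhs => rw [(w j).as_sum]
      refine Finset.sum_congr rfl fun m _ => ?_
      rw [Pi.smul_apply, Pi.single_eq_same, smul_monomial, smul_eq_mul, mul_one]
    · intro i _ hi
      rw [Finset.sum_apply]
      refine Finset.sum_eq_zero fun m _ => ?_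
      rw [Pi.smul_apply, Pi.single_eq_of_ne hi.symm, smul_zero]
    · intro h
      exact absurd (Finset.mem_univ j) h
  change glob_dtwL F w ∈ _
  rw [e, _root_.map_sum]
  refine Submodule.sum_mem _ fun i _ => ?_
  rw [_root_.map_sum]
  refine Submodule.sum_mem _ fun m hm => ?_
  rw [_root_.map_smul]
  refine Submodule.smul_mem_smul (hI i m) (Submodule.subset_span ⟨(i, m), ⟨trivial, ?_⟩, rfl⟩)
  by_contra hlt
  exact (mem_support_iff.mp hm) (hw i m (not_lt.mp hlt))

theorem glob_exists_dvd {O : Type} [CommRing O] [IsDomain O] [ValuationRing O] {α : Type}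
    (s : Finset α) (hs : s.Nonempty) (c : α → O) : ∃ i ∈ s, ∀ j ∈ s, c i ∣ c j := by
  induction hs using Finset.Nonempty.cons_induction with
  | singleton a => exact ⟨a, Finset.mem_singleton_self a, fun j hj => by
      rw [Finset.mem_singleton.mp hj]⟩
  | cons a s ha _ ih =>
    obtain ⟨i, hi, hd⟩ := ih
    rcases ValuationRing.dvd_total (c a) (c i) with h | h
    · refine ⟨a, Finset.mem_cons_self a s, fun j hj => ?_⟩
      rcases Finset.mem_cons.mp hj with rfl | hj
      · exact dvd_rfl
      · exact h.trans (hd j hj)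
    · refine ⟨i, Finset.mem_cons_of_mem hi, fun j hj => ?_⟩
      rcases Finset.mem_cons.mp hj with rfl | hj
      · exact h
      · exact hd j hj

/-- In a finitely generated module of polynomials over a valuation ring every nonzero element is a
multiple of a primitive one. -/
theorem glob_exists_prim {O : Type} [CommRing O] [IsDomain O] [ValuationRing O]
    {M : Submodule O (Pol N O)} (hM : M.FG) {y : Pol N O} (hy : y ∈ M) (h0 : y ≠ 0) :
    ∃ b : O, ∃ z ∈ M, y = b • z ∧ z ∉ IsLocalRing.maximalIdeal O • M := by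
  classical
  have : Module.Finite O M := Module.Finite.iff_fg.mpr hM
  have : Module.Flat O M := by
    rw [Module.Flat.flat_iff_torsion_eq_bot_of_isBezout,
      ← Submodule.isTorsionFree_iff_torsion_eq_bot]
    infer_instance
  have : Module.Free O M := Module.free_of_flat_of_isLocalRing
  let B := Module.Free.chooseBasis O M
  let y' : M := ⟨y, hy⟩
  have hne : (Finset.univ : Finset (Module.Free.ChooseBasisIndex O M)).Nonempty := by
    by_contra he
    rw [Finset.not_nonempty_iff_eq_empty] at he
    have h1 := B.sum_repr y'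
    rw [he, Finset.sum_empty] at h1
    exact h0 (congrArg Subtype.val h1).symm
  obtain ⟨i, -, hi⟩ := glob_exists_dvd _ hne (B.repr y')
  choose q hq using fun j => hi j (Finset.mem_univ j)
  have hb : B.repr y' i ≠ 0 := by
    intro hb
    apply h0
    have h1 := B.sum_repr y'
    rw [Finset.sum_eq_zero fun j _ => by rw [hq j, hb, zero_mul, zero_smul]] at h1
    exact (congrArg Subtype.val h1).symm
  have hqi : q i = 1 := by
    have := hq i
    exact (mul_left_cancel₀ hb (by rw [mul_one]; exact this)).symm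
  let z : M := ∑ j, q j • B j
  refine ⟨B.repr y' i, z, z.2, ?_, fun hz => ?_⟩
  · have h1 := B.sum_repr y'
    have h2 : y' = B.repr y' i • z := by
      rw [Finset.smul_sum]
      conv_lhs => rw [← h1]
      refine Finset.sum_congr rfl fun j _ => ?_
      rw [smul_smul, ← hq j]
    exact congrArg Subtype.val h2
  · have key : ∀ x (hx : x ∈ IsLocalRing.maximalIdeal O • M), ∃ hx' : x ∈ M,
        B.repr ⟨x, hx'⟩ i ∈ IsLocalRing.maximalIdeal O := by
      intro x hx
      refine Submodule.smul_induction_on hx (fun r hr x hx => ⟨M.smul_mem r hx, ?_⟩) ?_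
      · have : (⟨r • x, M.smul_mem r hx⟩ : M) = r • ⟨x, hx⟩ := rfl
        rw [this, _root_.map_smul, Finsupp.smul_apply, smul_eq_mul]
        exact Ideal.mul_mem_right _ _ hr
      · rintro x x' ⟨hx, h1⟩ ⟨hx', h2⟩
        refine ⟨M.add_mem hx hx', ?_⟩
        have : (⟨x + x', M.add_mem hx hx'⟩ : M) = ⟨x, hx⟩ + ⟨x', hx'⟩ := rfl
        rw [this, _root_.map_add, Finsupp.add_apply]
        exact add_mem h1 h2
    obtain ⟨hz', h1⟩ := key _ hz
    have h2 : B.repr z i = 1 := by
      rw [← hqi]
      exact congrFun (B.repr_sum_self q) i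
    have h3 : (⟨(z : Pol N O), hz'⟩ : M) = z := rfl
    rw [h3, h2] at h1
    exact (IsLocalRing.maximalIdeal.isMaximal O).ne_top ((Ideal.eq_top_iff_one _).mpr h1)

/-- Antisymmetric lifts of antisymmetric families. -/
theorem glob_lift_anti {R R' : Type} [CommRing R] [CommRing R'] (f : R →+* R')
    (hf : Function.Surjective f) {n : ℕ} {a : Fin N → Fin N → Pol N R'}
    (ha : ∀ i j, a j i = -a i j) (ha0 : ∀ i, a i i = 0) (hn : ∀ i j, a i j ∈ lt N R' n) :
    ∃ b : Fin N → Fin N → Pol N R, (∀ i j, b j i = -b i j) ∧ (∀ i, b i i = 0) ∧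
      (∀ i j, b i j ∈ lt N R n) ∧ ∀ i j, map f (b i j) = a i j := by
  choose c hc hc' using fun i j => exists_map_eq_of_mem_lt f hf (hn i j)
  refine ⟨fun i j => if i < j then c i j else if j < i then -c j i else 0, fun i j => ?_,
    fun i => ?_, fun i j => ?_, fun i j => ?_⟩
  · rcases lt_trichotomy i j with h | rfl | h
    · simp [h, not_lt_of_gt h]
    · simp
    · simp [h, not_lt_of_gt h]
  · simp
  · beta_reduce
    split_ifs
    · exact hc i j
    · exact neg_mem (hc j i)
    · exact zero_mem _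
  · rcases lt_trichotomy i j with h | rfl | h
    · simp [h, hc']
    · simp [ha0]
    · beta_reduce
      rw [if_neg (not_lt_of_gt h), if_pos h, _root_.map_neg, hc', ha j i]

/-- The Griffiths-Dwork module over a valuation ring is torsion free. -/
theorem exact_of_exact_frac {O L : Type} [CommRing O] [IsDomain O] [ValuationRing O] [Field L]
    [Algebra O L] [IsFractionRing O L] {d : ℕ} (hd : 2 ≤ d) {F γ : Pol N O}
    (hF : F.IsHomogeneous d) (hr : RegAll fun i => pderiv i (map (IsLocalRing.residue O) F))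
    (h : Exact (map (algebraMap O L) F) (map (algebraMap O L) γ)) : Exact F γ := by
  classical
  obtain ⟨u, hu⟩ := exact_iff.mp h
  obtain ⟨⟨a, ha⟩, hint⟩ := IsLocalization.exist_integer_multiples_of_finset (nonZeroDivisors O)
    (Finset.univ.biUnion fun i => (u i).coeffs)
  have ha0 : a ≠ 0 := nonZeroDivisors.ne_zero ha
  have hlift : ∀ i, ∃ v : Pol N O, map (algebraMap O L) v = algebraMap O L a • u i := by
    intro i
    refine mem_range_map_iff_coeffs_subset.mpr fun c hc => ?_
    obtain ⟨m, hm, rfl⟩ := Finset.mem_image.mp (Finset.mem_coe.mp hc)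
    rw [coeff_smul, algebraMap_smul]
    refine hint _ (Finset.mem_biUnion.mpr ⟨i, Finset.mem_univ i, ?_⟩)
    refine coeff_mem_coeffs m fun h0 => mem_support_iff.mp hm ?_
    rw [coeff_smul, h0, smul_zero]
  choose v hv using hlift
  have hy : a • γ = dtw F v := by
    apply map_injective (algebraMap O L) (IsFractionRing.injective O L)
    rw [map_dtw, smul_eq_C_mul, _root_.map_mul, map_C, ← smul_eq_C_mul, hu, ← dtw_smul]
    congr 1
    funext i
    rw [hv i, Pi.smul_apply]
  by_cases hγ : γ = 0
  · rw [hγ]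
    exact Exact.zero F
  obtain ⟨n, hn⟩ := exists_mem_lt v
  have hyM : a • γ ∈ Submodule.span O (glob_gens F n) := by
    have := glob_dtw_mem F ⊤ hn fun _ _ => Submodule.mem_top
    rwa [Submodule.top_smul, ← hy] at this
  obtain ⟨b, z, hz, hbz, hprim⟩ := glob_exists_prim
    (Submodule.fg_span (glob_gens_finite F n)) hyM (smul_ne_zero ha0 hγ)
  obtain ⟨w, hw, rfl⟩ := glob_exists_of_mem hz
  have hunit : ∃ m, IsUnit (coeff m (dtw F w)) := by
    by_contra hno
    push Not at hno
    apply hprim
    have h0 : dtw (map (IsLocalRing.residue O) F) (fun i => map (IsLocalRing.residue O) (w i))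
        = 0 := by
      rw [← map_dtw]
      ext m
      rw [coeff_map, coeff_zero, IsLocalRing.residue_eq_zero_iff]
      exact hno m
    obtain ⟨c, hc, hc0, hcn, hcw⟩ := tw_ker hd (hF.map (IsLocalRing.residue O)) hr
      (fun i => map_mem_lt _ (hw i)) h0
    obtain ⟨c', hc', hc0', hcn', hcc⟩ := glob_lift_anti (IsLocalRing.residue O)
      IsLocalRing.residue_surjective hc hc0 hcn
    have e : dtw F w = dtw F (w - dtw' F c') := by
      rw [dtw_sub, dtw_dtw' F hc' hc0', sub_zero]
    rw [e]
    refine glob_dtw_mem F _ (fun i => sub_mem (hw i) (dtw'_mem_lt hF hcn' i)) fun i m => ?_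
    rw [← IsLocalRing.residue_eq_zero_iff, ← coeff_map, Pi.sub_apply, _root_.map_sub, map_dtw']
    simp only [hcc]
    rw [← hcw, sub_self, coeff_zero]
  obtain ⟨m, hm⟩ := hunit
  have hab : a ∣ b := by
    have h1 := congrArg (coeff m) hbz
    rw [coeff_smul, coeff_smul, smul_eq_mul, smul_eq_mul] at h1
    exact hm.dvd_mul_right.mp ⟨_, h1.symm⟩
  obtain ⟨b', rfl⟩ := hab
  refine exact_iff.mpr ⟨b' • w, ?_⟩
  rw [dtw_smul]
  rw [mul_smul] at hbz
  exact smul_right_injective _ ha0 hbz

theorem IsChern.map {R R' : Type} [CommRing R] [CommRing R'] (f : R →+* R') {d : ℕ}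
    {F β : Pol N R} (h : IsChern d F β) : IsChern d (map f F) (map f β) := by
  obtain ⟨κ, i1, i2, par, wt, δ, h1, h2⟩ := h
  refine ⟨κ, i1, i2, par, wt, δ.map (MvPolynomial.map f), h1.map f, ?_⟩
  have := h2.map f
  rwa [_root_.map_sub, map_ch] at this

/-- Descent along an injective map through which all the data lift. -/
theorem glob_of_injective {R R' : Type} [CommRing R] [CommRing R'] {f : R →+* R'}
    (hf : Function.Injective f) {d : ℕ} {F β : Pol N R} {κ : Type} [Fintype κ] [DecidableEq κ]
    {par : κ → ℕ} {wt : κ → ℤ} {δ : Matrix κ κ (Pol N R)} {u : Fin N → Pol N R}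
    (h1 : IsMF d (MvPolynomial.map f F) par wt (δ.map (MvPolynomial.map f)))
    (h2 : MvPolynomial.map f β - ch par (δ.map (MvPolynomial.map f)) =
      dtw (MvPolynomial.map f F) fun i => MvPolynomial.map f (u i)) :
    IsChern d F β := by
  have hi := map_injective (σ := Fin N) f hf
  refine ⟨κ, inferInstance, inferInstance, par, wt, δ, ⟨fun i j h => h1.odd i j ?_,
    fun i j m h => h1.homog i j m ?_, ?_⟩, exact_iff.mpr ⟨u, hi ?_⟩⟩
  · rw [Matrix.map_apply]
    exact (map_ne_zero_iff _ hi).mpr h
  · rw [Matrix.map_apply, coeff_map]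
    exact (map_ne_zero_iff _ hf).mpr h
  · have h3 := h1.sq
    rw [← Matrix.map_mul] at h3
    ext1 i j
    apply hi
    have h4 := congrFun (congrFun h3 i) j
    rw [Matrix.map_apply] at h4
    rw [h4, scalar_apply, scalar_apply, diagonal_apply, diagonal_apply]
    split_ifs
    · rfl
    · exact (_root_.map_zero _).symm
  · rw [_root_.map_sub, map_ch, map_dtw, h2]

/-- Descent to an algebraically closed subfield. -/
theorem IsChern.descend {K L : Type} [Field K] [IsAlgClosed K] [Field L] (f : K →+* L) {d : ℕ}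
    {F β : Pol N K} (h : IsChern d (MvPolynomial.map f F) (MvPolynomial.map f β)) :
    IsChern d F β := by
  classical
  obtain ⟨κ, i1, i2, par, wt, δ, h1, h2⟩ := h
  obtain ⟨u, hu⟩ := exact_iff.mp h2
  let : Algebra K L := f.toAlgebra
  let S : Finset L := (Finset.univ.biUnion fun p : κ × κ => (δ p.1 p.2).coeffs) ∪
    Finset.univ.biUnion fun i => (u i).coeffs
  let B : Subalgebra K L := Algebra.adjoin K (S : Set L)
  let g : B →+* L := B.val.toRingHom
  have hg : Function.Injective g := Subtype.val_injective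
  have hS : (S : Set L) ⊆ Set.range g := fun x hx => ⟨⟨x, Algebra.subset_adjoin hx⟩, rfl⟩
  have hδ : ∀ i j, ∃ v : Pol N B, MvPolynomial.map g v = δ i j := fun i j =>
    mem_range_map_iff_coeffs_subset.mpr fun c hc => hS (Finset.mem_coe.mpr
      (Finset.mem_union_left _ (Finset.mem_biUnion.mpr ⟨(i, j), Finset.mem_univ _, hc⟩)))
  have hu' : ∀ i, ∃ v : Pol N B, MvPolynomial.map g v = u i := fun i =>
    mem_range_map_iff_coeffs_subset.mpr fun c hc => hS (Finset.mem_coe.mpr
      (Finset.mem_union_right _ (Finset.mem_biUnion.mpr ⟨i, Finset.mem_univ _, hc⟩)))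
  choose δ' hδ' using hδ
  choose u' hu'' using hu'
  have hgf : g.comp (algebraMap K B) = f := RingHom.ext fun _ => rfl
  have e1 : (Matrix.of δ').map (MvPolynomial.map g) = δ := by
    ext1 i j
    exact hδ' i j
  have hB : IsChern d (MvPolynomial.map (algebraMap K B) F)
      (MvPolynomial.map (algebraMap K B) β) := by
    refine glob_of_injective hg (par := par) (wt := wt) (δ := Matrix.of δ') (u := u') ?_ ?_
    · rw [MvPolynomial.map_map, hgf, e1]
      exact h1
    · rw [MvPolynomial.map_map, MvPolynomial.map_map, hgf, e1, hu]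
      simp only [hu'']
  have : Algebra.FiniteType K B := (Subalgebra.fg_iff_finiteType B).mp ⟨S, rfl⟩
  obtain ⟨𝔪, h𝔪⟩ := Ideal.exists_maximal B
  let : Field (B ⧸ 𝔪) := Ideal.Quotient.field 𝔪
  have : Module.Finite K (B ⧸ 𝔪) := finite_of_finite_type_of_isJacobsonRing K (B ⧸ 𝔪)
  let e : K ≃+* B ⧸ 𝔪 := RingEquiv.ofBijective (algebraMap K (B ⧸ 𝔪))
    IsAlgClosed.algebraMap_bijective_of_isIntegral
  let p : B →+* K := e.symm.toRingHom.comp (Ideal.Quotient.mk 𝔪)
  have hp : p.comp (algebraMap K B) = RingHom.id K :=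
    RingHom.ext fun x => e.symm_apply_apply x
  have h3 := hB.map p
  rwa [MvPolynomial.map_map, MvPolynomial.map_map, hp, MvPolynomial.map_id,
    MvPolynomial.map_id] at h3

end Pool.Agent.Lib.MP_e9c0f3_ag
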