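import Pool.Agent.Lib.MP_e9c0f3_ag.Base

/-! Finite free resolutions of cyclic modules, written as one square matrix. -/

open Matrix

namespace Pool.Agent.Lib.MP_e9c0f3_ag

variable {R : Type} [CommRing R] {ι κ μ : Type}

/-- `d` is strictly triangular. -/
def Flag (d : Matrix ι ι R) : Prop := ∃ hd : ι → ℕ, ∀ i j, d i j ≠ 0 → hd i < hd j

/-- `d` lowers the degree `hd` by one. -/
def Gr (hd : ι → ℕ) (d : Matrix ι ι R) : Prop := ∀ i j, d i j ≠ 0 → hd i + 1 = hd j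

/-- The homology of `d` is `R / 𝔟`, through the functional `π`, with generator `e`. -/
structure Res [Fintype ι] (d : Matrix ι ι R) (𝔟 : Ideal R) (π e : ι → R) : Prop where
  dd : d * d = 0
  pd : ∀ j, (π ᵥ* d) j ∈ 𝔟
  de : d *ᵥ e = 0
  pe : π ⬝ᵥ e - 1 ∈ 𝔟
  ex : ∀ v, d *ᵥ v = 0 → π ⬝ᵥ v ∈ 𝔟 → ∃ u, v = d *ᵥ u

/-- The projector on the basis vectors of degree `n`. -/
def pj (R : Type) [CommRing R] [DecidableEq ι] (hd : ι → ℕ) (n : ℕ) : Matrix ι ι R :=
  diagonal fun i => if hd i = n then 1 else 0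

theorem Gr.flag {hd : ι → ℕ} {d : Matrix ι ι R} (h : Gr hd d) : Flag d :=
  ⟨hd, fun i j hij => by have := h i j hij; omega⟩

theorem Flag.transpose [Finite ι] {d : Matrix ι ι R} (h : Flag d) : Flag dᵀ := by
  obtain ⟨hd, h⟩ := h
  obtain ⟨B, hB⟩ := (Set.finite_range hd).bddAbove
  refine ⟨fun i => B - hd i, fun i j hij => ?_⟩
  have h1 := h j i hij
  have h2 : hd i ≤ B := hB ⟨i, rfl⟩
  show B - hd i < B - hd j
  omega

theorem Flag.neg {d : Matrix ι ι R} (h : Flag d) : Flag (-d) := by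
  obtain ⟨hd, h⟩ := h
  exact ⟨hd, fun i j hij => h i j (neg_ne_zero.1 hij)⟩

variable [Fintype ι] [Fintype κ]

theorem Gr.pj_mul [DecidableEq ι] {hd : ι → ℕ} {d : Matrix ι ι R} (h : Gr hd d) (n : ℕ) :
    pj R hd n * d = d * pj R hd (n + 1) := by
  ext i j
  rw [pj, pj, diagonal_mul, mul_diagonal]
  by_cases h0 : d i j = 0
  · simp [h0]
  · have h1 := h i j h0
    by_cases h2 : hd i = n
    · rw [if_pos h2, if_pos (by omega), one_mul, mul_one]
    · rw [if_neg h2, if_neg (by omega), zero_mul, mul_zero]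

theorem Gr.mul_pj_zero [DecidableEq ι] {hd : ι → ℕ} {d : Matrix ι ι R} (h : Gr hd d) :
    d * pj R hd 0 = 0 := by
  ext i j
  rw [pj, mul_diagonal]
  by_cases h0 : d i j = 0
  · simp [h0]
  · have h1 := h i j h0
    rw [if_neg (by omega), mul_zero]; rfl

omit [Fintype ι] in
theorem res_mul_congr {q : Matrix κ κ R} {hd : κ → ℕ} (hq : ∀ i j, q i j ≠ 0 → hd i < hd j)
    {A B : Matrix ι κ R} {j : κ} (h : ∀ l, hd l < hd j → ∀ i, A i l = B i l) (i : ι) :
    (A * q) i j = (B * q) i j := by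
  rw [mul_apply, mul_apply]
  refine Finset.sum_congr rfl fun l _ => ?_
  by_cases h0 : q l j = 0
  · rw [h0, mul_zero, mul_zero]
  · rw [h l (hq l j h0)]

omit [Fintype ι] in
theorem res_col_mem (W : Submodule R (ι → R)) {ρ : Matrix ι κ R} (hρ : ∀ j, (fun i => ρ i j) ∈ W)
    (q : Matrix κ κ R) (j : κ) : (fun i => (ρ * q) i j) ∈ W := by
  have h1 : (fun i => (ρ * q) i j) = ∑ l, q l j • fun i => ρ i l := by
    ext i
    simp [mul_apply, mul_comm]
  rw [h1]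
  exact W.sum_mem fun l _ => W.smul_mem _ (hρ l)

omit [Fintype κ] in
theorem res_vecMul_mem_left {I : Ideal R} {w : ι → R} (hw : ∀ i, w i ∈ I) (A : Matrix ι κ R)
    (j : κ) : (w ᵥ* A) j ∈ I :=
  I.sum_mem fun i _ => I.mul_mem_right _ (hw i)

omit [Fintype κ] in
theorem res_vecMul_mem_right {I : Ideal R} (w : ι → R) {A : Matrix ι κ R} (hA : ∀ i j, A i j ∈ I)
    (j : κ) : (w ᵥ* A) j ∈ I :=
  I.sum_mem fun i _ => I.mul_mem_left _ (hA i j)

/-- A chain map from a flagged free complex to an exact one is null-homotopic. -/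
theorem Flag.nullhomotopic {q : Matrix κ κ R} (hq : Flag q) (hqq : q * q = 0) (p : Matrix ι ι R)
    (W : Submodule R (ι → R)) (hW : ∀ v ∈ W, p *ᵥ v = 0 → ∃ u ∈ W, v = p *ᵥ u)
    (hWp : ∀ v ∈ W, p *ᵥ v ∈ W) {χ : Matrix ι κ R} (hχ : ∀ j, (fun i => χ i j) ∈ W)
    (h : p * χ = χ * q) : ∃ ρ : Matrix ι κ R, (∀ j, (fun i => ρ i j) ∈ W) ∧ χ = p * ρ + ρ * q := by
  classical
  obtain ⟨hd, hq⟩ := hq
  have key : ∀ n : ℕ, ∃ ρ : Matrix ι κ R, (∀ j, (fun i => ρ i j) ∈ W) ∧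
      ∀ j, hd j < n → ∀ i, χ i j = (p * ρ + ρ * q) i j := by
    intro n
    induction n with
    | zero => exact ⟨0, fun _ => W.zero_mem, fun j hj => absurd hj (Nat.not_lt_zero _)⟩
    | succ n ih =>
      obtain ⟨ρ, hρ, ih⟩ := ih
      have h1 : ∀ j, hd j = n → ∃ u ∈ W, (fun i => (χ - ρ * q) i j) = p *ᵥ u := fun j hj => by
        refine hW _ (W.sub_mem (hχ j) (res_col_mem W hρ q j)) ?_
        ext i
        have h2 : ((χ - p * ρ) * q) i j = (ρ * q * q) i j :=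
          res_mul_congr hq (fun l hl i => by
            rw [Matrix.sub_apply, ih l (hj ▸ hl) i, Matrix.add_apply, add_sub_cancel_left]) i
        rw [Matrix.mul_assoc, hqq, Matrix.mul_zero, Matrix.sub_mul, ← h, Matrix.mul_assoc,
          ← Matrix.mul_sub] at h2
        exact h2
      choose! u hu hu' using h1
      refine ⟨of fun i j => if hd j = n then u j i else ρ i j, fun j => ?_, fun j hj i => ?_⟩
      · by_cases hj : hd j = n
        · simpa [hj] using hu j hj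
        · simpa [hj] using hρ j
      · have h3 : ((of fun i j => if hd j = n then u j i else ρ i j : Matrix ι κ R) * q) i j
            = (ρ * q) i j :=
          res_mul_congr hq (fun l hl i => by rw [of_apply, if_neg (by omega)]) i
        rw [Matrix.add_apply, h3]
        by_cases hj' : hd j = n
        · have h4 := congrFun (hu' j hj') i
          rw [Matrix.sub_apply, sub_eq_iff_eq_add] at h4
          rw [h4]
          simp [mul_apply, hj', mulVec, dotProduct]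
        · rw [ih j (by omega) i, Matrix.add_apply]
          simp [mul_apply, hj']
  obtain ⟨B, hB⟩ := (Set.finite_range hd).bddAbove
  obtain ⟨ρ, hρ, h1⟩ := key (B + 1)
  exact ⟨ρ, hρ, Matrix.ext fun i j => h1 j (Nat.lt_succ_of_le (hB ⟨j, rfl⟩)) i⟩

variable {p : Matrix ι ι R} {𝔟 : Ideal R} {π e : ι → R} {q : Matrix κ κ R}

theorem Res.neg (h : Res p 𝔟 π e) : Res (-p) 𝔟 π e where
  dd := by rw [neg_mul_neg, h.dd]
  pd j := by rw [vecMul_neg]; exact 𝔟.neg_mem (h.pd j)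
  de := by rw [neg_mulVec, h.de, neg_zero]
  pe := h.pe
  ex v hv hπ := by
    rw [neg_mulVec, neg_eq_zero] at hv
    obtain ⟨u, hu⟩ := h.ex v hv hπ
    exact ⟨-u, by rw [neg_mulVec, mulVec_neg, neg_neg, hu]⟩

theorem Res.res_pd (h : Res p 𝔟 π e) (v : ι → R) : π ⬝ᵥ p *ᵥ v ∈ 𝔟 := by
  rw [dotProduct_mulVec]
  exact 𝔟.sum_mem fun i _ => 𝔟.mul_mem_right _ (h.pd i)

/-- The vectors with augmentation in `𝔟`. -/
def resW (𝔟 : Ideal R) (π : ι → R) : Submodule R (ι → R) where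
  carrier := {v | π ⬝ᵥ v ∈ 𝔟}
  add_mem' ha hb := by
    simp only [Set.mem_ofPred_eq, dotProduct_add] at *
    exact 𝔟.add_mem ha hb
  zero_mem' := by simp
  smul_mem' c v hv := by
    simp only [Set.mem_ofPred_eq, dotProduct_smul, smul_eq_mul] at *
    exact 𝔟.mul_mem_left c hv

omit [Fintype κ] in
theorem Res.res_mul_vv (h : Res p 𝔟 π e) (w : κ → R) : p * vecMulVec e w = 0 := by
  rw [mul_vecMulVec, h.de, zero_vecMulVec]

/-- The vectors with augmentation in `𝔟` form an exact subcomplex. -/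
theorem Res.ex' (h : Res p 𝔟 π e) {v : ι → R} (hv : p *ᵥ v = 0) (hπ : π ⬝ᵥ v ∈ 𝔟) :
    ∃ u, π ⬝ᵥ u ∈ 𝔟 ∧ v = p *ᵥ u := by
  obtain ⟨u, hu⟩ := h.ex v hv hπ
  refine ⟨u - (π ⬝ᵥ u) • e, ?_, by rw [mulVec_sub, mulVec_smul, h.de, smul_zero, sub_zero, hu]⟩
  have h1 : π ⬝ᵥ (u - (π ⬝ᵥ u) • e) = -(π ⬝ᵥ u) * (π ⬝ᵥ e - 1) := by
    rw [dotProduct_sub, dotProduct_smul, smul_eq_mul]; ring
  rw [h1]
  exact 𝔟.mul_mem_left _ h.pe

theorem Res.res_null (h : Res p 𝔟 π e) (hq : Flag q) (hqq : q * q = 0) {χ : Matrix ι κ R}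
    (hχ : ∀ j, (π ᵥ* χ) j ∈ 𝔟) (hc : p * χ = χ * q) :
    ∃ ρ : Matrix ι κ R, (∀ j, (π ᵥ* ρ) j ∈ 𝔟) ∧ χ = p * ρ + ρ * q :=
  hq.nullhomotopic hqq p (resW 𝔟 π) (fun _ hv hv' => h.ex' hv' hv) (fun v _ => h.res_pd v) hχ hc

/-- Uniqueness of lifts up to homotopy. -/
theorem Res.null (h : Res p 𝔟 π e) (hq : Flag q) (hqq : q * q = 0) {M : Matrix ι κ R}
    (hM : p * M = M * q) {w : κ → R} (hw : ∀ j, (π ᵥ* M - w ᵥ* q) j ∈ 𝔟) :
    ∃ ρ : Matrix ι κ R, M = p * ρ + ρ * q := by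
  obtain ⟨ρ, -, hρ⟩ := h.res_null hq hqq (χ := M - vecMulVec e w * q) (fun j => by
    have h1 : (π ᵥ* (M - vecMulVec e w * q)) j
        = (π ᵥ* M - w ᵥ* q) j - (π ⬝ᵥ e - 1) * (w ᵥ* q) j := by
      rw [vecMul_sub, vecMulVec_mul, vecMul_vecMulVec]
      simp only [Pi.sub_apply, Pi.smul_apply, smul_eq_mul]
      ring
    rw [h1]
    exact 𝔟.sub_mem (hw j) (𝔟.mul_mem_right _ h.pe)) (by
    rw [Matrix.mul_sub, Matrix.sub_mul, ← Matrix.mul_assoc, h.res_mul_vv, Matrix.zero_mul,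
      Matrix.mul_assoc, hqq, Matrix.mul_zero, hM])
  refine ⟨ρ + vecMulVec e w, ?_⟩
  rw [Matrix.mul_add, Matrix.add_mul, h.res_mul_vv, add_zero, ← add_assoc, ← hρ, sub_add_cancel]

/-- Existence of lifts. -/
theorem Res.lift (h : Res p 𝔟 π e) (hq : Flag q) (hqq : q * q = 0) {w : κ → R}
    (hw : ∀ j, (w ᵥ* q) j ∈ 𝔟) :
    ∃ M : Matrix ι κ R, p * M = M * q ∧ ∀ j, (π ᵥ* M - w) j ∈ 𝔟 := by
  obtain ⟨ρ, hρ, hρ'⟩ := h.res_null hq.neg (by rw [neg_mul_neg, hqq]) (χ := vecMulVec e w * q)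
    (fun j => by
      rw [vecMulVec_mul, vecMul_vecMulVec]
      exact 𝔟.mul_mem_left _ (hw j)) (by
      rw [← Matrix.mul_assoc, h.res_mul_vv, Matrix.zero_mul, Matrix.mul_neg, Matrix.mul_assoc, hqq,
        Matrix.mul_zero, neg_zero])
  refine ⟨vecMulVec e w + ρ, ?_, fun j => ?_⟩
  · rw [Matrix.mul_add, Matrix.add_mul, h.res_mul_vv, zero_add, hρ', Matrix.mul_neg]
    abel
  · have h1 : (π ᵥ* (vecMulVec e w + ρ) - w) j = (π ⬝ᵥ e - 1) * w j + (π ᵥ* ρ) j := by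
      rw [vecMul_add, vecMul_vecMulVec]
      simp only [Pi.sub_apply, Pi.add_apply, Pi.smul_apply, smul_eq_mul]
      ring
    rw [h1]
    exact 𝔟.add_mem (𝔟.mul_mem_right _ h.pe) (hρ j)

/-- Existence of lifts of degree zero. -/
theorem Res.lift_gr (h : Res p 𝔟 π e) {hp : ι → ℕ} {hq : κ → ℕ} (gp : Gr hp p) (gq : Gr hq q)
    (hqq : q * q = 0) (hπ : ∀ i, hp i ≠ 0 → π i = 0) {w : κ → R} (hw0 : ∀ j, hq j ≠ 0 → w j = 0)
    (hw : ∀ j, (w ᵥ* q) j ∈ 𝔟) :
    ∃ M : Matrix ι κ R, p * M = M * q ∧ (∀ j, (π ᵥ* M - w) j ∈ 𝔟) ∧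
      ∀ i j, M i j ≠ 0 → hp i = hq j := by
  obtain ⟨M, hM, hM'⟩ := h.lift gq.flag hqq hw
  refine ⟨of fun i j => if hp i = hq j then M i j else 0, ?_, fun j => ?_, fun i j hij => ?_⟩
  · ext i j
    have h0 := congrFun (congrFun hM i) j
    rw [mul_apply, mul_apply] at h0 ⊢
    by_cases hij : hp i + 1 = hq j
    · rw [Finset.sum_congr rfl (g := fun l => p i l * M l j), h0]
      · refine Finset.sum_congr rfl fun l _ => ?_
        by_cases h1 : q l j = 0
        · rw [h1, mul_zero, mul_zero]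
        · have := gq l j h1
          rw [of_apply, if_pos (by omega)]
      · intro l _
        by_cases h1 : p i l = 0
        · rw [h1, zero_mul, zero_mul]
        · have := gp i l h1
          rw [of_apply, if_pos (by omega)]
    · rw [Finset.sum_eq_zero, Finset.sum_eq_zero]
      · intro l _
        by_cases h1 : q l j = 0
        · rw [h1, mul_zero]
        · have := gq l j h1
          rw [of_apply, if_neg (by omega), zero_mul]
      · intro l _
        by_cases h1 : p i l = 0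
        · rw [h1, zero_mul]
        · have := gp i l h1
          rw [of_apply, if_neg (by omega), mul_zero]
  · by_cases hj : hq j = 0
    · have h1 : (π ᵥ* (of fun i j => if hp i = hq j then M i j else 0 : Matrix ι κ R)) j
          = (π ᵥ* M) j := by
        refine Finset.sum_congr rfl fun i _ => ?_
        by_cases h1 : hp i = 0
        · simp [h1, hj]
        · simp [hπ i h1]
      have h2 := hM' j
      rw [Pi.sub_apply] at h2 ⊢
      rwa [h1]
    · have h1 : (π ᵥ* (of fun i j => if hp i = hq j then M i j else 0 : Matrix ι κ R)) j = 0 := by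
        refine Finset.sum_eq_zero fun i _ => ?_
        by_cases h1 : hp i = 0
        · simp [h1, Ne.symm hj]
        · simp [hπ i h1]
      rw [Pi.sub_apply, h1, hw0 j hj, sub_zero]
      exact 𝔟.zero_mem
  · by_contra h1
    exact hij (by rw [of_apply, if_neg h1])

/-- The data of a Koszul complex. -/
structure Kos (g : ℕ) (𝔠 : Ideal R) (k : Matrix κ κ R) (hk : κ → ℕ) (π e π' e' : κ → R) :
    Prop where
  res : Res k 𝔠 π e
  res' : Res kᵀ 𝔠 π' e'
  gr : Gr hk k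
  le : ∀ j, hk j ≤ g
  mem : ∀ i j, k i j ∈ 𝔠
  supp : ∀ j, hk j ≠ 0 → π j = 0
  supp' : ∀ j, hk j ≠ g → π' j = 0

/-- The exactness of a mapping cone. -/
theorem Res.res_cone (h : Res p 𝔟 π e) {r : R} (hr : ∀ a, r * a ∈ 𝔟 → a ∈ 𝔟) {a b : ι → R}
    (h1 : p *ᵥ a + r • b = 0) (h2 : p *ᵥ b = 0) (h3 : π ⬝ᵥ a ∈ 𝔟 ⊔ Ideal.span {r}) :
    ∃ a' b', a = p *ᵥ a' + r • b' ∧ b = -(p *ᵥ b') := by
  obtain ⟨c, hc, c', hc', hcc⟩ := Submodule.mem_sup.1 h3
  obtain ⟨t, rfl⟩ := Ideal.mem_span_singleton'.1 hc'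
  have h4 : π ⬝ᵥ b ∈ 𝔟 := hr _ (by
    have h5 := congrArg (π ⬝ᵥ ·) h1
    simp only [dotProduct_add, dotProduct_smul, smul_eq_mul, dotProduct_zero] at h5
    rw [eq_neg_of_add_eq_zero_right h5]
    exact 𝔟.neg_mem (h.res_pd a))
  obtain ⟨b₁, hb₁⟩ := h.ex b h2 h4
  obtain ⟨a', ha'⟩ := h.ex (a - r • ((t + π ⬝ᵥ b₁) • e - b₁)) (by
    rw [mulVec_sub, mulVec_smul, mulVec_sub, mulVec_smul, h.de, smul_zero, zero_sub, ← hb₁,
      smul_neg, sub_neg_eq_add, h1]) (by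
    have h5 : π ⬝ᵥ (a - r • ((t + π ⬝ᵥ b₁) • e - b₁))
        = c - r * (t + π ⬝ᵥ b₁) * (π ⬝ᵥ e - 1) := by
      rw [dotProduct_sub, dotProduct_smul, dotProduct_sub, dotProduct_smul, ← hcc, smul_eq_mul,
        smul_eq_mul]
      ring
    rw [h5]
    exact 𝔟.sub_mem hc (𝔟.mul_mem_left _ h.pe))
  refine ⟨a', (t + π ⬝ᵥ b₁) • e - b₁, by rw [← ha', sub_add_cancel], ?_⟩
  rw [mulVec_sub, mulVec_smul, h.de, smul_zero, zero_sub, neg_neg, hb₁]

theorem res_kos_step [DecidableEq κ] {g : ℕ} {𝔠 : Ideal R} {k : Matrix κ κ R} {hk : κ → ℕ}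
    {π e π' e' : κ → R} (h : Kos g 𝔠 k hk π e π' e') {r : R} (hr : ∀ a, r * a ∈ 𝔠 → a ∈ 𝔠) :
    Kos (g + 1) (𝔠 ⊔ Ideal.span {r}) (fromBlocks k (r • 1) 0 (-k)) (Sum.elim hk fun j => hk j + 1)
      (Sum.elim π 0) (Sum.elim e 0) (Sum.elim 0 π') (Sum.elim 0 e') := by
  have hl : 𝔠 ≤ 𝔠 ⊔ Ideal.span {r} := le_sup_left
  have hr' : ∀ x, r * x ∈ 𝔠 ⊔ Ideal.span {r} := fun x =>
    Ideal.mem_sup_right (Ideal.mul_mem_right _ _ (Ideal.mem_span_singleton_self r))
  have hdd : fromBlocks k (r • 1) 0 (-k) * fromBlocks k (r • (1 : Matrix κ κ R)) 0 (-k) = 0 := by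
    rw [fromBlocks_multiply]
    simp [h.res.dd]
  refine ⟨⟨hdd, ?_, ?_, ?_, ?_⟩, ⟨?_, ?_, ?_, ?_, ?_⟩, ?_, ?_, ?_, ?_, ?_⟩
  · rw [vecMul_fromBlocks]
    rintro (j | j)
    · simpa using hl (h.res.pd j)
    · simpa [vecMul_smul] using hr' (π j)
  · rw [fromBlocks_mulVec]
    ext (j | j) <;> simp [h.res.de]
  · simpa [sumElim_dotProduct_sumElim] using hl h.res.pe
  · intro v hv hπ
    rw [fromBlocks_mulVec] at hv
    have h1 := congrArg (· ∘ Sum.inl) hv
    have h2 := congrArg (· ∘ Sum.inr) hv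
    rw [← Sum.elim_comp_inl_inr v, sumElim_dotProduct_sumElim, zero_dotProduct, add_zero] at hπ
    obtain ⟨a', b', ha, hb⟩ := h.res.res_cone hr (a := v ∘ Sum.inl) (b := v ∘ Sum.inr)
      (by simpa [smul_mulVec] using h1) (by simpa [neg_mulVec] using h2) hπ
    refine ⟨Sum.elim a' b', ?_⟩
    rw [fromBlocks_mulVec, ← Sum.elim_comp_inl_inr v, ha, hb]
    simp [smul_mulVec, neg_mulVec]
  · rw [← transpose_mul, hdd, transpose_zero]
  · rw [fromBlocks_transpose, vecMul_fromBlocks]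
    rintro (j | j)
    · simpa [vecMul_smul] using hr' (π' j)
    · simpa [vecMul_neg] using hl (h.res'.pd j)
  · rw [fromBlocks_transpose, fromBlocks_mulVec]
    ext (j | j) <;> simp [neg_mulVec, h.res'.de]
  · simpa [sumElim_dotProduct_sumElim] using hl h.res'.pe
  · intro v hv hπ
    rw [fromBlocks_transpose, fromBlocks_mulVec] at hv
    have h1 := congrArg (· ∘ Sum.inl) hv
    have h2 := congrArg (· ∘ Sum.inr) hv
    rw [← Sum.elim_comp_inl_inr v, sumElim_dotProduct_sumElim, zero_dotProduct, zero_add] at hπ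
    obtain ⟨a', b', ha, hb⟩ := h.res'.neg.res_cone hr (a := v ∘ Sum.inr) (b := v ∘ Sum.inl)
      (by simpa [smul_mulVec, add_comm] using h2) (by simpa [neg_mulVec] using h1) hπ
    refine ⟨Sum.elim b' a', ?_⟩
    rw [fromBlocks_transpose, fromBlocks_mulVec, ← Sum.elim_comp_inl_inr v, ha, hb]
    simp [smul_mulVec, neg_mulVec, add_comm]
  · rintro (i | i) (j | j) hij
    · exact h.gr i j hij
    · by_cases h1 : i = j
      · subst h1; rfl
      · exact absurd (by simp [h1]) hij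
    · exact absurd rfl hij
    · have := h.gr i j (neg_ne_zero.1 hij)
      simp only [Sum.elim_inr]; omega
  · rintro (j | j)
    · exact (h.le j).trans (Nat.le_succ g)
    · exact Nat.succ_le_succ (h.le j)
  · rintro (i | i) (j | j)
    · exact hl (h.mem i j)
    · exact hr' _
    · exact Ideal.zero_mem _
    · exact hl (𝔠.neg_mem (h.mem i j))
  · rintro (j | j) hj
    · exact h.supp j hj
    · rfl
  · rintro (j | j) hj
    · rfl
    · exact h.supp' j fun h1 => hj (by simp [h1])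

theorem exists_kos {f : List R} (hf : RingTheory.Sequence.IsWeaklyRegular R f) :
    ∃ (κ : Type) (_ : Fintype κ) (_ : DecidableEq κ) (k : Matrix κ κ R) (hk : κ → ℕ)
      (π e π' e' : κ → R), Kos f.length (Ideal.ofList f) k hk π e π' e' := by
  induction f using List.reverseRecOn with
  | nil =>
    have h0 : Res (0 : Matrix Unit Unit R) (Ideal.ofList []) 1 1 :=
      ⟨by simp, by simp, by simp, by simp [dotProduct], fun v _ hv => ⟨0, by
        ext i
        simpa [dotProduct] using hv⟩⟩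
    exact ⟨Unit, inferInstance, inferInstance, 0, 0, 1, 1, 1, 1, h0, h0,
      fun i j hij => absurd rfl hij, fun _ => le_rfl, fun _ _ => Ideal.zero_mem _,
      fun _ hj => absurd rfl hj, fun _ hj => absurd rfl hj⟩
  | append_singleton f r ih =>
    rw [RingTheory.Sequence.isWeaklyRegular_append_iff,
      RingTheory.Sequence.isWeaklyRegular_singleton_iff] at hf
    obtain ⟨κ, _, _, k, hk, π, e, π', e', h⟩ := ih hf.1
    have hr : ∀ a, r * a ∈ Ideal.ofList f → a ∈ Ideal.ofList f := fun a ha => by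
      have h1 : (Ideal.ofList f • ⊤ : Submodule R R) = Ideal.ofList f := by
        rw [smul_eq_mul, Ideal.mul_top]
      have h2 := hf.2
      rw [h1] at h2
      refine (Submodule.Quotient.mk_eq_zero _).1 (h2.right_eq_zero_of_smul ?_)
      rw [← Submodule.Quotient.mk_smul, Submodule.Quotient.mk_eq_zero]
      exact ha
    rw [List.length_append, List.length_singleton, Ideal.ofList_append, Ideal.ofList_singleton]
    exact ⟨κ ⊕ κ, inferInstance, inferInstance, _, _, _, _, _, _, res_kos_step h hr⟩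

/-- Row vectors that are cocycles modulo `I`. -/
def Zc (I : Ideal R) (d : Matrix ι ι R) : Submodule R (ι → R) where
  carrier := {w | ∀ j, (w ᵥ* d) j ∈ I}
  add_mem' ha hb j := by rw [add_vecMul]; exact I.add_mem (ha j) (hb j)
  zero_mem' j := by rw [zero_vecMul]; exact I.zero_mem
  smul_mem' c w hw j := by rw [smul_vecMul]; exact I.mul_mem_left c (hw j)

/-- Row vectors that are coboundaries modulo `I`. -/
def Bd (I : Ideal R) (d : Matrix ι ι R) : Submodule R (ι → R) where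
  carrier := {w | ∃ u, ∀ j, (w - u ᵥ* d) j ∈ I}
  add_mem' := by
    rintro a b ⟨u, hu⟩ ⟨v, hv⟩
    refine ⟨u + v, fun j => ?_⟩
    rw [add_vecMul, add_sub_add_comm]
    exact I.add_mem (hu j) (hv j)
  zero_mem' := ⟨0, fun j => by rw [zero_vecMul, sub_zero]; exact I.zero_mem⟩
  smul_mem' := by
    rintro c w ⟨u, hu⟩
    refine ⟨c • u, fun j => ?_⟩
    rw [smul_vecMul, ← smul_sub]
    exact I.mul_mem_left c (hu j)

/-- The cohomology of the row vectors modulo `I`. -/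
abbrev Uc (I : Ideal R) (d : Matrix ι ι R) : Type := Zc I d ⧸ (Bd I d).submoduleOf (Zc I d)

/-- Non-zero-divisors modulo `J` are regular on the cohomology modulo `I`. -/
def TF (J I : Ideal R) (d : Matrix ι ι R) : Prop :=
  ∀ h, (∀ a, h * a ∈ J → a ∈ J) → ∀ w ∈ Zc I d, h • w ∈ Bd I d → w ∈ Bd I d

/-- The map induced on cohomology by right multiplication with a matrix. -/
def Uc.map (I : Ideal R) {d : Matrix ι ι R} {d' : Matrix κ κ R} (X : Matrix ι κ R)
    (hZ : ∀ w ∈ Zc I d, w ᵥ* X ∈ Zc I d') (hB : ∀ w ∈ Bd I d, w ᵥ* X ∈ Bd I d') :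
    Uc I d →ₗ[R] Uc I d' :=
  Submodule.mapQ _ _ (X.vecMulLinear.restrict hZ) fun w hw => hB w hw

theorem Uc.map_mk (I : Ideal R) {d : Matrix ι ι R} {d' : Matrix κ κ R} (X : Matrix ι κ R)
    (hZ : ∀ w ∈ Zc I d, w ᵥ* X ∈ Zc I d') (hB : ∀ w ∈ Bd I d, w ᵥ* X ∈ Bd I d') (w : Zc I d) :
    Uc.map I X hZ hB (Submodule.Quotient.mk w) = Submodule.Quotient.mk ⟨w ᵥ* X, hZ w w.2⟩ := rfl

theorem vecMul_mem_Zc {I : Ideal R} {d : Matrix ι ι R} {d' : Matrix κ κ R} {X Y : Matrix ι κ R}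
    (h : ∀ i j, (X * d' - d * Y) i j ∈ I) {w : ι → R} (hw : w ∈ Zc I d) : w ᵥ* X ∈ Zc I d' := by
  intro j
  have h1 : w ᵥ* X ᵥ* d' = w ᵥ* (X * d' - d * Y) + w ᵥ* d ᵥ* Y := by
    rw [vecMul_vecMul, vecMul_vecMul, vecMul_sub, sub_add_cancel]
  rw [h1]
  exact I.add_mem (res_vecMul_mem_right w h j) (res_vecMul_mem_left hw Y j)

theorem vecMul_mem_Bd {I : Ideal R} {d : Matrix ι ι R} {d' : Matrix κ κ R} {X Y : Matrix ι κ R}
    (h : ∀ i j, (d * X - Y * d') i j ∈ I) {w : ι → R} (hw : w ∈ Bd I d) : w ᵥ* X ∈ Bd I d' := by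
  obtain ⟨u, hu⟩ := hw
  refine ⟨u ᵥ* Y, fun j => ?_⟩
  have h1 : w ᵥ* X - u ᵥ* Y ᵥ* d' = (w - u ᵥ* d) ᵥ* X + u ᵥ* (d * X - Y * d') := by
    rw [sub_vecMul, vecMul_vecMul, vecMul_vecMul, vecMul_sub, sub_add_sub_cancel]
  rw [h1]
  exact I.add_mem (res_vecMul_mem_left hu X j) (res_vecMul_mem_right u h j)

end Pool.Agent.Lib.MP_e9c0f3_ag
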