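import Mathlib

/-! Definitions used in the statement on the variational Hodge conjecture for hypersurfaces. -/

open MvPolynomial Matrix

namespace Pool.Agent.Lib.MP_e9c0f3_ag

variable {R : Type} [CommRing R] {N : ℕ} {ι : Type} [Fintype ι] [DecidableEq ι]

/-- The form `g dx` is exact for the twisted differential `d + dF`; the quotient of the polynomial
ring by these `g` is the Griffiths-Dwork module of `F`. -/
def Exact (F g : MvPolynomial (Fin N) R) : Prop :=
  ∃ h : Fin N → MvPolynomial (Fin N) R, g = ∑ i, (pderiv i (h i) + pderiv i F * h i)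

/-- Apply `D` to every coefficient of a polynomial. -/
noncomputable def coeffMap (D : R → R) (p : MvPolynomial (Fin N) R) : MvPolynomial (Fin N) R :=
  ∑ m ∈ p.support, monomial m (D (coeff m p))

/-- `δ` is a graded matrix factorisation of the form `F` of degree `d`: it is odd for the parity
of `par`, homogeneous of degree `d / 2` for the weights `wt / 2`, and its square is `F`. -/
structure IsMF (d : ℕ) (F : MvPolynomial (Fin N) R) (par : ι → ℕ) (wt : ι → ℤ)
    (δ : Matrix ι ι (MvPolynomial (Fin N) R)) : Prop where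
  odd : ∀ i j, δ i j ≠ 0 → Odd (par i + par j)
  homog : ∀ i j m, coeff m (δ i j) ≠ 0 → 2 * (m.degree : ℤ) + wt i = d + wt j
  sq : δ * δ = scalar ι F

/-- The Chern form: the coefficient of `dx` in the supertrace of the `N`-th power of `dδ`. -/
noncomputable def ch (par : ι → ℕ) (δ : Matrix ι ι (MvPolynomial (Fin N) R)) :
    MvPolynomial (Fin N) R :=
  ∑ π : Equiv.Perm (Fin N), Equiv.Perm.sign π •
    ∑ i, (-1) ^ par i * (List.ofFn fun a => δ.map (pderiv (π a))).prod i i

/-- The class of `β` is the Chern form of a graded matrix factorisation of `F`. -/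
def IsChern (d : ℕ) (F β : MvPolynomial (Fin N) R) : Prop :=
  ∃ (κ : Type) (_ : Fintype κ) (_ : DecidableEq κ) (par : κ → ℕ) (wt : κ → ℤ)
    (δ : Matrix κ κ (MvPolynomial (Fin N) R)), IsMF d F par wt δ ∧ Exact F (β - ch par δ)

/-- The part of `δ` that lowers `par` by one. -/
def low (par : ι → ℕ) (δ : Matrix ι ι R) : Matrix ι ι R :=
  of fun i j => if par i + 1 = par j then δ i j else 0

/-- `δ` is a finite free resolution of `R / I`, with homological degree `par`, plus terms that
raise `par` (a system of higher homotopies). -/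
def Resolves (par : ι → ℕ) (δ : Matrix ι ι R) (I : Ideal R) : Prop :=
  ∃ i₀, (∀ i, par i = 0 ↔ i = i₀) ∧ (∀ i j, par i + 1 < par j → δ i j = 0) ∧
    I = Ideal.span (Set.range (low par δ i₀)) ∧
    ∀ v, low par δ *ᵥ v = 0 → v i₀ = 0 → ∃ u, v = low par δ *ᵥ u

/-- `J` is linked to `I` by a complete intersection of codimension `g`. -/
def Linked (g : ℕ) (I J : Ideal R) : Prop :=
  ∃ f : List R, f.length = g ∧ RingTheory.Sequence.IsRegular R f ∧ Ideal.ofList f ≤ I ∧
    J = (Ideal.ofList f).colon I

/-- `I` is in the linkage class of a complete intersection of codimension `g`. -/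
def Licci (g : ℕ) (I : Ideal R) : Prop :=
  ∃ f : List R, f.length = g ∧ RingTheory.Sequence.IsRegular R f ∧
    Relation.ReflTransGen (Linked g) (Ideal.ofList f) I

end Pool.Agent.Lib.MP_e9c0f3_ag
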