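import Pool.Agent.Lib.MP_e9c0f3_ag.Base

/-! Depth through the vanishing of Ext groups. -/

open MvPolynomial CategoryTheory Abelian

namespace Pool.Agent.Lib.MP_e9c0f3_ag

variable {R : Type} [CommRing R]

/-- `M` has depth at least `n` along `𝔪`. -/
def Dp (𝔪 : Ideal R) (n : ℕ) (M : Type) [AddCommGroup M] [Module R M] : Prop :=
  ∀ X : ModuleCat.{0} R, Module.Finite R X → (∀ a ∈ 𝔪, ∃ r : ℕ, ∀ x : X, a ^ r • x = 0) →
    ∀ i < n, Subsingleton (Ext X (ModuleCat.of R M) i)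

variable {𝔪 : Ideal R} {n : ℕ} {M M₁ M₂ M₃ : Type} [AddCommGroup M] [Module R M]
  [AddCommGroup M₁] [Module R M₁] [AddCommGroup M₂] [Module R M₂] [AddCommGroup M₃] [Module R M₃]

theorem Dp.mono {m : ℕ} (h : Dp 𝔪 n M) (hm : m ≤ n) : Dp 𝔪 m M :=
  fun X hX ht i hi => h X hX ht i (hi.trans_le hm)

theorem Dp.zero : Dp 𝔪 0 M := fun _ _ _ _ hi => absurd hi (Nat.not_lt_zero _)

theorem Dp.of_subsingleton [Subsingleton M] : Dp 𝔪 n M := fun X _ _ i _ => by
  refine subsingleton_of_forall_eq 0 fun x => ?_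
  have e : 𝟙 (ModuleCat.of R M) = 0 := ModuleCat.hom_ext (LinearMap.ext fun _ => Subsingleton.elim _ _)
  rw [← Ext.comp_mk₀_id x, e, Ext.mk₀_zero, Ext.comp_zero]

theorem Dp.retract (i : M₁ →ₗ[R] M₂) (p : M₂ →ₗ[R] M₁) (h : ∀ x, p (i x) = x) (h₂ : Dp 𝔪 n M₂) :
    Dp 𝔪 n M₁ := fun X hX ht j hj => by
  have := h₂ X hX ht j hj
  refine subsingleton_of_forall_eq 0 fun x => ?_
  have e : 𝟙 (ModuleCat.of R M₁) = ModuleCat.ofHom i ≫ ModuleCat.ofHom p :=
    ModuleCat.hom_ext (LinearMap.ext fun y => (h y).symm)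
  rw [← Ext.comp_mk₀_id x, e, ← Ext.mk₀_comp_mk₀, ← Ext.comp_assoc_of_third_deg_zero,
    Subsingleton.elim (x.comp _ _) 0, Ext.zero_comp]

theorem Dp.equiv (e : M₁ ≃ₗ[R] M₂) (h₂ : Dp 𝔪 n M₂) : Dp 𝔪 n M₁ :=
  h₂.retract e.toLinearMap e.symm.toLinearMap e.symm_apply_apply

theorem depth_ses {f : M₁ →ₗ[R] M₂} {g : M₂ →ₗ[R] M₃} (hf : Function.Injective f)
    (hg : Function.Surjective g) (hfg : Function.Exact f g) :
    (ShortComplex.moduleCatMk f g hfg.linearMap_comp_eq_zero).ShortExact :=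
  ModuleCat.shortComplex_shortExact _ hfg hf hg

theorem Dp.mid {f : M₁ →ₗ[R] M₂} {g : M₂ →ₗ[R] M₃} (hf : Function.Injective f)
    (hg : Function.Surjective g) (hfg : Function.Exact f g) (h₁ : Dp 𝔪 n M₁) (h₃ : Dp 𝔪 n M₃) :
    Dp 𝔪 n M₂ := fun X hX ht i hi => by
  have e₁ := h₁ X hX ht i hi
  have e₃ := h₃ X hX ht i hi
  refine subsingleton_of_forall_eq 0 fun x => ?_
  obtain ⟨y, rfl⟩ := Ext.covariant_sequence_exact₂ X (depth_ses hf hg hfg) x (e₃.elim _ _)
  rw [e₁.elim y 0]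
  exact Ext.zero_comp _ _ _ _ _

theorem Dp.right {f : M₁ →ₗ[R] M₂} {g : M₂ →ₗ[R] M₃} (hf : Function.Injective f)
    (hg : Function.Surjective g) (hfg : Function.Exact f g) (h₁ : Dp 𝔪 (n + 1) M₁)
    (h₂ : Dp 𝔪 n M₂) : Dp 𝔪 n M₃ := fun X hX ht i hi => by
  have e₁ := h₁ X hX ht (i + 1) (by omega)
  have e₂ := h₂ X hX ht i hi
  refine subsingleton_of_forall_eq 0 fun x => ?_
  obtain ⟨y, rfl⟩ := Ext.covariant_sequence_exact₃ X (depth_ses hf hg hfg) x rfl (e₁.elim _ _)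
  rw [e₂.elim y 0]
  exact Ext.zero_comp _ _ _ _ _

theorem Dp.left {f : M₁ →ₗ[R] M₂} {g : M₂ →ₗ[R] M₃} (hf : Function.Injective f)
    (hg : Function.Surjective g) (hfg : Function.Exact f g) (h₂ : Dp 𝔪 (n + 1) M₂)
    (h₃ : Dp 𝔪 n M₃) : Dp 𝔪 (n + 1) M₁ := fun X hX ht i hi => by
  have e₂ := h₂ X hX ht i hi
  refine subsingleton_of_forall_eq 0 fun x => ?_
  rcases i with _ | i
  · have := (depth_ses hf hg hfg).mono_f
    exact Ext.postcomp_mk₀_injective_of_mono X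
      (ShortComplex.moduleCatMk f g hfg.linearMap_comp_eq_zero).f (e₂.elim _ _)
  · have e₃ := h₃ X hX ht i (by omega)
    obtain ⟨y, rfl⟩ := Ext.covariant_sequence_exact₁ X (depth_ses hf hg hfg) x (e₂.elim _ _) rfl
    rw [e₃.elim y 0]
    exact Ext.zero_comp _ _ _ _ _

theorem Dp.one_of_injective {f : M₁ →ₗ[R] M₂} (hf : Function.Injective f) (h₂ : Dp 𝔪 1 M₂) :
    Dp 𝔪 1 M₁ :=
  Dp.left hf (Submodule.mkQ_surjective _) f.exact_map_mkQ_range h₂ Dp.zero

theorem depth_prod (h₁ : Dp 𝔪 n M₁) (h₂ : Dp 𝔪 n M₂) : Dp 𝔪 n (M₁ × M₂) :=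
  Dp.mid LinearMap.inl_injective LinearMap.snd_surjective .inl_snd h₁ h₂

theorem Dp.pi {ι : Type} [Finite ι] (h : Dp 𝔪 n M) : Dp 𝔪 n (ι → M) := by
  induction ι using Finite.induction_empty_option with
  | of_equiv e ih => exact ih.equiv (LinearEquiv.funCongrLeft R M e)
  | h_empty => exact Dp.of_subsingleton
  | h_option ih => exact (depth_prod h ih).equiv (LinearEquiv.piOptionEquivProd R)

theorem Dp.eq_zero (h : Dp 𝔪 1 M) {x : M} (hx : ∀ a ∈ 𝔪, ∃ r : ℕ, a ^ r • x = 0) : x = 0 := by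
  have e := h (ModuleCat.of R (R ∙ x)) inferInstance (fun a ha => by
    obtain ⟨r, hr⟩ := hx a ha
    refine ⟨r, fun y => Subtype.ext ?_⟩
    obtain ⟨c, hc⟩ := Submodule.mem_span_singleton.1 y.2
    change a ^ r • (y.1 : M) = 0
    rw [← hc, smul_comm, hr, smul_zero]) 0 Nat.one_pos
  have e2 : ModuleCat.ofHom (R ∙ x).subtype = 0 := (Ext.mk₀_eq_zero_iff _).1 (e.elim _ _)
  exact congrArg (fun φ => φ.hom ⟨x, Submodule.mem_span_singleton_self x⟩) e2

theorem depth_quot {f : List R} : ∀ {n : ℕ} {M : Type} [AddCommGroup M] [Module R M], Dp 𝔪 n M →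
    RingTheory.Sequence.IsWeaklyRegular M f →
      Dp 𝔪 (n - f.length) (M ⧸ (Ideal.ofList f • ⊤ : Submodule R M)) := by
  induction f with
  | nil =>
    intro n M _ _ h _
    exact h.equiv (Submodule.quotEquivOfEqBot _ (by simp))
  | cons r f ih =>
    intro n M _ _ h hf
    obtain ⟨h1, h2⟩ := (RingTheory.Sequence.isWeaklyRegular_cons_iff M r f).1 hf
    rcases n with _ | n
    · rw [Nat.zero_sub]
      exact Dp.zero
    · have h3 : Dp 𝔪 n (QuotSMulTop r M) :=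
        Dp.right (f := LinearMap.lsmul R M r) h1 (Submodule.mkQ_surjective _)
          (fun y => by
            rw [Submodule.mkQ_apply, Submodule.Quotient.mk_eq_zero, Submodule.mem_smul_pointwise_iff_exists]
            simp) h (h.mono n.le_succ)
      rw [List.length_cons, Nat.add_sub_add_right]
      exact (ih h3 h2).equiv (Submodule.quotOfListConsSMulTopEquivQuotSMulTopInner M r f)

theorem Dp.quot_list (h : Dp 𝔪 n R) {f : List R} (hf : RingTheory.Sequence.IsWeaklyRegular R f) :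
    Dp 𝔪 (n - f.length) (R ⧸ Ideal.ofList f) :=
  (depth_quot h hf).equiv (Submodule.quotEquivOfEq _ _ (by simp))

theorem dp_pol {K : Type} [Field K] {N : ℕ} : Dp (mx N K) N (Pol N K) := by
  intro Y hY ht i hi
  have hne : mx N K ≠ ⊤ := by
    rw [Ne, Ideal.eq_top_iff_one, mx, ← Set.image_univ, mem_ideal_span_X_image]
    intro h
    simpa using h 0 (by simp)
  have hof : Ideal.ofList (List.ofFn (X : Fin N → Pol N K)) = mx N K := by
    simp only [Ideal.ofList, mx, List.mem_ofFn]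
    rfl
  refine ModuleCat.subsingleton_ext_of_exists_isRegular (mx N K) Y ?_ (ModuleCat.of _ (Pol N K))
    (by simpa [lt_top_iff_ne_top] using hne) (List.ofFn X) (fun r hr => ?_) ⟨⟨fun j hj => ?_⟩, ?_⟩
    i (by simpa using hi)
  · rw [Module.support_eq_zeroLocus, PrimeSpectrum.zeroLocus_subset_zeroLocus_iff]
    intro a ha
    obtain ⟨r, hr⟩ := ht a ha
    exact ⟨r, Module.mem_annihilator.2 hr⟩
  · rw [← hof]
    exact Ideal.subset_span hr
  · have hj' : j < N := by simpa using hj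
    have e : Ideal.ofList ((List.ofFn (X : Fin N → Pol N K)).take j) =
        Ideal.span (X '' {l : Fin N | l.1 < j}) := by
      refine congrArg Ideal.span (Set.ext fun a => ?_)
      simp only [Set.mem_setOf_eq, List.mem_take_iff_getElem, List.getElem_ofFn, List.length_ofFn,
        Set.mem_image]
      exact ⟨fun ⟨l, hl, h⟩ => ⟨⟨l, by omega⟩, by simp only; omega, h⟩,
        fun ⟨l, hl, h⟩ => ⟨l.1, by omega, h⟩⟩
    rw [isSMulRegular_quotient_iff_mem_of_smul_mem, e, List.getElem_ofFn]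
    intro p hp
    simp only [smul_eq_mul, Ideal.mul_top, mem_ideal_span_X_image] at hp ⊢
    intro m hm
    obtain ⟨l, hl, h⟩ := hp (Finsupp.single ⟨j, hj'⟩ 1 + m)
      (by rwa [mem_support_iff, coeff_X_mul, ← mem_support_iff])
    have hl' : l ≠ ⟨j, hj'⟩ := fun h0 => by simp [h0] at hl
    exact ⟨l, hl, by simpa [Finsupp.single_eq_of_ne hl'] using h⟩
  · rw [hof]
    simpa using hne.symm

/-- The acyclicity lemma of Peskine and Szpiro. -/
theorem Dp.acyclic {g : ℕ} (U : ℕ → Submodule R M) (D : M →ₗ[R] M) (hDD : ∀ x, D (D x) = 0)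
    (hD : ∀ i, ∀ x ∈ U (i + 1), D x ∈ U i) (hU : ∀ i, g < i → U i = ⊥)
    (hdp : ∀ i, Dp 𝔪 g (U i))
    (htor : ∀ i, ∀ x ∈ U (i + 1), D x = 0 → ∀ a ∈ 𝔪, ∃ r : ℕ, ∃ y ∈ U (i + 2), a ^ r • x = D y) :
    ∀ i, ∀ x ∈ U (i + 1), D x = 0 → ∃ y ∈ U (i + 2), x = D y := by
  have key : ∀ k i, g ≤ i + k → Dp 𝔪 (i + 1) ((U (i + 1)).map D) ∧
      ∀ x ∈ U (i + 1), D x = 0 → x ∈ (U (i + 2)).map D := by
    have triv : ∀ i, g ≤ i → Dp 𝔪 (i + 1) ((U (i + 1)).map D) ∧
        ∀ x ∈ U (i + 1), D x = 0 → x ∈ (U (i + 2)).map D := fun i hi => by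
      rw [hU (i + 1) (by omega), Submodule.map_bot]
      refine ⟨Dp.of_subsingleton, fun x hx _ => ?_⟩
      rw [(Submodule.mem_bot R).1 hx]
      exact zero_mem _
    intro k
    induction k with
    | zero => exact triv
    | succ k ih =>
      intro i hi
      rcases le_or_gt g i with h0 | h0
      · exact triv i h0
      have h1 := (ih (i + 1) (by omega)).1
      have hle : (U (i + 2)).map D ≤ LinearMap.ker D ⊓ U (i + 1) := by
        rintro _ ⟨y, hy, rfl⟩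
        exact ⟨hDD y, hD _ y hy⟩
      have h2 : Dp 𝔪 1 ↥(LinearMap.ker D ⊓ U (i + 1)) :=
        Dp.one_of_injective (Submodule.inclusion_injective inf_le_right) ((hdp _).mono (by omega))
      have h3 := Dp.right (Submodule.inclusion_injective hle) (Submodule.mkQ_surjective _)
        (Submodule.inclusion hle).exact_map_mkQ_range (h1.mono (by omega)) h2
      have h4 : ∀ x ∈ U (i + 1), D x = 0 → x ∈ (U (i + 2)).map D := fun x hx hx0 => by
        have h5 := h3.eq_zero (x := Submodule.Quotient.mk ⟨x, hx0, hx⟩) fun a ha => by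
          obtain ⟨r, y, hy, e⟩ := htor i x hx hx0 a ha
          refine ⟨r, ?_⟩
          rw [← Submodule.Quotient.mk_smul, Submodule.Quotient.mk_eq_zero]
          exact ⟨⟨D y, y, hy, rfl⟩, Subtype.ext e.symm⟩
        obtain ⟨y, hy⟩ := (Submodule.Quotient.mk_eq_zero _).1 h5
        have h6 : (y : M) = x := congrArg Subtype.val hy
        exact h6 ▸ y.2
      refine ⟨Dp.right (f := Submodule.inclusion (hle.trans inf_le_right))
        (g := D.submoduleMap (U (i + 1))) (Submodule.inclusion_injective _)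
        (D.submoduleMap_surjective _) (fun x => ⟨fun hx => ?_, ?_⟩) h1
        ((hdp _).mono (by omega)), h4⟩
      · exact ⟨⟨x, h4 x x.2 (congrArg Subtype.val hx)⟩, rfl⟩
      · rintro ⟨y, rfl⟩
        exact Subtype.ext (hle y.2).1
  intro i x hx hx0
  obtain ⟨y, hy, e⟩ := (key g i (by omega)).2 x hx hx0
  exact ⟨y, hy, e.symm⟩

end Pool.Agent.Lib.MP_e9c0f3_ag
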