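import Pool.Agent.Lib.MP_e9c0f3_ag.Base

/-! The twisted de Rham complex in the two top degrees. -/

open MvPolynomial

namespace Pool.Agent.Lib.MP_e9c0f3_ag

section Ring

variable {R : Type} [CommRing R] {N : ℕ}

theorem mem_lt_iff {p : Pol N R} {n : ℕ} :
    p ∈ lt N R n ↔ ∀ m : Fin N →₀ ℕ, n ≤ m.degree → coeff m p = 0 := Iff.rfl

theorem lt_mono {m n : ℕ} (h : m ≤ n) : lt N R m ≤ lt N R n :=
  fun _ hp a ha => hp a (h.trans ha)

theorem eq_zero_of_mem_lt_zero {p : Pol N R} (h : p ∈ lt N R 0) : p = 0 := by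
  ext m
  exact h m (Nat.zero_le _)

theorem mem_lt_of_totalDegree {p : Pol N R} {n : ℕ} (h : p.totalDegree < n) : p ∈ lt N R n := by
  intro m hm
  apply coeff_eq_zero_of_totalDegree_lt
  rw [← Finsupp.degree_apply]
  omega

theorem mem_lt_of_isHomogeneous {p : Pol N R} {e n : ℕ} (h : p.IsHomogeneous e) (hn : e < n) :
    p ∈ lt N R n :=
  mem_lt_of_totalDegree (lt_of_le_of_lt h.totalDegree_le hn)

theorem exists_mem_lt {α : Type} [Finite α] (p : α → Pol N R) : ∃ n, ∀ a, p a ∈ lt N R n := by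
  obtain ⟨n, hn⟩ := (Set.finite_range fun a => (p a).totalDegree).bddAbove
  exact ⟨n + 1, fun a => mem_lt_of_totalDegree (Nat.lt_succ_of_le (hn ⟨a, rfl⟩))⟩

theorem pderiv_mem_lt {p : Pol N R} {n : ℕ} (h : p ∈ lt N R n) (i : Fin N) :
    pderiv i p ∈ lt N R (n - 1) := by
  intro m hm
  rw [coeff_pderiv, h _ (by rw [map_add, Finsupp.degree_single]; omega), zero_mul]

theorem mul_mem_lt {t p : Pol N R} {e n : ℕ} (ht : t.IsHomogeneous e) (h : p ∈ lt N R n) :
    t * p ∈ lt N R (n + e) := by
  classical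
  intro m hm
  rw [coeff_mul]
  refine Finset.sum_eq_zero fun x hx => ?_
  have hx' : x.1 + x.2 = m := Finset.HasAntidiagonal.mem_antidiagonal.1 hx
  have hdeg : x.1.degree + x.2.degree = m.degree := by rw [← hx', map_add]
  by_cases h1 : x.1.degree = e
  · rw [h x.2 (by omega), mul_zero]
  · rw [ht.coeff_eq_zero h1, zero_mul]

theorem map_mem_lt {R' : Type} [CommRing R'] (f : R →+* R') {p : Pol N R} {n : ℕ}
    (h : p ∈ lt N R n) : map f p ∈ lt N R' n := by
  intro m hm
  rw [coeff_map, h m hm, map_zero]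

theorem exists_map_eq_of_mem_lt {R' : Type} [CommRing R'] (f : R →+* R')
    (hf : Function.Surjective f) {p : Pol N R'} {n : ℕ} (h : p ∈ lt N R' n) :
    ∃ q ∈ lt N R n, map f q = p := by
  classical
  choose g hg using hf
  refine ⟨∑ m ∈ p.support, monomial m (g (coeff m p)), Submodule.sum_mem _ fun m hm => ?_, ?_⟩
  · intro a ha
    rw [coeff_monomial, if_neg]
    rintro rfl
    exact mem_support_iff.1 hm (h _ ha)
  · rw [map_sum]
    simp only [map_monomial, hg]
    exact (as_sum p).symm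

theorem dtw_add (F : Pol N R) (h h' : Fin N → Pol N R) :
    dtw F (h + h') = dtw F h + dtw F h' := by
  simp only [dtw, Pi.add_apply, map_add, ← Finset.sum_add_distrib]
  exact Finset.sum_congr rfl fun i _ => by ring

theorem dtw_sub (F : Pol N R) (h h' : Fin N → Pol N R) :
    dtw F (h - h') = dtw F h - dtw F h' := by
  simp only [dtw, Pi.sub_apply, map_sub, ← Finset.sum_sub_distrib]
  exact Finset.sum_congr rfl fun i _ => by ring

theorem dtw_smul (F : Pol N R) (c : R) (h : Fin N → Pol N R) :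
    dtw F (c • h) = c • dtw F h := by
  simp only [dtw, Pi.smul_apply, Finset.smul_sum, smul_add, Derivation.map_smul, mul_smul_comm]

theorem dtw_zero (F : Pol N R) : dtw F 0 = 0 := by simp [dtw]

theorem map_dtw {R' : Type} [CommRing R'] (f : R →+* R') (F : Pol N R) (h : Fin N → Pol N R) :
    map f (dtw F h) = dtw (map f F) fun i => map f (h i) := by
  simp only [dtw, map_sum, map_add, map_mul, pderiv_map]

theorem map_dtw' {R' : Type} [CommRing R'] (f : R →+* R') (F : Pol N R)
    (a : Fin N → Fin N → Pol N R) (i : Fin N) :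
    map f (dtw' F a i) = dtw' (map f F) (fun i j => map f (a i j)) i := by
  simp only [dtw', map_sum, map_add, map_mul, pderiv_map]

theorem Exact.zero (F : Pol N R) : Exact F 0 := exact_iff.2 ⟨0, (dtw_zero F).symm⟩

theorem Exact.add {F g g' : Pol N R} (h : Exact F g) (h' : Exact F g') : Exact F (g + g') := by
  obtain ⟨a, rfl⟩ := exact_iff.1 h
  obtain ⟨b, rfl⟩ := exact_iff.1 h'
  exact exact_iff.2 ⟨a + b, (dtw_add F a b).symm⟩

theorem Exact.sub {F g g' : Pol N R} (h : Exact F g) (h' : Exact F g') : Exact F (g - g') := by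
  obtain ⟨a, rfl⟩ := exact_iff.1 h
  obtain ⟨b, rfl⟩ := exact_iff.1 h'
  exact exact_iff.2 ⟨a - b, (dtw_sub F a b).symm⟩

theorem Exact.neg {F g : Pol N R} (h : Exact F g) : Exact F (-g) := by
  simpa using (Exact.zero F).sub h

theorem Exact.map {R' : Type} [CommRing R'] (f : R →+* R') {F g : Pol N R} (h : Exact F g) :
    Exact (map f F) (map f g) := by
  obtain ⟨a, rfl⟩ := exact_iff.1 h
  exact exact_iff.2 ⟨_, map_dtw f F a⟩

theorem pderiv_pderiv_comm (i j : Fin N) (p : Pol N R) :
    pderiv i (pderiv j p) = pderiv j (pderiv i p) := by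
  classical
  induction p using MvPolynomial.induction_on with
  | C a => simp
  | add p q hp hq => simp only [map_add, hp, hq]
  | mul_X p n hp =>
    have h1 : ∀ a b : Fin N, pderiv a (pderiv b (X n : Pol N R)) = 0 := fun a b => by
      rw [pderiv_X]
      by_cases h : n = b
      · subst h; simp
      · simp [h]
    simp only [Derivation.leibniz, map_add, smul_eq_mul, hp, h1]
    ring

theorem sum_antisymm {M : Type} [AddCommGroup M] (t : Fin N → Fin N → M)
    (ht : ∀ i j, t j i = -t i j) (h0 : ∀ i, t i i = 0) : ∑ i, ∑ j, t i j = 0 := by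
  rw [← Finset.sum_product']
  refine Finset.sum_involution (fun x _ => x.swap) (fun x _ => ?_) (fun x _ hx h => ?_)
    (fun x _ => by simp) (fun x _ => rfl)
  · simp only [Prod.fst_swap, Prod.snd_swap]
    rw [ht x.1 x.2, add_neg_cancel]
  · have h1 : x.2 = x.1 := congrArg Prod.fst h
    exact hx (by rw [h1, h0])

theorem dtw_dtw' (F : Pol N R) {a : Fin N → Fin N → Pol N R} (ha : ∀ i j, a j i = -a i j)
    (ha0 : ∀ i, a i i = 0) : dtw F (dtw' F a) = 0 := by
  have := sum_antisymm (fun i j => pderiv i (pderiv j (a i j) + pderiv j F * a i j) +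
    pderiv i F * (pderiv j (a i j) + pderiv j F * a i j)) (fun i j => by
      rw [ha i j]
      simp only [map_add, map_neg, mul_neg, Derivation.leibniz, smul_eq_mul,
        pderiv_pderiv_comm j i]
      ring) (fun i => by simp [ha0])
  rw [← this]
  simp only [dtw, dtw', map_sum, Finset.mul_sum, ← Finset.sum_add_distrib]

theorem dtw_mem_lt {F : Pol N R} {d n : ℕ} (hF : F.IsHomogeneous d) {h : Fin N → Pol N R}
    (hh : ∀ i, h i ∈ lt N R n) : dtw F h ∈ lt N R (n + (d - 1)) :=
  Submodule.sum_mem _ fun i _ => Submodule.add_mem _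
    (lt_mono (by omega) (pderiv_mem_lt (hh i) i)) (mul_mem_lt hF.pderiv (hh i))

theorem dtw'_mem_lt {F : Pol N R} {d n : ℕ} (hF : F.IsHomogeneous d)
    {a : Fin N → Fin N → Pol N R} (ha : ∀ i j, a i j ∈ lt N R (n - (d - 1))) (i : Fin N) :
    dtw' F a i ∈ lt N R n := by
  refine Submodule.sum_mem _ fun j _ => Submodule.add_mem _
    (lt_mono (by omega) (pderiv_mem_lt (ha i j) j)) ?_
  by_cases hn : d - 1 ≤ n
  · exact lt_mono (by omega) (mul_mem_lt hF.pderiv (ha i j))
  · have h0 : a i j = 0 := eq_zero_of_mem_lt_zero (lt_mono (by omega) (ha i j))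
    rw [h0, mul_zero]
    exact Submodule.zero_mem _

end Ring

end Pool.Agent.Lib.MP_e9c0f3_ag
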