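import Pool.Agent.Lib.MP_e9c0f3_ag.Std2
import Pool.Agent.Lib.MP_e9c0f3_ag.Tw

/-! The Chern form of a family of matrix factorisations is flat. -/

open MvPolynomial Matrix

namespace Pool.Agent.Lib.MP_e9c0f3_ag

variable {R : Type} [CommRing R] {N : ℕ} {ι : Type}

theorem coeff_coeffMap {D : R → R} (h0 : D 0 = 0) (p : Pol N R) (m : Fin N →₀ ℕ) :
    coeff m (coeffMap D p) = D (coeff m p) := by
  classical
  unfold coeffMap
  rw [coeff_sum]
  simp only [coeff_monomial]
  rw [Finset.sum_ite_eq']
  split_ifs with h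
  · rfl
  · rw [notMem_support_iff.1 h, h0]

theorem flat_coeff_sum {R' : Type} [CommRing R'] (φ : R →+ R') (p : Pol N R) (m : Fin N →₀ ℕ) :
    coeff m (∑ m ∈ p.support, monomial m (φ (coeff m p)) : Pol N R') = φ (coeff m p) := by
  classical
  rw [coeff_sum]
  simp only [coeff_monomial]
  rw [Finset.sum_ite_eq']
  split_ifs with h
  · rfl
  · rw [notMem_support_iff.1 h, map_zero]

/-- An additive map applied to the coefficients. -/
noncomputable def cmap {R' : Type} [CommRing R'] (φ : R →+ R') : Pol N R →+ Pol N R' where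
  toFun p := ∑ m ∈ p.support, monomial m (φ (coeff m p))
  map_zero' := by simp
  map_add' := fun p q => by
    ext m
    rw [coeff_add, flat_coeff_sum, flat_coeff_sum, flat_coeff_sum, coeff_add, map_add]

section

variable {R' : Type} [CommRing R']

theorem coeff_cmap (φ : R →+ R') (p : Pol N R) (m : Fin N →₀ ℕ) :
    coeff m (cmap φ p) = φ (coeff m p) := flat_coeff_sum φ p m

theorem coeffMap_eq_cmap (φ : R →+ R) (p : Pol N R) : coeffMap φ p = cmap φ p := rfl

theorem cmap_pderiv (φ : R →+ R') (i : Fin N) (p : Pol N R) :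
    cmap φ (pderiv i p) = pderiv i (cmap φ p) := by
  ext m
  rw [coeff_cmap, coeff_pderiv, coeff_pderiv, coeff_cmap]
  have : ∀ (x : R) (n : ℕ), φ (x * ((n : R) + 1)) = φ x * ((n : R') + 1) := by
    intro x n
    have h1 : x * ((n : R) + 1) = (n + 1) • x := by
      rw [nsmul_eq_mul]; push_cast; ring
    have h2 : φ x * ((n : R') + 1) = (n + 1) • φ x := by
      rw [nsmul_eq_mul]; push_cast; ring
    rw [h1, h2, map_nsmul]
  exact this _ _

theorem cmap_leibniz {φ : R →+ R} (h : ∀ a b, φ (a * b) = φ a * b + a * φ b) (p q : Pol N R) :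
    cmap φ (p * q) = cmap φ p * q + p * cmap φ q := by
  classical
  ext m
  rw [coeff_cmap, coeff_add, coeff_mul, coeff_mul, coeff_mul, map_sum, ← Finset.sum_add_distrib]
  refine Finset.sum_congr rfl fun x _ => ?_
  rw [h, coeff_cmap, coeff_cmap]

/-- Multiplicativity on polynomials with coefficients in an ideal. -/
theorem cmap_mul {φ : R →+ R'} {s : R →+* R'} {𝔞 : Ideal R}
    (h : ∀ a, ∀ b ∈ 𝔞, φ (a * b) = s a * φ b) (q : Pol N R) {p : Pol N R}
    (hp : ∀ m, coeff m p ∈ 𝔞) : cmap φ (q * p) = map s q * cmap φ p := by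
  classical
  ext m
  rw [coeff_cmap, coeff_mul, coeff_mul, map_sum]
  refine Finset.sum_congr rfl fun x _ => ?_
  rw [h _ _ (hp _), coeff_cmap, coeff_map]

theorem cmap_dtw {φ : R →+ R'} {s : R →+* R'} {𝔞 : Ideal R}
    (h : ∀ a, ∀ b ∈ 𝔞, φ (a * b) = s a * φ b) (F : Pol N R) {u : Fin N → Pol N R}
    (hu : ∀ i m, coeff m (u i) ∈ 𝔞) :
    cmap φ (dtw F u) = dtw (map s F) fun i => cmap φ (u i) := by
  unfold dtw
  rw [map_sum]
  refine Finset.sum_congr rfl fun i _ => ?_
  rw [map_add, cmap_pderiv, cmap_mul h _ (hu i), pderiv_map]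

theorem cmap_mem_lt (φ : R →+ R') {p : Pol N R} {n : ℕ} (h : p ∈ lt N R n) :
    cmap φ p ∈ lt N R' n := by
  intro m hm
  rw [coeff_cmap, h m hm, map_zero]

theorem cmap_isHomogeneous (φ : R →+ R') {p : Pol N R} {n : ℕ} (h : p.IsHomogeneous n) :
    (cmap φ p).IsHomogeneous n := by
  intro m hm
  apply h
  intro h0
  rw [coeff_cmap, h0, map_zero] at hm
  exact hm rfl

end

/-- The connection commutes with the twisted differential. -/
theorem conn_dtw (E : Pol N R →+ Pol N R) (hE : ∀ p q, E (p * q) = E p * q + p * E q)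
    (hEd : ∀ i p, E (pderiv i p) = pderiv i (E p)) (F : Pol N R) (h : Fin N → Pol N R) :
    E (dtw F h) + E F * dtw F h = dtw F fun i => E (h i) + E F * h i := by
  unfold dtw
  rw [map_sum, Finset.mul_sum, ← Finset.sum_add_distrib]
  refine Finset.sum_congr rfl fun i _ => ?_
  rw [map_add, hE, hEd, hEd, map_add, Derivation.leibniz, smul_eq_mul, smul_eq_mul]
  ring

variable [Fintype ι] [DecidableEq ι]

theorem flat_pderiv_comm (i j : Fin N) (p : Pol N R) :
    pderiv i (pderiv j p) = pderiv j (pderiv i p) := by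
  classical
  by_cases hij : i = j
  · rw [hij]
  ext m
  simp only [coeff_pderiv, Finsupp.add_apply]
  rw [Finsupp.single_eq_of_ne hij, Finsupp.single_eq_of_ne (Ne.symm hij), add_right_comm]
  simp only [add_zero]
  ring

theorem flat_odd_sub {E : Type} [Ring E] {n : ℕ} (h : Odd n) (x y : E) :
    x - (-1) ^ n * y = x + y := by
  rw [h.neg_one_pow, neg_one_mul, sub_neg_eq_add]

theorem flat_map_str {S S' : Type} [CommRing S] [CommRing S'] (D : S →+ S') (par : ι → ℕ)
    (X : Matrix ι ι S) : D (trace (eps S par * X)) = trace (eps S' par * X.map D) := by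
  simp only [trace, diag_apply, eps, diagonal_mul, map_sum, map_apply]
  refine Finset.sum_congr rfl fun i _ => ?_
  rcases Nat.even_or_odd (par i) with h | h
  · rw [h.neg_one_pow, h.neg_one_pow, one_mul, one_mul]
  · rw [h.neg_one_pow, h.neg_one_pow, neg_one_mul, neg_one_mul, map_neg]

theorem flat_str_sign {S : Type} [CommRing S] (par : ι → ℕ) (n : ℕ) (X : Matrix ι ι S) :
    trace (eps S par * ((-1) ^ n * X)) = (-1) ^ n * trace (eps S par * X) := by
  rcases Nat.even_or_odd n with h | h
  · rw [h.neg_one_pow, h.neg_one_pow, one_mul, one_mul]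
  · rw [h.neg_one_pow, h.neg_one_pow, neg_one_mul, neg_one_mul, Matrix.mul_neg, trace_neg]

theorem flat_str_scalar {S : Type} [CommRing S] (par : ι → ℕ) (c : S) (X : Matrix ι ι S) :
    trace (eps S par * (scalar ι c * X)) = c * trace (eps S par * X) := by
  rw [scalar_apply, ← smul_eq_diagonal_mul, Matrix.mul_smul, trace_smul, smul_eq_mul]

theorem flat_map_mul {S : Type} [CommRing S] (D : S →+ S)
    (hD : ∀ p q, D (p * q) = D p * q + p * D q) (x y : Matrix ι ι S) :
    (x * y).map D = x.map D * y + x * y.map D := by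
  ext i j
  simp only [map_apply, mul_apply, Matrix.add_apply, map_sum, hD, Finset.sum_add_distrib]

/-- Flatness of the Chern form modulo an ideal stable under all the derivations. -/
theorem ch_flat [Algebra ℚ R] (hN : Even N) (E : Pol N R →+ Pol N R)
    (hE : ∀ p q, E (p * q) = E p * q + p * E q) (hEd : ∀ i p, E (pderiv i p) = pderiv i (E p))
    {par : ι → ℕ} {δ : Matrix ι ι (Pol N R)} (hδ : OddM par par δ) (F : Pol N R)
    (𝔞 : Ideal (Pol N R)) (h1 : ∀ p ∈ 𝔞, E p ∈ 𝔞) (h2 : ∀ i, ∀ p ∈ 𝔞, pderiv i p ∈ 𝔞)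
    (hsq : ∀ i j, (δ * δ - scalar ι F) i j ∈ 𝔞) :
    ∃ η : Fin N → Pol N R,
      (∀ 𝔟 : Ideal (Pol N R), (∀ i j, E (δ i j) ∈ 𝔟) → ∀ i, η i ∈ 𝔟) ∧
        E (ch par δ) + E F * ch par δ - dtw F η ∈ 𝔞 := by
  let D : Fin (N + 1) → Pol N R →+ Pol N R :=
    Fin.cons E fun i => (pderiv i : Derivation R (Pol N R) (Pol N R)).toLinearMap.toAddMonoidHom
  have hD0 : ∀ p, D 0 p = E p := fun _ => rfl
  have hDs : ∀ (i : Fin N) p, D i.succ p = pderiv i p := fun _ _ => rfl
  have hDl : ∀ i p q, D i (p * q) = D i p * q + p * D i q := by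
    intro i p q
    refine Fin.cases ?_ (fun i => ?_) i
    · exact hE p q
    · rw [hDs, hDs, hDs, Derivation.leibniz, smul_eq_mul, smul_eq_mul]; ring
  have hDc : ∀ i j p, D i (D j p) = D j (D i p) := by
    intro i j p
    refine Fin.cases ?_ (fun i => ?_) i <;> refine Fin.cases ?_ (fun j => ?_) j
    · rfl
    · rw [hD0, hDs, hD0, hDs, hEd]
    · rw [hD0, hDs, hD0, hDs, hEd]
    · rw [hDs, hDs, hDs, hDs, flat_pderiv_comm]
  have hDa : ∀ i, ∀ p ∈ 𝔞, D i p ∈ 𝔞 := by
    intro i p hp
    refine Fin.cases ?_ (fun i => ?_) i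
    · exact h1 p hp
    · exact h2 i p hp
  let a : Fin (N + 1) → Matrix ι ι (Pol N R) := fun i => δ.map (D i)
  let T : Fin (N + 1) → Pol N R := fun i =>
    trace (eps (Pol N R) par * std N fun j => a (i.succAbove j))
  have hT0 : T 0 = ch par δ := by
    rw [ch_eq]; rfl
  have hmapT : ∀ (𝔠 : Ideal (Pol N R)) (i : Fin (N + 1)), Ideal.Quotient.mk 𝔠 (T i) =
      trace (eps (Pol N R ⧸ 𝔠) par *
        std N fun j => (a (i.succAbove j)).map (Ideal.Quotient.mk 𝔠)) := by
    intro 𝔠 i
    have h := flat_map_str (Ideal.Quotient.mk 𝔠).toAddMonoidHom par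
      (std N fun j => a (i.succAbove j))
    have h' := map_std (Ideal.Quotient.mk 𝔠).mapMatrix N (fun j => a (i.succAbove j))
    simp only [RingHom.mapMatrix_apply] at h'
    rw [← h']
    exact h
  refine ⟨fun i => -((-1) ^ ((i : ℕ) + 1) * T i.succ), ?_, ?_⟩
  · intro 𝔟 h𝔟 i
    refine 𝔟.neg_mem (𝔟.mul_mem_left _ ?_)
    rw [← Ideal.Quotient.eq_zero_iff_mem, hmapT]
    obtain ⟨j, hj⟩ := Fin.exists_succAbove_eq (Fin.succ_ne_zero i).symm
    rw [std_eq_zero j, Matrix.mul_zero, trace_zero]
    ext k l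
    simp only [hj, map_apply, Matrix.zero_apply, a]
    exact Ideal.Quotient.eq_zero_iff_mem.2 (h𝔟 k l)
  · have hclosed : ∑ i : Fin (N + 1), (-1) ^ (i : ℕ) * D i (T i) = 0 := by
      have h2' : ∀ x : Matrix ι ι (Pol N R), x + x = 0 → x = 0 := by
        intro x hx
        have : x = (2⁻¹ : ℚ) • (x + x) := by
          rw [← two_smul ℚ x, smul_smul]; norm_num
        rw [this, hx, smul_zero]
      have h := std_closed h2' (fun i => (D i).mapMatrix)
        (fun i x y => flat_map_mul (D i) (hDl i) x y) a (fun i j => by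
          refine Matrix.ext fun k l => ?_
          simp only [AddMonoidHom.mapMatrix_apply, map_apply, a]
          exact hDc i j _)
      have h' := congrArg (fun X => trace (eps (Pol N R) par * X)) h
      simp only [Matrix.mul_sum, trace_sum, flat_str_sign, Matrix.mul_zero, trace_zero,
        AddMonoidHom.mapMatrix_apply] at h'
      rw [← h']
      refine Finset.sum_congr rfl fun i _ => ?_
      rw [flat_map_str]
    have hcomm : ∑ i : Fin (N + 1), (-1) ^ (i : ℕ) * (D i F * T i) ∈ 𝔞 := by
      let f := Ideal.Quotient.mk 𝔞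
      have hsq' : ∀ i, δ.map f * (a i).map f + (a i).map f * δ.map f = scalar ι (f (D i F)) := by
        intro i
        have e1 : (δ * δ - scalar ι F).map (D i) = δ * a i + a i * δ - scalar ι (D i F) := by
          have e2 : (δ * δ - scalar ι F).map (D i) = (δ * δ).map (D i) - (scalar ι F).map (D i) := by
            refine Matrix.ext fun k l => ?_
            simp only [map_apply, Matrix.sub_apply, map_sub]
          have e3 : (scalar ι F).map (D i) = scalar ι (D i F) := by
            rw [scalar_apply, scalar_apply, diagonal_map (map_zero _)]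
          rw [e2, e3, flat_map_mul (D i) (hDl i), add_comm]
        have e4 : f.mapMatrix (δ * a i + a i * δ - scalar ι (D i F)) = 0 := by
          rw [← e1]
          ext k l
          simp only [RingHom.mapMatrix_apply, map_apply, Matrix.zero_apply]
          exact Ideal.Quotient.eq_zero_iff_mem.2 (hDa i _ (hsq k l))
        rw [map_sub, map_add, map_mul, map_mul, sub_eq_zero] at e4
        simp only [RingHom.mapMatrix_apply] at e4
        rw [e4, scalar_apply, scalar_apply, diagonal_map (map_zero _)]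
      have h := std_comm (δ.map f) (fun i => (a i).map f) (fun i => scalar ι (f (D i F)))
        (fun i x => (scalar_commute _ (fun _ => Commute.all _ _) x).eq) hsq'
      have hodd : OddM par par (δ.map f) := by
        intro i j hij
        apply hδ i j
        intro h0
        apply hij
        rw [map_apply, h0, map_zero]
      have hN1 : Odd (N + 1) := hN.add_one
      rw [flat_odd_sub hN1] at h
      have h' := congrArg (fun X => trace (eps (Pol N R ⧸ 𝔞) par * X)) h
      have hz : ∀ X : Matrix ι ι (Pol N R ⧸ 𝔞),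
          trace (eps (Pol N R ⧸ 𝔞) par * (δ.map f * X + X * δ.map f)) = 0 := by
        intro X
        rw [Matrix.mul_add, trace_add, ← Matrix.mul_assoc, ← Matrix.mul_assoc, hodd.eps_mul,
          trace_mul_comm (eps _ par * X), ← Matrix.mul_assoc, Matrix.neg_mul, trace_neg,
          neg_add_cancel]
      have hcast : ((N + 1 : ℕ) : Matrix ι ι (Pol N R ⧸ 𝔞)) =
          scalar ι ((N + 1 : ℕ) : Pol N R ⧸ 𝔞) := (map_natCast (scalar ι) _).symm
      simp only [hz] at h'
      rw [hcast, flat_str_scalar] at h'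
      simp only [Matrix.mul_sum, trace_sum, flat_str_sign, flat_str_scalar] at h'
      have hmem : ((N + 1 : ℕ) : Pol N R) *
          ∑ i : Fin (N + 1), (-1) ^ (i : ℕ) * (D i F * T i) ∈ 𝔞 := by
        rw [← Ideal.Quotient.eq_zero_iff_mem, map_mul, map_natCast, map_sum, h']
        congr 1
        refine Finset.sum_congr rfl fun i _ => ?_
        rw [map_mul, map_mul, map_pow, map_neg, map_one, hmapT]
      have hu : algebraMap ℚ (Pol N R) ((N + 1 : ℕ) : ℚ)⁻¹ * ((N + 1 : ℕ) : Pol N R) = 1 := by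
        rw [← map_natCast (algebraMap ℚ (Pol N R)), ← map_mul, inv_mul_cancel₀, map_one]
        exact Nat.cast_ne_zero.2 (Nat.succ_ne_zero N)
      have := 𝔞.mul_mem_left (algebraMap ℚ (Pol N R) ((N + 1 : ℕ) : ℚ)⁻¹) hmem
      rwa [← mul_assoc, hu, one_mul] at this
    rw [Fin.sum_univ_succ] at hclosed hcomm
    simp only [Fin.val_zero, pow_zero, one_mul, hD0, hDs, hT0, Fin.val_succ] at hclosed hcomm
    have hdt : dtw F (fun i => -((-1) ^ ((i : ℕ) + 1) * T i.succ)) =
        -(∑ i : Fin N, (-1) ^ ((i : ℕ) + 1) * pderiv i (T i.succ)) -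
          ∑ i : Fin N, (-1) ^ ((i : ℕ) + 1) * (pderiv i F * T i.succ) := by
      unfold dtw
      rw [← Finset.sum_neg_distrib, ← Finset.sum_sub_distrib]
      refine Finset.sum_congr rfl fun i _ => ?_
      beta_reduce
      rcases Nat.even_or_odd ((i : ℕ) + 1) with h | h
      · rw [h.neg_one_pow, one_mul, one_mul, one_mul, map_neg]; ring
      · rw [h.neg_one_pow, neg_one_mul, neg_one_mul, neg_one_mul, neg_neg]; ring
    rw [hdt]
    convert hcomm using 1
    linear_combination hclosed

end Pool.Agent.Lib.MP_e9c0f3_ag
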