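import Pool.Agent.Lib.MP_e9c0f3_ag.Grad

/-! Graded syzygies over a polynomial ring over a valuation ring. -/

open MvPolynomial Matrix

namespace Pool.Agent.Lib.MP_e9c0f3_ag

variable {O : Type} [CommRing O] {N : ℕ} {β : Type}

/-- The homogeneous component of a vector. -/
noncomputable def prv (γ : β → GG) (g : GG) (v : β → Pol N O) : β → Pol N O :=
  fun i => pr xi γ (fun _ : Unit => 0) g (of fun i _ => v i) i ()

/-- Graded submodules. -/
def Graded (γ : β → GG) (Z : Submodule (Pol N O) (β → Pol N O)) : Prop :=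
  ∀ g, ∀ v ∈ Z, prv γ g v ∈ Z

/-- Saturated submodules. -/
def Satur (Z : Submodule (Pol N O) (β → Pol N O)) : Prop :=
  ∀ a : O, a ≠ 0 → ∀ v, (C a : Pol N O) • v ∈ Z → v ∈ Z

theorem prv_mulVec {α : Type} [Fintype α] {γ : β → GG} {γ' : α → GG} {g : GG} (h : GG)
    {M : Matrix β α (Pol N O)} (hM : IsHom xi γ γ' g M) (v : α → Pol N O) :
    prv γ (g + h) (M *ᵥ v) = M *ᵥ prv γ' h v := by
  funext i
  have e : (of fun i (_ : Unit) => (M *ᵥ v) i) = M * of fun j (_ : Unit) => v j := by
    ext1 i u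
    simp [Matrix.mul_apply, mulVec, dotProduct]
  simp only [prv]
  rw [e, pr_mul_left hM]
  simp [Matrix.mul_apply, mulVec, dotProduct, prv]

theorem graded_ker {α : Type} [Fintype α] {γ : β → GG} {γ' : α → GG} {g : GG}
    {M : Matrix β α (Pol N O)} (hM : IsHom xi γ γ' g M) :
    Graded γ' (LinearMap.ker M.mulVecLin) := by
  intro h v hv
  rw [LinearMap.mem_ker, mulVecLin_apply] at hv ⊢
  rw [← prv_mulVec h hM, hv]
  funext i
  have e : (of fun i (_ : Unit) => (0 : β → Pol N O) i) = 0 := rfl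
  simp only [prv]
  rw [e, pr_zero]
  rfl

/-- The ideal of the first `l` variables. -/
noncomputable def xs (N : ℕ) (O : Type) [CommRing O] (l : ℕ) : Ideal (Pol N O) :=
  Ideal.span (X '' {i : Fin N | i.val < l})

/-- The first `j` terms of the sequence of the variables followed by a nonzero constant are a
regular sequence on `M`. -/
def Reg (N : ℕ) (O : Type) [CommRing O] (j : ℕ) (M : Type) [AddCommGroup M]
    [Module (Pol N O) M] : Prop :=
  (∀ i : Fin N, i.val < j → ∀ m : M, (X i : Pol N O) • m ∈ xs N O i • (⊤ : Submodule (Pol N O) M) →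
    m ∈ xs N O i • (⊤ : Submodule (Pol N O) M)) ∧
  (N < j → ∀ a : O, a ≠ 0 → ∀ m : M, (C a : Pol N O) • m ∈ xs N O N • (⊤ : Submodule (Pol N O) M) →
    m ∈ xs N O N • (⊤ : Submodule (Pol N O) M))

section

variable {j : ℕ} {M P : Type} [AddCommGroup M] [Module (Pol N O) M] [AddCommGroup P]
  [Module (Pol N O) P]

theorem free_map_mem (f : M →ₗ[Pol N O] P) {I : Ideal (Pol N O)} {m : M}
    (hm : m ∈ I • (⊤ : Submodule (Pol N O) M)) : f m ∈ I • (⊤ : Submodule (Pol N O) P) := by
  have := Submodule.mem_map_of_mem (f := f) hm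
  rw [Submodule.map_smul''] at this
  exact Submodule.smul_mono le_rfl le_top this

theorem free_exists_of_mem {f : P →ₗ[Pol N O] M} (hf : Function.Surjective f)
    {I : Ideal (Pol N O)} {m : M} (hm : m ∈ I • (⊤ : Submodule (Pol N O) M)) :
    ∃ q ∈ I • (⊤ : Submodule (Pol N O) P), f q = m := by
  rw [← LinearMap.range_eq_top.2 hf, ← Submodule.map_top, ← Submodule.map_smul''] at hm
  exact hm

theorem free_mem_pi [Finite β] {I : Ideal (Pol N O)} {v : β → Pol N O} :
    v ∈ I • (⊤ : Submodule (Pol N O) (β → Pol N O)) ↔ ∀ b, v b ∈ I := by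
  classical
  constructor
  · intro hv b
    have := free_map_mem (LinearMap.proj (R := Pol N O) (φ := fun _ : β => Pol N O) b) hv
    simpa using this
  · intro hv
    have := Fintype.ofFinite β
    have e : v = ∑ b, v b • (Pi.single b 1 : β → Pol N O) := by
      funext c
      simp [Finset.sum_apply, Pi.single_apply]
    rw [e]
    exact Submodule.sum_mem _ fun b _ => Submodule.smul_mem_smul (hv b) Submodule.mem_top

theorem free_xs_succ (i : Fin N) : xs N O (i.val + 1) = xs N O i ⊔ Ideal.span {X i} := by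
  rw [xs, xs, ← Ideal.span_union, ← Set.image_singleton, ← Set.image_union]
  congr 2
  ext k
  simp only [Set.mem_ofPred_eq, Set.mem_union, Set.mem_singleton_iff, Fin.ext_iff]
  omega

theorem free_xs_succ_of_le {l : ℕ} (hl : N ≤ l) : xs N O (l + 1) = xs N O l := by
  rw [xs, xs]
  congr 2
  ext k
  have := k.2
  simp only [Set.mem_ofPred_eq]
  omega

theorem free_xs_zero : xs N O 0 = ⊥ := by
  simp [xs]

theorem Reg.zero : Reg N O 0 M :=
  ⟨fun _ hi => absurd hi (Nat.not_lt_zero _), fun hN => absurd hN (Nat.not_lt_zero _)⟩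

theorem Reg.equiv (e : M ≃ₗ[Pol N O] P) (h : Reg N O j P) : Reg N O j M := by
  refine ⟨fun i hi m hm => ?_, fun hN a ha m hm => ?_⟩
  · have h1 := free_map_mem e.toLinearMap hm
    rw [map_smul] at h1
    simpa using free_map_mem e.symm.toLinearMap (h.1 i hi _ h1)
  · have h1 := free_map_mem e.toLinearMap hm
    rw [map_smul] at h1
    simpa using free_map_mem e.symm.toLinearMap (h.2 hN a ha _ h1)

theorem Reg.free [IsDomain O] [Finite β] : Reg N O j (β → Pol N O) := by
  refine ⟨fun i _ v hv => ?_, fun _ a ha v hv => ?_⟩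
  · rw [free_mem_pi] at hv ⊢
    intro b
    have h1 := hv b
    rw [Pi.smul_apply, smul_eq_mul, xs, mem_ideal_span_X_image] at h1
    rw [xs, mem_ideal_span_X_image]
    intro m hm
    obtain ⟨k, hk, hk'⟩ := h1 (Finsupp.single i 1 + m) (by
      rw [mem_support_iff, coeff_X_mul]
      exact mem_support_iff.1 hm)
    refine ⟨k, hk, ?_⟩
    have hne : k ≠ i := by
      rintro rfl
      exact lt_irrefl k.val hk
    rwa [Finsupp.add_apply, Finsupp.single_eq_of_ne hne, zero_add] at hk'
  · rw [free_mem_pi] at hv ⊢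
    intro b
    have h1 := hv b
    rw [Pi.smul_apply, smul_eq_mul, xs, mem_ideal_span_X_image] at h1
    rw [xs, mem_ideal_span_X_image]
    intro m hm
    refine h1 m ?_
    rw [mem_support_iff, coeff_C_mul]
    exact mul_ne_zero ha (mem_support_iff.1 hm)

theorem Reg.inter {f : P →ₗ[Pol N O] M} (hf : Function.Surjective f) (h : Reg N O j M) {l : ℕ}
    (hl : l ≤ j) {z : LinearMap.ker f} (hz : (z : P) ∈ xs N O l • (⊤ : Submodule (Pol N O) P)) :
    z ∈ xs N O l • (⊤ : Submodule (Pol N O) (LinearMap.ker f)) := by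
  induction l generalizing z with
  | zero =>
    rw [free_xs_zero, Submodule.bot_smul, Submodule.mem_bot] at hz ⊢
    exact Subtype.ext hz
  | succ l ih =>
    rcases le_or_gt N l with hN | hN
    · rw [free_xs_succ_of_le hN] at hz ⊢
      exact ih (by omega) hz
    have hx := free_xs_succ (O := O) (⟨l, hN⟩ : Fin N)
    dsimp only at hx
    rw [hx, Submodule.sup_smul] at hz ⊢
    obtain ⟨p', hp', w, hw, e⟩ := Submodule.mem_sup.1 hz
    rw [Submodule.ideal_span_singleton_smul] at hw
    obtain ⟨p, -, rfl⟩ := (Submodule.mem_smul_pointwise_iff_exists _ _ _).1 hw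
    have h0 : f p' + (X ⟨l, hN⟩ : Pol N O) • f p = 0 := by
      rw [← map_smul, ← map_add, e]
      exact z.2
    have h1 : (X ⟨l, hN⟩ : Pol N O) • f p ∈ xs N O l • (⊤ : Submodule (Pol N O) M) := by
      rw [eq_neg_of_add_eq_zero_right h0]
      exact Submodule.neg_mem _ (free_map_mem f hp')
    obtain ⟨q, hq, hfq⟩ := free_exists_of_mem hf (h.1 ⟨l, hN⟩ (by dsimp only; omega) _ h1)
    let k : LinearMap.ker f := ⟨p - q, by rw [LinearMap.mem_ker, map_sub, hfq, sub_self]⟩
    have h2 : z - (X ⟨l, hN⟩ : Pol N O) • k ∈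
        xs N O l • (⊤ : Submodule (Pol N O) (LinearMap.ker f)) := by
      refine ih (by omega) ?_
      have e2 : ((z - (X ⟨l, hN⟩ : Pol N O) • k : LinearMap.ker f) : P) =
          p' + (X ⟨l, hN⟩ : Pol N O) • q := by
        rw [Submodule.coe_sub, Submodule.coe_smul, ← e]
        simp only [k, smul_sub]
        abel
      rw [e2]
      exact Submodule.add_mem _ hp' (Submodule.smul_mem _ _ hq)
    rw [← sub_add_cancel z ((X ⟨l, hN⟩ : Pol N O) • k)]
    exact Submodule.add_mem_sup h2
      (Submodule.smul_mem_smul (Ideal.mem_span_singleton_self _) Submodule.mem_top)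

theorem Reg.ker {f : P →ₗ[Pol N O] M} (hf : Function.Surjective f) (h : Reg N O j M)
    (hP : Reg N O (j + 1) P) : Reg N O (j + 1) (LinearMap.ker f) := by
  refine ⟨fun i hi z hz => ?_, fun hN a ha z hz => ?_⟩
  · have h1 := free_map_mem (LinearMap.ker f).subtype hz
    rw [map_smul] at h1
    exact Reg.inter hf h (by omega) (hP.1 i hi _ h1)
  · have h1 := free_map_mem (LinearMap.ker f).subtype hz
    rw [map_smul] at h1
    exact Reg.inter hf h (by omega) (hP.2 hN a ha _ h1)

end

end Pool.Agent.Lib.MP_e9c0f3_ag
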