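import Pool.Agent.Lib.MP_e9c0f3_ag.Free

/-! Finite generation and freeness of graded syzygies. -/

open MvPolynomial Matrix

namespace Pool.Agent.Lib.MP_e9c0f3_ag

variable {O : Type} [CommRing O] {N : ℕ} {β : Type}

/-- Homogeneous vectors of degree `g`. -/
def free2_hv (N : ℕ) (O : Type) [CommRing O] (γ : β → GG) (g : GG) :
    Submodule O (β → Pol N O) where
  carrier := {v | ∀ i m, m.degree • xi + γ i ≠ g → coeff m (v i) = 0}
  add_mem' := fun ha hb i m hm => by rw [Pi.add_apply, coeff_add, ha i m hm, hb i m hm, add_zero]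
  zero_mem' := fun _ _ _ => rfl
  smul_mem' := fun c _ ha i m hm => by rw [Pi.smul_apply, coeff_smul, ha i m hm, smul_zero]

theorem free2_coeff_prv (γ : β → GG) (g : GG) (v : β → Pol N O) (i : β) (m : Fin N →₀ ℕ) :
    coeff m (prv γ g v i) = if m.degree • xi + γ i = g then coeff m (v i) else 0 := by
  have := coeff_pr (ξ := xi) (a := γ) (b := fun _ : Unit => 0) (g := g)
    (of fun i (_ : Unit) => v i) i () m
  rw [add_zero] at this
  exact this

theorem free2_prv_mem (γ : β → GG) (g : GG) (v : β → Pol N O) : prv γ g v ∈ free2_hv N O γ g :=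
  fun i m hm => by rw [free2_coeff_prv, if_neg hm]

theorem free2_prv_eq {γ : β → GG} {g : GG} {v : β → Pol N O} (hv : v ∈ free2_hv N O γ g) :
    prv γ g v = v := by
  funext i
  ext m
  rw [free2_coeff_prv]
  split_ifs with h
  · rfl
  · exact (hv i m h).symm

theorem free2_sum_prv [Finite β] (γ : β → GG) (v : β → Pol N O) :
    ∃ s : Finset GG, v = ∑ g ∈ s, prv γ g v := by
  obtain ⟨s, hs⟩ := exists_sum_pr xi γ (fun _ : Unit => 0) (of fun i (_ : Unit) => v i)
  refine ⟨s, funext fun i => ?_⟩
  have := congrFun (congrFun hs i) ()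
  rw [Matrix.sum_apply] at this
  rw [Finset.sum_apply]
  exact this

theorem free2_mem_smul_top {S α : Type} [CommRing S] [Fintype α] {I : Ideal S} {v : α → S}
    (h : ∀ j, v j ∈ I) : v ∈ I • (⊤ : Submodule S (α → S)) := by
  classical
  rw [pi_eq_sum_univ' v]
  exact Submodule.sum_mem _ fun j _ => Submodule.smul_mem_smul (h j) trivial

variable [IsDomain O] [ValuationRing O] [Fintype β]

theorem free2_gcd (I : Ideal O) (s : Finset O) (h : ∀ b ∈ s, b ∈ I) :
    ∃ a ∈ I, ∀ b ∈ s, a ∣ b := by
  classical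
  induction s using Finset.induction_on with
  | empty => exact ⟨0, I.zero_mem, by simp⟩
  | insert c s _ ih =>
    obtain ⟨a, ha, hd⟩ := ih fun b hb => h b (Finset.mem_insert_of_mem hb)
    rcases ValuationRing.dvd_total a c with h1 | h1
    · refine ⟨a, ha, fun b hb => ?_⟩
      rcases Finset.mem_insert.1 hb with rfl | hb
      · exact h1
      · exact hd b hb
    · refine ⟨c, h c (Finset.mem_insert_self _ _), fun b hb => ?_⟩
      rcases Finset.mem_insert.1 hb with rfl | hb
      · exact dvd_rfl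
      · exact h1.trans (hd b hb)

theorem free2_pull (I : Ideal O) (u : β → Pol N O) (h : ∀ i m, coeff m (u i) ∈ I) :
    ∃ a ∈ I, ∃ u' : β → Pol N O, u = (C a : Pol N O) • u' := by
  classical
  obtain ⟨a, ha, hd⟩ := free2_gcd I
    (Finset.univ.biUnion fun i => (u i).support.image fun m => coeff m (u i)) (by
      intro b hb
      obtain ⟨i, -, hi⟩ := Finset.mem_biUnion.1 hb
      obtain ⟨m, -, rfl⟩ := Finset.mem_image.1 hi
      exact h i m)
  have h2 : ∀ i, (C a : Pol N O) ∣ u i := fun i => (C_dvd_iff_dvd_coeff _ _).2 fun m => by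
    by_cases hm : m ∈ (u i).support
    · exact hd _ (Finset.mem_biUnion.2 ⟨i, Finset.mem_univ _, Finset.mem_image_of_mem _ hm⟩)
    · rw [notMem_support_iff.1 hm]
      exact dvd_zero _
  choose u' hu' using h2
  exact ⟨a, ha, u', funext hu'⟩

theorem free2_fg_inf {P : Type} [AddCommGroup P] [Module O P] {A Y : Submodule O P} (hA : A.FG)
    (hY : ∀ a : O, a ≠ 0 → ∀ v, a • v ∈ Y → v ∈ Y) : (A ⊓ Y).FG := by
  have : Module.Finite O A := Module.Finite.iff_fg.2 hA
  let Y' : Submodule O A := Y.comap A.subtype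
  have ht : Submodule.torsion O (A ⧸ Y') = ⊥ := by
    rw [eq_bot_iff]
    rintro x ⟨⟨a, ha⟩, hx⟩
    obtain ⟨v, rfl⟩ := Y'.mkQ_surjective x
    have h1 : Y'.mkQ (a • v) = 0 := by rw [map_smul]; exact hx
    rw [Submodule.mkQ_apply, Submodule.Quotient.mk_eq_zero] at h1
    rw [Submodule.mem_bot, Submodule.mkQ_apply, Submodule.Quotient.mk_eq_zero]
    exact hY a (nonZeroDivisors.ne_zero ha) v h1
  have : Module.Flat O (A ⧸ Y') := Module.Flat.flat_iff_torsion_eq_bot_of_isBezout.2 ht
  have : Module.Free O (A ⧸ Y') := Module.free_of_flat_of_isLocalRing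
  have : Module.FinitePresentation O (A ⧸ Y') := Module.finitePresentation_of_projective _ _
  have h2 := Module.FinitePresentation.fg_ker Y'.mkQ Y'.mkQ_surjective
  rw [Submodule.ker_mkQ] at h2
  have h3 := h2.map A.subtype
  rwa [Submodule.map_comap_subtype] at h3

theorem free2_fg_hv {γ : β → GG} {Z : Submodule (Pol N O) (β → Pol N O)} (hs : Satur Z) (g : GG) :
    (Z.restrictScalars O ⊓ free2_hv N O γ g).FG := by
  let A : Submodule O (β → Pol N O) :=
    Submodule.pi Set.univ fun i => restrictTotalDegree (Fin N) O (g.1 - (γ i).1).toNat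
  have hA : A.FG := Submodule.fg_pi fun i => Module.Finite.iff_fg.1 inferInstance
  have h1 := free2_fg_inf (Y := Z.restrictScalars O ⊓ free2_hv N O γ g) hA (by
    rintro a ha v ⟨h1, h2⟩
    refine ⟨hs a ha v ?_, fun i m hm => ?_⟩
    · rw [← algebraMap_eq, algebraMap_smul]
      exact h1
    · have := h2 i m hm
      rw [Pi.smul_apply, coeff_smul, smul_eq_mul] at this
      exact (mul_eq_zero.1 this).resolve_left ha)
  rwa [inf_eq_right.2] at h1
  rintro v ⟨-, hv⟩ i -
  refine (mem_restrictTotalDegree _ _ _).2 ?_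
  rw [totalDegree, Finset.sup_le_iff]
  intro m hm
  have h2 : m.degree • xi + γ i = g := by
    by_contra h
    exact mem_support_iff.1 hm (hv i m h)
  have h3 : m.degree • (2 : ℤ) + (γ i).1 = g.1 := congrArg Prod.fst h2
  have h4 : (m.sum fun _ e => e) = m.degree := rfl
  rw [nsmul_eq_mul] at h3
  rw [h4]
  omega

/-- A graded saturated submodule is finitely generated. -/
theorem exists_gen {γ : β → GG} {Z : Submodule (Pol N O) (β → Pol N O)} (hg : Graded γ Z)
    (hs : Satur Z) : ∃ (α : Type) (_ : Fintype α) (_ : DecidableEq α) (g : α → GG)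
      (z : Matrix β α (Pol N O)), IsHom xi γ g 0 z ∧ LinearMap.range z.mulVecLin = Z := by
  classical
  let K := IsLocalRing.ResidueField O
  let red : Pol N O →+* Pol N K := MvPolynomial.map (IsLocalRing.residue O)
  let T : Set (β → Pol N K) := {w | ∃ g, ∃ v ∈ Z, v ∈ free2_hv N O γ g ∧ w = fun i => red (v i)}
  obtain ⟨t, ht, hspan⟩ := (Submodule.fg_span_iff_fg_span_finset_subset (R := Pol N K) T).1
    (IsNoetherian.noetherian _)
  have hc : ∀ j : t, ∃ g, ∃ v ∈ Z, v ∈ free2_hv N O γ g ∧ j.1 = fun i => red (v i) :=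
    fun j => ht j.2
  choose g z hzZ hzh hzr using hc
  let z' : Matrix β t (Pol N O) := of fun i j => z j i
  have hz' : IsHom xi γ g 0 z' := fun i j m hm => by
    rw [zero_add]
    by_contra h
    exact hm (hzh j i m h)
  have hle : LinearMap.range z'.mulVecLin ≤ Z := by
    rintro _ ⟨c, rfl⟩
    have : z'.mulVecLin c = ∑ j, c j • z j := by
      funext i
      simp [z', mulVec, dotProduct, mul_comm]
    rw [this]
    exact Z.sum_mem fun j _ => Z.smul_mem _ (hzZ j)
  refine ⟨t, inferInstance, inferInstance, g, z', hz', le_antisymm hle fun v hv => ?_⟩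
  have key : ∀ d, Z.restrictScalars O ⊓ free2_hv N O γ d ≤
      (LinearMap.range z'.mulVecLin).restrictScalars O := by
    intro d
    refine Submodule.le_of_le_smul_of_le_jacobson_bot (I := IsLocalRing.maximalIdeal O)
      (free2_fg_hv hs d) (IsLocalRing.maximalIdeal_le_jacobson _) ?_
    rintro v ⟨hvZ, hvh⟩
    have h1 : (fun i => red (v i)) ∈ Submodule.span (Pol N K) (Set.range fun j : t => j.1) := by
      rw [Subtype.range_coe_subtype, Finset.setOfPred_mem, ← hspan]
      exact Submodule.subset_span ⟨d, v, hvZ, hvh, rfl⟩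
    obtain ⟨c', hc'⟩ := (Submodule.mem_span_range_iff_exists_fun _).1 h1
    have hsurj : Function.Surjective red :=
      MvPolynomial.map_surjective _ IsLocalRing.residue_surjective
    choose c hc using fun j => hsurj (c' j)
    have h2 : ∀ i m, coeff m (v i) - coeff m ((z' *ᵥ c) i) ∈ IsLocalRing.maximalIdeal O := by
      intro i m
      have h3 : red (v i - (z' *ᵥ c) i) = 0 := by
        have := congrFun hc' i
        rw [Finset.sum_apply] at this
        rw [map_sub, ← this, sub_eq_zero]
        simp only [z', mulVec, dotProduct, of_apply, map_sum, map_mul, Pi.smul_apply, smul_eq_mul]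
        refine Finset.sum_congr rfl fun j _ => ?_
        rw [hc, hzr j, mul_comm]
      have h4 := congrArg (coeff m) h3
      rw [coeff_map, coeff_zero, IsLocalRing.residue_eq_zero_iff, coeff_sub] at h4
      exact h4
    have h5 : prv γ d (z' *ᵥ c) = z' *ᵥ prv g d c := by
      have := prv_mulVec d hz' c
      rwa [zero_add] at this
    have hr : prv γ d (z' *ᵥ c) ∈ LinearMap.range z'.mulVecLin := ⟨prv g d c, h5.symm⟩
    have huZ : v - prv γ d (z' *ᵥ c) ∈ Z := Z.sub_mem hvZ (hle hr)
    have huh : v - prv γ d (z' *ᵥ c) ∈ free2_hv N O γ d :=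
      Submodule.sub_mem _ hvh (free2_prv_mem _ _ _)
    obtain ⟨a, ha, u', hu'⟩ := free2_pull (IsLocalRing.maximalIdeal O) (v - prv γ d (z' *ᵥ c))
      (fun i m => by
        by_cases h : m.degree • xi + γ i = d
        · rw [Pi.sub_apply, coeff_sub, free2_coeff_prv, if_pos h]
          exact h2 i m
        · rw [huh i m h]
          exact Ideal.zero_mem _)
    have h6 : v = prv γ d (z' *ᵥ c) + (C a : Pol N O) • u' := by rw [← hu', add_sub_cancel]
    rw [h6]
    refine Submodule.add_mem_sup hr ?_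
    by_cases ha0 : a = 0
    · rw [ha0, C_0, zero_smul]
      exact Submodule.zero_mem _
    · rw [← algebraMap_eq, algebraMap_smul]
      refine Submodule.smul_mem_smul ha ⟨hs a ha0 u' (hu' ▸ huZ), fun i m hm => ?_⟩
      have := huh i m hm
      rw [hu', Pi.smul_apply, smul_eq_mul, coeff_C_mul] at this
      exact (mul_eq_zero.1 this).resolve_left ha0
  obtain ⟨s, hsum⟩ := free2_sum_prv γ v
  rw [hsum]
  exact Submodule.sum_mem _ fun d _ => key d ⟨hg d v hv, free2_prv_mem _ _ _⟩

omit [IsDomain O] [ValuationRing O] [Fintype β] in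
theorem free2_drop {α : Type} [Fintype α] [DecidableEq α] (z : Matrix β α (Pol N O)) (i₀ : α)
    {y : α → Pol N O} (hy : z *ᵥ y = 0) (hu : IsUnit (y i₀)) :
    LinearMap.range (z.submatrix id (Subtype.val : {j // j ≠ i₀} → α)).mulVecLin =
      LinearMap.range z.mulVecLin := by
  have h1 : ∀ c : α → Pol N O, c i₀ = 0 →
      z.submatrix id (Subtype.val : {j // j ≠ i₀} → α) *ᵥ (fun j => c j.1) = z *ᵥ c := by
    intro c hc
    funext i
    simp only [mulVec, dotProduct, submatrix_apply, id]
    rw [Fintype.sum_eq_add_sum_subtype_ne (fun j => z i j * c j) i₀, hc, mul_zero, zero_add]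
  apply le_antisymm
  · rintro _ ⟨c, rfl⟩
    refine ⟨fun j => if h : j = i₀ then 0 else c ⟨j, h⟩, ?_⟩
    rw [mulVecLin_apply, mulVecLin_apply, ← h1 _ (by simp)]
    congr 1
    funext j
    rw [dif_neg j.2]
  · rintro _ ⟨c, rfl⟩
    obtain ⟨u, hu⟩ := hu.exists_left_inv
    refine ⟨fun j => (c - (c i₀ * u) • y) j.1, ?_⟩
    rw [mulVecLin_apply, mulVecLin_apply, h1, mulVec_sub, mulVec_smul, hy, smul_zero, sub_zero]
    rw [Pi.sub_apply, Pi.smul_apply, smul_eq_mul, mul_assoc, hu, mul_one, sub_self]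

/-- A graded saturated submodule of maximal depth is free. -/
theorem exists_basis {γ : β → GG} {Z : Submodule (Pol N O) (β → Pol N O)} (hg : Graded γ Z)
    (hs : Satur Z) (hr : Reg N O (N + 1) Z) :
    ∃ (α : Type) (_ : Fintype α) (_ : DecidableEq α) (g : α → GG) (z : Matrix β α (Pol N O)),
      IsHom xi γ g 0 z ∧ LinearMap.range z.mulVecLin = Z ∧ ∀ v, z *ᵥ v = 0 → v = 0 := by
  classical
  have hex : ∃ n, ∃ (α : Type) (_ : Fintype α) (_ : DecidableEq α) (g : α → GG)
      (z : Matrix β α (Pol N O)), Fintype.card α = n ∧ IsHom xi γ g 0 z ∧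
      LinearMap.range z.mulVecLin = Z := by
    obtain ⟨α, i1, i2, g, z, h1, h2⟩ := exists_gen hg hs
    exact ⟨_, α, i1, i2, g, z, rfl, h1, h2⟩
  obtain ⟨α, i1, i2, g, z, hn, hz, hZ⟩ := Nat.find_spec hex
  refine ⟨α, i1, i2, g, z, hz, hZ, ?_⟩
  have hYg : Graded g (LinearMap.ker z.mulVecLin) := graded_ker hz
  have hconst : ∀ y ∈ LinearMap.ker z.mulVecLin, ∀ j, coeff 0 (y j) ∈ IsLocalRing.maximalIdeal O := by
    intro y hy j
    by_contra hu
    have hu' : IsUnit (coeff 0 (y j)) := by
      by_contra h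
      exact hu ((IsLocalRing.mem_maximalIdeal _).2 h)
    have h1 : prv g (g j) y j = C (coeff 0 (y j)) := by
      ext m
      rw [free2_coeff_prv, coeff_C]
      by_cases hm : 0 = m
      · subst hm
        simp
      · rw [if_neg hm, if_neg]
        intro h
        have h2 : m.degree • xi = (0 : ℕ) • xi := by simpa using h
        exact hm ((Finsupp.degree_eq_zero_iff m).1 (nsmul_xi_injective h2)).symm
    have h2 := free2_drop z j (y := prv g (g j) y) (hYg (g j) y hy) (h1 ▸ hu'.map C)
    refine Nat.find_min hex (m := Fintype.card {i // i ≠ j}) ?_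
      ⟨{i // i ≠ j}, inferInstance, inferInstance, fun i => g i.1, z.submatrix id Subtype.val, rfl,
        fun a b m hm => hz a b.1 m hm, h2.trans hZ⟩
    rw [← hn]
    exact Fintype.card_subtype_lt (x := j) (by simp)
  have hYs : Satur (LinearMap.ker z.mulVecLin) := by
    intro a ha v hv
    rw [LinearMap.mem_ker, map_smul] at hv
    exact (smul_eq_zero.1 hv).resolve_left (by simpa using ha)
  have hYf : (LinearMap.ker z.mulVecLin).FG := by
    obtain ⟨α', j1, j2, g', z', -, h⟩ := exists_gen hYg hYs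
    rw [← h, LinearMap.range_eq_map]
    exact Module.Finite.fg_top.map _
  let f : (α → Pol N O) →ₗ[Pol N O] Z := z.mulVecLin.codRestrict Z fun c => hZ ▸ ⟨c, rfl⟩
  have hf : Function.Surjective f := by
    rintro ⟨v, hv⟩
    rw [← hZ] at hv
    obtain ⟨c, rfl⟩ := hv
    exact ⟨c, rfl⟩
  have hk : LinearMap.ker f = LinearMap.ker z.mulVecLin := LinearMap.ker_codRestrict _ _ _
  let n : Ideal (Pol N O) := (IsLocalRing.maximalIdeal O).comap constantCoeff
  have hxn : xs N O N ≤ n := by
    rw [xs, Ideal.span_le]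
    rintro _ ⟨i, -, rfl⟩
    simp [n]
  have hint : ∀ y ∈ LinearMap.ker f, y ∈ xs N O N • (⊤ : Submodule (Pol N O) (α → Pol N O)) →
      y ∈ n • LinearMap.ker f := by
    intro y hy hx
    have h1 := Reg.inter hf hr (Nat.le_succ N) (z := ⟨y, hy⟩) hx
    have h2 := Submodule.mem_map_of_mem (f := (LinearMap.ker f).subtype) h1
    rw [Submodule.map_smul'', Submodule.map_top, Submodule.range_subtype] at h2
    exact Submodule.smul_mono_left hxn h2
  have hle : LinearMap.ker f ≤ n • LinearMap.ker f := by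
    intro y hy
    obtain ⟨a, ha, u, hu⟩ := free2_pull (N := N) (IsLocalRing.maximalIdeal O)
      (fun j => C (coeff 0 (y j))) (fun j m => by
        rw [coeff_C]
        split_ifs
        · exact hconst y (hk ▸ hy) j
        · exact Ideal.zero_mem _)
    have h1 : y - (C a : Pol N O) • u ∈ xs N O N • (⊤ : Submodule (Pol N O) (α → Pol N O)) := by
      rw [← hu]
      refine free2_mem_smul_top fun j => mem_ideal_span_X_image.2 fun m hm => ?_
      by_contra h
      have h0 : m = 0 := by
        ext i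
        by_contra h'
        exact h ⟨i, i.2, h'⟩
      rw [h0, mem_support_iff] at hm
      exact hm (by simp)
    by_cases ha0 : a = 0
    · rw [ha0, C_0, zero_smul, sub_zero] at h1
      exact hint y hy h1
    have hmap : (xs N O N • (⊤ : Submodule (Pol N O) (α → Pol N O))).map f =
        xs N O N • (⊤ : Submodule (Pol N O) Z) := by
      rw [Submodule.map_smul'', Submodule.map_top, LinearMap.range_eq_top.2 hf]
    have h2 : (C a : Pol N O) • f u ∈ xs N O N • (⊤ : Submodule (Pol N O) Z) := by
      have := Submodule.mem_map_of_mem (f := f) h1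
      rw [hmap, map_sub, LinearMap.mem_ker.1 hy, zero_sub, map_smul] at this
      exact (Submodule.neg_mem_iff _).1 this
    have h3 := hr.2 (Nat.lt_succ_self N) a ha0 _ h2
    rw [← hmap] at h3
    obtain ⟨w, hw, hfw⟩ := h3
    have h4 : u - w ∈ LinearMap.ker f := by rw [LinearMap.mem_ker, map_sub, hfw, sub_self]
    have h5 : y = (C a : Pol N O) • (u - w) + (y - (C a : Pol N O) • (u - w)) := by abel
    rw [h5]
    refine Submodule.add_mem _ (Submodule.smul_mem_smul (by simpa [n] using ha) h4)
      (hint _ (Submodule.sub_mem _ hy (Submodule.smul_mem _ _ h4)) ?_)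
    rw [smul_sub, ← sub_add]
    exact Submodule.add_mem _ h1 (Submodule.smul_mem _ _ hw)
  obtain ⟨r, hr1, hr2⟩ := Submodule.exists_sub_one_mem_and_smul_eq_zero_of_fg_of_le_smul n _
    (hk ▸ hYf) hle
  intro v hv
  refine (smul_eq_zero.1 (hr2 v (hk ▸ hv))).resolve_left fun h0 => ?_
  rw [h0, zero_sub, Ideal.neg_mem_iff, Ideal.mem_comap, map_one] at hr1
  exact (IsLocalRing.maximalIdeal.isMaximal O).ne_top ((Ideal.eq_top_iff_one _).2 hr1)

end Pool.Agent.Lib.MP_e9c0f3_ag
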