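import Pool.Agent.Lib.MP_e9c0f3_ag.Jet

/-! From jets to the generic point. -/

open MvPolynomial Matrix

namespace Pool.Agent.Lib.MP_e9c0f3_ag

variable {N : ℕ}

/-- A polynomial over a product of rings is determined by its components. -/
theorem glob2_ext {B : ℕ → Type} [∀ n, CommRing (B n)] {P Q : Pol N (∀ n, B n)}
    (h : ∀ n, MvPolynomial.map (Pi.evalRingHom B n) P = MvPolynomial.map (Pi.evalRingHom B n) Q) :
    P = Q := by
  refine MvPolynomial.ext _ _ fun m => funext fun n => ?_
  have := congrArg (coeff m) (h n)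
  simpa only [coeff_map, Pi.evalRingHom_apply] using this

/-- Polynomials of bounded degree assemble to a polynomial over the product. -/
theorem glob2_assemble {B : ℕ → Type} [∀ n, CommRing (B n)] (D : ℕ) (p : ∀ n, Pol N (B n))
    (hp : ∀ n, p n ∈ lt N (B n) D) :
    ∃ P : Pol N (∀ n, B n), ∀ n, MvPolynomial.map (Pi.evalRingHom B n) P = p n := by
  classical
  have hfin := Finsupp.finite_of_degree_le (σ := Fin N) D
  refine ⟨∑ m ∈ hfin.toFinset, monomial m fun n => coeff m (p n), fun n => ?_⟩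
  refine MvPolynomial.ext _ _ fun m => ?_
  rw [coeff_map, coeff_sum]
  simp only [coeff_monomial, Finset.sum_ite_eq', Set.Finite.mem_toFinset, Set.mem_ofPred_eq]
  split_ifs with hm
  · rfl
  · rw [map_zero]
    exact (hp n m (not_le.1 hm).le).symm

theorem glob2_map_eq_zero {A : Type} [CommRing A] [Algebra ℂ A] {s : A →ₐ[ℂ] ℂ} {n : ℕ}
    {p : Pol N A} (hp : p ∈ CI N s n) :
    MvPolynomial.map (Ideal.Quotient.mk (RingHom.ker s ^ n)) p = 0 := by
  refine MvPolynomial.ext _ _ fun m => ?_
  rw [coeff_map, coeff_zero, Ideal.Quotient.eq_zero_iff_mem]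
  exact mem_CI.1 hp m

/-- An injective map from a domain stays injective in a suitable residue field. -/
theorem glob2_field {A R : Type} [CommRing A] [IsDomain A] [CommRing R] {j : A →+* R}
    (hj : ∀ a, j a = 0 → a = 0) :
    ∃ (L : Type) (_ : Field L) (g : R →+* L), Function.Injective (g.comp j) := by
  have hdis : Disjoint ((⊥ : Ideal R) : Set R) ((nonZeroDivisors A).map j : Submonoid R) := by
    refine Set.disjoint_right.2 ?_
    rintro _ ⟨a, ha, rfl⟩ h0
    exact nonZeroDivisors.ne_zero ha (hj a (Ideal.mem_bot.1 h0))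
  obtain ⟨q, hq, -, hqd⟩ := Ideal.exists_le_prime_disjoint _ _ hdis
  refine ⟨FractionRing (R ⧸ q), inferInstance,
    (algebraMap (R ⧸ q) _).comp (Ideal.Quotient.mk q), ?_⟩
  refine (injective_iff_map_eq_zero _).2 fun a ha => ?_
  by_contra h0
  have h1 : Ideal.Quotient.mk q (j a) = 0 :=
    (IsFractionRing.injective (R ⧸ q) (FractionRing (R ⧸ q))) (by rw [map_zero]; exact ha)
  exact Set.disjoint_left.1 hqd (Ideal.Quotient.eq_zero_iff_mem.1 h1)
    ⟨a, mem_nonZeroDivisors_of_ne_zero h0, rfl⟩

/-- Solutions to every order, of bounded degree, give a solution over an extension field. -/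
theorem exists_generic {A : Type} [CommRing A] [IsDomain A] [IsNoetherianRing A] [Algebra ℂ A]
    (s : A →ₐ[ℂ] ℂ) {d e : ℕ} {F β : Pol N A} {ι : Type} [Fintype ι] [DecidableEq ι]
    {par : ι → ℕ} {wt : ι → ℤ}
    (h : ∀ n, ∃ (δ : Matrix ι ι (Pol N A)) (u : Fin N → Pol N A),
      (∀ i j, δ i j ≠ 0 → Odd (par i + par j)) ∧
      (∀ i j m, coeff m (δ i j) ≠ 0 → 2 * (m.degree : ℤ) + wt i = d + wt j) ∧
      (∀ i j, (δ * δ - scalar ι F) i j ∈ CI N s n) ∧ (∀ i, u i ∈ lt N A e) ∧
      β - ch par δ - dtw F u ∈ CI N s n) :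
    ∃ (L : Type) (_ : Field L) (f : A →+* L), Function.Injective f ∧
      IsChern d (map f F) (map f β) := by
  choose δ u hodd hhom hsq hu hex using h
  let B : ℕ → Type := fun n => A ⧸ RingHom.ker s ^ n
  let mk : ∀ n, A →+* B n := fun n => Ideal.Quotient.mk (RingHom.ker s ^ n)
  let j : A →+* ∀ n, B n := RingHom.pi mk
  have hj : ∀ n (p : Pol N A), MvPolynomial.map (Pi.evalRingHom B n) (MvPolynomial.map j p)
      = MvPolynomial.map (mk n) p := fun n p => by
    rw [MvPolynomial.map_map]
    rfl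
  have hδ : ∀ i k, ∃ P : Pol N (∀ n, B n), ∀ n,
      MvPolynomial.map (Pi.evalRingHom B n) P = MvPolynomial.map (mk n) (δ n i k) := by
    intro i k
    refine glob2_assemble (((d : ℤ) + wt k - wt i).toNat + 1) _ fun n => map_mem_lt _ ?_
    intro m hm
    by_contra h0
    have := hhom n i k m h0
    omega
  choose Δ hΔ using hδ
  choose U hU using fun i => glob2_assemble e (fun n => MvPolynomial.map (mk n) (u n i))
    fun n => map_mem_lt _ (hu n i)
  have hΔ' : ∀ n, (Matrix.of Δ).map (MvPolynomial.map (Pi.evalRingHom B n))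
      = (δ n).map (MvPolynomial.map (mk n)) := fun n => Matrix.ext fun i k => hΔ i k n
  have hco : ∀ i k m, coeff m (Δ i k) ≠ 0 → ∃ n, coeff m (δ n i k) ≠ 0 := by
    intro i k m h0
    by_contra h1
    push Not at h1
    refine h0 (funext fun n => ?_)
    have := congrArg (coeff m) (hΔ i k n)
    rw [coeff_map, coeff_map, h1 n, map_zero] at this
    exact this
  have hMF : IsMF d (MvPolynomial.map j F) par wt (Matrix.of Δ) := by
    refine ⟨fun i k h0 => ?_, fun i k m h0 => ?_, Matrix.ext fun i k => glob2_ext fun n => ?_⟩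
    · obtain ⟨m, hm⟩ := MvPolynomial.ne_zero_iff.1 h0
      obtain ⟨n, hn⟩ := hco i k m hm
      exact hodd n i k (MvPolynomial.ne_zero_iff.2 ⟨m, hn⟩)
    · obtain ⟨n, hn⟩ := hco i k m h0
      exact hhom n i k m hn
    · have e1 := congrFun (congrFun (Matrix.map_mul (L := Matrix.of Δ) (M := Matrix.of Δ)
        (f := MvPolynomial.map (Pi.evalRingHom B n))) i) k
      have e2 := congrFun (congrFun (Matrix.map_mul (L := δ n) (M := δ n)
        (f := MvPolynomial.map (mk n))) i) k
      rw [hΔ', ← e2] at e1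
      simp only [Matrix.map_apply] at e1
      have e3 := glob2_map_eq_zero (hsq n i k)
      rw [Matrix.sub_apply, map_sub, sub_eq_zero] at e3
      rw [e1]
      refine e3.trans ?_
      simp only [scalar_apply, diagonal_apply]
      split_ifs
      · exact (hj n F).symm
      · rw [map_zero, map_zero]
  have hEx : Exact (MvPolynomial.map j F) (MvPolynomial.map j β - ch par (Matrix.of Δ)) := by
    refine exact_iff.2 ⟨U, glob2_ext fun n => ?_⟩
    have e3 := glob2_map_eq_zero (hex n)
    rw [map_sub, map_sub, sub_eq_zero, map_ch, map_dtw] at e3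
    rw [map_sub, map_ch, map_dtw, hj, hj, hΔ']
    simp only [hU]
    exact e3
  have hbot : ⨅ n : ℕ, RingHom.ker s ^ n = ⊥ :=
    Ideal.iInf_pow_eq_bot_of_isDomain _ (RingHom.ker_ne_top s)
  obtain ⟨L, hL, g, hg⟩ := glob2_field (j := j) fun a ha => by
    rw [← Ideal.mem_bot, ← hbot, Ideal.mem_iInf]
    intro n
    exact Ideal.Quotient.eq_zero_iff_mem.1 (congrFun ha n)
  refine ⟨L, hL, g.comp j, hg, ι, inferInstance, inferInstance, par, wt,
    (Matrix.of Δ).map (MvPolynomial.map g), ?_, ?_⟩
  · rw [← MvPolynomial.map_map]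
    exact hMF.map g
  · have := hEx.map g
    rwa [map_sub, map_ch, MvPolynomial.map_map, MvPolynomial.map_map] at this

/-- A valuation ring centred at a given point. -/
theorem exists_valuation {A L : Type} [CommRing A] [Algebra ℂ A] [Field L] {f : A →+* L}
    (hf : Function.Injective f) (s : A →ₐ[ℂ] ℂ) :
    ∃ (O : ValuationSubring L) (g : A →+* O) (c : ℂ →+* IsLocalRing.ResidueField O),
      (algebraMap O L).comp g = f ∧ (IsLocalRing.residue O).comp g = c.comp (s : A →+* ℂ) := by
  let e : A ≃+* f.range := RingEquiv.ofBijective f.rangeRestrict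
    ⟨fun x y hxy => hf (congrArg Subtype.val hxy), f.rangeRestrict_surjective⟩
  obtain ⟨O, hO, hI⟩ := Ideal.image_subset_nonunits_valuationSubring
    ((RingHom.ker s).comap (e.symm : f.range →+* A))
    (Ideal.comap_ne_top _ (RingHom.ker_ne_top s))
  let g : A →+* O := f.codRestrict O fun x => hO ⟨x, rfl⟩
  refine ⟨O, g, (IsLocalRing.residue O).comp (g.comp (algebraMap ℂ A)), rfl, ?_⟩
  refine RingHom.ext fun a => ?_
  have h1 : a - algebraMap ℂ A (s a) ∈ RingHom.ker s := by
    rw [RingHom.mem_ker, map_sub, AlgHom.commutes]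
    simp
  have h2 : g (a - algebraMap ℂ A (s a)) ∈ IsLocalRing.maximalIdeal O := by
    rw [← ValuationSubring.coe_mem_nonunits_iff]
    refine hI ⟨e (a - algebraMap ℂ A (s a)), ?_, rfl⟩
    change e.symm (e (a - algebraMap ℂ A (s a))) ∈ RingHom.ker s
    rwa [e.symm_apply_apply]
  have h3 := (IsLocalRing.residue_eq_zero_iff _).2 h2
  rw [map_sub, map_sub, sub_eq_zero] at h3
  exact h3

end Pool.Agent.Lib.MP_e9c0f3_ag
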