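import Pool.Agent.Lib.MP_e9c0f3_ag.Std2

/-! Homogeneous components of polynomial matrices for a grading by an abelian group. -/

open MvPolynomial Matrix

namespace Pool.Agent.Lib.MP_e9c0f3_ag

variable {R : Type} [CommRing R] {N : ℕ} {ι κ μ G : Type} [AddCommGroup G]

/-- `M` is homogeneous of degree `g`; variables have degree `ξ`, basis vectors degrees `a`, `b`. -/
def IsHom (ξ : G) (a : ι → G) (b : κ → G) (g : G) (M : Matrix ι κ (Pol N R)) : Prop :=
  ∀ i j m, coeff m (M i j) ≠ 0 → m.degree • ξ + a i = g + b j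

/-- The homogeneous component of degree `g`. -/
noncomputable def pr [DecidableEq G] (ξ : G) (a : ι → G) (b : κ → G) (g : G)
    (M : Matrix ι κ (Pol N R)) : Matrix ι κ (Pol N R) :=
  of fun i j => ∑ m ∈ (M i j).support with m.degree • ξ + a i = g + b j,
    monomial m (coeff m (M i j))

variable {ξ g h : G} {a : ι → G} {b : κ → G} {c : μ → G}

theorem IsHom.zero : IsHom ξ a b g (0 : Matrix ι κ (Pol N R)) :=
  fun i j m h => absurd (by simp) h

theorem IsHom.add {M M' : Matrix ι κ (Pol N R)} (h : IsHom ξ a b g M) (h' : IsHom ξ a b g M') :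
    IsHom ξ a b g (M + M') := by
  intro i j m hm
  by_contra hne
  have h1 : coeff m (M i j) = 0 := by_contra fun e => hne (h i j m e)
  have h2 : coeff m (M' i j) = 0 := by_contra fun e => hne (h' i j m e)
  exact hm (by rw [Matrix.add_apply, coeff_add, h1, h2, add_zero])

theorem IsHom.neg {M : Matrix ι κ (Pol N R)} (h : IsHom ξ a b g M) : IsHom ξ a b g (-M) :=
  fun i j m hm => h i j m fun e => hm (by rw [Matrix.neg_apply, coeff_neg, e, neg_zero])

theorem IsHom.sub {M M' : Matrix ι κ (Pol N R)} (h : IsHom ξ a b g M) (h' : IsHom ξ a b g M') :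
    IsHom ξ a b g (M - M') := by
  rw [sub_eq_add_neg]
  exact h.add h'.neg

theorem IsHom.smul {M : Matrix ι κ (Pol N R)} (h : IsHom ξ a b g M) (r : R) :
    IsHom ξ a b g (r • M) :=
  fun i j m hm => h i j m fun e => hm (by rw [Matrix.smul_apply, coeff_smul, e, smul_zero])

theorem IsHom.sum {α : Type} (s : Finset α) {M : α → Matrix ι κ (Pol N R)}
    (h : ∀ x ∈ s, IsHom ξ a b g (M x)) : IsHom ξ a b g (∑ x ∈ s, M x) :=
  Finset.sum_induction M (IsHom ξ a b g) (fun _ _ h h' => h.add h') IsHom.zero h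

theorem IsHom.mul [Fintype κ] {M : Matrix ι κ (Pol N R)} {M' : Matrix κ μ (Pol N R)}
    (hM : IsHom ξ a b g M) (hM' : IsHom ξ b c h M') : IsHom ξ a c (g + h) (M * M') := by
  classical
  intro i j m hm
  rw [Matrix.mul_apply, coeff_sum] at hm
  obtain ⟨k, -, hk⟩ := Finset.exists_ne_zero_of_sum_ne_zero hm
  rw [coeff_mul] at hk
  obtain ⟨x, hx, hx'⟩ := Finset.exists_ne_zero_of_sum_ne_zero hk
  have h1 := hM i k x.1 (left_ne_zero_of_mul hx')
  have h2 := hM' k j x.2 (right_ne_zero_of_mul hx')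
  rw [← Finset.HasAntidiagonal.mem_antidiagonal.1 hx, map_add, add_smul]
  calc x.1.degree • ξ + x.2.degree • ξ + a i = x.2.degree • ξ + (x.1.degree • ξ + a i) := by abel
    _ = g + (x.2.degree • ξ + b k) := by rw [h1]; abel
    _ = g + h + c j := by rw [h2]; abel

theorem IsHom.one [DecidableEq ι] : IsHom ξ a a 0 (1 : Matrix ι ι (Pol N R)) := by
  classical
  intro i j m hm
  by_cases hij : i = j
  · subst hij
    rw [Matrix.one_apply_eq, coeff_one] at hm
    have : 0 = m := by_contra fun e => hm (if_neg e)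
    rw [← this, map_zero, zero_smul]
  · exact absurd (by rw [Matrix.one_apply_ne hij, coeff_zero]) hm

theorem IsHom.scalar [Fintype ι] [DecidableEq ι] {Q : Pol N R} {e : ℕ} (hQ : Q.IsHomogeneous e) :
    IsHom ξ a a (e • ξ) (scalar ι Q) := by
  intro i j m hm
  by_cases hij : i = j
  · subst hij
    rw [Matrix.scalar_apply, Matrix.diagonal_apply_eq] at hm
    have : m.degree = e := by_contra fun e' => hm (hQ.coeff_eq_zero e')
    rw [this]
  · exact absurd (by rw [Matrix.scalar_apply, Matrix.diagonal_apply_ne _ hij, coeff_zero]) hm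

theorem IsHom.map {R' : Type} [CommRing R'] (f : R →+* R') {M : Matrix ι κ (Pol N R)}
    (h : IsHom ξ a b g M) : IsHom ξ a b g (M.map (map f)) :=
  fun i j m hm => h i j m fun e => hm (by rw [Matrix.map_apply, coeff_map, e, map_zero])

theorem IsHom.of_map {R' : Type} [CommRing R'] {f : R →+* R'} (hf : Function.Injective f)
    {M : Matrix ι κ (Pol N R)} (h : IsHom ξ a b g (M.map (MvPolynomial.map f))) :
    IsHom ξ a b g M :=
  fun i j m hm => h i j m fun e => hm (hf (by rwa [Matrix.map_apply, coeff_map, ← map_zero f] at e))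

theorem IsHom.fromCols {b' : μ → G} {M : Matrix ι κ (Pol N R)} {M' : Matrix ι μ (Pol N R)}
    (h : IsHom ξ a b g M) (h' : IsHom ξ a b' g M') :
    IsHom ξ a (Sum.elim b b') g (fromCols M M') := by
  intro i j m hm
  rcases j with j | j
  · exact h i j m hm
  · exact h' i j m hm

variable [DecidableEq G]

theorem coeff_pr (M : Matrix ι κ (Pol N R)) (i : ι) (j : κ) (m : Fin N →₀ ℕ) :
    coeff m (pr ξ a b g M i j) =
      if m.degree • ξ + a i = g + b j then coeff m (M i j) else 0 := by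
  classical
  simp only [pr, Matrix.of_apply, coeff_sum, coeff_monomial, Finset.sum_ite_eq', Finset.mem_filter,
    mem_support_iff]
  by_cases h1 : m.degree • ξ + a i = g + b j <;> by_cases h2 : coeff m (M i j) = 0 <;>
    simp [h1, h2]

theorem isHom_pr (M : Matrix ι κ (Pol N R)) : IsHom ξ a b g (pr ξ a b g M) := by
  intro i j m hm
  by_contra hne
  exact hm (by rw [coeff_pr, if_neg hne])

theorem IsHom.pr_eq {M : Matrix ι κ (Pol N R)} (h : IsHom ξ a b g M) : pr ξ a b g M = M := by
  ext i j m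
  rw [coeff_pr]
  split_ifs with h1
  · rfl
  · exact (by_contra fun e => h1 (h i j m e) : coeff m (M i j) = 0).symm

theorem IsHom.pr_eq_zero {M : Matrix ι κ (Pol N R)} (hM : IsHom ξ a b g M) (hne : h ≠ g) :
    pr ξ a b h M = 0 := by
  ext i j m
  rw [coeff_pr, Matrix.zero_apply, coeff_zero]
  split_ifs with h1
  · by_contra e
    exact hne (add_right_cancel (h1.symm.trans (hM i j m e)))
  · rfl

theorem pr_zero : pr ξ a b g (0 : Matrix ι κ (Pol N R)) = 0 :=
  IsHom.zero.pr_eq

theorem pr_add (M M' : Matrix ι κ (Pol N R)) :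
    pr ξ a b g (M + M') = pr ξ a b g M + pr ξ a b g M' := by
  ext i j m
  simp only [coeff_pr, Matrix.add_apply, coeff_add]
  split_ifs <;> simp

theorem pr_sub (M M' : Matrix ι κ (Pol N R)) :
    pr ξ a b g (M - M') = pr ξ a b g M - pr ξ a b g M' := by
  ext i j m
  simp only [coeff_pr, Matrix.sub_apply, coeff_sub]
  split_ifs <;> simp

theorem grad_ite_sum {α β : Type} [AddCommMonoid β] (p : Prop) [Decidable p] (s : Finset α)
    (f : α → β) : (if p then ∑ x ∈ s, f x else 0) = ∑ x ∈ s, if p then f x else 0 := by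
  split_ifs <;> simp

theorem pr_mul_left [Fintype κ] {δ : Matrix ι κ (Pol N R)} (hδ : IsHom ξ a b g δ)
    (M : Matrix κ μ (Pol N R)) : pr ξ a c (g + h) (δ * M) = δ * pr ξ b c h M := by
  classical
  ext i j m
  simp only [coeff_pr, Matrix.mul_apply, coeff_sum, coeff_mul]
  rw [grad_ite_sum]
  refine Finset.sum_congr rfl fun k _ => ?_
  rw [grad_ite_sum]
  refine Finset.sum_congr rfl fun x hx => ?_
  by_cases h0 : coeff x.1 (δ i k) = 0
  · simp [h0]
  have h1 := hδ i k x.1 h0
  have h2 : m.degree • ξ + a i = g + (x.2.degree • ξ + b k) := by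
    rw [← Finset.HasAntidiagonal.mem_antidiagonal.1 hx, map_add, add_smul]
    calc x.1.degree • ξ + x.2.degree • ξ + a i = x.2.degree • ξ + (x.1.degree • ξ + a i) := by
          abel
      _ = _ := by rw [h1]; abel
  simp only [h2, add_assoc, add_right_inj, mul_ite, mul_zero]

theorem pr_mul_right [Fintype κ] (M : Matrix ι κ (Pol N R)) {δ : Matrix κ μ (Pol N R)}
    (hδ : IsHom ξ b c g δ) : pr ξ a c (h + g) (M * δ) = pr ξ a b h M * δ := by
  classical
  ext i j m
  simp only [coeff_pr, Matrix.mul_apply, coeff_sum, coeff_mul]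
  rw [grad_ite_sum]
  refine Finset.sum_congr rfl fun k _ => ?_
  rw [grad_ite_sum]
  refine Finset.sum_congr rfl fun x hx => ?_
  by_cases h0 : coeff x.2 (δ k j) = 0
  · simp [h0]
  have h1 := hδ k j x.2 h0
  have h2 : (m.degree • ξ + a i = h + g + c j) ↔ (x.1.degree • ξ + a i = h + b k) := by
    rw [← Finset.HasAntidiagonal.mem_antidiagonal.1 hx, map_add, add_smul, add_assoc h, ← h1]
    rw [show x.1.degree • ξ + x.2.degree • ξ + a i = x.2.degree • ξ + (x.1.degree • ξ + a i) by abel,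
      show h + (x.2.degree • ξ + b k) = x.2.degree • ξ + (h + b k) by abel, add_right_inj]
  simp only [h2, ite_mul, zero_mul]

theorem pr_map {R' : Type} [CommRing R'] (f : R →+* R') (M : Matrix ι κ (Pol N R)) :
    pr ξ a b g (M.map (map f)) = (pr ξ a b g M).map (map f) := by
  ext i j m
  simp only [coeff_pr, Matrix.map_apply, coeff_map]
  split_ifs <;> simp

theorem exists_sum_pr [Finite ι] [Finite κ] (ξ : G) (a : ι → G) (b : κ → G)
    (M : Matrix ι κ (Pol N R)) : ∃ s : Finset G, M = ∑ g ∈ s, pr ξ a b g M := by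
  classical
  cases nonempty_fintype ι
  cases nonempty_fintype κ
  refine ⟨Finset.univ.biUnion fun i => Finset.univ.biUnion fun j =>
    (M i j).support.image fun m => m.degree • ξ + a i - b j, ?_⟩
  ext i j m
  simp only [Matrix.sum_apply, coeff_sum, coeff_pr, ← sub_eq_iff_eq_add, Finset.sum_ite_eq]
  split_ifs with h1
  · rfl
  · by_contra e
    exact h1 (Finset.mem_biUnion.2 ⟨i, Finset.mem_univ _, Finset.mem_biUnion.2
      ⟨j, Finset.mem_univ _, Finset.mem_image.2 ⟨m, mem_support_iff.2 e, rfl⟩⟩⟩)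

/-- The grading group of graded matrix factorisations. -/
abbrev GG : Type := ℤ × ZMod 2

/-- The degree of a variable. -/
def xi : GG := (2, 0)

/-- The degree of a matrix factorisation. -/
def gd (d : ℕ) : GG := (d, 1)

/-- The degrees of the basis vectors. -/
def gam (par : ι → ℕ) (wt : ι → ℤ) (i : ι) : GG := (wt i, (par i : ZMod 2))

/-- The parity of a degree. -/
def parOf (γ : ι → GG) (i : ι) : ℕ := (γ i).2.val

theorem grad_nsmul_xi (n : ℕ) : n • xi = ((2 * n : ℤ), (0 : ZMod 2)) := by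
  rw [xi, Prod.smul_mk, smul_zero, nsmul_eq_mul, mul_comm]

theorem nsmul_xi_injective : Function.Injective fun n : ℕ => n • xi := by
  intro n m h
  have := congrArg Prod.fst h
  simp only [grad_nsmul_xi] at this
  omega

theorem gd_add_gd (d : ℕ) : gd d + gd d = d • xi := by
  refine Prod.ext ?_ ?_
  · simp only [gd, grad_nsmul_xi, Prod.fst_add]
    ring
  · simp only [gd, grad_nsmul_xi, Prod.snd_add]
    decide

theorem pr_scalar [Fintype ι] [DecidableEq ι] (γ : ι → GG) (e : ℕ) (Q : Pol N R) :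
    pr xi γ γ (e • xi) (scalar ι Q) = scalar ι (homogeneousComponent e Q) := by
  ext i j m
  rw [coeff_pr]
  by_cases hij : i = j
  · subst hij
    simp only [Matrix.scalar_apply, Matrix.diagonal_apply_eq, coeff_homogeneousComponent,
      add_left_inj]
    exact if_congr nsmul_xi_injective.eq_iff rfl rfl
  · simp only [Matrix.scalar_apply, Matrix.diagonal_apply_ne _ hij, coeff_zero, ite_self]

theorem grad_exists_coeff {p : Pol N R} (h : p ≠ 0) : ∃ m, coeff m p ≠ 0 := by
  by_contra e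
  exact h (MvPolynomial.ext _ _ fun m => by_contra fun e' => e ⟨m, e'⟩)

theorem grad_odd : ∀ x y : ZMod 2, x = 1 + y → Odd (x.val + y.val) := by decide

theorem grad_even : ∀ x y : ZMod 2, x = 0 + y → Even (x.val + y.val) := by decide

theorem grad_odd_iff (p q : ℕ) : (p : ZMod 2) = 1 + (q : ZMod 2) ↔ Odd (p + q) := by
  have : (1 + (q : ZMod 2)) = ((1 + q : ℕ) : ZMod 2) := by push_cast; rfl
  rw [this, ZMod.natCast_eq_natCast_iff', Nat.odd_iff]
  omega

theorem IsHom.oddM {γ : ι → GG} {γ' : κ → GG} {w : ℤ} {M : Matrix ι κ (Pol N R)}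
    (h : IsHom xi γ γ' (w, 1) M) : OddM (parOf γ) (parOf γ') M := by
  intro i j hij
  obtain ⟨m, hm⟩ := grad_exists_coeff hij
  have := congrArg Prod.snd (h i j m hm)
  simp only [xi, Prod.snd_add, Prod.smul_snd, smul_zero, zero_add] at this
  exact grad_odd _ _ this

theorem IsHom.evenM {γ : ι → GG} {γ' : κ → GG} {w : ℤ} {M : Matrix ι κ (Pol N R)}
    (h : IsHom xi γ γ' (w, 0) M) : EvenM (parOf γ) (parOf γ') M := by
  intro i j hij
  obtain ⟨m, hm⟩ := grad_exists_coeff hij
  have := congrArg Prod.snd (h i j m hm)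
  simp only [xi, Prod.snd_add, Prod.smul_snd, smul_zero, zero_add] at this
  exact grad_even _ _ (by rw [zero_add]; exact this)

theorem parOf_gam (par : ι → ℕ) (wt : ι → ℤ) (i : ι) : parOf (gam par wt) i % 2 = par i % 2 := by
  simp only [parOf, gam, ZMod.val_natCast, Nat.mod_mod]

theorem isHom_gam_iff {d : ℕ} {par : ι → ℕ} {wt : ι → ℤ} {δ : Matrix ι ι (Pol N R)} :
    IsHom xi (gam par wt) (gam par wt) (gd d) δ ↔ (∀ i j, δ i j ≠ 0 → Odd (par i + par j)) ∧
      ∀ i j m, coeff m (δ i j) ≠ 0 → 2 * (m.degree : ℤ) + wt i = d + wt j := by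
  have key : ∀ i j (n : ℕ), n • xi + gam par wt i = gd d + gam par wt j ↔
      (2 * (n : ℤ) + wt i = d + wt j ∧ Odd (par i + par j)) := by
    intro i j n
    rw [Prod.ext_iff, ← grad_odd_iff]
    simp only [grad_nsmul_xi, gam, gd, Prod.fst_add, Prod.snd_add, zero_add]
  constructor
  · intro h
    refine ⟨fun i j hij => ?_, fun i j m hm => ((key i j _).1 (h i j m hm)).1⟩
    obtain ⟨m, hm⟩ := grad_exists_coeff hij
    exact ((key i j _).1 (h i j m hm)).2
  · intro h i j m hm
    exact (key i j _).2 ⟨h.2 i j m hm, h.1 i j fun e => hm (by rw [e, coeff_zero])⟩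

variable [Fintype ι] [DecidableEq ι]

theorem isMF_iff {d : ℕ} {F : Pol N R} {par : ι → ℕ} {wt : ι → ℤ} {δ : Matrix ι ι (Pol N R)} :
    IsMF d F par wt δ ↔
      IsHom xi (gam par wt) (gam par wt) (gd d) δ ∧ δ * δ = scalar ι F :=
  ⟨fun h => ⟨isHom_gam_iff.2 ⟨h.odd, h.homog⟩, h.sq⟩,
    fun h => ⟨(isHom_gam_iff.1 h.1).1, (isHom_gam_iff.1 h.1).2, h.2⟩⟩

theorem isMF_of_isHom {d : ℕ} {F : Pol N R} {γ : ι → GG} {δ : Matrix ι ι (Pol N R)}
    (h : IsHom xi γ γ (gd d) δ) (hsq : δ * δ = scalar ι F) :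
    IsMF d F (parOf γ) (fun i => (γ i).1) δ := by
  have : gam (parOf γ) (fun i => (γ i).1) = γ := by
    funext i
    simp only [gam, parOf, ZMod.natCast_zmod_val]
  exact isMF_iff.2 ⟨by rwa [this], hsq⟩

end Pool.Agent.Lib.MP_e9c0f3_ag
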