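import Pool.Agent.Lib.MP_e9c0f3_ag.Jet
import Pool.Agent.Lib.MP_e9c0f3_ag.Tw2

/-! Flat sections to finite order. -/

open MvPolynomial Matrix

namespace Pool.Agent.Lib.MP_e9c0f3_ag

variable {A : Type} [CommRing A] [Algebra ℂ A] {N : ℕ} {s : A →ₐ[ℂ] ℂ}

omit [Algebra ℂ A] in
theorem jet2_dtw_sum {r : ℕ} (F : Pol N A) (a : Fin r → A) (c : Fin r → Fin N → Pol N A) :
    dtw F (fun i => ∑ μ, a μ • c μ i) = ∑ μ, a μ • dtw F (c μ) := by
  let L : (Fin N → Pol N A) →ₗ[A] Pol N A :=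
    { toFun := dtw F, map_add' := dtw_add F, map_smul' := dtw_smul F }
  have h1 : (fun i => ∑ μ, a μ • c μ i) = ∑ μ, a μ • c μ := by
    funext i
    simp only [Finset.sum_apply, Pi.smul_apply]
  rw [h1]
  change L _ = ∑ μ, a μ • L (c μ)
  rw [map_sum]
  simp only [map_smul]

theorem jet2_smul_mem {n : ℕ} {a : A} (ha : a ∈ RingHom.ker s ^ n) {p : Pol N A}
    (hp : p ∈ CI N s 1) : a • p ∈ CI N s (n + 1) := by
  have h := mul_mem_CI (smul_mem_CI ha (1 : Pol N A)) hp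
  rwa [smul_mul_assoc, one_mul] at h

/-- Lifting a finite family of exact forms from the special fibre. -/
theorem jet2_lift {n r : ℕ} (F : Pol N A) {a : Fin r → A} (ha : ∀ μ, a μ ∈ RingHom.ker s ^ n)
    (k : Fin r → Fin N → Pol N ℂ) :
    ∑ μ, a μ • map (algebraMap ℂ A) (dtw (map (s : A →+* ℂ) F) (k μ)) -
      dtw F (fun i => ∑ μ, a μ • map (algebraMap ℂ A) (k μ i)) ∈ CI N s (n + 1) := by
  rw [jet2_dtw_sum F a fun μ i => map (algebraMap ℂ A) (k μ i), ← Finset.sum_sub_distrib]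
  refine Ideal.sum_mem _ fun μ _ => ?_
  rw [← smul_sub]
  refine jet2_smul_mem (ha μ) (mem_CI_one.mpr ?_)
  rw [map_sub, map_map_algebraMap, map_dtw]
  simp only [map_map_algebraMap, sub_self]

theorem jet2_div {F x : Pol N ℂ} {m : ℕ} (hm : m ≠ 0) (h : Exact F (m • x)) : Exact F x := by
  obtain ⟨u, hu⟩ := exact_iff.mp h
  refine exact_iff.mpr ⟨(m : ℂ)⁻¹ • u, ?_⟩
  rw [dtw_smul, ← hu, ← Nat.cast_smul_eq_nsmul ℂ, smul_smul,
    inv_mul_cancel₀ (Nat.cast_ne_zero.mpr hm), one_smul]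

theorem jet2_conn {F : Pol N A} {E : Derivation ℂ A A} (hE : Euler s E) {m : ℕ} {γ : Pol N A}
    {h : Fin N → Pol N A} (hm : γ - dtw F h ∈ CI N s m) :
    ∃ w : Fin N → Pol N A, cmap (E : A →+ A) γ + cmap (E : A →+ A) F * γ - dtw F w -
      m • (γ - dtw F h) ∈ CI N s (m + 1) := by
  have hc := conn_dtw (cmap (E : A →+ A)) (cmap_leibniz fun a b => by
    change E (a * b) = E a * b + a * E b
    rw [Derivation.leibniz, smul_eq_mul, smul_eq_mul]
    ring) (cmap_pderiv (E : A →+ A)) F h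
  refine ⟨fun i => cmap (E : A →+ A) (h i) + cmap (E : A →+ A) F * h i, ?_⟩
  rw [← hc]
  have h1 := hE.cmap_sub hm
  have h2 := mul_mem_CI (hE.cmap_mem_one F) hm
  rw [add_comm 1 m] at h2
  have h3 := Ideal.add_mem _ h1 h2
  rw [map_sub] at h3
  rw [nsmul_eq_mul]
  convert h3 using 1
  ring

variable [IsNoetherianRing A] {d : ℕ} {F : Pol N A}

theorem jet2_reduce (hd : 2 ≤ d) (hF : F.IsHomogeneous d)
    (hr : RegAll fun i => pderiv i (map (s : A →+* ℂ) F)) {n : ℕ} {h : Fin N → Pol N A}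
    (hh : dtw F h ∈ CI N s n) (l : ℕ) (hl : l ≤ n) :
    ∃ h' : Fin N → Pol N A, (∀ i, h' i ∈ CI N s l) ∧ dtw F h' = dtw F h := by
  induction l with
  | zero => exact ⟨h, fun i => by rw [CI_zero]; trivial, rfl⟩
  | succ l ih =>
    obtain ⟨h', h1, h2⟩ := ih (by omega)
    obtain ⟨r, a, φ, ha, hφ, hdual⟩ := exists_dual (N := N) s l
    have hb : ∀ μ, ∃ b : Fin N → Fin N → Pol N ℂ, (∀ i j, b j i = -b i j) ∧ (∀ i, b i i = 0) ∧
        ∀ i, cmap (φ μ) (h' i) = dtw (map (s : A →+* ℂ) F) (b i) := by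
      intro μ
      obtain ⟨n', hn'⟩ := exists_mem_lt fun i => cmap (φ μ) (h' i)
      have h0 : dtw (map (s : A →+* ℂ) F) (fun i => cmap (φ μ) (h' i)) = 0 := by
        rw [← cmap_dtw (hφ μ).mul F fun i => mem_CI.mp (h1 i), h2]
        exact (hφ μ).cmap_eq_zero (CI_mono hl hh)
      obtain ⟨b, b1, b2, -, b4⟩ := tw_ker hd (hF.map _) hr hn' h0
      exact ⟨b, b1, b2, fun i => congrFun b4 i⟩
    choose b b1 b2 b3 using hb
    refine ⟨h' - dtw' F fun i j => ∑ μ, a μ • map (algebraMap ℂ A) (b μ i j), fun i => ?_, ?_⟩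
    · have e1 := hdual _ (h1 i)
      have e2 := jet2_lift F ha fun μ => b μ i
      simp only [b3] at e1
      have e3 := Ideal.add_mem _ e1 e2
      rw [sub_add_sub_cancel] at e3
      exact e3
    · rw [dtw_sub, dtw_dtw', sub_zero, h2]
      · intro i j
        rw [← Finset.sum_neg_distrib]
        refine Finset.sum_congr rfl fun μ _ => ?_
        rw [b1 μ i j, map_neg, smul_neg]
      · intro i
        simp only [b2, map_zero, smul_zero, Finset.sum_const_zero]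

/-- Flatness of the Griffiths-Dwork module. -/
theorem tf_level (hd : 2 ≤ d) (hF : F.IsHomogeneous d)
    (hr : RegAll fun i => pderiv i (map (s : A →+* ℂ) F)) {n : ℕ} {g : Pol N A}
    (hg : g ∈ CI N s n) {h : Fin N → Pol N A} (he : g - dtw F h ∈ CI N s (n + 1)) {φ : A →+ ℂ}
    (hφ : Level s n φ) : Exact (map (s : A →+* ℂ) F) (cmap φ g) := by
  have hh : dtw F h ∈ CI N s n := by
    have h1 := Ideal.sub_mem _ hg (CI_mono (Nat.le_succ n) he)
    rwa [sub_sub_cancel] at h1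
  obtain ⟨h', h1, h2⟩ := jet2_reduce hd hF hr hh n le_rfl
  refine exact_iff.mpr ⟨fun i => cmap φ (h' i), ?_⟩
  rw [← cmap_dtw hφ.mul F fun i => mem_CI.mp (h1 i), h2, ← sub_eq_zero, ← map_sub]
  exact hφ.cmap_eq_zero he

/-- A section that vanishes at `s` and is flat to order `n` vanishes to order `n + 1`. -/
theorem flat_vanish (hd : 2 ≤ d) (hF : F.IsHomogeneous d)
    (hr : RegAll fun i => pderiv i (map (s : A →+* ℂ) F)) {E : Derivation ℂ A A} (hE : Euler s E)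
    {e n : ℕ} {γ τ : Pol N A} (hγ : γ ∈ lt N A (e + (d - 1)))
    (h0 : Exact (map (s : A →+* ℂ) F) (map (s : A →+* ℂ) γ)) (hτ : τ ∈ CI N s (n + 1))
    {u : Fin N → Pol N A}
    (hu : cmap (E : A →+ A) γ + cmap (E : A →+ A) F * γ - dtw F u - ((n + 1 : ℕ) : Pol N A) * τ ∈
      CI N s (n + 2)) :
    ∃ h : Fin N → Pol N A, (∀ i, h i ∈ lt N A e) ∧ γ - dtw F h ∈ CI N s (n + 1) ∧
      ∀ φ, Level s (n + 1) φ →
        Exact (map (s : A →+* ℂ) F) (cmap φ (γ - dtw F h) - cmap φ τ) := by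
  have hF0 : (map (s : A →+* ℂ) F).IsHomogeneous d := hF.map _
  have key : ∀ m, m ≤ n + 1 → ∀ h : Fin N → Pol N A, γ - dtw F h ∈ CI N s m →
      ∃ w : Fin N → Pol N A, m • (γ - dtw F h) - (n + 1) • τ - dtw F w ∈ CI N s (m + 1) := by
    intro m hm h hh
    obtain ⟨w, hw⟩ := jet2_conn hE hh
    refine ⟨u - w, ?_⟩
    have h1 := Ideal.sub_mem _ (CI_mono (by omega : m + 1 ≤ n + 2) hu) hw
    rw [dtw_sub, nsmul_eq_mul (n + 1)]
    convert h1 using 1
    ring
  have main : ∀ m, m ≤ n → ∃ h : Fin N → Pol N A, (∀ i, h i ∈ lt N A e) ∧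
      γ - dtw F h ∈ CI N s (m + 1) := by
    intro m
    induction m with
    | zero =>
      intro _
      obtain ⟨k, k1, k2⟩ := tw_strict hd hF0 hr h0 (map_mem_lt _ hγ)
      refine ⟨fun i => map (algebraMap ℂ A) (k i), fun i => map_mem_lt _ (k1 i), ?_⟩
      rw [zero_add, mem_CI_one, map_sub, map_dtw, k2]
      simp only [map_map_algebraMap, sub_self]
    | succ m ih =>
      intro hm
      obtain ⟨h, h1, h2⟩ := ih (by omega)
      obtain ⟨w, hw⟩ := key (m + 1) (by omega) h h2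
      have hw' : (m + 1) • (γ - dtw F h) - dtw F w ∈ CI N s (m + 1 + 1) := by
        have h3 : (n + 1) • τ ∈ CI N s (m + 1 + 1) :=
          nsmul_mem (CI_mono (by omega) hτ) _
        have h4 := Ideal.add_mem _ hw h3
        convert h4 using 1
        ring
      obtain ⟨r, a, φ, ha, hφ, hdual⟩ := exists_dual (N := N) s (m + 1)
      have hk : ∀ μ, ∃ k : Fin N → Pol N ℂ, (∀ i, k i ∈ lt N ℂ e) ∧
          cmap (φ μ) (γ - dtw F h) = dtw (map (s : A →+* ℂ) F) k := by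
        intro μ
        have e1 := tf_level hd hF hr (nsmul_mem h2 (m + 1)) hw' (hφ μ)
        rw [map_nsmul] at e1
        exact tw_strict hd hF0 hr (jet2_div (Nat.succ_ne_zero m) e1)
          (cmap_mem_lt _ (Submodule.sub_mem _ hγ (dtw_mem_lt hF h1)))
      choose k k1 k2 using hk
      refine ⟨h + fun i => ∑ μ, a μ • map (algebraMap ℂ A) (k μ i), fun i => ?_, ?_⟩
      · exact Submodule.add_mem _ (h1 i) (Submodule.sum_mem _ fun μ _ =>
          Submodule.smul_mem _ _ (map_mem_lt _ (k1 μ i)))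
      · have e1 := hdual _ h2
        simp only [k2] at e1
        have e3 := Ideal.add_mem _ e1 (jet2_lift F ha k)
        rw [sub_add_sub_cancel] at e3
        rw [dtw_add, ← sub_sub]
        exact e3
  obtain ⟨h, h1, h2⟩ := main n le_rfl
  refine ⟨h, h1, h2, fun φ hφ => ?_⟩
  obtain ⟨w, hw⟩ := key (n + 1) le_rfl h h2
  rw [← nsmul_sub] at hw
  have e1 := tf_level hd hF hr (nsmul_mem (Ideal.sub_mem _ h2 hτ) (n + 1)) hw hφ
  rw [map_nsmul, map_sub] at e1
  exact jet2_div (Nat.succ_ne_zero n) e1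

end Pool.Agent.Lib.MP_e9c0f3_ag
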