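import Pool.Agent.Lib.MP_e9c0f3_ag.Flat

/-! Jets at a smooth point of the base. -/

open MvPolynomial Matrix

namespace Pool.Agent.Lib.MP_e9c0f3_ag

variable {A : Type} [CommRing A] [Algebra ℂ A] {N : ℕ}

/-- Polynomials with coefficients in the `n`-th power of the maximal ideal of `s`. -/
noncomputable def CI (N : ℕ) (s : A →ₐ[ℂ] ℂ) (n : ℕ) : Ideal (Pol N A) :=
  Ideal.map C (RingHom.ker s ^ n)

theorem mem_CI {s : A →ₐ[ℂ] ℂ} {n : ℕ} {p : Pol N A} :
    p ∈ CI N s n ↔ ∀ m, coeff m p ∈ RingHom.ker s ^ n := mem_map_C_iff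

/-- An Euler vector field at the point `s`. -/
structure Euler (s : A →ₐ[ℂ] ℂ) (E : Derivation ℂ A A) : Prop where
  mem : ∀ a, E a ∈ RingHom.ker s
  pow : ∀ n : ℕ, ∀ a ∈ RingHom.ker s ^ n, E a - (n : A) * a ∈ RingHom.ker s ^ (n + 1)

theorem jet_sub_mem (s : A →ₐ[ℂ] ℂ) (a : A) : a - algebraMap ℂ A (s a) ∈ RingHom.ker s := by
  rw [RingHom.mem_ker, map_sub, AlgHom.commutes]
  simp

/-- The derivation sending `a` to the class of `a - s a` modulo the square of the ideal. -/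
noncomputable def jetDer (s : A →ₐ[ℂ] ℂ) : Derivation ℂ A (A ⧸ RingHom.ker s ^ 2) :=
  Derivation.mk'
    ((Ideal.Quotient.mkₐ ℂ (RingHom.ker s ^ 2)).toLinearMap ∘ₗ
      (LinearMap.id - (Algebra.linearMap ℂ A) ∘ₗ s.toLinearMap)) fun a b => by
    have h : (a * b - algebraMap ℂ A (s (a * b))) -
        (a * (b - algebraMap ℂ A (s b)) + b * (a - algebraMap ℂ A (s a))) ∈
        RingHom.ker s ^ 2 := by
      have h1 := Ideal.mul_mem_mul (jet_sub_mem s a) (jet_sub_mem s b)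
      rw [← pow_two] at h1
      have h2 := neg_mem h1
      convert h2 using 1
      rw [map_mul, map_mul]
      ring
    have h3 := Ideal.Quotient.eq.mpr h
    show Ideal.Quotient.mk _ (a * b - algebraMap ℂ A (s (a * b))) =
      a • Ideal.Quotient.mk _ (b - algebraMap ℂ A (s b)) +
        b • Ideal.Quotient.mk _ (a - algebraMap ℂ A (s a))
    rw [h3, map_add, map_mul, map_mul]
    rfl

theorem jetDer_apply (s : A →ₐ[ℂ] ℂ) (a : A) :
    jetDer s a = Ideal.Quotient.mk _ (a - algebraMap ℂ A (s a)) := rfl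

theorem exists_euler [Algebra.FormallySmooth ℂ A] (s : A →ₐ[ℂ] ℂ) : ∃ E, Euler s E := by
  obtain ⟨h, hh⟩ := Module.projective_lifting_property (Submodule.mkQ (RingHom.ker s ^ 2))
    (jetDer s).liftKaehlerDifferential (Submodule.mkQ_surjective _)
  let E : Derivation ℂ A A := h.compDer (KaehlerDifferential.D ℂ A)
  have hE : ∀ a, E a - (a - algebraMap ℂ A (s a)) ∈ RingHom.ker s ^ 2 := by
    intro a
    have h1 := LinearMap.congr_fun hh (KaehlerDifferential.D ℂ A a)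
    rw [Derivation.liftKaehlerDifferential_comp_D, jetDer_apply] at h1
    exact Ideal.Quotient.eq.mp h1
  have hmem : ∀ a, E a ∈ RingHom.ker s := by
    intro a
    have h1 := add_mem (Ideal.pow_le_self two_ne_zero (hE a)) (jet_sub_mem s a)
    rwa [sub_add_cancel] at h1
  refine ⟨E, hmem, fun n => ?_⟩
  induction n with
  | zero =>
    intro a _
    simpa using hmem a
  | succ n ih =>
    intro a ha
    rw [pow_succ] at ha
    refine Submodule.mul_induction_on ha (fun x hx y hy => ?_) (fun x y hx hy => ?_)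
    · have h1 : E y - y ∈ RingHom.ker s ^ 2 := by
        have h2 := hE y
        rwa [(RingHom.mem_ker.mp hy : s y = 0), map_zero, sub_zero] at h2
      have h3 : x * (E y - y) ∈ RingHom.ker s ^ (n + 1 + 1) := by
        have h4 := Ideal.mul_mem_mul hx h1
        rwa [← pow_add] at h4
      have h5 : (E x - (n : A) * x) * y ∈ RingHom.ker s ^ (n + 1 + 1) := by
        have h4 := Ideal.mul_mem_mul (ih x hx) hy
        rwa [← pow_succ] at h4
      have h6 := add_mem h3 h5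
      convert h6 using 1
      rw [Derivation.leibniz, smul_eq_mul, smul_eq_mul]
      push_cast
      ring
    · have h6 := add_mem hx hy
      convert h6 using 1
      rw [map_add]
      ring

/-- A functional on the `n`-th graded piece. -/
structure Level (s : A →ₐ[ℂ] ℂ) (n : ℕ) (φ : A →+ ℂ) : Prop where
  mul : ∀ x, ∀ y ∈ RingHom.ker s ^ n, φ (x * y) = (s : A →+* ℂ) x * φ y
  zero : ∀ y ∈ RingHom.ker s ^ (n + 1), φ y = 0

theorem exists_dual [IsNoetherianRing A] (s : A →ₐ[ℂ] ℂ) (n : ℕ) :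
    ∃ (r : ℕ) (a : Fin r → A) (φ : Fin r → A →+ ℂ), (∀ μ, a μ ∈ RingHom.ker s ^ n) ∧
      (∀ μ, Level s n (φ μ)) ∧ ∀ p ∈ CI N s n,
        p - ∑ μ, a μ • map (algebraMap ℂ A) (cmap (φ μ) p) ∈ CI N s (n + 1) := by
  obtain ⟨r, a, ha⟩ := Submodule.fg_iff_exists_fin_generating_family.mp
    (IsNoetherian.noetherian (RingHom.ker s ^ n : Ideal A))
  have ham : ∀ μ, a μ ∈ RingHom.ker s ^ n := fun μ => by
    rw [← ha]
    exact Submodule.subset_span ⟨μ, rfl⟩
  let π : A →ₐ[ℂ] A ⧸ RingHom.ker s ^ (n + 1) := Ideal.Quotient.mkₐ ℂ _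
  have hπ0 : ∀ y ∈ RingHom.ker s ^ (n + 1), π y = 0 := fun y hy =>
    Ideal.Quotient.eq_zero_iff_mem.mpr hy
  have hπ : ∀ x, ∀ y ∈ RingHom.ker s ^ n, π (x * y) = s x • π y := by
    intro x y hy
    have h1 := Ideal.mul_mem_mul hy (jet_sub_mem s x)
    rw [← pow_succ] at h1
    have h2 := hπ0 _ h1
    have h3 : x * y = y * (x - algebraMap ℂ A (s x)) + s x • y := by
      rw [Algebra.smul_def]
      ring
    rw [h3, map_add, h2, zero_add, map_smul]
  let T : (Fin r → ℂ) →ₗ[ℂ] A ⧸ RingHom.ker s ^ (n + 1) :=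
    Fintype.linearCombination ℂ fun μ => π (a μ)
  obtain ⟨R, hR⟩ := LinearMap.exists_rightInverse_of_surjective T.rangeRestrict
    (LinearMap.range_rangeRestrict T)
  obtain ⟨S, hS⟩ := LinearMap.exists_extend R
  have hTS : ∀ y ∈ RingHom.ker s ^ n, T (S (π y)) = π y := by
    intro y hy
    have hy' := hy
    rw [← ha, Submodule.mem_span_range_iff_exists_fun] at hy'
    obtain ⟨c, hc⟩ := hy'
    have hr : π y ∈ LinearMap.range T := by
      refine ⟨fun μ => s (c μ), ?_⟩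
      rw [← hc, map_sum, Fintype.linearCombination_apply]
      refine Finset.sum_congr rfl fun μ _ => ?_
      rw [smul_eq_mul, hπ _ _ (ham μ)]
    have h1 := LinearMap.congr_fun hS ⟨π y, hr⟩
    have h2 := congrArg Subtype.val (LinearMap.congr_fun hR ⟨π y, hr⟩)
    have h3 : S (π y) = R ⟨π y, hr⟩ := h1
    rw [h3]
    exact h2
  let φ : Fin r → A →+ ℂ := fun μ =>
    { toFun := fun y => S (π y) μ
      map_zero' := by rw [map_zero, map_zero]; rfl
      map_add' := fun x y => by rw [map_add, map_add]; rfl }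
  have hφ : ∀ μ y, φ μ y = S (π y) μ := fun _ _ => rfl
  refine ⟨r, a, φ, ham, fun μ => ⟨fun x y hy => ?_, fun y hy => ?_⟩, fun p hp => ?_⟩
  · rw [hφ, hφ, hπ x y hy, map_smul]
    rfl
  · rw [hφ, hπ0 y hy, map_zero]
    rfl
  · rw [mem_CI] at hp ⊢
    intro m
    rw [coeff_sub, coeff_sum]
    refine Ideal.Quotient.eq.mp ?_
    have h1 := hTS _ (hp m)
    rw [Fintype.linearCombination_apply] at h1
    show π _ = π _
    rw [← h1, map_sum]
    refine Finset.sum_congr rfl fun μ _ => ?_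
    rw [coeff_smul, coeff_map, coeff_cmap, hφ, smul_eq_mul, mul_comm, ← Algebra.smul_def,
      map_smul]

variable {s : A →ₐ[ℂ] ℂ}

theorem CI_zero : CI N s 0 = ⊤ := by
  rw [eq_top_iff]
  intro p _
  rw [mem_CI]
  intro m
  rw [pow_zero, Ideal.one_eq_top]
  trivial

theorem mem_CI_one {p : Pol N A} : p ∈ CI N s 1 ↔ map (s : A →+* ℂ) p = 0 := by
  rw [mem_CI, MvPolynomial.ext_iff]
  refine forall_congr' fun m => ?_
  rw [pow_one, coeff_map, coeff_zero, RingHom.mem_ker]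
  rfl

theorem CI_mono {m n : ℕ} (h : m ≤ n) : CI N s n ≤ CI N s m :=
  Ideal.map_mono (Ideal.pow_le_pow_right h)

theorem mul_mem_CI {m n : ℕ} {p q : Pol N A} (hp : p ∈ CI N s m) (hq : q ∈ CI N s n) :
    p * q ∈ CI N s (m + n) := by
  unfold CI at *
  rw [pow_add, Ideal.map_mul]
  exact Ideal.mul_mem_mul hp hq

theorem smul_mem_CI {n : ℕ} {a : A} (ha : a ∈ RingHom.ker s ^ n) (p : Pol N A) :
    a • p ∈ CI N s n := by
  rw [smul_eq_C_mul]
  exact Ideal.mul_mem_right _ _ (Ideal.mem_map_of_mem _ ha)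

theorem pderiv_mem_CI {n : ℕ} {p : Pol N A} (hp : p ∈ CI N s n) (i : Fin N) :
    pderiv i p ∈ CI N s n := by
  rw [mem_CI] at hp ⊢
  intro m
  rw [coeff_pderiv]
  exact Ideal.mul_mem_right _ _ (hp _)

theorem dtw_mem_CI {n : ℕ} (F : Pol N A) {h : Fin N → Pol N A} (hh : ∀ i, h i ∈ CI N s n) :
    dtw F h ∈ CI N s n :=
  Ideal.sum_mem _ fun i _ => add_mem (pderiv_mem_CI (hh i) i) (Ideal.mul_mem_left _ _ (hh i))

theorem map_map_algebraMap (p : Pol N ℂ) :
    map (s : A →+* ℂ) (map (algebraMap ℂ A) p) = p := by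
  ext m
  rw [coeff_map, coeff_map]
  exact s.commutes _

theorem sub_map_mem_CI (p : Pol N A) :
    p - map (algebraMap ℂ A) (map (s : A →+* ℂ) p) ∈ CI N s 1 := by
  rw [mem_CI_one, map_sub, map_map_algebraMap, sub_self]

theorem Level.cmap_eq_zero {n : ℕ} {φ : A →+ ℂ} (h : Level s n φ) {p : Pol N A}
    (hp : p ∈ CI N s (n + 1)) : cmap φ p = 0 := by
  ext m
  rw [coeff_cmap, coeff_zero]
  exact h.zero _ (mem_CI.mp hp m)

theorem Level.cmap_mul {n : ℕ} {φ : A →+ ℂ} (h : Level s n φ) (q : Pol N A) {p : Pol N A}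
    (hp : p ∈ CI N s n) : cmap φ (q * p) = map (s : A →+* ℂ) q * cmap φ p :=
  Pool.Agent.Lib.MP_e9c0f3_ag.cmap_mul h.mul q (mem_CI.mp hp)

theorem Euler.cmap_mem_one {E : Derivation ℂ A A} (h : Euler s E) (p : Pol N A) :
    cmap (E : A →+ A) p ∈ CI N s 1 := by
  rw [mem_CI]
  intro m
  rw [coeff_cmap, pow_one]
  exact h.mem _

theorem Euler.cmap_sub {E : Derivation ℂ A A} (h : Euler s E) {n : ℕ} {p : Pol N A}
    (hp : p ∈ CI N s n) : cmap (E : A →+ A) p - (n : Pol N A) * p ∈ CI N s (n + 1) := by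
  rw [mem_CI] at hp ⊢
  intro m
  rw [coeff_sub, coeff_cmap, ← nsmul_eq_mul, coeff_smul, nsmul_eq_mul]
  exact h.pow n _ (hp m)

end Pool.Agent.Lib.MP_e9c0f3_ag
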