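import Pool.Agent.Lib.MP_e9c0f3_ag.Std2

/-! Nondegeneracy of the Kapustin-Li pairing in the cyclic case. -/

open MvPolynomial Matrix

namespace Pool.Agent.Lib.MP_e9c0f3_ag

section

variable {S : Type} [CommRing S] {ι : Type} [Fintype ι] [DecidableEq ι]

/-- All entries lie in the ideal. -/
def klIn (A : Ideal S) (M : Matrix ι ι S) : Prop := ∀ i j, M i j ∈ A

omit [Fintype ι] [DecidableEq ι] in
theorem klIn.mono {A B : Ideal S} {M : Matrix ι ι S} (h : klIn A M) (hAB : A ≤ B) : klIn B M :=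
  fun i j => hAB (h i j)

omit [Fintype ι] [DecidableEq ι] in
theorem klIn.add {A : Ideal S} {M M' : Matrix ι ι S} (h : klIn A M) (h' : klIn A M') :
    klIn A (M + M') := fun i j => A.add_mem (h i j) (h' i j)

omit [Fintype ι] [DecidableEq ι] in
theorem klIn.neg {A : Ideal S} {M : Matrix ι ι S} (h : klIn A M) : klIn A (-M) :=
  fun i j => A.neg_mem (h i j)

omit [Fintype ι] [DecidableEq ι] in
theorem klIn.sub {A : Ideal S} {M M' : Matrix ι ι S} (h : klIn A M) (h' : klIn A M') :
    klIn A (M - M') := fun i j => A.sub_mem (h i j) (h' i j)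

omit [DecidableEq ι] in
theorem klIn.mul_left {A : Ideal S} {M : Matrix ι ι S} (h : klIn A M) (X : Matrix ι ι S) :
    klIn A (X * M) := fun i j => by
  rw [Matrix.mul_apply]
  exact A.sum_mem fun k _ => A.mul_mem_left _ (h k j)

omit [DecidableEq ι] in
theorem klIn.mul_right {A : Ideal S} {M : Matrix ι ι S} (h : klIn A M) (X : Matrix ι ι S) :
    klIn A (M * X) := fun i j => by
  rw [Matrix.mul_apply]
  exact A.sum_mem fun k _ => A.mul_mem_right _ (h i k)

omit [Fintype ι] [DecidableEq ι] in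
theorem klIn.smul {A : Ideal S} {a : S} (h : a ∈ A) (X : Matrix ι ι S) : klIn A (a • X) :=
  fun i j => A.mul_mem_right (X i j) h

omit [Fintype ι] [DecidableEq ι] in
theorem klIn.sum {A : Ideal S} {α : Type} (s : Finset α) {M : α → Matrix ι ι S}
    (h : ∀ a ∈ s, klIn A (M a)) : klIn A (∑ a ∈ s, M a) := fun i j => by
  rw [Matrix.sum_apply]
  exact A.sum_mem fun a ha => h a ha i j

omit [DecidableEq ι] in
theorem klIn.trace {A : Ideal S} {M : Matrix ι ι S} (h : klIn A M) : trace M ∈ A :=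
  A.sum_mem fun i _ => h i i

theorem kl_scalar_mul (a : S) (X : Matrix ι ι S) : scalar ι a * X = a • X := by
  rw [scalar_apply, ← smul_eq_diagonal_mul]

theorem kl_mul_scalar (a : S) (X : Matrix ι ι S) : X * scalar ι a = a • X := by
  rw [← (scalar_commute a (fun _ => Commute.all _ _) X).eq, kl_scalar_mul]

/-- Conjugation by an involution. -/
def klTw {e : Matrix ι ι S} (he : e * e = 1) : Matrix ι ι S →+* Matrix ι ι S where
  toFun x := e * x * e
  map_one' := by rw [mul_one, he]
  map_mul' x y := by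
    calc e * (x * y) * e = e * x * (e * e) * y * e := by rw [he]; noncomm_ring
      _ = _ := by noncomm_ring
  map_zero' := by simp
  map_add' x y := by noncomm_ring

/-- The data of the argument. -/
structure klH (N : ℕ) (τ : Matrix ι ι S →+* Matrix ι ι S) (s : Matrix ι ι S →ₗ[S] S)
    (δ : Matrix ι ι S) (t : ℕ → S) (l : ℕ → Matrix ι ι S) : Prop where
  inv : ∀ x, τ (τ x) = x
  lin : ∀ (a : S) x, τ (a • x) = a • τ x
  tin : ∀ A x, klIn A x → klIn A (τ x)
  sin : ∀ A x, klIn A x → s x ∈ A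
  cyc : ∀ x y, s (τ x * y) = s (y * x)
  od : τ δ = -δ
  sq : ∀ x, δ * δ * x = x * (δ * δ)
  lo : ∀ n, τ (l n) = -l n
  dl : ∀ n, δ * l n + l n * δ = scalar ι (t n)
  reg : ∀ (T : Set ℕ) (j : ℕ), T ⊆ Set.Iio N → j < N → j ∉ T → ∀ a,
    t j * a ∈ Ideal.span (t '' T) → a ∈ Ideal.span (t '' T)
  two : ∀ n : ℕ, n ≠ 0 → IsUnit (n : S)

/-- The differential. -/
def klD (τ : Matrix ι ι S →+* Matrix ι ι S) (δ x : Matrix ι ι S) : Matrix ι ι S := δ * x - τ x * δ

/-- The ordered products. -/
def klL (l : ℕ → Matrix ι ι S) : ℕ → Matrix ι ι S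
  | 0 => 1
  | j + 1 => klL l j * l j

variable {N : ℕ} {τ : Matrix ι ι S →+* Matrix ι ι S} {s : Matrix ι ι S →ₗ[S] S}
  {δ : Matrix ι ι S} {t : ℕ → S} {l : ℕ → Matrix ι ι S}

theorem klD_add (x y : Matrix ι ι S) : klD τ δ (x + y) = klD τ δ x + klD τ δ y := by
  simp only [klD, map_add]; noncomm_ring

theorem klD_sub (x y : Matrix ι ι S) : klD τ δ (x - y) = klD τ δ x - klD τ δ y := by
  simp only [klD, map_sub]; noncomm_ring

theorem klD_mul (x y : Matrix ι ι S) : klD τ δ (x * y) = klD τ δ x * y + τ x * klD τ δ y := by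
  simp only [klD, map_mul]; noncomm_ring

theorem kl_Ico (N : ℕ) : Set.Ico 0 N = Set.Iio N := by
  ext
  simp

namespace klH

variable (h : klH N τ s δ t l)
include h

theorem dsmul (a : S) (x : Matrix ι ι S) : klD τ δ (a • x) = a • klD τ δ x := by
  simp only [klD, h.lin, smul_sub, Matrix.mul_smul, Matrix.smul_mul]

theorem dtw (x : Matrix ι ι S) : klD τ δ (τ x) = -τ (klD τ δ x) := by
  simp only [klD, map_sub, map_mul, h.inv, h.od]; noncomm_ring

theorem dd (x : Matrix ι ι S) : klD τ δ (klD τ δ x) = 0 := by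
  have := h.sq x
  simp only [klD, map_sub, map_mul, h.inv, h.od]
  calc _ = δ * δ * x - x * (δ * δ) := by noncomm_ring
    _ = 0 := by rw [this, sub_self]

theorem sd (x : Matrix ι ι S) : s (klD τ δ x) = 0 := by
  rw [klD, map_sub, h.cyc, sub_self]

theorem stw (x : Matrix ι ι S) : s (τ x) = s x := by
  simpa using h.cyc x 1

theorem din {A : Ideal S} {x : Matrix ι ι S} (hx : klIn A x) : klIn A (klD τ δ x) :=
  (hx.mul_left δ).sub ((h.tin A x hx).mul_right δ)

theorem dlam (n : ℕ) (x : Matrix ι ι S) : klD τ δ (l n * x) = t n • x - l n * klD τ δ x := by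
  have h1 : klD τ δ (l n) = scalar ι (t n) := by
    rw [klD, h.lo, ← h.dl]; noncomm_ring
  rw [klD_mul, h1, kl_scalar_mul, h.lo]; noncomm_ring

theorem dL (j : ℕ) : klIn (Ideal.span (t '' Set.Iio j)) (klD τ δ (klL l j)) := by
  induction j with
  | zero => intro i k; simp [klL, klD]
  | succ j ih =>
    have h1 : klD τ δ (l j) = t j • 1 := by
      have := h.dlam j 1
      simpa [klD] using this
    rw [klL, klD_mul, h1]
    refine ((ih.mono (Ideal.span_mono (Set.image_mono (Set.Iio_subset_Iio j.le_succ)))).mul_right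
      _).add ((klIn.smul (Ideal.subset_span ?_) _).mul_left _)
    exact ⟨j, j.lt_succ_self, rfl⟩

theorem twL (j : ℕ) : τ (klL l j) = (-1) ^ j * klL l j := by
  induction j with
  | zero => simp [klL]
  | succ j ih => rw [klL, map_mul, ih, h.lo, pow_succ]; noncomm_ring

theorem cancel {j : ℕ} (hj : j < N) {x : Matrix ι ι S}
    (hx : klIn (Ideal.span (t '' Set.Ico (j + 1) N)) (t j • x)) :
    klIn (Ideal.span (t '' Set.Ico (j + 1) N)) x := fun i k =>
  h.reg _ j Set.Ico_subset_Iio_self hj (by simp) _ (hx i k)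

omit h [Fintype ι] [DecidableEq ι] in
theorem split {j : ℕ} {x : Matrix ι ι S} (hx : klIn (Ideal.span (t '' Set.Ico j N)) x) :
    ∃ y, klIn (Ideal.span (t '' Set.Ico (j + 1) N)) (x - t j • y) := by
  have h1 : ∀ i k, ∃ c, x i k - t j * c ∈ Ideal.span (t '' Set.Ico (j + 1) N) := by
    intro i k
    have h2 : x i k ∈ Ideal.span (insert (t j) (t '' Set.Ico (j + 1) N)) := by
      refine Ideal.span_mono ?_ (hx i k)
      rintro _ ⟨n, hn, rfl⟩
      rcases eq_or_lt_of_le hn.1 with h3 | h3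
      · exact Or.inl (by rw [h3])
      · exact Or.inr ⟨n, ⟨h3, hn.2⟩, rfl⟩
    obtain ⟨a, z, hz, h3⟩ := Ideal.mem_span_insert.1 h2
    exact ⟨a, by rw [h3, mul_comm, add_sub_cancel_left]; exact hz⟩
  choose c hc using h1
  exact ⟨Matrix.of c, hc⟩

theorem step {j : ℕ} (hj : j < N) {γ γ' : Matrix ι ι S}
    (hγ : klIn (Ideal.span (t '' Set.Ico (j + 1) N)) (klD τ δ γ - t j • γ')) :
    klIn (Ideal.span (t '' Set.Ico (j + 1) N)) (klD τ δ γ') ∧
      s (klL l j * γ) - s (klL l (j + 1) * γ') ∈ Ideal.span (t '' Set.Iio N) := by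
  have h1 : klIn (Ideal.span (t '' Set.Ico (j + 1) N)) (klD τ δ γ') := by
    refine h.cancel hj ?_
    have := (h.din hγ).neg
    rwa [klD_sub, h.dd, h.dsmul, zero_sub, neg_neg] at this
  refine ⟨h1, ?_⟩
  have h2 : klIn (Ideal.span (t '' Set.Ico (j + 1) N)) (klD τ δ (γ - l j * γ')) := by
    have := hγ.add (h1.mul_left (l j))
    rw [klD_sub, h.dlam]
    convert this using 1
    abel
  have h6 : klL l j * (γ - l j * γ') = klL l j * γ - klL l (j + 1) * γ' := by
    rw [mul_sub, ← mul_assoc, klL]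
  rw [← map_sub, ← h6]
  generalize γ - l j * γ' = κ at h2 ⊢
  have h3 := h.sd (τ (klL l j) * (l j * κ))
  rw [klD_mul, h.dtw, h.inv, h.dlam, mul_sub, Matrix.mul_smul, map_add, map_sub, map_smul,
    smul_eq_mul] at h3
  have hT : Set.Iio N \ {j} ⊆ Set.Iio N := Set.sdiff_subset
  have h4 : s (klL l j * κ) ∈ Ideal.span (t '' (Set.Iio N \ {j})) := by
    refine h.reg _ j hT hj (by simp) _ ?_
    have a1 := h.sin _ _ (((h2.mono (B := Ideal.span (t '' (Set.Iio N \ {j})))
      (Ideal.span_mono (Set.image_mono fun n hn => ⟨hn.2, fun h5 => by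
        have := hn.1
        rw [Set.mem_singleton_iff] at h5
        omega⟩))).mul_left (l j)).mul_left (klL l j))
    have a2 := h.sin _ _ ((h.tin _ _ ((h.dL j).mono (B := Ideal.span (t '' (Set.Iio N \ {j})))
      (Ideal.span_mono (Set.image_mono fun n hn => ⟨lt_trans hn hj, fun h5 => by
        have : n < j := hn
        rw [Set.mem_singleton_iff] at h5
        omega⟩)))).neg.mul_right (l j * κ))
    have a3 := Ideal.sub_mem _ a1 a2
    convert a3 using 1
    linear_combination h3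
  exact Ideal.span_mono (Set.image_mono hT) h4

theorem descend {γ : Matrix ι ι S} (hγ : klIn (Ideal.span (t '' Set.Iio N)) (klD τ δ γ)) :
    ∃ u, klD τ δ u = 0 ∧ s γ - s (klL l N * u) ∈ Ideal.span (t '' Set.Iio N) := by
  have h1 : ∀ j ≤ N, ∃ u, klIn (Ideal.span (t '' Set.Ico j N)) (klD τ δ u) ∧
      s γ - s (klL l j * u) ∈ Ideal.span (t '' Set.Iio N) := by
    intro j
    induction j with
    | zero => exact fun _ => ⟨γ, by rwa [kl_Ico], by simp [klL]⟩
    | succ j ih =>
      intro hj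
      obtain ⟨u, h2, h3⟩ := ih (by omega)
      obtain ⟨y, hy⟩ := split h2
      obtain ⟨h4, h5⟩ := h.step hj hy
      exact ⟨y, h4, by simpa using Ideal.add_mem _ h3 h5⟩
  obtain ⟨u, h2, h3⟩ := h1 N le_rfl
  exact ⟨u, Matrix.ext fun i k => by simpa using h2 i k, h3⟩

theorem unit {A : Ideal S} {n : ℕ} (hn : n ≠ 0) {a : S} (ha : (n : S) * a ∈ A) : a ∈ A :=
  (Ideal.unit_mul_mem_iff_mem A (h.two n hn)).1 ha

theorem top (hN : Even N) (hc : Cyc δ) {Q : S}
    (hQ : Q * s (klL l N) ∈ Ideal.span (t '' Set.Iio N)) {γ : Matrix ι ι S}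
    (hγ : klIn (Ideal.span (t '' Set.Iio N)) (klD τ δ γ)) :
    Q * s γ ∈ Ideal.span (t '' Set.Iio N) := by
  obtain ⟨u, hu, h1⟩ := h.descend hγ
  have hL : τ (klL l N) = klL l N := by rw [h.twL, hN.neg_one_pow, one_mul]
  have h2 : ∀ x, s (klL l N * (x + τ x)) = 2 * s (klL l N * x) := fun x => by
    have := h.stw (klL l N * x)
    rw [map_mul, hL] at this
    rw [mul_add, map_add, this, two_mul]
  have hu' : klD τ δ (τ u) = 0 := by rw [h.dtw, hu, map_zero, neg_zero]
  obtain ⟨q, η, h3⟩ := hc (u + τ u) (by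
    rw [klD, sub_eq_zero] at hu hu'
    rw [h.inv] at hu'
    rw [mul_add, add_mul, hu, hu', add_comm])
  have h4 : δ * η + η * δ + τ (δ * η + η * δ) = klD τ δ (η - τ η) := by
    simp only [klD, map_add, map_sub, map_mul, h.inv, h.od]; noncomm_ring
  have h5 := h2 (δ * η + η * δ)
  rw [h4] at h5
  have h6 := h.sd (klL l N * (η - τ η))
  rw [klD_mul, hL, map_add] at h6
  have h7 := h.sin _ _ ((h.dL N).mul_right (η - τ η))
  have h8 := h2 u
  rw [h3, mul_add, map_add, kl_mul_scalar, map_smul, smul_eq_mul] at h8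
  refine h.unit (n := 4) (by norm_num) ?_
  have h9 := Ideal.sub_mem _ (Ideal.add_mem _ (Ideal.mul_mem_left _ (4 * Q) h1)
    (Ideal.mul_mem_left _ (2 * q) hQ)) (Ideal.mul_mem_left _ Q h7)
  convert h9 using 1
  push_cast
  linear_combination (-2 * Q) * h8 - Q * h5 + Q * h6

theorem chern : ∀ m j, j + m = N → s (klL l j * std m fun i => l (j + i)) -
    (m.factorial : S) * s (klL l N) ∈ Ideal.span (t '' Set.Iio N) := by
  intro m
  induction m with
  | zero =>
    rintro j rfl
    simp [std]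
  | succ m ih =>
    intro j hj
    have h1 := std_comm δ (fun i : Fin (m + 1) => l (j + i)) (fun i => scalar ι (t (j + i)))
      (fun i x => by rw [kl_scalar_mul, kl_mul_scalar]) fun i => h.dl _
    have h2 : τ (std (m + 1) fun i : Fin (m + 1) => l (j + i)) =
        (-1) ^ (m + 1) * std (m + 1) fun i : Fin (m + 1) => l (j + i) := by
      rw [map_std, ← std_neg]
      simp only [h.lo]
    have h3 : (fun i : Fin m => l (j + ((0 : Fin (m + 1)).succAbove i : ℕ))) =
        fun i : Fin m => l (j + 1 + i) := by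
      funext i
      rw [Fin.succAbove_zero, Fin.val_succ, add_assoc, add_comm 1]
    have h4 : ∀ x : Matrix ι ι S, ((m + 1 : ℕ) : Matrix ι ι S) * x = ((m + 1 : ℕ) : S) • x :=
      fun x => by rw [← nsmul_eq_mul, Nat.cast_smul_eq_nsmul]
    have h5 := (h.step (j := j) (by omega) (γ := std (m + 1) fun i : Fin (m + 1) => l (j + i))
      (γ' := ((m + 1 : ℕ) : S) • std m fun i : Fin m => l (j + 1 + i)) (by
        rw [klD, h2, mul_assoc, h1, Fin.sum_univ_succ, h3, mul_add, h4, kl_scalar_mul]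
        simp only [Fin.val_zero, pow_zero, one_mul, add_zero]
        rw [smul_comm, add_sub_cancel_left]
        refine (klIn.sum _ fun i _ => ?_).mul_left _
        rw [kl_scalar_mul]
        refine (klIn.smul (Ideal.subset_span (Set.mem_image_of_mem t
          (Set.mem_Ico.2 ⟨?_, ?_⟩))) _).mul_left _
        · rw [Fin.val_succ]; omega
        · rw [Fin.val_succ]; omega)).2
    rw [Matrix.mul_smul, map_smul, smul_eq_mul] at h5
    have h6 := Ideal.add_mem _ h5 (Ideal.mul_mem_left _ ((m + 1 : ℕ) : S) (ih (j + 1) (by omega)))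
    convert h6 using 1
    rw [Nat.factorial_succ]
    push_cast
    ring

theorem exact {α η : Matrix ι ι S} (hα : klD τ δ α = 0)
    (hη : klIn (Ideal.span (t '' Set.Iio N)) (α - klD τ δ η)) : ∃ ζ, α = klD τ δ ζ := by
  have h1 : ∀ j ≤ N, ∃ ζ, klIn (Ideal.span (t '' Set.Ico j N)) (α - klD τ δ ζ) := by
    intro j
    induction j with
    | zero => exact fun _ => ⟨η, by rwa [kl_Ico]⟩
    | succ j ih =>
      intro hj
      obtain ⟨ζ, h2⟩ := ih (by omega)
      obtain ⟨y, hy⟩ := split h2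
      have h3 : klIn (Ideal.span (t '' Set.Ico (j + 1) N)) (klD τ δ y) := by
        refine h.cancel hj ?_
        have := (h.din hy).neg
        rwa [klD_sub, klD_sub, hα, h.dd, h.dsmul, sub_zero, zero_sub, neg_neg] at this
      refine ⟨ζ + l j * y, ?_⟩
      have := hy.add (h3.mul_left (l j))
      rw [klD_add, h.dlam]
      convert this using 1
      abel
  obtain ⟨ζ, h2⟩ := h1 N le_rfl
  exact ⟨ζ, sub_eq_zero.1 (Matrix.ext fun i k => by simpa using h2 i k)⟩

end klH

end

theorem kl {K : Type} [Field K] [CharZero K] {N : ℕ} (hN : Even N) {F : Pol N K}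
    (hr : RegAll fun i => pderiv i F) (hf : Frob (jac F)) {ι : Type} [Fintype ι] [DecidableEq ι]
    {par : ι → ℕ} {δ : Matrix ι ι (Pol N K)} (hδ : OddM par par δ) (hsq : δ * δ = scalar ι F)
    (hc : Cyc δ) {Q : Pol N K} (hQ : Q * ch par δ ∈ jac F) :
    ∃ η, scalar ι Q = δ * η + η * δ := by
  classical
  have he := eps_mul_eps (R := Pol N K) par
  set e := eps (Pol N K) par with hedef
  let t : ℕ → Pol N K := fun n => if h : n < N then pderiv ⟨n, h⟩ F else 0
  let l : ℕ → Matrix ι ι (Pol N K) := fun n => if h : n < N then δ.map (pderiv ⟨n, h⟩) else 0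
  let s : Matrix ι ι (Pol N K) →ₗ[Pol N K] Pol N K :=
    (traceLinearMap ι (Pol N K) (Pol N K)).comp (LinearMap.mulLeft (Pol N K) e)
  have hs : ∀ x, s x = trace (e * x) := fun _ => rfl
  have hτ : ∀ x, klTw he x = e * x * e := fun _ => rfl
  have hodd : ∀ x : Matrix ι ι (Pol N K), OddM par par x → klTw he x = -x := fun x hx => by
    rw [hτ, hx.eps_mul, neg_mul, mul_assoc, he, mul_one]
  have ht : ∀ i : Fin N, t i = pderiv i F := fun i => dif_pos i.2
  have hl : ∀ i : Fin N, l i = δ.map (pderiv i) := fun i => dif_pos i.2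
  have hJ : Ideal.span (t '' Set.Iio N) = jac F := by
    unfold jac
    congr 1
    ext a
    exact ⟨fun ⟨n, hn, h⟩ => ⟨⟨n, hn⟩, (ht ⟨n, hn⟩).symm.trans h⟩,
      fun ⟨i, h⟩ => ⟨i, i.2, (ht i).trans h⟩⟩
  have h : klH N (klTw he) s δ t l := by
    refine ⟨fun x => ?_, fun a x => ?_, fun A x hx => (hx.mul_left e).mul_right e,
      fun A x hx => (hx.mul_left e).trace, fun x y => ?_, hodd δ hδ, fun x => ?_, fun n => ?_,
      fun n => ?_, fun T j hT hj hjT a ha => ?_, fun n hn => ?_⟩
    · rw [hτ, hτ]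
      calc _ = e * e * x * (e * e) := by noncomm_ring
        _ = x := by rw [he, one_mul, mul_one]
    · rw [hτ, hτ, Matrix.mul_smul, Matrix.smul_mul]
    · rw [hs, hs, hτ]
      calc _ = trace (e * e * (x * (e * y))) := by congr 1; noncomm_ring
        _ = _ := by rw [he, one_mul, trace_mul_comm, mul_assoc]
    · rw [hsq, kl_scalar_mul, kl_mul_scalar]
    · by_cases hn : n < N
      · rw [hl ⟨n, hn⟩]
        refine hodd _ fun i j hij => hδ i j fun h0 => hij ?_
        rw [Matrix.map_apply, h0, map_zero]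
      · simp [l, hn]
    · by_cases hn : n < N
      · rw [hl ⟨n, hn⟩, ht ⟨n, hn⟩]
        ext1 i j
        have := congrArg (fun M : Matrix ι ι (Pol N K) => pderiv ⟨n, hn⟩ (M i j)) hsq
        simp only [Matrix.mul_apply, map_sum, Derivation.leibniz, smul_eq_mul] at this
        simp only [Matrix.add_apply, Matrix.mul_apply, Matrix.map_apply, ← Finset.sum_add_distrib]
        refine Eq.trans (Finset.sum_congr rfl fun k _ => by ring) (this.trans ?_)
        simp only [scalar_apply, diagonal_apply]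
        split_ifs <;> simp
      · simp [l, t, hn]
    · have h1 : (fun i => pderiv i F) '' (Finset.univ.filter fun i : Fin N => (i : ℕ) ∈ T) =
          t '' T := by
        ext b
        refine ⟨fun ⟨i, hi, h⟩ => ⟨i, by simpa using hi, (ht i).trans h⟩, fun ⟨n, hn, h⟩ =>
          ⟨⟨n, hT hn⟩, by simpa using hn, (ht ⟨n, hT hn⟩).symm.trans h⟩⟩
      have h2 := hr (Finset.univ.filter fun i : Fin N => (i : ℕ) ∈ T) ⟨j, hj⟩ (by simpa using hjT) a
      rw [h1] at h2
      exact h2 (by rwa [show t j = _ from ht ⟨j, hj⟩] at ha)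
    · have := (IsUnit.mk0 (n : K) (Nat.cast_ne_zero.2 hn)).map (algebraMap K (Pol N K))
      rwa [map_natCast] at this
  have h1 : Q * s (klL l N) ∈ Ideal.span (t '' Set.Iio N) := by
    have a1 := h.chern N 0 (zero_add N)
    simp only [klL, one_mul, zero_add, hl] at a1
    rw [hs, ← ch_eq] at a1
    refine h.unit (Nat.factorial_ne_zero N) ?_
    have a2 := Ideal.sub_mem _ (hJ ▸ hQ) (Ideal.mul_mem_left _ Q a1)
    convert a2 using 1
    ring
  have h2 : ∃ η, klIn (jac F) (scalar ι Q - klD (klTw he) δ η) := by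
    by_contra hne
    let W : Submodule K (Matrix ι ι (Pol N K)) :=
      { carrier := {x | ∃ η, klIn (jac F) (x - klD (klTw he) δ η)}
        add_mem' := fun ⟨a, ha⟩ ⟨b, hb⟩ => ⟨a + b, by
          rw [klD_add]; convert ha.add hb using 1; abel⟩
        zero_mem' := ⟨0, fun i j => by simp [klD]⟩
        smul_mem' := fun c x ⟨a, ha⟩ => ⟨algebraMap K (Pol N K) c • a, by
          rw [h.dsmul, ← algebraMap_smul (Pol N K) c x, ← smul_sub, ← kl_scalar_mul]
          exact ha.mul_left _⟩ }
    obtain ⟨f, hf1, hf2⟩ := W.exists_le_ker_of_notMem (v := scalar ι Q) hne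
    obtain ⟨ρ, hρ1, hρ2, hρ3⟩ := hf
    have a1 : ∀ i j, ∃ c, ∀ b, f (single i j b) = ρ (c * b) := fun i j =>
      hρ3 (f.comp (singleLinearMap K i j)) fun a ha => hf2 ⟨0, fun i' j' => by
        simp only [klD, mul_zero, map_zero, zero_mul, sub_zero, singleLinearMap_apply,
          single_apply]
        split_ifs
        exacts [ha, Ideal.zero_mem _]⟩
    choose c hc' using a1
    have a2 : ∀ x, f x = ρ (s (e * (Matrix.of c)ᵀ * x)) := fun x => by
      rw [hs, mul_assoc, ← mul_assoc e, he, one_mul]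
      conv_lhs => rw [matrix_eq_sum_single x]
      simp only [map_sum, hc', trace, diag_apply, Matrix.mul_apply, transpose_apply, of_apply]
      exact Finset.sum_comm
    set α := e * (Matrix.of c)ᵀ
    have a3 : klIn (jac F) (klD (klTw he) δ (klTw he α)) := fun i j => hρ2 _ fun b => by
      have b1 := h.sd (klTw he α * (single j i b * e))
      have b2 : f (klD (klTw he) δ (single j i b * e)) = 0 :=
        hf2 ⟨single j i b * e, fun i j => by simp⟩
      rw [klD_mul, h.inv, map_add, hs, trace_mul_comm, mul_assoc, mul_assoc, he, mul_one,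
        trace_mul_single] at b1
      rw [a2] at b2
      have b3 := congrArg ρ b1
      rw [map_add, b2, add_zero, map_zero] at b3
      simpa [mul_comm] using b3
    have a4 := h.top hN hc h1 (hJ ▸ a3)
    rw [h.stw, hJ] at a4
    refine hf1 ?_
    rw [a2, kl_mul_scalar, map_smul, smul_eq_mul]
    exact hρ1 _ a4
  obtain ⟨η, hη⟩ := h2
  have h3 : klTw he (scalar ι Q) = scalar ι Q := by
    rw [← mul_one (scalar ι Q), kl_scalar_mul, h.lin, map_one]
  obtain ⟨ζ, hζ⟩ := h.exact (by rw [klD, h3, kl_scalar_mul, kl_mul_scalar, sub_self]) (hJ ▸ hη)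
  have h4 : scalar ι Q + scalar ι Q = δ * (ζ - klTw he ζ) + (ζ - klTw he ζ) * δ := by
    calc _ = scalar ι Q + klTw he (scalar ι Q) := by rw [h3]
      _ = _ := by
        rw [hζ]
        simp only [klD, map_sub, map_mul, h.inv, h.od]
        noncomm_ring
  obtain ⟨v, hv⟩ := (h.two 2 two_ne_zero).exists_left_inv
  refine ⟨v • (ζ - klTw he ζ), ?_⟩
  rw [Matrix.mul_smul, Matrix.smul_mul, ← smul_add, ← h4, ← two_smul (Pol N K), smul_smul]
  rw [Nat.cast_ofNat] at hv
  rw [hv, one_smul]

end Pool.Agent.Lib.MP_e9c0f3_ag
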