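import Pool.Agent.Lib.MP_e9c0f3_ag.Jet2
import Pool.Agent.Lib.MP_e9c0f3_ag.Grad

/-! The matrix factorisation lifts to every order. -/

open MvPolynomial Matrix

namespace Pool.Agent.Lib.MP_e9c0f3_ag

variable {A : Type} [CommRing A] [Algebra ℂ A] {N : ℕ} {ι : Type} [Fintype ι] [DecidableEq ι]

/-- The hypotheses on one matrix factorisation at the point `s`. -/
structure Blk (k d : ℕ) (s : A →ₐ[ℂ] ℂ) (F : Pol N A) (par : ι → ℕ)
    (wt : ι → ℤ) (δ₀ : Matrix ι ι (Pol N ℂ)) : Prop where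
  hN : N = 2 * (k + 1)
  hd : 2 ≤ d
  hF : F.IsHomogeneous d
  mf : IsMF d (map (s : A →+* ℂ) F) par wt δ₀
  cyc : Cyc δ₀
  kl : ∀ Q, Q * ch par δ₀ ∈ jac (map (s : A →+* ℂ) F) → ∃ η, scalar ι Q = δ₀ * η + η * δ₀

/-- A lift of `δ₀` that factorises `F` to order `n`. -/
structure Ord (d : ℕ) (s : A →ₐ[ℂ] ℂ) (F : Pol N A) (par : ι → ℕ) (wt : ι → ℤ)
    (δ₀ : Matrix ι ι (Pol N ℂ)) (n : ℕ) (δ : Matrix ι ι (Pol N A)) : Prop where
  hom : IsHom xi (gam par wt) (gam par wt) (gd d) δ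
  red : δ.map (map (s : A →+* ℂ)) = δ₀
  sq : ∀ i j, (δ * δ - scalar ι F) i j ∈ CI N s n

section aux

variable {s : A →ₐ[ℂ] ℂ}

/-- All entries lie in `CI N s n`. -/
def liftMCI (s : A →ₐ[ℂ] ℂ) (n : ℕ) (M : Matrix ι ι (Pol N A)) : Prop := ∀ i j, M i j ∈ CI N s n

omit [Fintype ι] [DecidableEq ι] in
theorem liftMCI.add {n : ℕ} {M M' : Matrix ι ι (Pol N A)} (h : liftMCI s n M)
    (h' : liftMCI s n M') : liftMCI s n (M + M') := fun i j => add_mem (h i j) (h' i j)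

omit [Fintype ι] [DecidableEq ι] in
theorem liftMCI.sub {n : ℕ} {M M' : Matrix ι ι (Pol N A)} (h : liftMCI s n M)
    (h' : liftMCI s n M') : liftMCI s n (M - M') := fun i j => sub_mem (h i j) (h' i j)

omit [Fintype ι] [DecidableEq ι] in
theorem liftMCI.mono {m n : ℕ} {M : Matrix ι ι (Pol N A)} (h : liftMCI s n M) (hmn : m ≤ n) :
    liftMCI s m M := fun i j => CI_mono hmn (h i j)

omit [DecidableEq ι] in
theorem liftMCI.mul {m n : ℕ} {M M' : Matrix ι ι (Pol N A)} (h : liftMCI s m M)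
    (h' : liftMCI s n M') : liftMCI s (m + n) (M * M') := fun i j => by
  rw [Matrix.mul_apply]
  exact sum_mem fun l _ => mul_mem_CI (h i l) (h' l j)

theorem liftMCI.scalar {n : ℕ} {Q : Pol N A} (h : Q ∈ CI N s n) : liftMCI s n (scalar ι Q) := by
  intro i j
  rw [scalar_apply, diagonal_apply]
  split_ifs
  · exact h
  · exact zero_mem _

omit [DecidableEq ι] in
theorem lift_cmap_mul_left {n : ℕ} {φ : A →+ ℂ} (hφ : Level s n φ) (P : Matrix ι ι (Pol N A))
    {M : Matrix ι ι (Pol N A)} (h : liftMCI s n M) :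
    (P * M).map (cmap φ) = P.map (map (s : A →+* ℂ)) * M.map (cmap φ) := by
  ext1 i j
  simp only [Matrix.map_apply, Matrix.mul_apply, map_sum]
  exact Finset.sum_congr rfl fun l _ => hφ.cmap_mul _ (h l j)

omit [DecidableEq ι] in
theorem lift_cmap_mul_right {n : ℕ} {φ : A →+ ℂ} (hφ : Level s n φ) (P : Matrix ι ι (Pol N A))
    {M : Matrix ι ι (Pol N A)} (h : liftMCI s n M) :
    (M * P).map (cmap φ) = M.map (cmap φ) * P.map (map (s : A →+* ℂ)) := by
  ext1 i j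
  simp only [Matrix.map_apply, Matrix.mul_apply, map_sum]
  refine Finset.sum_congr rfl fun l _ => ?_
  rw [mul_comm, hφ.cmap_mul _ (h i l), mul_comm]

omit [Fintype ι] [DecidableEq ι] [Algebra ℂ A] in
theorem lift_isHom_cmap {G : Type} [AddCommGroup G] {ξ g : G} {a b : ι → G} (φ : A →+ ℂ)
    {M : Matrix ι ι (Pol N A)} (h : IsHom ξ a b g M) : IsHom ξ a b g (M.map (cmap φ)) := by
  intro i j m hm
  refine h i j m fun e => hm ?_
  rw [Matrix.map_apply, coeff_cmap, e, map_zero]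

omit [Fintype ι] [DecidableEq ι] [Algebra ℂ A] in
theorem lift_isHom_pderiv {G : Type} [AddCommGroup G] {ξ g : G} {a b : ι → G} (x : Fin N)
    {M : Matrix ι ι (Pol N A)} (h : IsHom ξ a b g M) :
    IsHom ξ a b (g - ξ) (M.map (pderiv x)) := by
  intro i j m hm
  rw [Matrix.map_apply, coeff_pderiv] at hm
  have := h i j _ (left_ne_zero_of_mul hm)
  rw [map_add, Finsupp.degree_single, add_smul, one_smul] at this
  rw [sub_add_eq_add_sub, ← this]
  abel

omit [Algebra ℂ A] in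
theorem lift_isHom_prod {G : Type} [AddCommGroup G] {ξ g : G} {a : ι → G}
    (l : List (Matrix ι ι (Pol N A))) (h : ∀ M ∈ l, IsHom ξ a a g M) :
    IsHom ξ a a (l.length • g) l.prod := by
  induction l with
  | nil => simpa using IsHom.one
  | cons M l ih =>
    rw [List.prod_cons, List.length_cons, succ_nsmul']
    exact (h M (by simp)).mul (ih fun M' hM' => h M' (by simp [hM']))

omit [Algebra ℂ A] in
theorem lift_ch_hom {k d : ℕ} (hN : N = 2 * k) (hd : 2 ≤ d) {par : ι → ℕ} {wt : ι → ℤ}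
    {δ : Matrix ι ι (Pol N A)} (h : IsHom xi (gam par wt) (gam par wt) (gd d) δ) :
    (ch par δ).IsHomogeneous (k * (d - 2)) := by
  rw [← mem_homogeneousSubmodule, ch]
  refine sum_mem fun π _ => ?_
  rw [Units.smul_def]
  refine zsmul_mem (sum_mem fun i _ => ?_) _
  have h1 : ((-1 : Pol N A) ^ par i) = C ((-1) ^ par i) := by simp
  rw [h1, mem_homogeneousSubmodule]
  refine IsHomogeneous.C_mul ?_ _
  have h2 := lift_isHom_prod (List.ofFn fun a => δ.map (pderiv (π a))) (by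
    intro M hM
    obtain ⟨a, rfl⟩ := List.mem_ofFn.1 hM
    exact lift_isHom_pderiv _ h)
  intro m hm
  have h3 := congrArg Prod.fst (add_right_cancel (h2 i i m hm))
  rw [List.length_ofFn] at h3
  simp only [xi, gd, Prod.smul_mk, Prod.mk_sub_mk, nsmul_eq_mul] at h3
  have h4 : Finsupp.weight (1 : Fin N → ℕ) m = m.degree := by
    rw [Finsupp.degree_eq_weight_one]; rfl
  rw [h4]
  obtain ⟨e, rfl⟩ := Nat.exists_eq_add_of_le hd
  rw [Nat.add_sub_cancel_left]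
  have h5 : (N : ℤ) = 2 * k := by exact_mod_cast hN
  rw [h5] at h3
  push_cast at h3
  have h6 : (m.degree : ℤ) = k * e := by linarith
  exact_mod_cast h6

theorem lift_pr_eq {d : ℕ} {γ : ι → GG} {δ₀ Θ η : Matrix ι ι (Pol N ℂ)} {Q : Pol N ℂ}
    (hδ : IsHom xi γ γ (gd d) δ₀) (hΘ : IsHom xi γ γ (gd d + gd d) Θ)
    (e : Θ = scalar ι Q + (δ₀ * η + η * δ₀)) :
    Θ = scalar ι (homogeneousComponent d Q) +
      (δ₀ * pr xi γ γ (gd d) η + pr xi γ γ (gd d) η * δ₀) := by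
  have := congrArg (pr xi γ γ (gd d + gd d)) e
  rw [hΘ.pr_eq, pr_add, pr_add, pr_mul_left hδ, pr_mul_right _ hδ, gd_add_gd, pr_scalar] at this
  exact this

/-- The correction step. -/
theorem lift_update {d n r : ℕ} {F : Pol N A} {par : ι → ℕ} {wt : ι → ℤ}
    {δ₀ : Matrix ι ι (Pol N ℂ)} {δ : Matrix ι ι (Pol N A)} (hδ : Ord d s F par wt δ₀ (n + 1) δ)
    {a : Fin r → A} {φ : Fin r → A →+ ℂ} (ha : ∀ μ, a μ ∈ RingHom.ker s ^ (n + 1))
    (hd : ∀ p ∈ CI N s (n + 1),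
      p - ∑ μ, a μ • map (algebraMap ℂ A) (cmap (φ μ) p) ∈ CI N s (n + 1 + 1))
    {Q : Fin r → Pol N ℂ} {η : Fin r → Matrix ι ι (Pol N ℂ)}
    (hη : ∀ μ, IsHom xi (gam par wt) (gam par wt) (gd d) (η μ))
    (e : ∀ μ, (δ * δ - scalar ι F).map (cmap (φ μ)) =
      scalar ι (Q μ) + (δ₀ * η μ + η μ * δ₀)) :
    ∃ δ', Ord d s (F + ∑ μ, a μ • map (algebraMap ℂ A) (Q μ)) par wt δ₀ (n + 2) δ' := by
  set L : Matrix ι ι (Pol N ℂ) →+* Matrix ι ι (Pol N A) :=
    (MvPolynomial.map (algebraMap ℂ A)).mapMatrix with hL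
  set H : Matrix ι ι (Pol N A) := ∑ μ, a μ • L (η μ) with hH
  have hHC : liftMCI s (n + 1) H := by
    intro i j
    rw [hH, Matrix.sum_apply]
    exact sum_mem fun μ _ => smul_mem_CI (ha μ) _
  have hε : liftMCI s 1 (δ - L δ₀) := by
    intro i j
    rw [← hδ.red]
    exact sub_map_mem_CI (δ i j)
  have hΘ : liftMCI s (n + 2) ((δ * δ - scalar ι F) -
      ∑ μ, a μ • L ((δ * δ - scalar ι F).map (cmap (φ μ)))) := by
    intro i j
    rw [Matrix.sub_apply, Matrix.sum_apply]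
    exact hd _ (hδ.sq i j)
  have hs : ∀ μ, L (scalar ι (Q μ)) = scalar ι (map (algebraMap ℂ A) (Q μ)) := by
    intro μ
    rw [hL, RingHom.mapMatrix_apply, scalar_apply, scalar_apply, diagonal_map (map_zero _)]
  have hs2 : scalar ι (∑ μ, a μ • map (algebraMap ℂ A) (Q μ)) =
      ∑ μ, a μ • scalar ι (map (algebraMap ℂ A) (Q μ)) := by
    rw [map_sum]
    refine Finset.sum_congr rfl fun μ _ => ?_
    rw [scalar_apply, scalar_apply, ← diagonal_smul]
    rfl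
  have hsum : ∑ μ, a μ • L ((δ * δ - scalar ι F).map (cmap (φ μ))) =
      scalar ι (∑ μ, a μ • map (algebraMap ℂ A) (Q μ)) + (L δ₀ * H + H * L δ₀) := by
    rw [hs2, hH, Finset.mul_sum, Finset.sum_mul, ← Finset.sum_add_distrib,
      ← Finset.sum_add_distrib]
    refine Finset.sum_congr rfl fun μ _ => ?_
    rw [e, map_add, map_add, map_mul, map_mul, hs, smul_add, smul_add, Matrix.mul_smul,
      Matrix.smul_mul]
  refine ⟨δ - H, hδ.hom.sub (IsHom.sum _ fun μ _ => ((hη μ).map (algebraMap ℂ A)).smul _), ?_, ?_⟩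
  · rw [← hδ.red]
    ext1 i j
    have := mem_CI_one.1 (hHC.mono (Nat.le_add_left 1 n) i j)
    rw [Matrix.map_apply, Matrix.sub_apply, map_sub, this, sub_zero, Matrix.map_apply]
  · have key : (δ - H) * (δ - H) - scalar ι (F + ∑ μ, a μ • map (algebraMap ℂ A) (Q μ)) =
        ((δ * δ - scalar ι F) - ∑ μ, a μ • L ((δ * δ - scalar ι F).map (cmap (φ μ))))
          - ((δ - L δ₀) * H + H * (δ - L δ₀)) + H * H := by
      rw [hsum, map_add]
      noncomm_ring
    rw [key]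
    exact (hΘ.sub (((hε.mul hHC).mono (by omega)).add ((hHC.mul hε).mono (by omega)))).add
      ((hHC.mul hHC).mono (by omega))

theorem Ord.lift_mono {d m n : ℕ} {F : Pol N A} {par : ι → ℕ} {wt : ι → ℤ}
    {δ₀ : Matrix ι ι (Pol N ℂ)} {δ : Matrix ι ι (Pol N A)} (hδ : Ord d s F par wt δ₀ n δ)
    (h : m ≤ n) : Ord d s F par wt δ₀ m δ :=
  ⟨hδ.hom, hδ.red, fun i j => CI_mono h (hδ.sq i j)⟩

end aux

variable [IsNoetherianRing A] {k d : ℕ} {s : A →ₐ[ℂ] ℂ} {E : Derivation ℂ A A} {F : Pol N A}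
  {par : ι → ℕ} {wt : ι → ℤ} {δ₀ : Matrix ι ι (Pol N ℂ)}

theorem Blk.ord_one (h : Blk k d s F par wt δ₀) : ∃ δ, Ord d s F par wt δ₀ 1 δ := by
  have hred : (δ₀.map (map (algebraMap ℂ A))).map (map (s : A →+* ℂ)) = δ₀ := by
    ext1 i j
    exact map_map_algebraMap _
  refine ⟨δ₀.map (map (algebraMap ℂ A)), (isMF_iff.1 h.mf).1.map _, hred, fun i j => ?_⟩
  rw [mem_CI_one]
  have : (δ₀.map (map (algebraMap ℂ A)) * δ₀.map (map (algebraMap ℂ A)) - scalar ι F).map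
      (map (s : A →+* ℂ)) = 0 := by
    rw [Matrix.map_sub _ (map_sub _), Matrix.map_mul, hred, h.mf.sq, scalar_apply, scalar_apply,
      diagonal_map (map_zero _), sub_self]
  exact congrFun (congrFun this i) j

/-- The obstruction is a scalar. -/
theorem Blk.scalar_obs (h : Blk k d s F par wt δ₀) {n : ℕ} {δ : Matrix ι ι (Pol N A)}
    (hδ : Ord d s F par wt δ₀ (n + 1) δ) :
    ∃ (Q : Pol N A) (δ' : Matrix ι ι (Pol N A)), Q ∈ CI N s (n + 1) ∧ Q.IsHomogeneous d ∧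
      Ord d s (F + Q) par wt δ₀ (n + 2) δ' := by
  obtain ⟨r, a, φ, ha, hφ, hd⟩ := exists_dual (N := N) s (n + 1)
  have hΘ : liftMCI s (n + 1) (δ * δ - scalar ι F) := hδ.sq
  have hc : δ * (δ * δ - scalar ι F) = (δ * δ - scalar ι F) * δ := by
    rw [mul_sub, sub_mul, mul_assoc, (scalar_commute F (fun _ => Commute.all _ _) δ).eq]
  have hhom : IsHom xi (gam par wt) (gam par wt) (gd d + gd d) (δ * δ - scalar ι F) := by
    refine (hδ.hom.mul hδ.hom).sub ?_
    rw [gd_add_gd]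
    exact IsHom.scalar h.hF
  have hex : ∀ μ, ∃ Q η, (δ * δ - scalar ι F).map (cmap (φ μ)) =
      scalar ι Q + (δ₀ * η + η * δ₀) := by
    intro μ
    apply h.cyc
    rw [← hδ.red, ← lift_cmap_mul_left (hφ μ) _ hΘ, ← lift_cmap_mul_right (hφ μ) _ hΘ, hc]
  choose Q η hQ using hex
  obtain ⟨δ', hδ'⟩ := lift_update hδ ha hd (fun μ => isHom_pr (η μ))
    (fun μ => lift_pr_eq (isMF_iff.1 h.mf).1 (lift_isHom_cmap _ hhom) (hQ μ))
  refine ⟨_, δ', sum_mem fun μ _ => smul_mem_CI (ha μ) _, ?_, hδ'⟩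
  rw [← mem_homogeneousSubmodule]
  exact sum_mem fun μ _ => Submodule.smul_mem _ _
    ((homogeneousComponent_isHomogeneous d (Q μ)).map _)

/-- The covariant derivative of the Chern form. -/
theorem Blk.conn (h : Blk k d s F par wt δ₀) (he : Euler s E) {n : ℕ} {Q : Pol N A}
    (hQ : Q ∈ CI N s (n + 1)) {δ : Matrix ι ι (Pol N A)}
    (hδ : Ord d s (F + Q) par wt δ₀ (n + 2) δ) :
    ∃ η, cmap (E : A →+ A) (ch par δ) + cmap (E : A →+ A) F * ch par δ - dtw F η +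
      ((n + 1 : ℕ) : Pol N A) * (ch par δ * Q) ∈ CI N s (n + 2) := by
  let _ : Algebra ℚ A := ((algebraMap ℂ A).comp (algebraMap ℚ ℂ)).toAlgebra
  have hEv : Even N := ⟨k + 1, by rw [h.hN]; ring⟩
  have hE : ∀ p q : Pol N A, cmap (E : A →+ A) (p * q) =
      cmap (E : A →+ A) p * q + p * cmap (E : A →+ A) q := by
    refine cmap_leibniz fun a b => ?_
    have := E.leibniz a b
    rw [smul_eq_mul, smul_eq_mul] at this
    change E (a * b) = E a * b + a * E b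
    rw [this]
    ring
  obtain ⟨η, hη, hfl⟩ := ch_flat hEv (cmap (E : A →+ A)) hE (cmap_pderiv _)
    (isHom_gam_iff.1 hδ.hom).1 (F + Q) (CI N s (n + 2)) (fun p hp => by
      have h1 := CI_mono (Nat.le_succ _) (he.cmap_sub hp)
      have h2 := Ideal.mul_mem_left _ ((n + 2 : ℕ) : Pol N A) hp
      simpa using add_mem h1 h2) (fun i p hp => pderiv_mem_CI hp i) hδ.sq
  have hη1 := hη (CI N s 1) fun i j => he.cmap_mem_one _
  have h1 : ∑ i, pderiv i Q * η i ∈ CI N s (n + 2) :=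
    sum_mem fun i _ => mul_mem_CI (m := n + 1) (n := 1) (pderiv_mem_CI hQ i) (hη1 i)
  have h2 := Ideal.mul_mem_left _ (ch par δ) (he.cmap_sub hQ)
  have h3 : dtw (F + Q) η = dtw F η + ∑ i, pderiv i Q * η i := by
    rw [dtw, dtw, ← Finset.sum_add_distrib]
    refine Finset.sum_congr rfl fun i _ => ?_
    rw [map_add]
    ring
  refine ⟨η, ?_⟩
  have h4 := add_mem (sub_mem hfl h2) h1
  convert h4 using 1
  rw [h3, map_add]
  ring

theorem Blk.kill (h : Blk k d s F par wt δ₀) {n : ℕ} {Q : Pol N A}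
    (hQ : Q ∈ CI N s (n + 1)) (hQd : Q.IsHomogeneous d) {δ : Matrix ι ι (Pol N A)}
    (hδ : Ord d s (F + Q) par wt δ₀ (n + 2) δ)
    (hj : ∀ φ, Level s (n + 1) φ → cmap φ Q * ch par δ₀ ∈ jac (map (s : A →+* ℂ) F)) :
    ∃ δ', Ord d s F par wt δ₀ (n + 2) δ' := by
  obtain ⟨r, a, φ, ha, hφ, hd⟩ := exists_dual (N := N) s (n + 1)
  have e0 : δ * δ - scalar ι F = (δ * δ - scalar ι (F + Q)) + scalar ι Q := by
    rw [map_add]
    abel
  have hδ1 : Ord d s F par wt δ₀ (n + 1) δ := ⟨hδ.hom, hδ.red, by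
    rw [e0]
    exact (liftMCI.mono hδ.sq (Nat.le_succ _)).add (liftMCI.scalar hQ)⟩
  have e1 : ∀ μ, (δ * δ - scalar ι F).map (cmap (φ μ)) = scalar ι (cmap (φ μ) Q) := by
    intro μ
    rw [e0, Matrix.map_add _ (map_add _), scalar_apply Q, scalar_apply (cmap (φ μ) Q),
      diagonal_map (map_zero _)]
    refine add_eq_right.2 ?_
    ext1 i j
    exact (hφ μ).cmap_eq_zero (hδ.sq i j)
  choose η hη using fun μ => h.kl _ (hj _ (hφ μ))
  obtain ⟨δ', hδ'⟩ := lift_update (Q := fun _ => homogeneousComponent d 0) hδ1 ha hd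
    (fun μ => isHom_pr (η μ)) (fun μ => by
      rw [e1]
      refine lift_pr_eq (isMF_iff.1 h.mf).1 ?_ ?_
      · rw [gd_add_gd]
        exact IsHom.scalar (cmap_isHomogeneous _ hQd)
      · rw [map_zero, zero_add]
        exact hη μ)
  refine ⟨δ', ?_⟩
  simpa using hδ'

end Pool.Agent.Lib.MP_e9c0f3_ag
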