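import Pool.Agent.Lib.MP_e9c0f3_ag.Res
import Pool.Agent.Lib.MP_e9c0f3_ag.Depth

/-! The self-extension modules stay maximal Cohen-Macaulay under linkage. -/

open Matrix

namespace Pool.Agent.Lib.MP_e9c0f3_ag

variable {R : Type} [CommRing R] {ι κ : Type} [Fintype ι] [DecidableEq ι] [Fintype κ]
  [DecidableEq κ]

/-- A resolution of length `g + 1` whose last map splits. -/
structure SRes (g : ℕ) (I : Ideal R) (d : Matrix ι ι R) (hd : ι → ℕ) (π e : ι → R)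
    (r : Matrix ι ι R) : Prop where
  res : Res d I π e
  gr : Gr hd d
  le : ∀ i, hd i ≤ g + 1
  supp : ∀ i, hd i ≠ 0 → π i = 0
  split : pj R hd g * d = d * r * d

/-- The property carried along a chain of links. -/
def Good (𝔪 : Ideal R) (g n : ℕ) (I : Ideal R) : Prop :=
  ∃ (ι : Type) (_ : Fintype ι) (_ : DecidableEq ι) (d : Matrix ι ι R) (hd : ι → ℕ) (π e : ι → R)
    (r : Matrix ι ι R), SRes g I d hd π e r ∧ Dp 𝔪 n (Uc I d)

omit [DecidableEq ι] in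
theorem link_dot_left {I : Ideal R} {a : ι → R} (h : ∀ i, a i ∈ I) (b : ι → R) : a ⬝ᵥ b ∈ I :=
  I.sum_mem fun i _ => I.mul_mem_right _ (h i)

omit [DecidableEq ι] in
theorem link_dot_right {I : Ideal R} {b : ι → R} (h : ∀ i, b i ∈ I) (a : ι → R) : a ⬝ᵥ b ∈ I :=
  I.sum_mem fun i _ => I.mul_mem_left _ (h i)

omit [DecidableEq ι] in
theorem link_vecMul_mem {μ : Type} {I : Ideal R} {a : ι → R} (h : ∀ i, a i ∈ I)
    (M : Matrix ι μ R) (j : μ) : (a ᵥ* M) j ∈ I :=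
  I.sum_mem fun i _ => I.mul_mem_right _ (h i)

omit [DecidableEq ι] in
theorem link_mulVec_mem {μ : Type} {I : Ideal R} {a : ι → R} (h : ∀ i, a i ∈ I)
    (M : Matrix μ ι R) (j : μ) : (M *ᵥ a) j ∈ I :=
  I.sum_mem fun i _ => I.mul_mem_left _ (h i)

omit [DecidableEq ι] in
theorem link_res_dot {d : Matrix ι ι R} {I : Ideal R} {π e : ι → R} (h : Res d I π e)
    (u : ι → R) : π ⬝ᵥ (d *ᵥ u) ∈ I := by
  rw [dotProduct_mulVec]
  exact link_dot_left h.pd u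

theorem link_pj_sq (hd : ι → ℕ) (n : ℕ) : pj R hd n * pj R hd n = pj R hd n := by
  unfold pj
  rw [diagonal_mul_diagonal]
  congr 1
  funext i
  split_ifs <;> simp

theorem link_pj_mulVec (hd : ι → ℕ) (n : ℕ) (v : ι → R) (i : ι) :
    (pj R hd n *ᵥ v) i = if hd i = n then v i else 0 := by
  unfold pj
  rw [mulVec_diagonal]
  split_ifs <;> simp

theorem link_dot_pj {hd : ι → ℕ} {π : ι → R} (h : ∀ i, hd i ≠ 0 → π i = 0) (n : ℕ)
    (v : ι → R) : π ⬝ᵥ (pj R hd n *ᵥ v) = if n = 0 then π ⬝ᵥ v else 0 := by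
  split_ifs with hn
  · refine Finset.sum_congr rfl fun i _ => ?_
    rw [link_pj_mulVec]
    split_ifs with hi
    · rfl
    · rw [h i (hn ▸ hi), zero_mul, zero_mul]
  · refine Finset.sum_eq_zero fun i _ => ?_
    rw [link_pj_mulVec]
    split_ifs with hi
    · rw [h i (hi ▸ hn), zero_mul]
    · rw [mul_zero]

theorem link_retract {𝔪 : Ideal R} {n : ℕ} {M T : Type} [AddCommGroup M] [Module R M]
    [AddCommGroup T] [Module R T] (f : M →ₗ[R] T) (hf : Function.Surjective f) (t : M →ₗ[R] M)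
    (ht : ∀ x, f x = 0 → t x = 0) (hft : ∀ x, f (t x) = f x) (h : Dp 𝔪 n M) : Dp 𝔪 n T := by
  refine Dp.retract (((LinearMap.ker f).liftQ t fun x hx => ht x hx) ∘ₗ
    (f.quotKerEquivOfSurjective hf).symm.toLinearMap) f (fun y => ?_) h
  obtain ⟨x, rfl⟩ := hf y
  have e : (f.quotKerEquivOfSurjective hf).symm (f x) = Submodule.Quotient.mk x := by
    rw [LinearEquiv.symm_apply_eq]
    rfl
  simp only [LinearMap.comp_apply, LinearEquiv.coe_coe, e, Submodule.liftQ_apply, hft]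

/-- The vectors of degree `n`. -/
abbrev linkP (R : Type) [CommRing R] (hd : ι → ℕ) (n : ℕ) : Submodule R (ι → R) :=
  LinearMap.range (pj R hd n).mulVecLin

theorem link_mem_P {hd : ι → ℕ} {n : ℕ} {v : ι → R} :
    v ∈ linkP R hd n ↔ pj R hd n *ᵥ v = v := by
  constructor
  · rintro ⟨u, rfl⟩
    simp only [mulVecLin_apply, mulVec_mulVec, link_pj_sq]
  · intro h
    exact ⟨v, h⟩

theorem link_dp_P {𝔪 : Ideal R} {N : ℕ} (hR : Dp 𝔪 N R) (hd : ι → ℕ) (n : ℕ) :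
    Dp 𝔪 N (linkP R hd n) :=
  Dp.retract (linkP R hd n).subtype (pj R hd n).mulVecLin.rangeRestrict
    (fun x => Subtype.ext (link_mem_P.1 x.2)) hR.pi

theorem SRes.link_ker {g : ℕ} {I : Ideal R} {d : Matrix ι ι R} {hd : ι → ℕ} {π e : ι → R}
    {r : Matrix ι ι R} (h : SRes g I d hd π e r) {n : ℕ} {v : ι → R} (hv : v ∈ linkP R hd n)
    (h0 : d *ᵥ v = 0) (hπ : π ⬝ᵥ v ∈ I) : v ∈ (linkP R hd (n + 1)).map d.mulVecLin := by
  obtain ⟨u, hu⟩ := h.res.ex v h0 hπ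
  refine ⟨pj R hd (n + 1) *ᵥ u, ⟨u, rfl⟩, ?_⟩
  rw [mulVecLin_apply, mulVec_mulVec, ← h.gr.pj_mul, ← mulVec_mulVec, ← hu, link_mem_P.1 hv]

theorem SRes.link_le {g : ℕ} {I : Ideal R} {d : Matrix ι ι R} {hd : ι → ℕ} {π e : ι → R}
    {r : Matrix ι ι R} (h : SRes g I d hd π e r) (n : ℕ) :
    (linkP R hd (n + 1)).map d.mulVecLin ≤ linkP R hd n := by
  rintro _ ⟨u, hu, rfl⟩
  rw [link_mem_P, mulVecLin_apply, mulVec_mulVec, h.gr.pj_mul, ← mulVec_mulVec, link_mem_P.1 hu]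

theorem SRes.link_ind {𝔪 : Ideal R} {N g : ℕ} (hR : Dp 𝔪 N R) {I : Ideal R} {d : Matrix ι ι R}
    {hd : ι → ℕ} {π e : ι → R} {r : Matrix ι ι R} (h : SRes g I d hd π e r) (m : ℕ) :
    ∀ n, n + m = g → ∀ (T : Type) [AddCommGroup T] [Module R T] (f : linkP R hd n →ₗ[R] T),
      Function.Surjective f → (∀ x, f x = 0 ↔ x.1 ∈ (linkP R hd (n + 1)).map d.mulVecLin) →
      Dp 𝔪 (N - m) T := by
  induction m with
  | zero =>
    intro n hn T _ _ f hf hk
    obtain rfl : n = g := by omega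
    refine link_retract f hf (LinearMap.id - (pj R hd n).mulVecLin.rangeRestrict ∘ₗ
      (d * r).mulVecLin ∘ₗ (linkP R hd n).subtype) (fun x hx => ?_) (fun x => ?_)
      (link_dp_P hR hd n)
    · obtain ⟨u, hu, e⟩ := (hk x).1 hx
      apply Subtype.ext
      change x.1 - pj R hd n *ᵥ ((d * r) *ᵥ x.1) = 0
      have e2 : pj R hd n *ᵥ x.1 = x.1 := link_mem_P.1 x.2
      rw [mulVecLin_apply] at e
      rw [sub_eq_zero]
      calc x.1 = pj R hd n *ᵥ (pj R hd n *ᵥ (d *ᵥ u)) := by rw [e, e2, e2]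
        _ = pj R hd n *ᵥ ((d * r) *ᵥ (d *ᵥ u)) := by
          rw [mulVec_mulVec u (pj R hd n), mulVec_mulVec u (d * r), h.split]
        _ = _ := by rw [e]
    · rw [LinearMap.sub_apply, map_sub, LinearMap.id_apply, sub_eq_self, hk]
      refine ⟨pj R hd (n + 1) *ᵥ (r *ᵥ x.1), ⟨_, rfl⟩, ?_⟩
      change d *ᵥ (pj R hd (n + 1) *ᵥ (r *ᵥ x.1)) = pj R hd n *ᵥ ((d * r) *ᵥ x.1)
      simp only [mulVec_mulVec]
      rw [← Matrix.mul_assoc, ← Matrix.mul_assoc, h.gr.pj_mul]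
  | succ m ih =>
    intro n hn T _ _ f hf hk
    have hB : Dp 𝔪 (N - m) ((linkP R hd (n + 1)).map d.mulVecLin) := by
      refine ih (n + 1) (by omega) _ (d.mulVecLin.submoduleMap _)
        (LinearMap.submoduleMap_surjective _ _) fun x => ⟨fun hx => ?_, fun hx => ?_⟩
      · refine h.link_ker x.2 (congrArg Subtype.val hx) ?_
        rw [← link_mem_P.1 x.2, link_dot_pj h.supp, if_neg (Nat.succ_ne_zero n)]
        exact I.zero_mem
      · obtain ⟨u, -, e⟩ := hx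
        apply Subtype.ext
        change d *ᵥ x.1 = 0
        rw [← e, mulVecLin_apply, mulVec_mulVec, h.res.dd, zero_mulVec]
    rcases Nat.eq_zero_or_pos (N - (m + 1)) with h0 | h0
    · rw [h0]
      exact Dp.zero
    · refine Dp.right (f := Submodule.inclusion (h.link_le n)) (Submodule.inclusion_injective _) hf
        (fun x => ?_) (hB.mono (by omega)) ((link_dp_P hR hd n).mono (by omega))
      rw [hk]
      exact ⟨fun hx => ⟨⟨x.1, hx⟩, rfl⟩, fun ⟨y, hy⟩ => hy ▸ y.2⟩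

theorem SRes.dp {𝔪 : Ideal R} {N g : ℕ} (hR : Dp 𝔪 N R) {I : Ideal R} {d : Matrix ι ι R}
    {hd : ι → ℕ} {π e : ι → R} {r : Matrix ι ι R} (h : SRes g I d hd π e r) :
    Dp 𝔪 (N - g) (R ⧸ I) := by
  refine h.link_ind hR g 0 (Nat.zero_add g) (R ⧸ I)
    (I.mkQ ∘ₗ dotProductBilin R R π ∘ₗ (linkP R hd 0).subtype) (fun y => ?_) fun x => ?_
  · obtain ⟨a, rfl⟩ := Submodule.Quotient.mk_surjective I y
    refine ⟨⟨pj R hd 0 *ᵥ (a • e), ⟨_, rfl⟩⟩, (Submodule.Quotient.eq I).2 ?_⟩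
    change π ⬝ᵥ (pj R hd 0 *ᵥ (a • e)) - a ∈ I
    rw [link_dot_pj h.supp, if_pos rfl, dotProduct_smul, smul_eq_mul, ← mul_sub_one]
    exact I.mul_mem_left _ h.res.pe
  · change Submodule.Quotient.mk (π ⬝ᵥ x.1) = (0 : R ⧸ I) ↔ _
    rw [Submodule.Quotient.mk_eq_zero]
    refine ⟨fun hx => h.link_ker x.2 ?_ hx, fun ⟨u, _, e⟩ => e ▸ link_res_dot h.res u⟩
    rw [← link_mem_P.1 x.2, mulVec_mulVec, h.gr.mul_pj_zero, zero_mulVec]

omit [DecidableEq κ] in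
theorem link_mem_Bd {I : Ideal R} {k : Matrix κ κ R} (hm : ∀ i j, k i j ∈ I) {w : κ → R} :
    w ∈ Bd I k ↔ ∀ j, w j ∈ I := by
  have hv : ∀ (u : κ → R) j, (u ᵥ* k) j ∈ I := fun u j =>
    I.sum_mem fun i _ => I.mul_mem_left _ (hm i j)
  refine ⟨fun ⟨u, hu⟩ j => ?_, fun hw => ⟨0, fun j => ?_⟩⟩
  · simpa using I.add_mem (hu j) (hv u j)
  · simpa using hw j

theorem good_ci {𝔪 : Ideal R} {N : ℕ} (hR : Dp 𝔪 N R) {f : List R}
    (hf : RingTheory.Sequence.IsWeaklyRegular R f) :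
    Good 𝔪 f.length (N - f.length) (Ideal.ofList f) := by
  obtain ⟨κ, _, _, k, hk, π, e, π', e', h⟩ := exists_kos hf
  refine ⟨κ, inferInstance, inferInstance, k, hk, π, e, 0,
    ⟨h.res, h.gr, fun i => (h.le i).trans (Nat.le_succ _), h.supp, ?_⟩, ?_⟩
  · have : pj R hk (f.length + 1) = 0 := by
      unfold pj
      rw [← diagonal_zero]
      congr 1
      funext i
      exact if_neg (by have := h.le i; omega)
    rw [h.gr.pj_mul, this, Matrix.mul_zero, Matrix.zero_mul]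
  · let p : Zc (Ideal.ofList f) k →ₗ[R] (κ → R ⧸ Ideal.ofList f) :=
      LinearMap.pi fun j => (Ideal.ofList f).mkQ ∘ₗ LinearMap.proj j ∘ₗ Submodule.subtype _
    have hs : Function.Surjective p := fun y => by
      choose x hx using fun j => Submodule.Quotient.mk_surjective (Ideal.ofList f) (y j)
      exact ⟨⟨x, fun j => Ideal.sum_mem _ fun i _ => Ideal.mul_mem_left _ _ (h.mem i j)⟩,
        funext hx⟩
    have hker : (Bd (Ideal.ofList f) k).submoduleOf (Zc (Ideal.ofList f) k) = LinearMap.ker p := by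
      ext x
      change x.1 ∈ Bd (Ideal.ofList f) k ↔ p x = 0
      rw [link_mem_Bd h.mem, funext_iff]
      exact forall_congr' fun j => (Submodule.Quotient.mk_eq_zero _).symm
    exact Dp.equiv ((Submodule.quotEquivOfEq _ _ hker).trans (p.quotKerEquivOfSurjective hs))
      (hR.quot_list hf).pi

/-- The data of one link. -/
structure LinkData (g : ℕ) (𝔠 I J : Ideal R) (d : Matrix ι ι R) (hd : ι → ℕ) (π e : ι → R)
    (r : Matrix ι ι R) (k : Matrix κ κ R) (hk : κ → ℕ) (πK eK π' e' : κ → R) (φ : Matrix ι κ R) :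
    Prop where
  sres : SRes g I d hd π e r
  kos : Kos g 𝔠 k hk πK eK π' e'
  chain : d * φ = φ * k
  aug : ∀ j, (π ᵥ* φ - πK) j ∈ I
  deg : ∀ i j, φ i j ≠ 0 → hd i = hk j
  le : 𝔠 ≤ I
  mem : ∀ j, j ∈ J ↔ ∀ a ∈ I, j * a ∈ 𝔠
  grade : Dp 𝔠 g R

/-- The dual mapping cone. -/
def cone (k : Matrix κ κ R) (φ : Matrix ι κ R) (d : Matrix ι ι R) : Matrix (κ ⊕ ι) (κ ⊕ ι) R :=
  fromBlocks kᵀ φᵀ 0 (-dᵀ)

variable {g : ℕ} {𝔠 I J : Ideal R} {d : Matrix ι ι R} {hd : ι → ℕ} {π e : ι → R}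
  {r : Matrix ι ι R} {k : Matrix κ κ R} {hk : κ → ℕ} {πK eK π' e' : κ → R} {φ : Matrix ι κ R}

omit [DecidableEq ι] [DecidableEq κ] in
theorem link_cone_mulVec (a : κ → R) (b : ι → R) :
    cone k φ d *ᵥ Sum.elim a b = Sum.elim (a ᵥ* k + b ᵥ* φ) (-(b ᵥ* d)) := by
  unfold cone
  rw [fromBlocks_mulVec]
  simp [mulVec_transpose, neg_mulVec]

omit [DecidableEq ι] [DecidableEq κ] in
theorem link_vecMul_cone (a : κ → R) (b : ι → R) :
    Sum.elim a b ᵥ* cone k φ d = Sum.elim (k *ᵥ a) (φ *ᵥ a - d *ᵥ b) := by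
  unfold cone
  rw [vecMul_fromBlocks]
  simp [vecMul_transpose, vecMul_neg, sub_eq_add_neg]

theorem LinkData.gr_cone (h : LinkData g 𝔠 I J d hd π e r k hk πK eK π' e' φ) :
    Gr (Sum.elim (fun j => g - hk j) fun i => g + 1 - hd i) (cone k φ d) := by
  rintro (a | a) (b | b) hne
  · have h1 := h.kos.gr b a hne
    have h2 := h.kos.le a
    simp only [Sum.elim_inl]
    omega
  · have h1 := h.deg b a hne
    have h2 := h.kos.le a
    simp only [Sum.elim_inl, Sum.elim_inr]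
    omega
  · exact absurd rfl hne
  · have h1 := h.sres.gr b a fun h0 => hne (by simp [cone, h0])
    have h2 := h.sres.le a
    simp only [Sum.elim_inr]
    omega

theorem LinkData.cone_sq (h : LinkData g 𝔠 I J d hd π e r k hk πK eK π' e' φ) :
    cone k φ d * cone k φ d = 0 := by
  unfold cone
  rw [fromBlocks_multiply]
  simp [← transpose_mul, h.chain, h.kos.res.dd, h.sres.res.dd]

/-- A homotopy inverse up to a scalar of `J`. -/
theorem LinkData.exists_inv (h : LinkData g 𝔠 I J d hd π e r k hk πK eK π' e' φ) {j : R}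
    (hj : j ∈ J) : ∃ (ψ : Matrix κ ι R) (σ : Matrix ι ι R) (τ : Matrix κ κ R), k * ψ = ψ * d ∧
      φ * ψ - scalar ι j = d * σ + σ * d ∧ ψ * φ - scalar κ j = k * τ + τ * k := by
  have hm : ∀ a ∈ I, j * a ∈ 𝔠 := (h.mem j).1 hj
  obtain ⟨ψ, h1, h2⟩ := h.kos.res.lift h.sres.gr.flag h.sres.res.dd (w := j • π) fun l => by
    rw [smul_vecMul]
    exact hm _ (h.sres.res.pd l)
  obtain ⟨σ, hσ⟩ := h.sres.res.null h.sres.gr.flag h.sres.res.dd (M := φ * ψ - scalar ι j) (w := 0)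
    (by rw [Matrix.mul_sub, Matrix.sub_mul, ← Matrix.mul_assoc, h.chain, Matrix.mul_assoc, h1,
      Matrix.mul_assoc, (scalar_commute j (fun _ => Commute.all _ _) d).eq])
    fun l => by
      have e : π ᵥ* (φ * ψ - scalar ι j) - 0 ᵥ* d = (π ᵥ* φ - πK) ᵥ* ψ + (πK ᵥ* ψ - j • π) := by
        rw [vecMul_sub, sub_vecMul, vecMul_vecMul, zero_vecMul, scalar_apply,
          ← smul_one_eq_diagonal, vecMul_smul, vecMul_one]
        abel
      rw [e]
      exact I.add_mem (link_vecMul_mem h.aug _ _) (h.le (h2 l))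
  obtain ⟨τ, hτ⟩ := h.kos.res.null h.kos.gr.flag h.kos.res.dd (M := ψ * φ - scalar κ j) (w := 0)
    (by rw [Matrix.mul_sub, Matrix.sub_mul, ← Matrix.mul_assoc, h1, Matrix.mul_assoc, h.chain,
      Matrix.mul_assoc, (scalar_commute j (fun _ => Commute.all _ _) k).eq])
    fun l => by
      have e : πK ᵥ* (ψ * φ - scalar κ j) - 0 ᵥ* k =
          (πK ᵥ* ψ - j • π) ᵥ* φ + j • (π ᵥ* φ - πK) := by
        rw [vecMul_sub, sub_vecMul, vecMul_vecMul, zero_vecMul, scalar_apply,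
          ← smul_one_eq_diagonal, vecMul_smul, vecMul_one, smul_vecMul, smul_sub]
        abel
      rw [e]
      exact 𝔠.add_mem (link_vecMul_mem h2 _ _) (hm _ (h.aug l))
  exact ⟨ψ, σ, τ, h1, hσ, hτ⟩

omit [DecidableEq κ] in
theorem LinkData.link_aug (h : LinkData g 𝔠 I J d hd π e r k hk πK eK π' e' φ) :
    1 - π ⬝ᵥ (φ *ᵥ eK) ∈ I := by
  have e : 1 - π ⬝ᵥ (φ *ᵥ eK) = -((π ᵥ* φ - πK) ⬝ᵥ eK + (πK ⬝ᵥ eK - 1)) := by
    rw [dotProduct_mulVec, sub_dotProduct]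
    ring
  rw [e]
  exact I.neg_mem (I.add_mem (link_dot_left h.aug _) (h.le h.kos.res.pe))

omit [DecidableEq κ] in
/-- A cycle is a multiple of the generator up to a boundary. -/
theorem LinkData.link_cyc (h : LinkData g 𝔠 I J d hd π e r k hk πK eK π' e' φ) {z : ι → R}
    (hz : d *ᵥ z = 0) : ∃ y, z - (π ⬝ᵥ z) • (φ *ᵥ eK) = d *ᵥ y := by
  refine h.sres.res.ex _ ?_ ?_
  · rw [mulVec_sub, hz, mulVec_smul, mulVec_mulVec, h.chain, ← mulVec_mulVec, h.kos.res.de,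
      mulVec_zero, smul_zero, sub_zero]
  · rw [dotProduct_sub, dotProduct_smul, smul_eq_mul, ← mul_one_sub]
    exact I.mul_mem_left _ h.link_aug

omit [DecidableEq κ] in
theorem LinkData.link_pd (h : LinkData g 𝔠 I J d hd π e r k hk πK eK π' e' φ) (i : ι) :
    (φ *ᵥ π' - d *ᵥ (pj R hd (g + 1) *ᵥ (r *ᵥ (φ *ᵥ π')))) i ∈ J := by
  refine (h.mem _).2 fun a ha => ?_
  obtain ⟨ρ, hρ⟩ := h.sres.res.null h.sres.gr.flag h.sres.res.dd (M := a • (1 : Matrix ι ι R))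
    (w := 0) (by rw [Matrix.mul_smul, Matrix.smul_mul, Matrix.mul_one, Matrix.one_mul])
    fun l => by
      rw [zero_vecMul, sub_zero, vecMul_smul, vecMul_one]
      exact I.mul_mem_right _ ha
  have hu : pj R hd g *ᵥ (φ *ᵥ π') = φ *ᵥ π' := by
    funext l
    rw [link_pj_mulVec]
    split_ifs with hl
    · rfl
    · refine (Finset.sum_eq_zero fun j _ => ?_).symm
      change φ l j * π' j = 0
      by_cases h0 : φ l j = 0
      · rw [h0, zero_mul]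
      · rw [h.kos.supp' j (h.deg l j h0 ▸ hl), mul_zero]
  obtain ⟨W, hW⟩ : ∃ W, W = pj R hd g - pj R hd g * (d * r) := ⟨_, rfl⟩
  have hWd : W * d = 0 := by
    rw [hW, Matrix.sub_mul, Matrix.mul_assoc, ← h.sres.split, ← Matrix.mul_assoc, link_pj_sq,
      sub_self]
  have e1 : φ *ᵥ π' - d *ᵥ (pj R hd (g + 1) *ᵥ (r *ᵥ (φ *ᵥ π'))) = W *ᵥ (φ *ᵥ π') := by
    rw [hW, sub_mulVec, hu, mulVec_mulVec _ d, ← h.sres.gr.pj_mul, mulVec_mulVec _ (_ * d),
      Matrix.mul_assoc]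
  have e2 : a • (W *ᵥ (φ *ᵥ π')) = (W * ρ * φ) *ᵥ (k *ᵥ π') := by
    calc a • (W *ᵥ (φ *ᵥ π')) = (W * (a • (1 : Matrix ι ι R)) * φ) *ᵥ π' := by
          rw [Matrix.mul_smul, Matrix.mul_one, Matrix.smul_mul, smul_mulVec, mulVec_mulVec]
      _ = _ := by
          rw [hρ, Matrix.mul_add, ← Matrix.mul_assoc, hWd, Matrix.zero_mul, zero_add,
            mulVec_mulVec, Matrix.mul_assoc (W * ρ), ← h.chain]
          simp only [Matrix.mul_assoc]
  rw [e1, mul_comm]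
  change (a • (W *ᵥ (φ *ᵥ π'))) i ∈ 𝔠
  rw [e2]
  refine link_mulVec_mem (fun j => ?_) _ _
  rw [← vecMul_transpose]
  exact h.kos.res'.pd j

theorem LinkData.link_ex (h : LinkData g 𝔠 I J d hd π e r k hk πK eK π' e' φ)
    {π₂ : ι → R} (h2 : ∀ i, (φ *ᵥ π' - d *ᵥ π₂) i ∈ J) {a : κ → R} {b' : ι → R}
    (ha : a ᵥ* k + (b' ᵥ* d) ᵥ* φ = 0) (hπ : π' ⬝ᵥ a + π₂ ⬝ᵥ (b' ᵥ* d) ∈ J) :
    ∃ (a' : κ → R) (b'' : ι → R), a = a' ᵥ* k + b'' ᵥ* φ ∧ b' ᵥ* d = -(b'' ᵥ* d) := by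
  obtain ⟨a₁, ha₁⟩ : ∃ a₁, a₁ = a + b' ᵥ* φ := ⟨_, rfl⟩
  have hk1 : a₁ ᵥ* k = 0 := by
    rw [ha₁, add_vecMul, vecMul_vecMul, ← h.chain, ← vecMul_vecMul, ha]
  have hj : π' ⬝ᵥ a₁ ∈ J := by
    have e1 : π' ⬝ᵥ a₁ = π' ⬝ᵥ a + π₂ ⬝ᵥ (b' ᵥ* d) + b' ⬝ᵥ (φ *ᵥ π' - d *ᵥ π₂) := by
      rw [ha₁, dotProduct_add, dotProduct_sub, dotProduct_mulVec, dotProduct_mulVec,
        dotProduct_comm π' (b' ᵥ* φ), dotProduct_comm π₂]
      ring
    rw [e1]
    exact J.add_mem hπ (link_dot_right h2 _)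
  obtain ⟨ψ', -, τ, h3, -, hτ⟩ := h.exists_inv hj
  have he : e' ᵥ* k = 0 := by rw [← mulVec_transpose, h.kos.res'.de]
  obtain ⟨y, hy⟩ := h.kos.res'.ex (a₁ - (π' ⬝ᵥ a₁) • e')
    (by rw [mulVec_transpose, sub_vecMul, smul_vecMul, hk1, he, smul_zero, sub_zero])
    (by
      rw [dotProduct_sub, dotProduct_smul, smul_eq_mul, ← mul_one_sub, ← neg_sub]
      exact 𝔠.mul_mem_left _ (𝔠.neg_mem h.kos.res'.pe))
  have e2 : e' ᵥ* (ψ' * φ - scalar κ (π' ⬝ᵥ a₁)) = e' ᵥ* (k * τ + τ * k) := by rw [hτ]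
  rw [vecMul_sub, vecMul_add, ← vecMul_vecMul, ← vecMul_vecMul, ← vecMul_vecMul, he,
    zero_vecMul, zero_add, scalar_apply, ← smul_one_eq_diagonal, vecMul_smul, vecMul_one] at e2
  refine ⟨y - e' ᵥ* τ, e' ᵥ* ψ' - b', ?_, ?_⟩
  · rw [sub_vecMul, sub_vecMul, ← e2, ← mulVec_transpose k, ← hy, eq_sub_of_add_eq ha₁.symm]
    abel
  · rw [sub_vecMul, vecMul_vecMul, ← h3, ← vecMul_vecMul, he, zero_vecMul, zero_sub, neg_neg]

theorem LinkData.link_split (h : LinkData g 𝔠 I J d hd π e r k hk πK eK π' e' φ) :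
    ∃ r' : Matrix (κ ⊕ ι) (κ ⊕ ι) R, r' * cone k φ d =
      pj R (Sum.elim (fun j => g - hk j) fun i => g + 1 - hd i) (g + 1) := by
  have hb : ∀ i, ∃ y : ι → R, hd i = 0 → Pi.single i 1 - π i • (φ *ᵥ eK) = d *ᵥ y := by
    intro i
    by_cases hi : hd i = 0
    · have hz : d *ᵥ Pi.single i 1 = 0 := by
        funext l
        rw [mulVec_single_one]
        by_contra h0
        have := h.sres.gr l i h0
        omega
      obtain ⟨y, hy⟩ := h.link_cyc hz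
      rw [dotProduct_single_one] at hy
      exact ⟨y, fun _ => hy⟩
    · exact ⟨0, fun h0 => absurd h0 hi⟩
  choose y hy using hb
  refine ⟨of fun x => Sum.elim (fun _ => 0)
    (fun i => if hd i = 0 then Sum.elim (π i • eK) (-y i) else 0) x, ?_⟩
  ext x z
  change (Sum.elim (fun _ => 0) (fun i => if hd i = 0 then Sum.elim (π i • eK) (-y i) else 0) x
    ᵥ* cone k φ d) z = _
  rcases x with j | i
  · rw [Sum.elim_inl, zero_vecMul, pj, diagonal_apply]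
    have : ¬ g - hk j = g + 1 := by omega
    simp [this]
  · rw [Sum.elim_inr]
    split_ifs with hi
    · rw [link_vecMul_cone, mulVec_smul, mulVec_smul, h.kos.res.de, smul_zero, mulVec_neg,
        ← hy i hi, sub_neg_eq_add, add_sub_cancel, pj, diagonal_apply]
      rcases z with z | z
      · simp
      · simp [hi, Pi.single_apply, eq_comm]
    · rw [zero_vecMul, pj, diagonal_apply]
      have : ¬ g + 1 - hd i = g + 1 := by omega
      simp [this]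

omit [DecidableEq κ] in
theorem LinkData.leJ (h : LinkData g 𝔠 I J d hd π e r k hk πK eK π' e' φ) : 𝔠 ≤ J :=
  fun _ hj => (h.mem _).2 fun _ _ => 𝔠.mul_mem_right _ hj

theorem link_pj_ne (hd : ι → ℕ) {m n : ℕ} (h : m ≠ n) : pj R hd m * pj R hd n = 0 := by
  unfold pj
  rw [diagonal_mul_diagonal, ← diagonal_zero]
  congr 1
  funext i
  split_ifs with h1 h2
  · omega
  all_goals simp

theorem link_pj_zero {hd : ι → ℕ} {n : ℕ} (h : ∀ i, hd i ≠ n) : pj R hd n = 0 := by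
  unfold pj
  rw [← diagonal_zero]
  congr 1
  funext i
  exact if_neg (h i)

/-- The last map of the resolution has a left inverse. -/
theorem SRes.top (h : SRes g I d hd π e r) :
    pj R hd (g + 1) * r * d = pj R hd (g + 1) := by
  have h0 : pj R hd (g + 2) = 0 := link_pj_zero fun i => by have := h.le i; omega
  have h1 : d * (pj R hd (g + 1) * (pj R hd (g + 1) - r * d)) = 0 := by
    rw [← Matrix.mul_assoc, ← h.gr.pj_mul, Matrix.mul_assoc, Matrix.mul_sub, ← h.gr.pj_mul,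
      h.split, Matrix.mul_assoc d, sub_self, Matrix.mul_zero]
  have h2 : pj R hd (g + 1) * (pj R hd (g + 1) - r * d) = 0 := by
    ext i j
    obtain ⟨u, -, hu⟩ := h.link_ker (n := g + 1)
      (v := (pj R hd (g + 1) * (pj R hd (g + 1) - r * d)) *ᵥ Pi.single j 1)
      ⟨(pj R hd (g + 1) - r * d) *ᵥ Pi.single j 1, by rw [mulVecLin_apply, mulVec_mulVec]⟩
      (by rw [mulVec_mulVec, h1, zero_mulVec])
      (by rw [← mulVec_mulVec, link_dot_pj h.supp, if_neg (Nat.succ_ne_zero g)]; exact I.zero_mem)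
    have h3 : (pj R hd (g + 1) * (pj R hd (g + 1) - r * d)) *ᵥ Pi.single j 1 = 0 := by
      rw [← link_pj_sq hd (g + 1), Matrix.mul_assoc, link_pj_sq, ← mulVec_mulVec, ← hu,
        mulVecLin_apply, mulVec_mulVec, h.gr.pj_mul, h0, Matrix.mul_zero, zero_mulVec]
    have h4 := congrFun h3 i
    rwa [mulVec_single_one] at h4
  rw [Matrix.mul_sub, link_pj_sq, sub_eq_zero] at h2
  rw [Matrix.mul_assoc, ← h2]

/-- The acyclicity lemma for a complex of length `g + 1` whose last map splits. -/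
theorem link_exact_pos {c s : Matrix ι ι R} {hc : ι → ℕ} (gr : Gr hc c) (cc : c * c = 0)
    (le : ∀ i, hc i ≤ g + 1) (hs : s * c = pj R hc (g + 1)) (hR : Dp 𝔠 g R)
    (hn : ∀ a ∈ 𝔠, ∃ ρ, a • (1 : Matrix ι ι R) = c * ρ + ρ * c) (n : ℕ) {v : ι → R}
    (hv : pj R hc (n + 1) *ᵥ v = v) (h0 : c *ᵥ v = 0) : ∃ u, v = c *ᵥ u := by
  obtain ⟨t, ht⟩ : ∃ t, t = pj R hc (g + 1) * s * pj R hc g := ⟨_, rfl⟩
  have z2 : pj R hc (g + 1 + 1) = 0 := link_pj_zero fun i => by have := le i; omega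
  have tc : t * c = pj R hc (g + 1) := by
    rw [ht, Matrix.mul_assoc, gr.pj_mul, ← Matrix.mul_assoc, Matrix.mul_assoc _ s, hs, link_pj_sq,
      link_pj_sq]
  have Pc : pj R hc (g + 1) * c = 0 := by rw [gr.pj_mul, z2, Matrix.mul_zero]
  have Pt : pj R hc (g + 1) * t = t := by
    rw [ht, ← Matrix.mul_assoc, ← Matrix.mul_assoc, link_pj_sq]
  have tP : t * pj R hc (g + 1) = 0 := by
    rw [ht, Matrix.mul_assoc, link_pj_ne hc (by omega), Matrix.mul_zero]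
  have pct : ∀ i, pj R hc i * (c * t) = c * t * pj R hc i := fun i => by
    rw [← Matrix.mul_assoc, gr.pj_mul, ht]
    by_cases hi : i = g
    · subst hi
      simp only [Matrix.mul_assoc, link_pj_sq]
      rw [← Matrix.mul_assoc (pj R hc (i + 1)), link_pj_sq]
    · simp only [Matrix.mul_assoc]
      rw [← Matrix.mul_assoc (pj R hc (i + 1)), link_pj_ne hc (by omega),
        link_pj_ne hc (Ne.symm hi)]
      simp
  have pP : ∀ i, pj R hc i * pj R hc (g + 1) = pj R hc (g + 1) * pj R hc i := fun i => by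
    unfold pj
    rw [diagonal_mul_diagonal, diagonal_mul_diagonal]
    simp only [mul_comm]
  obtain ⟨E, hE⟩ : ∃ E, E = 1 - c * t - pj R hc (g + 1) := ⟨_, rfl⟩
  have PE : pj R hc (g + 1) * E = 0 := by
    rw [hE, Matrix.mul_sub, Matrix.mul_sub, Matrix.mul_one, ← Matrix.mul_assoc, Pc,
      Matrix.zero_mul, link_pj_sq, sub_zero, sub_self]
  have tE : t * E = 0 := by
    rw [hE, Matrix.mul_sub, Matrix.mul_sub, Matrix.mul_one, ← Matrix.mul_assoc, tc, Pt, tP,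
      sub_self, sub_zero]
  have EE : E * E = E := by
    nth_rewrite 1 [hE]
    rw [Matrix.sub_mul, Matrix.sub_mul, Matrix.one_mul, Matrix.mul_assoc, tE, PE, Matrix.mul_zero,
      sub_zero, sub_zero]
  have cE : c * E = E * c := by
    rw [hE, Matrix.mul_sub, Matrix.mul_sub, Matrix.sub_mul, Matrix.sub_mul, Matrix.mul_one,
      Matrix.one_mul, ← Matrix.mul_assoc, cc, Matrix.zero_mul, Matrix.mul_assoc, tc, Pc, sub_zero,
      sub_zero]
  have pE : ∀ i, pj R hc i * E = E * pj R hc i := fun i => by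
    rw [hE, Matrix.mul_sub, Matrix.mul_sub, Matrix.sub_mul, Matrix.sub_mul, Matrix.mul_one,
      Matrix.one_mul, pct, pP]
  have idem : ∀ i, pj R hc i * E * (pj R hc i * E) = pj R hc i * E := fun i => by
    rw [Matrix.mul_assoc, ← Matrix.mul_assoc E, ← pE, Matrix.mul_assoc, EE, ← Matrix.mul_assoc,
      link_pj_sq]
  have cp : ∀ i, c * (pj R hc (i + 1) * E) = pj R hc i * E * c := fun i => by
    rw [← Matrix.mul_assoc, ← gr.pj_mul, Matrix.mul_assoc, cE, Matrix.mul_assoc]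
  have fix : ∀ i, ∀ x ∈ LinearMap.range (pj R hc i * E).mulVecLin, (pj R hc i * E) *ᵥ x = x := by
    rintro i _ ⟨y, rfl⟩
    rw [mulVecLin_apply, mulVec_mulVec, idem]
  have key := Dp.acyclic (𝔪 := 𝔠) (g := g) (fun i => LinearMap.range (pj R hc i * E).mulVecLin)
    c.mulVecLin (fun x => by rw [mulVecLin_apply, mulVecLin_apply, mulVec_mulVec, cc, zero_mulVec])
    (fun i x hx => by
      obtain ⟨y, rfl⟩ := hx
      refine ⟨c *ᵥ y, ?_⟩
      simp only [mulVecLin_apply, mulVec_mulVec, cp])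
    (fun i hi => by
      have : pj R hc i * E = 0 := by
        by_cases h1 : i = g + 1
        · rw [h1, PE]
        · rw [link_pj_zero fun l => by have := le l; omega, Matrix.zero_mul]
      rw [this, mulVecLin_zero, LinearMap.range_zero])
    (fun i => Dp.retract (LinearMap.range (pj R hc i * E).mulVecLin).subtype
      (pj R hc i * E).mulVecLin.rangeRestrict (fun x => Subtype.ext (fix i x.1 x.2)) hR.pi)
    (fun i x hx hx0 a ha => by
      obtain ⟨ρ, hρ⟩ := hn a ha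
      refine ⟨1, (pj R hc (i + 2) * E) *ᵥ (ρ *ᵥ x), ⟨_, rfl⟩, ?_⟩
      have e1 : a • x = c *ᵥ (ρ *ᵥ x) := by
        have e2 := congrArg (fun A => A *ᵥ x) hρ
        simp only [smul_mulVec, one_mulVec, add_mulVec, ← mulVec_mulVec] at e2
        rw [e2, show c *ᵥ x = 0 from hx0, mulVec_zero, add_zero]
      rw [pow_one, mulVecLin_apply, mulVec_mulVec, cp, ← mulVec_mulVec, ← e1, mulVec_smul,
        fix _ x hx])
  obtain ⟨y, -, hy⟩ := key n (E *ᵥ v) ⟨v, by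
      rw [mulVecLin_apply, pE, ← mulVec_mulVec, hv]⟩
    (by rw [mulVecLin_apply, mulVec_mulVec, cE, ← mulVec_mulVec, h0, mulVec_zero])
  refine ⟨y + t *ᵥ v, ?_⟩
  rw [mulVecLin_apply] at hy
  rw [mulVec_add, ← hy, hE, sub_mulVec, sub_mulVec, one_mulVec, ← tc, ← mulVec_mulVec v t c, h0,
    mulVec_zero, sub_zero, mulVec_mulVec, sub_add_cancel]

omit [DecidableEq ι] [DecidableEq κ] in
theorem link_q_mulVec (v : κ ⊕ ι → R) : (cone k φ d)ᵀ *ᵥ v =
    Sum.elim (k *ᵥ (v ∘ Sum.inl)) (φ *ᵥ (v ∘ Sum.inl) - d *ᵥ (v ∘ Sum.inr)) := by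
  rw [mulVec_transpose, ← link_vecMul_cone, Sum.elim_comp_inl_inr]

/-- An exact subcomplex of the mapping fibre. -/
def linkW (𝔠 I : Ideal R) (πK : κ → R) (π : ι → R) : Submodule R (κ ⊕ ι → R) :=
  (resW 𝔠 πK).comap (LinearMap.funLeft R R Sum.inl) ⊓
    (resW I π).comap (LinearMap.funLeft R R Sum.inr)

omit [DecidableEq ι] [DecidableEq κ] in
theorem mem_linkW {v : κ ⊕ ι → R} :
    v ∈ linkW 𝔠 I πK π ↔ πK ⬝ᵥ (v ∘ Sum.inl) ∈ 𝔠 ∧ π ⬝ᵥ (v ∘ Sum.inr) ∈ I := Iff.rfl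

omit [DecidableEq κ] in
theorem LinkData.aug_dot (h : LinkData g 𝔠 I J d hd π e r k hk πK eK π' e' φ) {a : κ → R}
    (ha : πK ⬝ᵥ a ∈ 𝔠) : π ⬝ᵥ (φ *ᵥ a) ∈ I := by
  have e1 : π ⬝ᵥ (φ *ᵥ a) = (π ᵥ* φ - πK) ⬝ᵥ a + πK ⬝ᵥ a := by
    rw [dotProduct_mulVec, sub_dotProduct, sub_add_cancel]
  rw [e1]
  exact I.add_mem (link_dot_left h.aug a) (h.le ha)

omit [DecidableEq κ] in
theorem LinkData.W_stable (h : LinkData g 𝔠 I J d hd π e r k hk πK eK π' e' φ) :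
    ∀ v ∈ linkW 𝔠 I πK π, (cone k φ d)ᵀ *ᵥ v ∈ linkW 𝔠 I πK π := by
  intro v hv
  rw [link_q_mulVec, mem_linkW, Sum.elim_comp_inl, Sum.elim_comp_inr, dotProduct_sub]
  exact ⟨h.kos.res.res_pd _, I.sub_mem (h.aug_dot hv.1) (h.sres.res.res_pd _)⟩

omit [DecidableEq κ] in
theorem LinkData.W_exact (h : LinkData g 𝔠 I J d hd π e r k hk πK eK π' e' φ) :
    ∀ v ∈ linkW 𝔠 I πK π, (cone k φ d)ᵀ *ᵥ v = 0 →
      ∃ u ∈ linkW 𝔠 I πK π, v = (cone k φ d)ᵀ *ᵥ u := by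
  intro v hv h0
  rw [link_q_mulVec] at h0
  have ha : k *ᵥ (v ∘ Sum.inl) = 0 := funext fun j => congrFun h0 (Sum.inl j)
  have hb : φ *ᵥ (v ∘ Sum.inl) = d *ᵥ (v ∘ Sum.inr) :=
    sub_eq_zero.1 (funext fun i => congrFun h0 (Sum.inr i))
  obtain ⟨a, ha1, ha2⟩ := h.kos.res.ex' ha hv.1
  obtain ⟨b, hb1, hb2⟩ := h.sres.res.ex' (v := v ∘ Sum.inr - φ *ᵥ a)
    (by rw [mulVec_sub, ← hb, ha2, mulVec_mulVec, mulVec_mulVec, h.chain, sub_self])
    (by rw [dotProduct_sub]; exact I.sub_mem hv.2 (h.aug_dot ha1))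
  refine ⟨Sum.elim a (-b), ⟨ha1, ?_⟩, ?_⟩
  · change π ⬝ᵥ (-b) ∈ I
    rw [dotProduct_neg]
    exact I.neg_mem hb1
  · rw [link_q_mulVec, Sum.elim_comp_inl, Sum.elim_comp_inr, ← ha2, mulVec_neg, ← hb2,
      sub_neg_eq_add, add_sub_cancel, Sum.elim_comp_inl_inr]

omit [DecidableEq κ] in
/-- Chain maps into the exact subcomplex are null-homotopic. -/
theorem LinkData.nullW (h : LinkData g 𝔠 I J d hd π e r k hk πK eK π' e' φ) {μ : Type} [Fintype μ]
    {s : Matrix μ μ R} (hs : Flag s) (hss : s * s = 0) {χ : Matrix (κ ⊕ ι) μ R}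
    (h1 : ∀ j, (Sum.elim πK 0 ᵥ* χ) j ∈ 𝔠) (h2 : ∀ j, (Sum.elim 0 π ᵥ* χ) j ∈ I)
    (hc : (cone k φ d)ᵀ * χ = χ * s) : ∃ ρ : Matrix (κ ⊕ ι) μ R,
      (∀ j, (Sum.elim πK 0 ᵥ* ρ) j ∈ 𝔠) ∧ (∀ j, (Sum.elim 0 π ᵥ* ρ) j ∈ I) ∧
        χ = (cone k φ d)ᵀ * ρ + ρ * s := by
  have e : ∀ (A : Matrix (κ ⊕ ι) μ R) (j : μ), (fun i => A i j) ∈ linkW 𝔠 I πK π ↔
      (Sum.elim πK 0 ᵥ* A) j ∈ 𝔠 ∧ (Sum.elim 0 π ᵥ* A) j ∈ I := fun A j => by
    rw [mem_linkW]
    simp [vecMul, dotProduct, Fintype.sum_sum_type]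
  obtain ⟨ρ, hρ, hρ'⟩ := hs.nullhomotopic hss _ (linkW 𝔠 I πK π) h.W_exact h.W_stable
    (fun j => (e χ j).2 ⟨h1 j, h2 j⟩) hc
  exact ⟨ρ, fun j => ((e ρ j).1 (hρ j)).1, fun j => ((e ρ j).1 (hρ j)).2, hρ'⟩

theorem LinkData.q_flag (h : LinkData g 𝔠 I J d hd π e r k hk πK eK π' e' φ) :
    Flag (cone k φ d)ᵀ := h.gr_cone.flag.transpose

theorem LinkData.q_sq (h : LinkData g 𝔠 I J d hd π e r k hk πK eK π' e' φ) :
    (cone k φ d)ᵀ * (cone k φ d)ᵀ = 0 := by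
  rw [← transpose_mul, h.cone_sq, transpose_zero]

/-- The second part of a cycle of the dual mapping cone is a coboundary. -/
theorem LinkData.link_bd (h : LinkData g 𝔠 I J d hd π e r k hk πK eK π' e' φ) {a : κ → R}
    {b : ι → R} (hv : cone k φ d *ᵥ Sum.elim a b = 0) : ∃ b', b = b' ᵥ* d := by
  obtain ⟨s, hs⟩ := h.link_split
  have hn : ∀ t ∈ 𝔠, ∃ ρ, t • (1 : Matrix (κ ⊕ ι) (κ ⊕ ι) R) =
      cone k φ d * ρ + ρ * cone k φ d := fun t ht => by
    obtain ⟨ρ, -, -, hρ⟩ := h.nullW h.q_flag h.q_sq (χ := t • 1)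
      (fun j => by rw [vecMul_smul]; exact 𝔠.mul_mem_right _ ht)
      (fun j => by rw [vecMul_smul]; exact I.mul_mem_right _ (h.le ht))
      (by rw [Matrix.mul_smul, Matrix.smul_mul, Matrix.mul_one, Matrix.one_mul])
    refine ⟨ρᵀ, ?_⟩
    have := congrArg transpose hρ
    rwa [transpose_smul, transpose_one, transpose_add, transpose_mul, transpose_mul,
      transpose_transpose, add_comm] at this
  have key : ∀ n, ∃ b', b ᵥ* pj R hd n = b' ᵥ* d := fun n => by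
    by_cases h1 : g + 1 < n
    · exact ⟨0, by rw [link_pj_zero fun i => by have := h.sres.le i; omega, vecMul_zero,
        zero_vecMul]⟩
    by_cases h2 : n = g + 1
    · exact ⟨b ᵥ* (pj R hd (g + 1) * r), by rw [vecMul_vecMul, h.sres.top, h2]⟩
    obtain ⟨u, hu⟩ := link_exact_pos h.gr_cone h.cone_sq (by
        rintro (j | i)
        · simp only [Sum.elim_inl]; omega
        · simp only [Sum.elim_inr]; omega) hs h.grade hn (g - n)
      (v := pj R (Sum.elim (fun j => g - hk j) fun i => g + 1 - hd i) (g - n + 1) *ᵥ Sum.elim a b)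
      (by rw [mulVec_mulVec, link_pj_sq])
      (by rw [mulVec_mulVec, ← h.gr_cone.pj_mul, ← mulVec_mulVec, hv, mulVec_zero])
    refine ⟨-(u ∘ Sum.inr), funext fun i => ?_⟩
    have h3 := congrFun hu (Sum.inr i)
    rw [← Sum.elim_comp_inl_inr u, link_cone_mulVec, link_pj_mulVec, Sum.elim_inr, Sum.elim_inr,
      Sum.elim_inr] at h3
    rw [neg_vecMul, ← h3, pj, vecMul_diagonal]
    have h4 := h.sres.le i
    by_cases h5 : hd i = n
    · rw [if_pos h5, if_pos (by omega), mul_one]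
    · rw [if_neg h5, if_neg (by omega), mul_zero]
  choose b' hb' using key
  refine ⟨∑ n ∈ Finset.range (g + 2), b' n, ?_⟩
  rw [sum_vecMul]
  simp only [← hb']
  funext i
  rw [Finset.sum_apply, Finset.sum_eq_single (hd i)]
  · rw [pj, vecMul_diagonal, if_pos rfl, mul_one]
  · intro n _ hn
    rw [pj, vecMul_diagonal, if_neg (Ne.symm hn), mul_zero]
  · intro hi
    have := h.sres.le i
    exact absurd (Finset.mem_range.2 (by omega)) hi

theorem LinkData.sres' (h : LinkData g 𝔠 I J d hd π e r k hk πK eK π' e' φ) :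
    ∃ (π₂ : ι → R) (r' : Matrix (κ ⊕ ι) (κ ⊕ ι) R), SRes g J (cone k φ d)
      (Sum.elim (fun j => g - hk j) fun i => g + 1 - hd i) (Sum.elim π' π₂) (Sum.elim e' 0) r' := by
  obtain ⟨r', hr⟩ := h.link_split
  refine ⟨pj R hd (g + 1) *ᵥ (r *ᵥ (φ *ᵥ π')), r', ⟨h.cone_sq, ?_, ?_, ?_, ?_⟩, h.gr_cone, ?_, ?_,
    ?_⟩
  · rw [link_vecMul_cone]
    rintro (j | i)
    · rw [Sum.elim_inl, ← vecMul_transpose]
      exact h.leJ (h.kos.res'.pd j)
    · exact h.link_pd i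
  · rw [link_cone_mulVec, ← mulVec_transpose, h.kos.res'.de]
    simp
  · rw [sumElim_dotProduct_sumElim, dotProduct_zero, add_zero]
    exact h.leJ h.kos.res'.pe
  · intro v hv hπ
    obtain ⟨a, b, rfl⟩ : ∃ a b, v = Sum.elim a b :=
      ⟨v ∘ Sum.inl, v ∘ Sum.inr, (Sum.elim_comp_inl_inr v).symm⟩
    obtain ⟨b₀, rfl⟩ := h.link_bd hv
    rw [link_cone_mulVec] at hv
    rw [sumElim_dotProduct_sumElim] at hπ
    obtain ⟨a', b', h1, h2⟩ := h.link_ex h.link_pd (funext fun j => congrFun hv (Sum.inl j)) hπ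
    exact ⟨Sum.elim a' b', by rw [link_cone_mulVec, ← h1, ← h2]⟩
  · rintro (j | i)
    · simp only [Sum.elim_inl]
      omega
    · simp only [Sum.elim_inr]
      omega
  · rintro (j | i) hne
    · refine h.kos.supp' j fun h0 => hne ?_
      simp [h0]
    · rw [Sum.elim_inr, link_pj_mulVec]
      refine if_neg fun h0 => hne ?_
      simp [h0]
  · rw [h.gr_cone.pj_mul, Matrix.mul_assoc, hr]

end Pool.Agent.Lib.MP_e9c0f3_ag
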