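import Pool.Agent.Lib.MP_e9c0f3_ag.Link

/-! The depth of the self-extension modules of a link. -/

open Matrix

namespace Pool.Agent.Lib.MP_e9c0f3_ag

variable {R : Type} [CommRing R] {ι κ : Type} [Fintype ι] [DecidableEq ι] [Fintype κ]
  [DecidableEq κ]

variable {g : ℕ} {𝔠 I J : Ideal R} {d : Matrix ι ι R} {hd : ι → ℕ} {π e : ι → R}
  {r : Matrix ι ι R} {k : Matrix κ κ R} {hk : κ → ℕ} {πK eK π' e' : κ → R} {φ : Matrix ι κ R}

section aux

variable {μ ν : Type}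

theorem link2_vm_vec [Fintype μ] {x : μ → R} (hx : ∀ i, x i ∈ I) (A : Matrix μ ν R) (j : ν) :
    (x ᵥ* A) j ∈ I :=
  I.sum_mem fun i _ => I.mul_mem_right _ (hx i)

theorem link2_vm_mat [Fintype μ] (x : μ → R) {A : Matrix μ ν R} (hA : ∀ i j, A i j ∈ I) (j : ν) :
    (x ᵥ* A) j ∈ I :=
  I.sum_mem fun i _ => I.mul_mem_left _ (hA i j)

theorem link2_mv_vec [Fintype ν] (A : Matrix μ ν R) {x : ν → R} (hx : ∀ i, x i ∈ I) (j : μ) :
    (A *ᵥ x) j ∈ I :=
  I.sum_mem fun i _ => I.mul_mem_left _ (hx i)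

theorem link2_mv_mat [Fintype ν] {A : Matrix μ ν R} (hA : ∀ i j, A i j ∈ I) (x : ν → R) (j : μ) :
    (A *ᵥ x) j ∈ I :=
  I.sum_mem fun i _ => I.mul_mem_right _ (hA j i)

/-- Reduction of vectors modulo an ideal. -/
def link2_red (I : Ideal R) (μ : Type) : (μ → R) →ₗ[R] (μ → R ⧸ I) :=
  (Submodule.mkQ I).compLeft μ

theorem link2_red_eq {I : Ideal R} {x y : μ → R} :
    link2_red I μ x = link2_red I μ y ↔ ∀ j, x j - y j ∈ I := by
  rw [funext_iff]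
  exact forall_congr' fun j => Submodule.Quotient.eq I

theorem link2_red_zero {I : Ideal R} {x : μ → R} :
    link2_red I μ x = 0 ↔ ∀ j, x j ∈ I := by
  rw [funext_iff]
  exact forall_congr' fun j => Submodule.Quotient.mk_eq_zero I

theorem link2_red_surj (I : Ideal R) (y : μ → R ⧸ I) : ∃ x, link2_red I μ x = y := by
  choose x hx using fun j => Submodule.Quotient.mk_surjective I (y j)
  exact ⟨x, funext hx⟩

theorem link2_mid {𝔪 : Ideal R} {n : ℕ} {U T G E : Type} [AddCommGroup U] [Module R U]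
    [AddCommGroup T] [Module R T] [AddCommGroup G] [Module R G] [AddCommGroup E] [Module R E]
    (f : U →ₗ[R] T) (hf : Function.Injective f) (σ : E →ₗ[R] T) (p : E →ₗ[R] G)
    (hσ : ∀ x, ∃ y, x - σ y ∈ LinearMap.range f) (hp : Function.Surjective p)
    (hker : ∀ y, σ y ∈ LinearMap.range f ↔ p y = 0) (hU : Dp 𝔪 n U) (hG : Dp 𝔪 n G) :
    Dp 𝔪 n T := by
  have s1 : Function.Surjective ((LinearMap.range f).mkQ ∘ₗ σ) := fun x => by
    obtain ⟨x, rfl⟩ := Submodule.Quotient.mk_surjective _ x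
    obtain ⟨y, hy⟩ := hσ x
    exact ⟨y, ((Submodule.Quotient.eq _).2 hy).symm⟩
  have hk : LinearMap.ker ((LinearMap.range f).mkQ ∘ₗ σ) = LinearMap.ker p := by
    ext y
    simp only [LinearMap.mem_ker, LinearMap.comp_apply, Submodule.mkQ_apply,
      Submodule.Quotient.mk_eq_zero]
    exact hker y
  exact Dp.mid hf (Submodule.mkQ_surjective _) (LinearMap.exact_map_mkQ_range f) hU
    (Dp.equiv ((LinearMap.quotKerEquivOfSurjective _ s1).symm ≪≫ₗ
      (Submodule.quotEquivOfEq _ _ hk) ≪≫ₗ (LinearMap.quotKerEquivOfSurjective _ hp)) hG)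

theorem link2_left {𝔪 : Ideal R} {n : ℕ} {U T G E : Type} [AddCommGroup U] [Module R U]
    [AddCommGroup T] [Module R T] [AddCommGroup G] [Module R G] [AddCommGroup E] [Module R E]
    (p : E →ₗ[R] U) (hp : Function.Surjective p) (θ : E →ₗ[R] T) (hker : ∀ y, p y = 0 ↔ θ y = 0)
    (γ : T →ₗ[R] G) (hγ : Function.Surjective γ) (hex : ∀ x, γ x = 0 ↔ x ∈ LinearMap.range θ)
    (hT : Dp 𝔪 n T) (hG : Dp 𝔪 n G) : Dp 𝔪 n U := by
  cases n with
  | zero => exact Dp.zero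
  | succ n =>
    have hk : LinearMap.ker p = LinearMap.ker θ := by
      ext y
      exact hker y
    refine Dp.equiv ((LinearMap.quotKerEquivOfSurjective _ hp).symm ≪≫ₗ
      (Submodule.quotEquivOfEq _ _ hk) ≪≫ₗ θ.quotKerEquivRange) ?_
    refine Dp.left (f := (LinearMap.range θ).subtype) (Submodule.subtype_injective _) hγ
      (fun x => ?_) hT (hG.mono n.le_succ)
    rw [hex]
    exact ⟨fun hx => ⟨⟨x, hx⟩, rfl⟩, fun ⟨y, hy⟩ => hy ▸ y.2⟩

end aux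

omit [DecidableEq ι] [DecidableEq κ] in
theorem link2_vm_q (y : κ ⊕ ι → R) : y ᵥ* (cone k φ d)ᵀ =
    Sum.elim ((y ∘ Sum.inl) ᵥ* k + (y ∘ Sum.inr) ᵥ* φ) (-((y ∘ Sum.inr) ᵥ* d)) := by
  rw [vecMul_transpose, ← link_cone_mulVec, Sum.elim_comp_inl_inr]

omit [DecidableEq ι] [DecidableEq κ] in
theorem link2_vm_q' (a : κ → R) (b : ι → R) : Sum.elim a b ᵥ* (cone k φ d)ᵀ =
    Sum.elim (a ᵥ* k + b ᵥ* φ) (-(b ᵥ* d)) := link2_vm_q _

/-- Every cocycle modulo `𝔠` on the mapping fibre comes from the Koszul complex. -/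
theorem LinkData.lamC (h : LinkData g 𝔠 I J d hd π e r k hk πK eK π' e' φ) {π₂ : ι → R}
    (hr : Res (cone k φ d) J (Sum.elim π' π₂) (Sum.elim e' 0)) {x : κ ⊕ ι → R}
    (hx : ∀ j, (x ᵥ* (cone k φ d)ᵀ) j ∈ 𝔠) :
    ∃ (y : κ → R) (v : κ ⊕ ι → R),
      ∀ j, (x - Sum.elim y (0 : ι → R) - v ᵥ* (cone k φ d)ᵀ) j ∈ 𝔠 := by
  obtain ⟨M, hM, hMx⟩ := h.kos.res.lift h.q_flag h.q_sq hx
  obtain ⟨Y, hY, hYa⟩ := h.kos.res'.lift h.kos.gr.flag.transpose h.kos.res'.dd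
    (w := M *ᵥ Sum.elim π' π₂) (fun j => link2_vm_mat _ (fun i j => h.kos.mem j i) j)
  have hY' : k * Yᵀ = Yᵀ * k := by
    have := congrArg transpose hY
    rw [transpose_mul, transpose_mul, transpose_transpose] at this
    exact this.symm
  have hc : k * fromCols Yᵀ (0 : Matrix κ ι R) =
      fromCols Yᵀ (0 : Matrix κ ι R) * (cone k φ d)ᵀ := by
    unfold cone
    rw [fromBlocks_transpose, transpose_transpose, transpose_transpose, transpose_zero,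
      transpose_neg, transpose_transpose, mul_fromCols, fromCols_mul_fromBlocks, hY']
    simp
  obtain ⟨ρ, hρ⟩ := hr.null h.kos.gr.flag.transpose h.kos.res'.dd
    (M := (M - fromCols Yᵀ (0 : Matrix κ ι R))ᵀ) (w := 0)
    (by rw [← transpose_mul, Matrix.mul_sub, hM, hc, ← Matrix.sub_mul, transpose_mul,
      transpose_transpose]) (fun j => by
      rw [zero_vecMul, sub_zero, vecMul_transpose, sub_mulVec, fromCols_mulVec_sumElim,
        zero_mulVec, add_zero, mulVec_transpose, ← neg_sub]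
      exact J.neg_mem (h.leJ (hYa j)))
  have hρ' : M - fromCols Yᵀ (0 : Matrix κ ι R) = ρᵀ * (cone k φ d)ᵀ + k * ρᵀ := by
    have := congrArg transpose hρ
    rwa [transpose_transpose, transpose_add, transpose_mul, transpose_mul,
      transpose_transpose] at this
  refine ⟨πK ᵥ* Yᵀ, πK ᵥ* ρᵀ, fun j => ?_⟩
  have e1 := congrArg (fun A => πK ᵥ* A) hρ'
  simp only [vecMul_sub, vecMul_add, vecMul_fromCols, vecMul_zero, ← vecMul_vecMul] at e1
  have e2 : x - Sum.elim (πK ᵥ* Yᵀ) (0 : ι → R) - (πK ᵥ* ρᵀ) ᵥ* (cone k φ d)ᵀ =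
      (πK ᵥ* k) ᵥ* ρᵀ - (πK ᵥ* M - x) := by
    rw [sub_eq_iff_eq_add.1 e1]
    abel
  rw [e2]
  exact 𝔠.sub_mem (link2_vm_vec h.kos.res.pd _ j) (hMx j)

/-- The image of the cocycles modulo `𝔠` under `φ`. -/
theorem LinkData.mem_J_iff (h : LinkData g 𝔠 I J d hd π e r k hk πK eK π' e' φ) (y : κ → R) :
    (∃ u, (∀ j, (y - u ᵥ* φ) j ∈ 𝔠) ∧ ∀ i, (u ᵥ* d) i ∈ 𝔠) ↔ ∀ j, y j ∈ J := by
  constructor
  · rintro ⟨u, h1, h2⟩ j
    refine (h.mem _).2 fun a ha => ?_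
    obtain ⟨ρ, hρ⟩ := h.sres.res.null h.sres.gr.flag h.sres.res.dd (M := a • (1 : Matrix ι ι R))
      (w := 0) (by rw [Matrix.mul_smul, Matrix.smul_mul, Matrix.mul_one, Matrix.one_mul])
      fun l => by
        rw [zero_vecMul, sub_zero, vecMul_smul, vecMul_one]
        exact I.mul_mem_right _ ha
    have e1 : a • (u ᵥ* φ) = (u ᵥ* d) ᵥ* (ρ * φ) + (u ᵥ* (ρ * φ)) ᵥ* k := by
      calc a • (u ᵥ* φ) = u ᵥ* (a • (1 : Matrix ι ι R) * φ) := by
            rw [Matrix.smul_mul, Matrix.one_mul, vecMul_smul]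
        _ = _ := by
            rw [hρ, Matrix.add_mul, vecMul_add, vecMul_vecMul, vecMul_vecMul, Matrix.mul_assoc,
              Matrix.mul_assoc, Matrix.mul_assoc, h.chain]
    have h3 : (a • (u ᵥ* φ)) j ∈ 𝔠 := by
      rw [e1]
      exact 𝔠.add_mem (link2_vm_vec h2 _ j) (link2_vm_mat _ h.kos.mem j)
    have h4 := 𝔠.add_mem (𝔠.mul_mem_left a (h1 j)) h3
    convert h4 using 1
    simp only [Pi.sub_apply, Pi.smul_apply, smul_eq_mul]
    ring
  · intro hy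
    choose ψ σ τ h1 _ h3 using fun j => h.exists_inv (hy j)
    refine ⟨∑ j, Pi.single j 1 ᵥ* ψ j, fun l => ?_, fun i => ?_⟩
    · have e1 : y - (∑ j, Pi.single j 1 ᵥ* ψ j) ᵥ* φ =
          -∑ j, Pi.single j 1 ᵥ* (k * τ j + τ j * k) := by
        simp only [← h3, vecMul_sub, Finset.sum_sub_distrib, sum_vecMul, vecMul_vecMul, neg_sub]
        congr 1
        funext l
        simp [Finset.sum_apply, scalar_apply, vecMul_diagonal, Pi.single_apply]
      rw [e1, Pi.neg_apply, Finset.sum_apply]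
      refine 𝔠.neg_mem (𝔠.sum_mem fun j _ => ?_)
      rw [vecMul_add, ← vecMul_vecMul, ← vecMul_vecMul]
      exact 𝔠.add_mem (link2_vm_vec (link2_vm_mat _ h.kos.mem) _ l) (link2_vm_mat _ h.kos.mem l)
    · rw [sum_vecMul, Finset.sum_apply]
      refine 𝔠.sum_mem fun j _ => ?_
      rw [vecMul_vecMul, ← h1, ← vecMul_vecMul]
      exact link2_vm_vec (link2_vm_mat _ h.kos.mem) _ i

/-- The cocycles of the fibre product. -/
def TZ (𝔠 I : Ideal R) (q : Matrix (κ ⊕ ι) (κ ⊕ ι) R) : Submodule R (κ ⊕ ι → R) where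
  carrier := {x | (∀ i, x (Sum.inr i) ∈ I) ∧ ∀ j, (x ᵥ* q) j ∈ 𝔠}
  add_mem' ha hb := ⟨fun i => I.add_mem (ha.1 i) (hb.1 i), fun j => by
    rw [add_vecMul]; exact 𝔠.add_mem (ha.2 j) (hb.2 j)⟩
  zero_mem' := ⟨fun _ => I.zero_mem, fun j => by rw [zero_vecMul]; exact 𝔠.zero_mem⟩
  smul_mem' c _ hw := ⟨fun i => I.mul_mem_left c (hw.1 i), fun j => by
    rw [smul_vecMul]; exact 𝔠.mul_mem_left c (hw.2 j)⟩

/-- The coboundaries of the fibre product. -/
def TB (𝔠 I : Ideal R) (q : Matrix (κ ⊕ ι) (κ ⊕ ι) R) : Submodule R (κ ⊕ ι → R) where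
  carrier := {x | ∃ z, (∀ i, z i ∈ I) ∧ ∀ j, (x - z ᵥ* q) j ∈ 𝔠}
  add_mem' := by
    rintro a b ⟨u, hu, hu'⟩ ⟨v, hv, hv'⟩
    refine ⟨u + v, fun i => I.add_mem (hu i) (hv i), fun j => ?_⟩
    rw [add_vecMul, add_sub_add_comm]
    exact 𝔠.add_mem (hu' j) (hv' j)
  zero_mem' := ⟨0, fun _ => I.zero_mem, fun j => by rw [zero_vecMul, sub_zero]; exact 𝔠.zero_mem⟩
  smul_mem' := by
    rintro c w ⟨u, hu, hu'⟩
    refine ⟨c • u, fun i => I.mul_mem_left c (hu i), fun j => ?_⟩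
    rw [smul_vecMul, ← smul_sub]
    exact 𝔠.mul_mem_left c (hu' j)

/-- The cohomology of the fibre product. -/
abbrev TT (𝔠 I : Ideal R) (q : Matrix (κ ⊕ ι) (κ ⊕ ι) R) : Type :=
  TZ 𝔠 I q ⧸ (TB 𝔠 I q).submoduleOf (TZ 𝔠 I q)

omit [DecidableEq ι] [DecidableEq κ] in
theorem TT_eq {q : Matrix (κ ⊕ ι) (κ ⊕ ι) R} {x y : TZ 𝔠 I q} :
    (Submodule.Quotient.mk x : TT 𝔠 I q) = Submodule.Quotient.mk y ↔
      ∃ z, (∀ i, z i ∈ I) ∧ ∀ j, (x.1 - y.1 - z ᵥ* q) j ∈ 𝔠 := Submodule.Quotient.eq _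

omit [DecidableEq ι] [DecidableEq κ] in
theorem TT_zero {q : Matrix (κ ⊕ ι) (κ ⊕ ι) R} {x : TZ 𝔠 I q} :
    (Submodule.Quotient.mk x : TT 𝔠 I q) = 0 ↔
      ∃ z, (∀ i, z i ∈ I) ∧ ∀ j, (x.1 - z ᵥ* q) j ∈ 𝔠 := Submodule.Quotient.mk_eq_zero _

theorem LinkData.dpT {𝔪 : Ideal R} {n : ℕ} (h : LinkData g 𝔠 I J d hd π e r k hk πK eK π' e' φ)
    {π₂ : ι → R} (hr : Res (cone k φ d) J (Sum.elim π' π₂) (Sum.elim e' 0))
    (hJ : Dp 𝔪 n (R ⧸ J)) (hU : Dp 𝔪 n (Uc I d)) : Dp 𝔪 n (TT 𝔠 I (cone k φ d)ᵀ) := by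
  have hX : ∀ w : ι → R, w ᵥ* fromCols φ (-d) = Sum.elim 0 w ᵥ* (cone k φ d)ᵀ := fun w => by
    rw [link2_vm_q', vecMul_fromCols, zero_vecMul, zero_add, vecMul_neg]
  have hZ : ∀ w ∈ Zc I d, (fromCols φ (-d)).vecMulLinear w ∈ TZ 𝔠 I (cone k φ d)ᵀ := fun w hw => by
    refine ⟨fun i => ?_, fun j => ?_⟩
    · rw [vecMulLinear_apply, vecMul_fromCols, Sum.elim_inr, vecMul_neg]
      exact I.neg_mem (hw i)
    · rw [vecMulLinear_apply, hX, vecMul_vecMul, h.q_sq, vecMul_zero]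
      exact 𝔠.zero_mem
  let f : Uc I d →ₗ[R] TT 𝔠 I (cone k φ d)ᵀ :=
    Submodule.mapQ _ _ ((fromCols φ (-d)).vecMulLinear.restrict hZ) (by
      rintro w ⟨u, hu⟩
      refine ⟨Sum.elim 0 (w.1 - u ᵥ* d), ?_, fun j => ?_⟩
      · rintro (j | i)
        · exact I.zero_mem
        · exact hu i
      · change (w.1 ᵥ* fromCols φ (-d) - _) j ∈ 𝔠
        rw [← hX, ← sub_vecMul, sub_sub_cancel, vecMul_fromCols, vecMul_vecMul, vecMul_vecMul,
          h.chain, Matrix.mul_neg, h.sres.res.dd, ← vecMul_vecMul]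
        rcases j with j | j
        · exact link2_vm_mat _ h.kos.mem j
        · simp)
  have hf : ∀ w : Zc I d, f (Submodule.Quotient.mk w) =
      Submodule.Quotient.mk ⟨w.1 ᵥ* fromCols φ (-d), hZ w.1 w.2⟩ := fun _ => rfl
  have hS : ∀ y : κ → R, Sum.elim y 0 ∈ TZ 𝔠 I (cone k φ d)ᵀ := fun y => by
    refine ⟨fun _ => I.zero_mem, ?_⟩
    rw [link2_vm_q']
    rintro (j | i)
    · simpa using link2_vm_mat y h.kos.mem j
    · simp
  let σ : (κ → R) →ₗ[R] TT 𝔠 I (cone k φ d)ᵀ := Submodule.mkQ _ ∘ₗ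
    { toFun := fun y => ⟨Sum.elim y 0, hS y⟩
      map_add' := fun a b => Subtype.ext (funext fun j => by rcases j with j | j <;> simp)
      map_smul' := fun c a => Subtype.ext (funext fun j => by rcases j with j | j <;> simp) }
  have hσ : ∀ y, σ y = Submodule.Quotient.mk ⟨Sum.elim y 0, hS y⟩ := fun _ => rfl
  refine link2_mid f ?_ σ (link2_red J κ) (fun x => ?_) (link2_red_surj J) (fun y => ?_) hU hJ.pi
  · rw [injective_iff_map_eq_zero]
    intro w hw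
    obtain ⟨w, rfl⟩ := Submodule.Quotient.mk_surjective _ w
    rw [hf, TT_zero] at hw
    obtain ⟨z, hz, hz'⟩ := hw
    obtain ⟨y, v, hv⟩ := h.lamC hr (x := Sum.elim (0 : κ → R) w.1 - z) (by
      rw [sub_vecMul, ← hX]; exact hz')
    refine (Submodule.Quotient.mk_eq_zero _).2 ⟨-(v ∘ Sum.inr), fun i => ?_⟩
    have h1 := hv (Sum.inr i)
    rw [link2_vm_q] at h1
    have h2 := I.add_mem (h.le h1) (hz (Sum.inr i))
    convert h2 using 1
    simp [neg_vecMul]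
    ring
  · obtain ⟨x, rfl⟩ := Submodule.Quotient.mk_surjective _ x
    obtain ⟨y, v, hv⟩ := h.lamC hr x.2.2
    have h1 : v ∘ Sum.inr ∈ Zc I d := fun i => by
      have h2 := hv (Sum.inr i)
      rw [link2_vm_q] at h2
      have h3 := I.sub_mem (h.le h2) (x.2.1 i)
      convert h3 using 1
      simp
    refine ⟨y, Submodule.Quotient.mk ⟨_, h1⟩, ?_⟩
    rw [hf, hσ, ← Submodule.Quotient.mk_sub, eq_comm, TT_eq]
    refine ⟨0, fun _ => I.zero_mem, fun j => ?_⟩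
    have h2 := hv j
    rw [link2_vm_q] at h2
    rcases j with j | j
    · have h3 := 𝔠.add_mem h2 (link2_vm_mat (v ∘ Sum.inl) h.kos.mem j)
      convert h3 using 1
      simp [vecMul_fromCols]
      ring
    · convert h2 using 1
      simp [vecMul_fromCols, vecMul_neg]
  · rw [link2_red_zero, ← h.mem_J_iff, hσ]
    constructor
    · rintro ⟨w, hw⟩
      obtain ⟨w, rfl⟩ := Submodule.Quotient.mk_surjective _ w
      rw [hf, eq_comm, TT_eq] at hw
      obtain ⟨z, -, hz⟩ := hw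
      rw [link2_vm_q] at hz
      refine ⟨w.1 + z ∘ Sum.inr, fun j => ?_, fun i => ?_⟩
      · have h3 := 𝔠.add_mem (hz (Sum.inl j)) (link2_vm_mat (z ∘ Sum.inl) h.kos.mem j)
        convert h3 using 1
        simp [vecMul_fromCols, add_vecMul]
        ring
      · convert hz (Sum.inr i) using 1
        simp [vecMul_fromCols, add_vecMul, vecMul_neg]
    · rintro ⟨u, h1, h2⟩
      refine ⟨Submodule.Quotient.mk ⟨u, fun i => h.le (h2 i)⟩, ?_⟩
      rw [hf, eq_comm, TT_eq]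
      refine ⟨0, fun _ => I.zero_mem, ?_⟩
      rintro (j | i)
      · simpa [vecMul_fromCols] using h1 j
      · simpa [vecMul_fromCols, vecMul_neg] using h2 i

theorem LinkData.dp {𝔪 : Ideal R} {n : ℕ} (h : LinkData g 𝔠 I J d hd π e r k hk πK eK π' e' φ)
    {π₂ : ι → R} (hr : Res (cone k φ d) J (Sum.elim π' π₂) (Sum.elim e' 0))
    (hI : Dp 𝔪 n (R ⧸ I)) (hJ : Dp 𝔪 n (R ⧸ J)) (hU : Dp 𝔪 n (Uc I d)) :
    Dp 𝔪 n (Uc J (cone k φ d)) := by
  have hT := h.dpT hr hJ hU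
  have hq := h.q_sq
  have nullW := @LinkData.nullW _ _ _ _ _ _ _ _ _ _ _ _ _ _ _ _ _ _ _ _ _ _ _ h (κ ⊕ ι) _
  have hfl := h.q_flag
  have hS : ∀ y : κ → R, Sum.elim y 0 ∈ TZ 𝔠 I (cone k φ d)ᵀ := fun y => by
    refine ⟨fun _ => I.zero_mem, ?_⟩
    rw [link2_vm_q']
    rintro (j | i)
    · simpa using link2_vm_mat y h.kos.mem j
    · simp
  have t1 : ∀ j, (Sum.elim πK 0 - Sum.elim 0 π ᵥ* (cone k φ d)ᵀ : κ ⊕ ι → R) j ∈ I := by
    rw [link2_vm_q']
    rintro (j | i)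
    · simpa using I.neg_mem (h.aug j)
    · simpa using h.sres.res.pd i
  have t2 : ∀ j, (Sum.elim πK 0 ᵥ* (cone k φ d)ᵀ) j ∈ 𝔠 := (hS πK).2
  have s1 : Sum.elim πK 0 ⬝ᵥ Sum.elim eK (0 : ι → R) - 1 ∈ 𝔠 := by
    simpa [sumElim_dotProduct_sumElim] using h.kos.res.pe
  have s2 : Sum.elim 0 π ⬝ᵥ Sum.elim eK (0 : ι → R) = 0 := by
    simp [sumElim_dotProduct_sumElim]
  have s3 : Sum.elim πK 0 ⬝ᵥ ((cone k φ d)ᵀ *ᵥ Sum.elim eK 0) = 0 := by
    simp [link_q_mulVec, sumElim_dotProduct_sumElim, h.kos.res.de]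
  have s4 : Sum.elim 0 π ⬝ᵥ ((cone k φ d)ᵀ *ᵥ Sum.elim eK 0) - 1 ∈ I := by
    simpa [link_q_mulVec, sumElim_dotProduct_sumElim] using I.neg_mem h.link_aug
  have p1 : ∀ j, ((cone k φ d)ᵀ *ᵥ Sum.elim π' π₂) j ∈ J := by
    rw [mulVec_transpose]; exact hr.pd
  have hcq : cone k φ d = (cone k φ d)ᵀᵀ := rfl
  have hle := h.le
  generalize Sum.elim π' π₂ = πC at hr p1
  generalize Sum.elim e' (0 : ι → R) = eC at hr
  generalize Sum.elim πK (0 : ι → R) = p₁ at nullW t1 t2 s1 s3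
  generalize Sum.elim (0 : κ → R) π = p₂ at nullW t1 s2 s4
  generalize Sum.elim eK (0 : ι → R) = s at s1 s2 s3 s4
  rw [hcq] at hr ⊢
  generalize (cone k φ d)ᵀ = q at *
  obtain ⟨θ₀, hθ₀⟩ : ∃ θ₀, θ₀ = p₁ - p₂ ᵥ* q := ⟨_, rfl⟩
  rw [← hθ₀] at t1
  have t3 : ∀ j, (θ₀ ᵥ* q) j ∈ 𝔠 := by
    rw [hθ₀, sub_vecMul, vecMul_vecMul, hq, vecMul_zero, sub_zero]
    exact t2
  let E : Submodule R (Matrix (κ ⊕ ι) (κ ⊕ ι) R) :=
    { carrier := {Y | q * Y = Y * q}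
      add_mem' := fun {A B} hA hB => by
        have hA' : q * A = A * q := hA
        have hB' : q * B = B * q := hB
        show q * (A + B) = (A + B) * q
        rw [Matrix.mul_add, Matrix.add_mul, hA', hB']
      zero_mem' := by
        show q * 0 = 0 * q
        rw [Matrix.mul_zero, Matrix.zero_mul]
      smul_mem' := fun c A hA => by
        have hA' : q * A = A * q := hA
        show q * (c • A) = (c • A) * q
        rw [Matrix.mul_smul, Matrix.smul_mul, hA'] }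
  have hE : ∀ Y : E, q * Y.1 = Y.1 * q := fun Y => Y.2
  have z1 : ∀ Y : E, Y.1 *ᵥ πC ∈ Zc J qᵀ := fun Y j => by
    rw [vecMul_transpose, mulVec_mulVec, hE, ← mulVec_mulVec]
    exact link2_mv_vec _ p1 j
  have z2 : ∀ Y : E, θ₀ ᵥ* Y.1 ∈ TZ 𝔠 I q := fun Y => ⟨fun i => link2_vm_vec t1 _ _, fun j => by
    rw [vecMul_vecMul, ← hE, ← vecMul_vecMul]
    exact link2_vm_vec t3 _ j⟩
  let p : E →ₗ[R] Uc J qᵀ := Submodule.mkQ _ ∘ₗ
    { toFun := fun Y => ⟨Y.1 *ᵥ πC, z1 Y⟩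
      map_add' := fun A B => Subtype.ext (add_mulVec _ _ _)
      map_smul' := fun c A => Subtype.ext (smul_mulVec _ _ _) }
  have hp : ∀ Y : E, p Y = Submodule.Quotient.mk ⟨Y.1 *ᵥ πC, z1 Y⟩ := fun _ => rfl
  let θ : E →ₗ[R] TT 𝔠 I q := Submodule.mkQ _ ∘ₗ
    { toFun := fun Y => ⟨θ₀ ᵥ* Y.1, z2 Y⟩
      map_add' := fun A B => Subtype.ext (vecMul_add _ _ _)
      map_smul' := fun c A => Subtype.ext (vecMul_smul _ _ _) }
  have hθ : ∀ Y : E, θ Y = Submodule.Quotient.mk ⟨θ₀ ᵥ* Y.1, z2 Y⟩ := fun _ => rfl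
  let γ : TT 𝔠 I q →ₗ[R] (κ → R ⧸ I) := Submodule.liftQ _
    (link2_red I κ ∘ₗ LinearMap.funLeft R R Sum.inl ∘ₗ (TZ 𝔠 I q).subtype) (by
      rintro x ⟨z, hz, hz'⟩
      refine link2_red_zero.2 fun j => ?_
      simpa using I.add_mem (hle (hz' (Sum.inl j))) (link2_vm_vec hz q (Sum.inl j)))
  have hγ : ∀ x : TZ 𝔠 I q, γ (Submodule.Quotient.mk x) = link2_red I κ (x.1 ∘ Sum.inl) :=
    fun _ => rfl
  have hqq : qᵀ * qᵀ = 0 := by rw [← transpose_mul, hq, transpose_zero]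
  have n1 : ∀ Y : E, p Y = 0 ↔ ∃ ρ, Y.1 = q * ρ + ρ * q := fun Y => by
    rw [hp, Submodule.Quotient.mk_eq_zero]
    constructor
    · rintro ⟨u, hu⟩
      obtain ⟨ρ, hρ⟩ := hr.null hfl.transpose hqq (M := Y.1ᵀ) (w := u)
        (by rw [← transpose_mul, ← hE, transpose_mul]) (by rw [vecMul_transpose]; exact hu)
      refine ⟨ρᵀ, ?_⟩
      have := congrArg transpose hρ
      rwa [transpose_transpose, transpose_add, transpose_mul, transpose_mul, transpose_transpose,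
        add_comm] at this
    · rintro ⟨ρ, hρ⟩
      refine ⟨ρ *ᵥ πC, fun j => ?_⟩
      change (Y.1 *ᵥ πC - _) j ∈ J
      rw [vecMul_transpose, hρ, add_mulVec, mulVec_mulVec, add_sub_cancel_left, ← mulVec_mulVec]
      exact link2_mv_vec _ p1 j
  have n2 : ∀ Y : E, θ Y = 0 ↔ ∃ ρ, Y.1 = q * ρ + ρ * q := fun Y => by
    rw [hθ, TT_zero]
    constructor
    · rintro ⟨z, hz, hz'⟩
      replace hz' : ∀ j, (θ₀ ᵥ* Y.1 - z ᵥ* q) j ∈ 𝔠 := hz'
      obtain ⟨y, hy⟩ : ∃ y, y = p₂ ᵥ* Y.1 + z := ⟨_, rfl⟩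
      obtain ⟨ρ, -, -, hρ⟩ := nullW hfl hq
        (χ := Y.1 - (q * vecMulVec s y + vecMulVec s y * q)) (fun j => by
          have h1 := 𝔠.sub_mem (hz' j) (𝔠.mul_mem_right ((y ᵥ* q) j) s1)
          convert h1 using 1
          rw [vecMul_sub, vecMul_add, mul_vecMulVec, vecMulVec_mul, vecMul_vecMulVec,
            vecMul_vecMulVec, s3, hθ₀, sub_vecMul, vecMul_vecMul, hE, ← vecMul_vecMul, hy,
            add_vecMul]
          simp only [Pi.sub_apply, Pi.add_apply, Pi.smul_apply, smul_eq_mul]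
          ring) (fun j => by
          have h1 := I.neg_mem (I.add_mem (hz j) (I.mul_mem_right (y j) s4))
          convert h1 using 1
          rw [vecMul_sub, vecMul_add, mul_vecMulVec, vecMulVec_mul, vecMul_vecMulVec,
            vecMul_vecMulVec, s2, hy]
          simp only [Pi.sub_apply, Pi.add_apply, Pi.smul_apply, smul_eq_mul]
          ring) (by
          rw [Matrix.mul_sub, Matrix.sub_mul, hE, Matrix.mul_add, Matrix.add_mul,
            ← Matrix.mul_assoc, hq, Matrix.zero_mul, zero_add, Matrix.mul_assoc _ q q, hq,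
            Matrix.mul_zero, add_zero, Matrix.mul_assoc])
      refine ⟨ρ + vecMulVec s y, ?_⟩
      rw [Matrix.mul_add, Matrix.add_mul, sub_eq_iff_eq_add.1 hρ]
      abel
    · rintro ⟨ρ, hρ⟩
      refine ⟨θ₀ ᵥ* ρ, link2_vm_vec t1 _, fun j => ?_⟩
      change (θ₀ ᵥ* Y.1 - _) j ∈ 𝔠
      rw [hρ, vecMul_add, vecMul_vecMul, add_sub_cancel_right, ← vecMul_vecMul]
      exact link2_vm_vec t3 _ j
  refine link2_left p (fun x => ?_) θ (fun Y => (n1 Y).trans (n2 Y).symm) γ (fun y => ?_)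
    (fun x => ?_) hT hI.pi
  · obtain ⟨x, rfl⟩ := Submodule.Quotient.mk_surjective _ x
    obtain ⟨M, hM, hM'⟩ := hr.lift hfl.transpose hqq x.2
    have hM2 : q * Mᵀ = Mᵀ * q := by
      have := congrArg transpose hM
      rw [transpose_mul, transpose_mul, transpose_transpose] at this
      exact this.symm
    refine ⟨⟨Mᵀ, hM2⟩, ?_⟩
    rw [hp, Submodule.Quotient.eq]
    refine ⟨0, fun j => ?_⟩
    change (Mᵀ *ᵥ πC - x.1 - _) j ∈ J
    rw [zero_vecMul, sub_zero, mulVec_transpose]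
    exact hM' j
  · obtain ⟨y, rfl⟩ := link2_red_surj I y
    exact ⟨Submodule.Quotient.mk ⟨_, hS y⟩, rfl⟩
  · obtain ⟨x, rfl⟩ := Submodule.Quotient.mk_surjective _ x
    rw [hγ, link2_red_zero]
    constructor
    · intro hx
      have hx' : ∀ j, x.1 j ∈ I := by
        rintro (j | i)
        · exact hx j
        · exact x.2.1 i
      obtain ⟨ρ, r1, r2, hρ⟩ := nullW hfl.neg (by rw [neg_mul_neg, hq])
        (χ := q * vecMulVec s x.1 - vecMulVec s x.1 * q) (fun j => by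
          rw [vecMul_sub, mul_vecMulVec, vecMulVec_mul, vecMul_vecMulVec, vecMul_vecMulVec, s3,
            zero_smul, zero_sub]
          exact 𝔠.neg_mem (𝔠.mul_mem_left _ (x.2.2 j))) (fun j => by
          rw [vecMul_sub, mul_vecMulVec, vecMulVec_mul, vecMul_vecMulVec, vecMul_vecMulVec, s2,
            zero_smul, sub_zero]
          exact I.mul_mem_left _ (hx' j)) (by
          rw [Matrix.mul_sub, ← Matrix.mul_assoc, hq, Matrix.zero_mul, zero_sub, Matrix.mul_neg,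
            Matrix.sub_mul, Matrix.mul_assoc _ q q, hq, Matrix.mul_zero, sub_zero,
            Matrix.mul_assoc])
      have hM : q * (vecMulVec s x.1 - ρ) = (vecMulVec s x.1 - ρ) * q := by
        rw [Matrix.mul_sub, Matrix.sub_mul, sub_eq_iff_eq_add.1 hρ, Matrix.mul_neg]
        abel
      refine ⟨⟨_, hM⟩, ?_⟩
      rw [hθ, TT_eq]
      refine ⟨p₂ ᵥ* ρ, r2, fun j => ?_⟩
      have h1 := 𝔠.sub_mem (𝔠.mul_mem_right (x.1 j) s1) (r1 j)
      convert h1 using 1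
      change (θ₀ ᵥ* (vecMulVec s x.1 - ρ) - x.1 - _) j = _
      rw [hθ₀, sub_vecMul, vecMul_vecMul, hM, ← vecMul_vecMul, vecMul_sub, vecMul_sub,
        vecMul_vecMulVec, vecMul_vecMulVec, s2, zero_smul, zero_sub, neg_vecMul]
      simp only [Pi.sub_apply, Pi.neg_apply, Pi.smul_apply, smul_eq_mul]
      ring
    · rintro ⟨Y, hY⟩ j
      rw [hθ, TT_eq] at hY
      obtain ⟨z, hz, hz'⟩ := hY
      have h1 := I.sub_mem (I.sub_mem (link2_vm_vec t1 Y.1 (Sum.inl j))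
        (link2_vm_vec hz q (Sum.inl j))) (hle (hz' (Sum.inl j)))
      convert h1 using 1
      simp

theorem dp_ofList [IsNoetherianRing R] {f : List R} (hf : RingTheory.Sequence.IsRegular R f) :
    Dp (Ideal.ofList f) f.length R := by
  intro Y hY ht i hi
  refine ModuleCat.subsingleton_ext_of_exists_isRegular (Ideal.ofList f) Y ?_ (ModuleCat.of R R)
    (lt_top_iff_ne_top.2 hf.top_ne_smul.symm) f (fun r hr => Ideal.subset_span hr) hf i hi
  rw [Module.support_eq_zeroLocus, PrimeSpectrum.zeroLocus_subset_zeroLocus_iff]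
  intro a ha
  obtain ⟨r, hr⟩ := ht a ha
  exact ⟨r, Module.mem_annihilator.2 hr⟩

theorem good_link [IsNoetherianRing R] {𝔪 : Ideal R} {N : ℕ} (hR : Dp 𝔪 N R)
    (hI : Good 𝔪 g (N - g) I) (hl : Linked g I J) : Good 𝔪 g (N - g) J := by
  obtain ⟨ι, _, _, d, hd, π, e, r, hs, hU⟩ := hI
  obtain ⟨f, rfl, hf, hle, hJ⟩ := hl
  obtain ⟨κ, _, _, k, hk, πK, eK, π', e', hK⟩ := exists_kos hf.toIsWeaklyRegular
  obtain ⟨φ, h1, h2, h3⟩ := hs.res.lift_gr hs.gr hK.gr hK.res.dd hs.supp hK.supp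
    (fun j => hle (hK.res.pd j))
  have h : LinkData f.length (Ideal.ofList f) I J d hd π e r k hk πK eK π' e' φ :=
    ⟨hs, hK, h1, h2, h3, hle, fun j => by rw [hJ]; exact Submodule.mem_colon, dp_ofList hf⟩
  obtain ⟨π₂, r', hs'⟩ := h.sres'
  exact ⟨κ ⊕ ι, inferInstance, inferInstance, cone k φ d, _, _, _, r', hs',
    h.dp hs'.res (hs.dp hR) (hs'.dp hR) hU⟩

theorem Licci.good [IsNoetherianRing R] {𝔪 : Ideal R} {N : ℕ} (hR : Dp 𝔪 N R) (h : Licci g I) :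
    Good 𝔪 g (N - g) I := by
  obtain ⟨f, hlen, hf, hc⟩ := h
  induction hc with
  | refl => exact hlen ▸ good_ci hR hf.toIsWeaklyRegular
  | tail _ hl ih => exact good_link hR ih hl

end Pool.Agent.Lib.MP_e9c0f3_ag
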