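import Pool.Agent.Lib.MP_e9c0f3_ag.Glob2

/-! Sequences of approximate matrix factorisations of a fixed type. -/

open MvPolynomial Matrix

namespace Pool.Agent.Lib.MP_e9c0f3_ag

variable {A : Type} [CommRing A] [Algebra ℂ A] {N : ℕ}

/-- `γ n` is the Chern form of a factorisation to order `n`, of a type independent of `n`. -/
def SeqCh (s : A →ₐ[ℂ] ℂ) (d : ℕ) (F : Pol N A) (γ : ℕ → Pol N A) : Prop :=
  ∃ (ι : Type) (_ : Fintype ι) (_ : DecidableEq ι) (par : ι → ℕ) (wt : ι → ℤ), ∀ n,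
    ∃ δ : Matrix ι ι (Pol N A), (∀ i j, δ i j ≠ 0 → Odd (par i + par j)) ∧
      (∀ i j m, coeff m (δ i j) ≠ 0 → 2 * (m.degree : ℤ) + wt i = d + wt j) ∧
      (∀ i j, (δ * δ - scalar ι F) i j ∈ CI N s n) ∧ γ n = ch par δ

variable {s : A →ₐ[ℂ] ℂ} {d : ℕ} {F : Pol N A}

theorem SeqCh.zero : SeqCh s d F 0 :=
  ⟨Empty, inferInstance, inferInstance, Empty.elim, Empty.elim, fun _ =>
    ⟨0, fun i => i.elim, fun i => i.elim, fun i => i.elim, by simp [ch]⟩⟩

theorem SeqCh.neg {γ : ℕ → Pol N A} (h : SeqCh s d F γ) : SeqCh s d F (-γ) := by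
  obtain ⟨ι, _, _, par, wt, h⟩ := h
  refine ⟨ι, inferInstance, inferInstance, fun i => par i + 1, wt, fun n => ?_⟩
  obtain ⟨δ, h1, h2, h3, h4⟩ := h n
  refine ⟨δ, fun i j hij => ?_, h2, h3, by rw [ch_succ, ← h4]; rfl⟩
  have := h1 i j hij
  rw [Nat.odd_iff] at this ⊢
  dsimp only
  omega

theorem SeqCh.add {γ γ' : ℕ → Pol N A} (h : SeqCh s d F γ) (h' : SeqCh s d F γ') :
    SeqCh s d F (γ + γ') := by
  obtain ⟨ι, _, _, par, wt, h⟩ := h
  obtain ⟨κ, _, _, par', wt', h'⟩ := h'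
  refine ⟨ι ⊕ κ, inferInstance, inferInstance, Sum.elim par par', Sum.elim wt wt', fun n => ?_⟩
  obtain ⟨δ, h1, h2, h3, h4⟩ := h n
  obtain ⟨δ', h1', h2', h3', h4'⟩ := h' n
  refine ⟨fromBlocks δ 0 0 δ', ?_, ?_, ?_, by rw [ch_fromBlocks, ← h4, ← h4']; rfl⟩
  · rintro (i | i) (j | j) hij
    · exact h1 i j hij
    · exact (hij rfl).elim
    · exact (hij rfl).elim
    · exact h1' i j hij
  · rintro (i | i) (j | j) m hij
    · exact h2 i j m hij
    · exact (hij rfl).elim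
    · exact (hij rfl).elim
    · exact h2' i j m hij
  · rw [fromBlocks_multiply]
    rintro (i | i) (j | j)
    · simpa [diagonal_apply] using h3 i j
    · simp
    · simp
    · simpa [diagonal_apply] using h3' i j

theorem SeqCh.zsmul {γ : ℕ → Pol N A} (h : SeqCh s d F γ) (c : ℤ) : SeqCh s d F (c • γ) := by
  induction c using Int.induction_on with
  | zero => rw [zero_smul]; exact SeqCh.zero
  | succ n ih => rw [add_smul, one_smul]; exact ih.add h
  | pred n ih => rw [sub_smul, one_smul, sub_eq_add_neg]; exact ih.add h.neg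

theorem SeqCh.sum {α : Type} (t : Finset α) {γ : α → ℕ → Pol N A}
    (h : ∀ a ∈ t, SeqCh s d F (γ a)) : SeqCh s d F (∑ a ∈ t, γ a) :=
  Finset.sum_induction γ _ (fun _ _ => SeqCh.add) SeqCh.zero h

theorem SeqCh.generic [IsDomain A] [IsNoetherianRing A] {γ : ℕ → Pol N A} (h : SeqCh s d F γ)
    {β : Pol N A} {e : ℕ} (hu : ∀ n, ∃ u : Fin N → Pol N A, (∀ i, u i ∈ lt N A e) ∧
      β - γ n - dtw F u ∈ CI N s n) :
    ∃ (L : Type) (_ : Field L) (f : A →+* L), Function.Injective f ∧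
      IsChern d (map f F) (map f β) := by
  obtain ⟨ι, _, _, par, wt, h⟩ := h
  refine exists_generic s (e := e) (par := par) (wt := wt) fun n => ?_
  obtain ⟨δ, h1, h2, h3, h4⟩ := h n
  obtain ⟨u, h5, h6⟩ := hu n
  exact ⟨δ, u, h1, h2, h3, h5, h4 ▸ h6⟩

end Pool.Agent.Lib.MP_e9c0f3_ag
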