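import Pool.Agent.Lib.MP_e9c0f3_ag.Lift
import Pool.Agent.Lib.MP_e9c0f3_ag.Seq

/-! Simultaneous lifting of several matrix factorisations. -/

open MvPolynomial Matrix

namespace Pool.Agent.Lib.MP_e9c0f3_ag

variable {A : Type} [CommRing A] [Algebra ℂ A] {N m : ℕ} {ι : Fin m → Type}
  [∀ a, Fintype (ι a)] [∀ a, DecidableEq (ι a)]

/-- The hypotheses at the point `s`. -/
structure Start (k d : ℕ) (s : A →ₐ[ℂ] ℂ) (E : Derivation ℂ A A) (F β : Pol N A) (c : Fin m → ℤ)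
    (par : ∀ a, ι a → ℕ) (wt : ∀ a, ι a → ℤ) (δ₀ : ∀ a, Matrix (ι a) (ι a) (Pol N ℂ)) : Prop where
  hN : N = 2 * (k + 1)
  hd : 2 ≤ d
  hF : F.IsHomogeneous d
  reg : RegAll fun i => pderiv i (map (s : A →+* ℂ) F)
  euler : Euler s E
  deg : β ∈ lt N A ((k + 1) * (d - 2) + 1)
  flat : Exact F (cmap (E : A →+ A) β + cmap (E : A →+ A) F * β)
  blk : ∀ a, Blk k d s F (par a) (wt a) (δ₀ a)
  ne : ∀ a, c a ≠ 0
  ind : ∀ Q : Fin m → Pol N ℂ, (∀ a, (Q a).IsHomogeneous d) →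
    ∑ a, Q a * ch (par a) (δ₀ a) ∈ jac (map (s : A →+* ℂ) F) →
      ∀ a, Q a * ch (par a) (δ₀ a) ∈ jac (map (s : A →+* ℂ) F)
  zero : Exact (map (s : A →+* ℂ) F) (map (s : A →+* ℂ) β - ∑ a, c a • ch (par a) (δ₀ a))

theorem dtw_sum_zsmul {R : Type} [CommRing R] (F : Pol N R) (c : Fin m → ℤ)
    (h : Fin m → Fin N → Pol N R) : dtw F (∑ a, c a • h a) = ∑ a, c a • dtw F (h a) := by
  let D : (Fin N → Pol N R) →+ Pol N R := AddMonoidHom.mk' (dtw F) (dtw_add F)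
  change D _ = ∑ a, c a • D (h a)
  simp only [map_sum, map_zsmul]

variable [IsNoetherianRing A] {k d : ℕ} {s : A →ₐ[ℂ] ℂ} {E : Derivation ℂ A A} {F β : Pol N A}
  {c : Fin m → ℤ} {par : ∀ a, ι a → ℕ} {wt : ∀ a, ι a → ℤ}
  {δ₀ : ∀ a, Matrix (ι a) (ι a) (Pol N ℂ)}

/-- The Hodge condition controls the scalar obstructions. -/
theorem Start.hodge (h : Start k d s E F β c par wt δ₀) {n : ℕ} {Q : Fin m → Pol N A}
    (hQ : ∀ a, Q a ∈ CI N s (n + 1)) (hQd : ∀ a, (Q a).IsHomogeneous d)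
    {δ : ∀ a, Matrix (ι a) (ι a) (Pol N A)}
    (hδ : ∀ a, Ord d s (F + Q a) (par a) (wt a) (δ₀ a) (n + 2) (δ a)) :
    (∃ u : Fin N → Pol N A, (∀ i, u i ∈ lt N A (k * (d - 2))) ∧
      β - ∑ a, c a • ch (par a) (δ a) - dtw F u ∈ CI N s (n + 1)) ∧
    ∀ a φ, Level s (n + 1) φ → cmap φ (Q a) * ch (par a) (δ₀ a) ∈ jac (map (s : A →+* ℂ) F) := by
  have hd := h.hd
  choose η hη using fun a => (h.blk a).conn h.euler (hQ a) (hδ a)
  obtain ⟨v, hv⟩ := exact_iff.1 h.flat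
  have hdeg : k * (d - 2) + (d - 1) = (k + 1) * (d - 2) + 1 := by
    obtain ⟨e, rfl⟩ := Nat.exists_eq_add_of_le hd
    have e1 : 2 + e - 2 = e := by omega
    have e2 : 2 + e - 1 = e + 1 := by omega
    rw [e1, e2]
    ring
  have hγ : β - ∑ a, c a • ch (par a) (δ a) ∈ lt N A (k * (d - 2) + (d - 1)) := by
    rw [hdeg]
    exact sub_mem h.deg (sum_mem fun a _ => zsmul_mem (mem_lt_of_isHomogeneous
      (lift_ch_hom h.hN h.hd (hδ a).hom) (Nat.lt_succ_self _)) _)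
  have hred : ∀ a, map (s : A →+* ℂ) (ch (par a) (δ a)) = ch (par a) (δ₀ a) := fun a => by
    rw [map_ch, (hδ a).red]
  have h0 : Exact (map (s : A →+* ℂ) F)
      (map (s : A →+* ℂ) (β - ∑ a, c a • ch (par a) (δ a))) := by
    simp only [map_sub, map_sum, map_zsmul, hred]
    exact h.zero
  have hτ : ∑ a, c a • (ch (par a) (δ a) * Q a) ∈ CI N s (n + 1) :=
    sum_mem fun a _ => zsmul_mem (Ideal.mul_mem_left _ _ (hQ a)) _
  have hu : cmap (E : A →+ A) (β - ∑ a, c a • ch (par a) (δ a)) +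
      cmap (E : A →+ A) F * (β - ∑ a, c a • ch (par a) (δ a)) - dtw F (v - ∑ a, c a • η a) -
      ((n + 1 : ℕ) : Pol N A) * ∑ a, c a • (ch (par a) (δ a) * Q a) ∈ CI N s (n + 2) := by
    have h4 := neg_mem (sum_mem (t := Finset.univ) fun a _ => zsmul_mem (hη a) (c a))
    convert h4 using 1
    rw [dtw_sub, ← hv, dtw_sum_zsmul, map_sub, map_sum]
    simp only [map_zsmul, smul_add, smul_sub, Finset.sum_add_distrib, Finset.sum_sub_distrib,
      mul_sub, Finset.mul_sum, mul_smul_comm]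
    ring
  obtain ⟨u, hu1, hu2, hu3⟩ := flat_vanish h.hd h.hF h.reg h.euler hγ h0 hτ hu
  refine ⟨⟨u, hu1, hu2⟩, fun a φ hφ => ?_⟩
  have h5 := hu3 φ hφ
  have h6 : cmap φ (∑ a, c a • (ch (par a) (δ a) * Q a)) =
      ∑ a, ((c a : ℂ) • cmap φ (Q a)) * ch (par a) (δ₀ a) := by
    rw [map_sum]
    refine Finset.sum_congr rfl fun a _ => ?_
    rw [map_zsmul, hφ.cmap_mul _ (hQ a), hred, Int.cast_smul_eq_zsmul, smul_mul_assoc, mul_comm]
  have h7 : ∀ a, ((c a : ℂ) • cmap φ (Q a)).IsHomogeneous d := fun a =>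
    (homogeneousSubmodule _ _ d).smul_mem _ (cmap_isHomogeneous φ (hQd a))
  rw [h6] at h5
  have h8 := h.ind _ h7 (tw_top h.hd (h.hF.map _) h.reg (n := (k + 1) * (d - 2) + 1)
    (IsHomogeneous.sum _ _ _ fun a _ => by
      have := (h7 a).mul ((h.blk a).mf.ch_isHomogeneous h.hN h.hd)
      convert this using 1
      omega)
    (lt_mono (by omega) (cmap_mem_lt φ (sub_mem hγ (dtw_mem_lt h.hF hu1)))) h5) a
  have h9 := Ideal.mul_mem_left _ (C (c a : ℂ)⁻¹) h8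
  rwa [smul_eq_C_mul, mul_assoc, ← mul_assoc (C _), ← C_mul,
    inv_mul_cancel₀ (Int.cast_ne_zero.2 (h.ne a)), C_1, one_mul] at h9

theorem Start.lift (h : Start k d s E F β c par wt δ₀) (n : ℕ) :
    ∃ (δ : ∀ a, Matrix (ι a) (ι a) (Pol N A)) (u : Fin N → Pol N A),
      (∀ a, Ord d s F (par a) (wt a) (δ₀ a) n (δ a)) ∧ (∀ i, u i ∈ lt N A (k * (d - 2))) ∧
        β - ∑ a, c a • ch (par a) (δ a) - dtw F u ∈ CI N s n := by
  have H : ∀ l, ∃ δ : ∀ a, Matrix (ι a) (ι a) (Pol N A),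
      ∀ a, Ord d s F (par a) (wt a) (δ₀ a) (l + 1) (δ a) := by
    intro l
    induction l with
    | zero =>
      choose δ hδ using fun a => (h.blk a).ord_one
      exact ⟨δ, hδ⟩
    | succ l ih =>
      obtain ⟨δ, hδ⟩ := ih
      choose Q δ' hQ hQd hδ' using fun a => (h.blk a).scalar_obs (hδ a)
      choose δ'' hδ'' using fun a =>
        (h.blk a).kill (hQ a) (hQd a) (hδ' a) ((h.hodge hQ hQd hδ').2 a)
      exact ⟨δ'', hδ''⟩
  obtain ⟨δ, hδ⟩ := H (n + 1)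
  obtain ⟨u, hu1, hu2⟩ := (h.hodge (Q := fun _ => 0) (fun _ => zero_mem _)
    (fun _ => isHomogeneous_zero _ _ _) (δ := δ) fun a => by rw [add_zero]; exact hδ a).1
  exact ⟨δ, u, fun a => (hδ a).lift_mono (by omega), hu1, CI_mono (Nat.le_succ _) hu2⟩

theorem Start.generic [IsDomain A] (h : Start k d s E F β c par wt δ₀) :
    ∃ (L : Type) (_ : Field L) (f : A →+* L), Function.Injective f ∧
      IsChern d (map f F) (map f β) := by
  choose δ u h1 h2 h3 using h.lift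
  have h4 : SeqCh s d F (∑ a, c a • fun n => ch (par a) (δ n a)) :=
    SeqCh.sum _ fun a _ => SeqCh.zsmul ⟨ι a, inferInstance, inferInstance, par a, wt a, fun n =>
      ⟨δ n a, (isHom_gam_iff.1 (h1 n a).hom).1, (isHom_gam_iff.1 (h1 n a).hom).2, (h1 n a).sq,
        rfl⟩⟩ _
  refine h4.generic fun n => ⟨u n, h2 n, ?_⟩
  simpa [Finset.sum_apply] using h3 n

end Pool.Agent.Lib.MP_e9c0f3_ag
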