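import Pool.Agent.Lib.MP_e9c0f3_ag.Spec
import Pool.Agent.Lib.MP_e9c0f3_ag.Free2

/-! The syzygy steps. -/

open MvPolynomial Matrix

namespace Pool.Agent.Lib.MP_e9c0f3_ag

variable {O L : Type} [CommRing O] [Field L] [Algebra O L] {N : ℕ} {ι α : Type} [Fintype ι]
  [DecidableEq ι] [Fintype α] [DecidableEq α]

variable {d : ℕ} {F : Pol N O} {γ : ι → GG} {δ : Matrix ι ι (Pol N L)} {g : α → GG}
  {Y : Matrix ι α (Pol N L)}

theorem spec2_map_mulVec {R S : Type} [CommRing R] [CommRing S] (f : R →+* S) {β μ : Type}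
    [Fintype μ] (z : Matrix β μ R) (v : μ → R) :
    z.map f *ᵥ (fun i => f (v i)) = fun i => f ((z *ᵥ v) i) := by
  funext i
  simp [Matrix.mulVec, dotProduct, map_sum]

theorem spec2_map_triv {R S : Type} [CommRing R] [CommRing S] (f : R →+* S) (G : R) :
    (triv α G).map f = triv α (f G) := by
  ext (i | i) (j | j)
  · simp [triv]
  · by_cases h : i = j <;> simp [triv, Matrix.diagonal_apply, h]
  · by_cases h : i = j <;> simp [triv, Matrix.one_apply, h]
  · simp [triv]

theorem spec2_map_scalar {R S : Type} [CommRing R] [CommRing S] (f : R →+* S) (G : R) :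
    (scalar α G).map f = scalar α (f G) := by
  ext i j
  by_cases h : i = j <;> simp [Matrix.diagonal_apply, h]

theorem spec2_eq_zero {R β μ : Type} [CommRing R] [Fintype μ] [DecidableEq μ]
    {M : Matrix β μ R} (h : ∀ v, M *ᵥ v = 0) : M = 0 := by
  ext i j
  have := congrFun (h (Pi.single j 1)) i
  simpa using this

theorem spec2_mem {v : α ⊕ α → Pol N O} : v ∈ latKer O δ Y ↔
    fromCols Y (δ * Y) *ᵥ (fun i => map (algebraMap O L) (v i)) = 0 := Iff.rfl

theorem spec2_surj (h : Lat d (map (algebraMap O L) F) γ δ g Y) (v : ι → Pol N L) :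
    ∃ u, fromCols Y (δ * Y) *ᵥ u = v := by
  obtain ⟨u, hu⟩ := h.surj v
  refine ⟨Sum.elim u 0, ?_⟩
  rw [fromCols_mulVec_sumElim, hu, mulVec_zero, add_zero]

theorem spec2_ses [CharZero L] (hN : Even N) (hN2 : 2 ≤ N) (hF : F.IsHomogeneous d)
    (h : Lat d (map (algebraMap O L) F) γ δ g Y) {μ : Type} [Fintype μ] [DecidableEq μ]
    {g' : μ → GG} {z : Matrix (α ⊕ α) μ (Pol N L)} (hz : IsHom xi (dbl d g) g' 0 z)
    (hi : ∀ v, z *ᵥ v = 0 → v = 0) (h0 : ∀ v, fromCols Y (δ * Y) *ᵥ (z *ᵥ v) = 0)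
    (hex : ∀ u, fromCols Y (δ * Y) *ᵥ u = 0 → ∃ v, z *ᵥ v = u) {δ' : Matrix μ μ (Pol N L)}
    (hδ' : IsHom xi g' g' (gd d) δ') (hsq : δ' * δ' = scalar μ (map (algebraMap O L) F))
    (hT : triv α (map (algebraMap O L) F) * z = z * δ') :
    Exact (map (algebraMap O L) F) (ch (parOf γ) δ + ch (parOf g') δ') := by
  have hFL : (map (algebraMap O L) F).IsHomogeneous d := hF.map _
  have key := ch_ses (R := L) hN hN2 (pE := parOf γ) (pP := parOf (dbl d g)) (pZ := parOf g')
    (IsHom.oddM (w := d) h.hom) (IsHom.oddM (w := d) (isHom_triv hFL g))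
    (IsHom.oddM (w := d) hδ') h.sq (triv_sq _) hsq
    (IsHom.evenM (w := 0) h.isHom_cols) (IsHom.evenM (w := 0) hz) h.mul_cols hT
    (spec2_eq_zero fun v => by rw [← mulVec_mulVec]; exact h0 v) (spec2_surj h) hi hex
  rwa [ch_triv hN2, sub_zero] at key

variable [IsDomain O] [IsFractionRing O L]

theorem spec2_denom {μ : Type} [Finite μ] (v : μ → Pol N L) :
    ∃ c : L, c ≠ 0 ∧ ∃ u : μ → Pol N O,
      (fun i => map (algebraMap O L) (u i)) = (C c : Pol N L) • v := by
  obtain ⟨c, hc, u, hu⟩ := exists_denom (O := O) v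
  refine ⟨algebraMap O L c, ?_, u, ?_⟩
  · exact fun h0 => hc (IsFractionRing.injective O L (by rw [h0, map_zero]))
  · funext i
    rw [hu i]
    rfl

theorem spec2_cancel {μ : Type} {c : L} (hc : c ≠ 0) (v : μ → Pol N L) :
    (C c⁻¹ : Pol N L) • (C c : Pol N L) • v = v := by
  rw [smul_smul, ← C_mul, inv_mul_cancel₀ hc, C_1, one_smul]

theorem spec2_inj : Function.Injective (map (algebraMap O L) : Pol N O → Pol N L) :=
  map_injective _ (IsFractionRing.injective O L)

theorem spec2_reg {j : ℕ} (hj : Reg N O j ((α ⊕ α → Pol N O) ⧸ latKer O δ Y)) :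
    Reg N O (j + 1) (latKer O δ Y) :=
  Reg.equiv (LinearEquiv.ofEq _ _ (Submodule.ker_mkQ (latKer O δ Y)).symm)
    (Reg.ker (Submodule.mkQ_surjective (latKer O δ Y)) hj Reg.free)

theorem spec2_lift {μ : Type} [Fintype μ] {z : Matrix (α ⊕ α) μ (Pol N O)}
    (hr : LinearMap.range z.mulVecLin = latKer O δ Y) (u : α ⊕ α → Pol N L)
    (hu : fromCols Y (δ * Y) *ᵥ u = 0) : ∃ v, z.map (map (algebraMap O L)) *ᵥ v = u := by
  obtain ⟨c, hc, w, hw⟩ := spec2_denom (O := O) u
  have hmem : w ∈ latKer O δ Y := by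
    rw [spec2_mem, hw, mulVec_smul, hu, smul_zero]
  rw [← hr] at hmem
  obtain ⟨v, hv⟩ := hmem
  rw [mulVecLin_apply] at hv
  refine ⟨(C c⁻¹ : Pol N L) • fun i => map (algebraMap O L) (v i), ?_⟩
  rw [mulVec_smul, spec2_map_mulVec, hv, hw, spec2_cancel hc]

theorem spec2_comp {μ : Type} [Fintype μ] {z : Matrix (α ⊕ α) μ (Pol N O)}
    (hr : LinearMap.range z.mulVecLin = latKer O δ Y) (v : μ → Pol N L) :
    fromCols Y (δ * Y) *ᵥ (z.map (map (algebraMap O L)) *ᵥ v) = 0 := by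
  obtain ⟨c, hc, w, hw⟩ := spec2_denom (O := O) v
  have hmem : z *ᵥ w ∈ latKer O δ Y := by
    rw [← hr]
    exact ⟨w, rfl⟩
  rw [spec2_mem, ← spec2_map_mulVec, hw, mulVec_smul, mulVec_smul] at hmem
  rw [← spec2_cancel hc (fromCols Y (δ * Y) *ᵥ _), hmem, smul_zero]

variable [ValuationRing O] [CharZero L]

theorem Lat.step (hN : Even N) (hN2 : 2 ≤ N) (hF : F.IsHomogeneous d)
    (h : Lat d (map (algebraMap O L) F) γ δ g Y) {j : ℕ}
    (hj : Reg N O j ((α ⊕ α → Pol N O) ⧸ latKer O δ Y)) :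
    ∃ (ι' : Type) (_ : Fintype ι') (_ : DecidableEq ι') (α' : Type) (_ : Fintype α')
      (_ : DecidableEq α') (γ' : ι' → GG) (δ' : Matrix ι' ι' (Pol N L)) (g' : α' → GG)
      (Y' : Matrix ι' α' (Pol N L)), Lat d (map (algebraMap O L) F) γ' δ' g' Y' ∧
        Reg N O (j + 1) ((α' ⊕ α' → Pol N O) ⧸ latKer O δ' Y') ∧
        Exact (map (algebraMap O L) F) (ch (parOf γ) δ + ch (parOf γ') δ') := by
  have hFL : (map (algebraMap O L) F).IsHomogeneous d := hF.map _
  have hsat : Satur (LinearMap.ker (fromCols Y (δ * Y)).mulVecLin) := by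
    intro a ha v hv
    rw [← spec2_cancel ha v]
    exact Submodule.smul_mem _ _ hv
  have hreg : Reg N L (N + 1) (LinearMap.ker (fromCols Y (δ * Y)).mulVecLin) :=
    Reg.ker (fun v => spec2_surj h v) Reg.free Reg.free
  obtain ⟨μ, _, _, gμ, b, hb, hbr, hbi⟩ := exists_basis (graded_ker h.isHom_cols) hsat hreg
  have h0 : ∀ v, fromCols Y (δ * Y) *ᵥ (b *ᵥ v) = 0 := fun v => by
    have : b *ᵥ v ∈ LinearMap.range b.mulVecLin := ⟨v, rfl⟩
    rw [hbr] at this
    exact this
  have hex : ∀ u, fromCols Y (δ * Y) *ᵥ u = 0 → ∃ v, b *ᵥ v = u := fun u hu => by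
    have : u ∈ LinearMap.range b.mulVecLin := by
      rw [hbr]
      exact hu
    exact this
  obtain ⟨δ', hδ', hsq, hT⟩ := exists_restrict (isHom_triv hFL g) (triv_sq _) hb hbi (fun v => by
    obtain ⟨u, hu⟩ := hex (triv α (map (algebraMap O L) F) *ᵥ (b *ᵥ v)) (by
      rw [mulVec_mulVec, ← h.mul_cols, ← mulVec_mulVec, h0, mulVec_zero])
    exact ⟨u, hu.symm⟩)
  obtain ⟨α', _, _, g', z, hz, hzr⟩ := exists_gen h.graded (satur_latKer (O := O) (δ := δ) (Y := Y))
  choose col hcol using fun a : α' =>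
    hex (z.map (map (algebraMap O L)) *ᵥ Pi.single a 1) (spec2_comp hzr _)
  have hY0 : b * (of fun i a => col a i) = z.map (map (algebraMap O L)) := by
    ext1 i a
    have := congrFun (hcol a) i
    simpa [Matrix.mul_apply, Matrix.mulVec, dotProduct, Pi.single_apply] using this
  have hY : b * pr xi gμ g' 0 (of fun i a => col a i) = z.map (map (algebraMap O L)) := by
    rw [← pr_mul_left hb, hY0, add_zero, (hz.map _).pr_eq]
  generalize hY' : pr xi gμ g' 0 (of fun i a => col a i) = Y' at hY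
  have hYh : IsHom xi gμ g' 0 Y' := hY' ▸ isHom_pr _
  refine ⟨μ, inferInstance, inferInstance, α', inferInstance, inferInstance, gμ, δ', g', Y',
    ⟨hδ', hsq, hYh, fun v => ?_⟩, ?_, spec2_ses hN hN2 hF h hb hbi h0 hex hδ' hsq hT⟩
  · obtain ⟨u, hu⟩ := spec2_lift hzr (b *ᵥ v) (h0 v)
    refine ⟨u, sub_eq_zero.1 (hbi _ ?_)⟩
    rw [mulVec_sub, mulVec_mulVec, hY, hu, sub_self]
  · have hmap : b * fromCols Y' (δ' * Y') =
        (fromCols z (triv α F * z)).map (map (algebraMap O L)) := by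
      rw [mul_fromCols, ← Matrix.mul_assoc, ← hT, Matrix.mul_assoc, hY, fromCols_map,
        Matrix.map_mul, spec2_map_triv]
    have hker : latKer O δ' Y' = LinearMap.ker (fromCols z (triv α F * z)).mulVecLin := by
      ext v
      rw [spec2_mem, LinearMap.mem_ker, mulVecLin_apply]
      constructor
      · intro hv
        funext i
        apply spec2_inj (L := L)
        have := congrFun (spec2_map_mulVec (map (algebraMap O L)) (fromCols z (triv α F * z)) v) i
        rw [← this, ← hmap, ← mulVec_mulVec, hv, mulVec_zero]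
        simp
      · intro hv
        apply hbi
        rw [mulVec_mulVec, hmap, spec2_map_mulVec, hv]
        funext i
        simp
    have hran : LinearMap.range (fromCols z (triv α F * z)).mulVecLin = latKer O δ Y := by
      apply le_antisymm
      · rintro _ ⟨v, rfl⟩
        have hm : ∀ w, z *ᵥ w ∈ latKer O δ Y := fun w => by
          rw [← hzr]
          exact ⟨w, rfl⟩
        rw [mulVecLin_apply, ← Sum.elim_comp_inl_inr v, fromCols_mulVec_sumElim, ← mulVec_mulVec]
        exact Submodule.add_mem _ (hm _) (h.stable (hm _))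
      · rw [← hzr]
        rintro _ ⟨v, rfl⟩
        refine ⟨Sum.elim v 0, ?_⟩
        rw [mulVecLin_apply, fromCols_mulVec_sumElim, mulVec_zero, add_zero, mulVecLin_apply]
    exact Reg.equiv (((Submodule.quotEquivOfEq _ _ hker).trans
      (LinearMap.quotKerEquivRange _)).trans (LinearEquiv.ofEq _ _ hran)) (spec2_reg hj)

theorem Lat.last (hN : Even N) (hN2 : 2 ≤ N) (hF : F.IsHomogeneous d)
    (h : Lat d (map (algebraMap O L) F) γ δ g Y)
    (hj : Reg N O N ((α ⊕ α → Pol N O) ⧸ latKer O δ Y)) :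
    ∃ (ι' : Type) (_ : Fintype ι') (_ : DecidableEq ι') (γ' : ι' → GG)
      (δ' : Matrix ι' ι' (Pol N O)), IsHom xi γ' γ' (gd d) δ' ∧ δ' * δ' = scalar ι' F ∧
        Exact (map (algebraMap O L) F)
          (ch (parOf γ) δ + ch (parOf γ') (δ'.map (map (algebraMap O L)))) := by
  obtain ⟨μ, _, _, gμ, z, hz, hzr, hzi⟩ :=
    exists_basis h.graded (satur_latKer (O := O) (δ := δ) (Y := Y)) (spec2_reg hj)
  obtain ⟨δ', hδ', hsq, hT⟩ := exists_restrict (isHom_triv hF g) (triv_sq _) hz hzi (fun v => by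
    have hm : z *ᵥ v ∈ latKer O δ Y := by
      rw [← hzr]
      exact ⟨v, rfl⟩
    have := h.stable hm
    rw [← hzr] at this
    obtain ⟨u, hu⟩ := this
    exact ⟨u, hu.symm⟩)
  refine ⟨μ, inferInstance, inferInstance, gμ, δ', hδ', hsq,
    spec2_ses hN hN2 hF h (hz.map _) (fun v hv => ?_) (spec2_comp hzr) (spec2_lift hzr)
      (hδ'.map _) ?_ ?_⟩
  · obtain ⟨c, hc, w, hw⟩ := spec2_denom (O := O) v
    have hw0 : w = 0 := by
      apply hzi
      funext i
      apply spec2_inj (L := L)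
      have := congrFun (spec2_map_mulVec (map (algebraMap O L)) z w) i
      rw [← this, hw, mulVec_smul, hv, smul_zero]
      simp
    rw [← spec2_cancel hc v, ← hw, hw0]
    funext i
    simp
  · rw [← Matrix.map_mul, hsq, spec2_map_scalar]
  · rw [← Matrix.map_mul, ← hT, Matrix.map_mul, spec2_map_triv]

theorem spec2_iter (hN : Even N) (hN2 : 2 ≤ N) (hF : F.IsHomogeneous d) {par : ι → ℕ}
    {wt : ι → ℤ} (h : IsMF d (map (algebraMap O L) F) par wt δ) (j : ℕ) :
    ∃ (ι' : Type) (_ : Fintype ι') (_ : DecidableEq ι') (α' : Type) (_ : Fintype α')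
      (_ : DecidableEq α') (γ' : ι' → GG) (δ' : Matrix ι' ι' (Pol N L)) (g' : α' → GG)
      (Y' : Matrix ι' α' (Pol N L)), Lat d (map (algebraMap O L) F) γ' δ' g' Y' ∧
        Reg N O j ((α' ⊕ α' → Pol N O) ⧸ latKer O δ' Y') ∧
        Exact (map (algebraMap O L) F) (ch par δ - (-1) ^ j * ch (parOf γ') δ') := by
  induction j with
  | zero =>
    refine ⟨ι, inferInstance, inferInstance, ι, inferInstance, inferInstance, gam par wt, δ,
      gam par wt, 1, ⟨(isMF_iff.1 h).1, h.sq, IsHom.one, fun v => ⟨v, one_mulVec v⟩⟩, Reg.zero, ?_⟩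
    rw [ch_congr (parOf_gam par wt), pow_zero, one_mul, sub_self]
    exact Exact.zero _
  | succ j ih =>
    obtain ⟨ι1, _, _, α1, _, _, γ1, δ1, g1, Y1, hl, hr, he⟩ := ih
    obtain ⟨ι2, _, _, α2, _, _, γ2, δ2, g2, Y2, hl2, hr2, he2⟩ := hl.step hN hN2 hF hr
    refine ⟨ι2, inferInstance, inferInstance, α2, inferInstance, inferInstance, γ2, δ2, g2, Y2,
      hl2, hr2, ?_⟩
    rcases neg_one_pow_eq_or (Pol N L) j with h1 | h1
    · have := he.add he2
      rw [pow_succ, h1]
      rw [h1] at this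
      convert this using 1
      ring
    · have := he.sub he2
      rw [pow_succ, h1]
      rw [h1] at this
      convert this using 1
      ring

theorem exists_integral (hN : Even N) (hN2 : 2 ≤ N) (hF : F.IsHomogeneous d) {par : ι → ℕ}
    {wt : ι → ℤ} (h : IsMF d (map (algebraMap O L) F) par wt δ) :
    ∃ (ι' : Type) (_ : Fintype ι') (_ : DecidableEq ι') (par' : ι' → ℕ) (wt' : ι' → ℤ)
      (δ' : Matrix ι' ι' (Pol N O)), IsMF d F par' wt' δ' ∧ Exact (map (algebraMap O L) F)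
        (ch par δ - map (algebraMap O L) (ch par' δ')) := by
  obtain ⟨ι1, _, _, α1, _, _, γ1, δ1, g1, Y1, hl, hr, he⟩ := spec2_iter hN hN2 hF h N
  obtain ⟨ι2, _, _, γ2, δ2, hδ2, hsq, he2⟩ := hl.last hN hN2 hF hr
  have hm := isMF_of_isHom hδ2 hsq
  refine ⟨ι2, inferInstance, inferInstance, fun i => parOf γ2 i + 1, fun i => (γ2 i).1, δ2,
    ⟨fun i j hij => ?_, hm.homog, hsq⟩, ?_⟩
  · obtain ⟨k, hk⟩ := hm.odd i j hij
    exact ⟨k + 1, by omega⟩
  · have := he.add he2
    rw [hN.neg_one_pow] at this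
    rw [map_ch, ch_succ]
    convert this using 1
    ring

end Pool.Agent.Lib.MP_e9c0f3_ag
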