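import Pool.Agent.Lib.MP_e9c0f3_ag.Cyc2
import Pool.Agent.Lib.MP_e9c0f3_ag.KL
import Pool.Agent.Lib.MP_e9c0f3_ag.Multi
import Pool.Agent.Lib.MP_e9c0f3_ag.Spec2
import Pool.Agent.Lib.MP_e9c0f3_ag.Glob

/-! Assembly. -/

open MvPolynomial Matrix

namespace Pool.Agent.Lib.MP_e9c0f3_ag

/-- Specialisation from the generic point. -/
theorem IsChern.specialize {N d : ℕ} (hN : Even N) (hN2 : 2 ≤ N) (hd : 2 ≤ d) {A L : Type}
    [CommRing A] [Algebra ℂ A] [Field L] {f : A →+* L} (hf : Function.Injective f)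
    {F β : Pol N A} (hF : F.IsHomogeneous d) (h : IsChern d (MvPolynomial.map f F)
      (MvPolynomial.map f β)) (s : A →ₐ[ℂ] ℂ) (hs : Isol (MvPolynomial.map (s : A →+* ℂ) F)) :
    IsChern d (MvPolynomial.map (s : A →+* ℂ) F) (MvPolynomial.map (s : A →+* ℂ) β) := by
  have : CharZero L := (f.comp (algebraMap ℂ A)).charZero_iff (RingHom.injective _) |>.1
    inferInstance
  obtain ⟨O, g, c, h1, h2⟩ := exists_valuation hf s
  obtain ⟨ι, _, _, par, wt, δ, hδ, he⟩ := h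
  rw [← h1, ← MvPolynomial.map_map] at hδ he
  rw [← MvPolynomial.map_map] at he
  obtain ⟨ι', _, _, par', wt', δ', hδ', he'⟩ := exists_integral hN hN2 (hF.map g) hδ
  have h3 : ∀ p : Pol N A, MvPolynomial.map (IsLocalRing.residue O) (MvPolynomial.map g p) =
      MvPolynomial.map c (MvPolynomial.map (s : A →+* ℂ) p) := fun p => by
    rw [MvPolynomial.map_map, MvPolynomial.map_map, h2]
  have h4 : Exact (MvPolynomial.map g F) (MvPolynomial.map g β - ch par' δ') := by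
    refine exact_of_exact_frac (L := L) hd (hF.map g) ?_ ?_
    · rw [h3]
      exact (hs.map c).regAll hd ((hF.map _).map c)
    · have h5 := he.add he'
      rwa [sub_add_sub_cancel, ← map_sub] at h5
  have h6 : IsChern d (MvPolynomial.map g F) (MvPolynomial.map g β) :=
    ⟨ι', inferInstance, inferInstance, par', wt', δ', hδ', h4⟩
  have h7 := h6.map (IsLocalRing.residue O)
  rw [h3, h3] at h7
  exact h7.descend c

theorem main (k d : ℕ) (hd : 2 ≤ d) (A : Type) [CommRing A] [IsDomain A] [Algebra ℂ A]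
    [Algebra.Smooth ℂ A] (F β : MvPolynomial (Fin (2 * (k + 1))) A) (hF : F.IsHomogeneous d)
    (hs : ∀ (s : A →ₐ[ℂ] ℂ) (z : Fin (2 * (k + 1)) → ℂ),
      (∀ i, eval z (pderiv i (map (s : A →+* ℂ) F)) = 0) → z = 0)
    (hβ : β.totalDegree ≤ (k + 1) * (d - 2))
    (hflat : ∀ D : Derivation ℂ A A, Exact F (coeffMap D β + coeffMap D F * β))
    (s₀ : A →ₐ[ℂ] ℂ) (m : ℕ) (c : Fin m → ℤ) (hc : ∀ a, c a ≠ 0)
    (I : Fin m → Ideal (MvPolynomial (Fin (2 * (k + 1))) ℂ)) (hI : ∀ a, Licci (k + 1) (I a))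
    (ι : Fin m → Type) [∀ a, Fintype (ι a)] [∀ a, DecidableEq (ι a)] (par : ∀ a, ι a → ℕ)
    (wt : ∀ a, ι a → ℤ) (δ : ∀ a, Matrix (ι a) (ι a) (MvPolynomial (Fin (2 * (k + 1))) ℂ))
    (hδ : ∀ a, IsMF d (map (s₀ : A →+* ℂ) F) (par a) (wt a) (δ a))
    (hres : ∀ a, Resolves (par a) (δ a) (I a))
    (hind : ∀ Q : Fin m → MvPolynomial (Fin (2 * (k + 1))) ℂ, (∀ a, (Q a).IsHomogeneous d) →
      ∑ a, Q a * ch (par a) (δ a) ∈
        Ideal.span (Set.range fun i => pderiv i (map (s₀ : A →+* ℂ) F)) →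
      ∀ a, Q a * ch (par a) (δ a) ∈
        Ideal.span (Set.range fun i => pderiv i (map (s₀ : A →+* ℂ) F)))
    (h0 : Exact (map (s₀ : A →+* ℂ) F) (map (s₀ : A →+* ℂ) β - ∑ a, c a • ch (par a) (δ a)))
    (s : A →ₐ[ℂ] ℂ) : IsChern d (map (s : A →+* ℂ) F) (map (s : A →+* ℂ) β) := by
  have : IsNoetherianRing A := Algebra.FiniteType.isNoetherianRing ℂ A
  have hN : Even (2 * (k + 1)) := even_two_mul _
  have i0 := isol_of_smooth (hs s₀)
  obtain ⟨E, hE⟩ := exists_euler s₀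
  have hy : ∀ a, Cyc (δ a) := fun a => (hI a).cyc rfl i0 (hδ a).odd (hδ a).sq (hres a)
  have hr := i0.regAll hd (hF.map _)
  have hfl := hflat E
  rw [show coeffMap E β = cmap (E : A →+ A) β from coeffMap_eq_cmap (E : A →+ A) β,
    show coeffMap E F = cmap (E : A →+ A) F from coeffMap_eq_cmap (E : A →+ A) F] at hfl
  have st : Start k d s₀ E F β c par wt δ := ⟨rfl, hd, hF, hr, hE,
    mem_lt_of_totalDegree (Nat.lt_succ_of_le hβ), hfl, fun a => ⟨rfl, hd, hF, hδ a, hy a,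
      fun Q hQ => kl hN hr (i0.frob hd (hF.map _)) (hδ a).odd (hδ a).sq (hy a) hQ⟩, hc, hind, h0⟩
  obtain ⟨L, _, f, hf, hL⟩ := st.generic
  exact hL.specialize hN (by omega) hd hf hF s (isol_of_smooth (hs s))

end Pool.Agent.Lib.MP_e9c0f3_ag
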