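import Pool.Agent.Lib.MP_e9c0f3_ag.Depth

/-! A homogeneous system of parameters is a regular sequence with Frobenius quotient. -/

open MvPolynomial CategoryTheory Abelian

namespace Pool.Agent.Lib.MP_e9c0f3_ag

section

variable {R : Type} [CommRing R] {𝔪 : Ideal R}

/-- Prime avoidance in a coset. -/
theorem reg_coset (v : R) (𝔞 : Ideal R) (s : Finset (Ideal R)) : (∀ p ∈ s, p.IsPrime) →
    (∀ p ∈ s, v ∈ p → ¬ 𝔞 ≤ p) → ∃ a ∈ 𝔞, ∀ p ∈ s, v + a ∉ p := by
  classical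
  induction s using Finset.strongInduction with
  | H s ih =>
    intro hp hv
    rcases s.eq_empty_or_nonempty with rfl | hne
    · exact ⟨0, 𝔞.zero_mem, by simp⟩
    obtain ⟨p, hps, hmin⟩ := s.exists_minimal hne
    obtain ⟨a, ha, h⟩ := ih (s.erase p) (Finset.erase_ssubset hps)
      (fun q hq => hp q (Finset.mem_of_mem_erase hq)) (fun q hq => hv q (Finset.mem_of_mem_erase hq))
    by_cases hva : v + a ∈ p
    · have h1 : ¬ 𝔞 ⊓ (s.erase p).inf id ≤ p := by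
        rw [(hp p hps).inf_le, (hp p hps).inf_le']
        rintro (h2 | ⟨q, hq, h2⟩)
        · exact hv p hps (by simpa using p.sub_mem hva (h2 ha)) h2
        · exact Finset.ne_of_mem_erase hq
            (le_antisymm h2 (hmin (Finset.mem_of_mem_erase hq) h2))
      obtain ⟨b, ⟨hb1, hb2⟩, hb⟩ := SetLike.not_le_iff_exists.1 h1
      refine ⟨a + b, 𝔞.add_mem ha hb1, fun q hq hc => ?_⟩
      by_cases e : q = p
      · subst e
        exact hb (by simpa [← add_assoc] using q.sub_mem hc hva)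
      · have hq' : q ∈ s.erase p := Finset.mem_erase.2 ⟨e, hq⟩
        have hbq : b ∈ q := (Finset.inf_le (f := id) hq' : _ ≤ q) hb2
        exact h q hq' (by simpa [← add_assoc] using q.sub_mem hc hbq)
    · refine ⟨a, ha, fun q hq => ?_⟩
      by_cases e : q = p
      · exact e ▸ hva
      · exact h q (Finset.mem_erase.2 ⟨e, hq⟩)

theorem reg_exists [IsNoetherianRing R] {I 𝔞 : Ideal R} {v : R} (h : Dp 𝔪 1 (R ⧸ I))
    (hb : ∀ b ∈ 𝔪, ∃ r : ℕ, b ^ r ∈ I ⊔ 𝔞 ⊔ Ideal.span {v}) :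
    ∃ a ∈ 𝔞, ∀ x, (v + a) * x ∈ I → x ∈ I := by
  obtain ⟨a, ha, h2⟩ := reg_coset v 𝔞 (associatedPrimes.finite R (R ⧸ I)).toFinset
    (fun p hp => ((Set.Finite.mem_toFinset _).1 hp).1) (fun p hp hv hle => by
      obtain ⟨hp1, x, rfl⟩ := isAssociatedPrime_iff.1 ((Set.Finite.mem_toFinset _).1 hp)
      have hI : I ≤ Submodule.colon ⊥ {x} := fun i hi => by
        obtain ⟨y, rfl⟩ := Ideal.Quotient.mk_surjective x
        rw [Submodule.mem_colon_singleton, Submodule.mem_bot]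
        exact Ideal.Quotient.eq_zero_iff_mem.2 (I.mul_mem_right y hi)
      have hx : x = 0 := h.eq_zero fun b hb' => by
        obtain ⟨r, hr⟩ := hb b hb'
        have := (sup_le (sup_le hI hle) ((Ideal.span_singleton_le_iff_mem _).2 hv)) hr
        exact ⟨r, by simpa using this⟩
      exact hp1.ne_top (by simp [hx]))
  refine ⟨a, ha, fun x hx => ?_⟩
  by_contra hc
  have h3 : v + a ∈ ⋃ p ∈ associatedPrimes R (R ⧸ I), (p : Set R) := by
    rw [biUnion_associatedPrimes_eq_zero_divisors]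
    exact ⟨Ideal.Quotient.mk I x, fun e => hc (Ideal.Quotient.eq_zero_iff_mem.1 e),
      Ideal.Quotient.eq_zero_iff_mem.2 hx⟩
  obtain ⟨p, hp, h4⟩ := Set.mem_iUnion₂.1 h3
  exact h2 p ((Set.Finite.mem_toFinset _).2 hp) h4

theorem reg_inj {I : Ideal R} {z : R} (hz : ∀ x, z * x ∈ I → x ∈ I) :
    Function.Injective (LinearMap.lsmul R (R ⧸ I) z) := by
  rw [injective_iff_map_eq_zero]
  intro x hx
  obtain ⟨y, rfl⟩ := Ideal.Quotient.mk_surjective x
  exact Ideal.Quotient.eq_zero_iff_mem.2 (hz y (Ideal.Quotient.eq_zero_iff_mem.1 hx))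

theorem reg_exact (I : Ideal R) (z : R) : Function.Exact (LinearMap.lsmul R (R ⧸ I) z)
    (Submodule.factor (le_sup_left : I ≤ I ⊔ Ideal.span {z})) := by
  intro x
  obtain ⟨y, rfl⟩ := Ideal.Quotient.mk_surjective x
  constructor
  · intro h
    have h2 : y ∈ I ⊔ Ideal.span {z} := Ideal.Quotient.eq_zero_iff_mem.1 h
    obtain ⟨i, hi, w, hw, rfl⟩ := Submodule.mem_sup.1 h2
    obtain ⟨c, rfl⟩ := Ideal.mem_span_singleton'.1 hw
    refine ⟨Ideal.Quotient.mk I c, ?_⟩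
    change Ideal.Quotient.mk I (z * c) = _
    rw [Ideal.Quotient.eq]
    have e : z * c - (i + c * z) = -i := by ring
    exact e ▸ I.neg_mem hi
  · rintro ⟨c, hc⟩
    obtain ⟨c, rfl⟩ := Ideal.Quotient.mk_surjective c
    rw [← hc]
    exact Ideal.Quotient.eq_zero_iff_mem.2 (Ideal.mem_sup_right
      (Ideal.mul_mem_right c _ (Ideal.mem_span_singleton_self z)))

theorem reg_dp {I : Ideal R} {z : R} {n : ℕ} (hz : ∀ x, z * x ∈ I → x ∈ I)
    (h : Dp 𝔪 (n + 1) (R ⧸ I)) : Dp 𝔪 n (R ⧸ (I ⊔ Ideal.span {z})) :=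
  Dp.right (reg_inj hz) (Submodule.factor_surjective _) (reg_exact I z) h (h.mono n.le_succ)

theorem reg_key [IsNoetherianRing R] {ι : Type} {u : R} (hu : u ∈ 𝔪) (v : ι → R)
    (hv : ∀ i, v i ∈ 𝔪) (s : Finset ι) : ∀ I : Ideal R, Dp 𝔪 (s.card + 1) (R ⧸ I) →
    (∀ b ∈ 𝔪, ∃ r : ℕ, b ^ r ∈ I ⊔ (Ideal.span {u} ⊔ Ideal.span (v '' s))) →
    ∃ w, w - 1 ∈ 𝔪 ∧ ∀ x, u * x ∈ I → w * x ∈ I := by
  classical
  induction s using Finset.induction_on with
  | empty =>
    intro I h hb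
    refine ⟨1, by simp, fun x hx => ?_⟩
    rw [one_mul, ← Ideal.Quotient.eq_zero_iff_mem]
    refine h.eq_zero fun b hb' => ?_
    obtain ⟨r, hr⟩ := hb b hb'
    rw [Finset.coe_empty, Set.image_empty, Ideal.span_empty, sup_bot_eq] at hr
    obtain ⟨i, hi, w, hw, e⟩ := Submodule.mem_sup.1 hr
    obtain ⟨c, rfl⟩ := Ideal.mem_span_singleton'.1 hw
    refine ⟨r, Ideal.Quotient.eq_zero_iff_mem.2 ?_⟩
    change b ^ r * x ∈ I
    rw [← e, add_mul, mul_assoc]
    exact I.add_mem (I.mul_mem_right x hi) (I.mul_mem_left c hx)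
  | insert i s hi ih =>
    intro I h hb
    rw [Finset.card_insert_of_notMem hi] at h
    rw [Finset.coe_insert, Set.image_insert_eq, Ideal.span_insert] at hb
    obtain ⟨a, ha, hz⟩ := reg_exists (𝔞 := Ideal.span {u} ⊔ Ideal.span (v '' s)) (v := v i)
      (h.mono (by omega)) (fun b hb' => by
        obtain ⟨r, hr⟩ := hb b hb'
        refine ⟨r, SetLike.le_def.1 (sup_le (le_sup_of_le_left le_sup_left) ?_) hr⟩
        exact sup_le (le_sup_of_le_left (le_sup_of_le_right le_sup_left))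
          (sup_le le_sup_right (le_sup_of_le_left (le_sup_of_le_right le_sup_right))))
    have hzm : v i + a ∈ 𝔪 := by
      refine 𝔪.add_mem (hv i) (sup_le ((Ideal.span_singleton_le_iff_mem _).2 hu) ?_ ha)
      rw [Ideal.span_le]
      rintro _ ⟨j, -, rfl⟩
      exact hv j
    obtain ⟨w, hw, hw'⟩ := ih _ (reg_dp hz h) (fun b hb' => by
      obtain ⟨r, hr⟩ := hb b hb'
      refine ⟨r, SetLike.le_def.1 (sup_le (le_sup_of_le_left le_sup_left) ?_) hr⟩
      refine sup_le (le_sup_of_le_right le_sup_left) (sup_le ?_ (le_sup_of_le_right le_sup_right))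
      rw [Ideal.span_singleton_le_iff_mem]
      have e : v i = (v i + a) - a := by ring
      rw [e]
      exact Ideal.sub_mem _ (Ideal.mem_sup_left (Ideal.mem_sup_right
        (by simp))) (Ideal.mem_sup_right ha))
    have hle : I.colon {u} ≤ I ⊔ 𝔪 • I.colon {u} := fun x hx => by
      have hx' : u * x ∈ I := by simpa [mul_comm] using hx
      obtain ⟨j, hj, y, hy, e⟩ := Submodule.mem_sup.1 (hw' x (Ideal.mem_sup_left hx'))
      obtain ⟨c, rfl⟩ := Ideal.mem_span_singleton'.1 hy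
      have hc : u * c ∈ I := hz _ (by
        have e2 : (v i + a) * (u * c) = w * (u * x) - u * j := by linear_combination u * e
        rw [e2]
        exact I.sub_mem (I.mul_mem_left w hx') (I.mul_mem_left u hj))
      have e3 : x = j + ((v i + a) • c - (w - 1) • x) := by
        simp only [smul_eq_mul]
        linear_combination -e
      rw [e3]
      refine Submodule.add_mem_sup hj (Submodule.sub_mem _ (Submodule.smul_mem_smul hzm ?_)
        (Submodule.smul_mem_smul hw hx))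
      simpa [mul_comm] using hc
    obtain ⟨r, hr, hr'⟩ := Submodule.exists_sub_one_mem_and_smul_le_of_fg_of_le_sup
      (IsNoetherian.noetherian (I.colon {u})) le_rfl hle
    exact ⟨r, hr, fun x hx => hr' (Submodule.smul_mem_pointwise_smul x r _
      (by simpa [mul_comm] using hx))⟩

/-- The module of extensions of the residue ring by `R ⧸ I` in degree `i` is cyclic. -/
def RegCy (𝔪 : Ideal R) (i : ℕ) (I : Ideal R) : Prop :=
  ∃ x : Ext (ModuleCat.of R (R ⧸ 𝔪)) (ModuleCat.of R (R ⧸ I)) i, ∀ y, ∃ r : R, y = r • x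

theorem reg_cy {I : Ideal R} {z : R} {n : ℕ} (hz : ∀ x, z * x ∈ I → x ∈ I) (hzm : z ∈ 𝔪)
    (h : Dp 𝔪 (n + 1) (R ⧸ I)) : RegCy 𝔪 n (I ⊔ Ideal.span {z}) ↔ RegCy 𝔪 (n + 1) I := by
  have hS := depth_ses (reg_inj hz) (Submodule.factor_surjective _) (reg_exact I z)
  have h0 := h (ModuleCat.of R (R ⧸ 𝔪)) inferInstance (fun a ha => ⟨1, fun x => by
    obtain ⟨y, rfl⟩ := Ideal.Quotient.mk_surjective x
    rw [pow_one]
    exact Ideal.Quotient.eq_zero_iff_mem.2 (𝔪.mul_mem_right y ha)⟩) n n.lt_succ_self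
  have hsurj : ∀ y : Ext (ModuleCat.of R (R ⧸ 𝔪)) (ModuleCat.of R (R ⧸ I)) (n + 1),
      ∃ x : Ext (ModuleCat.of R (R ⧸ 𝔪)) (ModuleCat.of R (R ⧸ (I ⊔ Ideal.span {z}))) n,
        x.comp hS.extClass rfl = y := fun y => by
    refine Ext.covariant_sequence_exact₁ _ hS y ?_ rfl
    have e1 : z • 𝟙 (ModuleCat.of R (R ⧸ 𝔪)) = 0 := ModuleCat.hom_ext (LinearMap.ext fun x => by
      obtain ⟨y, rfl⟩ := Ideal.Quotient.mk_surjective x
      exact Ideal.Quotient.eq_zero_iff_mem.2 (𝔪.mul_mem_right y hzm))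
    have e2 : z • y = 0 := by
      rw [← Ext.mk₀_id_comp y, ← Ext.smul_comp, ← Ext.mk₀_smul, e1, Ext.mk₀_zero, Ext.zero_comp]
    exact (Ext.smul_eq_comp_mk₀ y z).symm.trans e2
  have hinj : ∀ x : Ext (ModuleCat.of R (R ⧸ 𝔪)) (ModuleCat.of R (R ⧸ (I ⊔ Ideal.span {z}))) n,
      x.comp hS.extClass rfl = 0 → x = 0 := fun x hx => by
    obtain ⟨y, rfl⟩ := Ext.covariant_sequence_exact₃ _ hS x rfl hx
    rw [h0.elim y 0]
    exact Ext.zero_comp _ _ _ _ _
  constructor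
  · rintro ⟨x, hx⟩
    refine ⟨x.comp hS.extClass rfl, fun y => ?_⟩
    obtain ⟨x', rfl⟩ := hsurj y
    obtain ⟨r, rfl⟩ := hx x'
    exact ⟨r, Ext.smul_comp _ _ _ r⟩
  · rintro ⟨y, hy⟩
    obtain ⟨x, rfl⟩ := hsurj y
    refine ⟨x, fun x' => ?_⟩
    obtain ⟨r, hr⟩ := hy (x'.comp hS.extClass rfl)
    refine ⟨r, sub_eq_zero.1 (hinj _ ?_)⟩
    rw [sub_eq_add_neg, Ext.add_comp, Ext.neg_comp, Ext.smul_comp, hr]
    exact add_neg_cancel _

theorem reg_cy_self : RegCy 𝔪 0 𝔪 := by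
  refine ⟨Ext.mk₀ (𝟙 _), fun y => ?_⟩
  obtain ⟨f, rfl⟩ := (Ext.mk₀_bijective _ _).2 y
  obtain ⟨r, hr⟩ := Ideal.Quotient.mk_surjective (f.hom (Ideal.Quotient.mk 𝔪 1))
  refine ⟨r, ?_⟩
  rw [← Ext.mk₀_smul]
  congr 1
  refine ModuleCat.hom_ext (Submodule.linearMap_qext _ (LinearMap.ext_ring ?_))
  change f.hom (Ideal.Quotient.mk 𝔪 1) = Ideal.Quotient.mk 𝔪 (r * 1)
  rw [mul_one, hr]

theorem reg_cy_zero {J : Ideal R} (h : RegCy 𝔪 0 J) : ∃ Δ : R, (∀ b ∈ 𝔪, b * Δ ∈ J) ∧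
    ∀ a : R, (∀ b ∈ 𝔪, b * a ∈ J) → ∃ c : R, a - c * Δ ∈ J := by
  obtain ⟨x, hx⟩ := h
  obtain ⟨f, rfl⟩ := (Ext.mk₀_bijective _ _).2 x
  obtain ⟨Δ, hΔ⟩ := Ideal.Quotient.mk_surjective (f.hom (Ideal.Quotient.mk 𝔪 1))
  refine ⟨Δ, fun b hb => ?_, fun a ha => ?_⟩
  · rw [← Ideal.Quotient.eq_zero_iff_mem]
    change b • Ideal.Quotient.mk J Δ = 0
    have e : b • Ideal.Quotient.mk 𝔪 1 = 0 :=
      Ideal.Quotient.eq_zero_iff_mem.2 (𝔪.mul_mem_right 1 hb)
    rw [hΔ, ← map_smul, e, map_zero]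
  · obtain ⟨c, hc⟩ := hx (Ext.mk₀ (ModuleCat.ofHom (Submodule.liftQ 𝔪
      (LinearMap.toSpanSingleton R (R ⧸ J) (Ideal.Quotient.mk J a))
      fun b hb => Ideal.Quotient.eq_zero_iff_mem.2 (ha b hb))))
    rw [← Ext.mk₀_smul] at hc
    have h2 := congrArg (fun φ => φ.hom (Ideal.Quotient.mk 𝔪 1)) ((Ext.mk₀_bijective _ _).1 hc)
    refine ⟨c, Ideal.Quotient.eq.1 ?_⟩
    change Ideal.Quotient.mk J (1 * a) = c • f.hom (Ideal.Quotient.mk 𝔪 1) at h2
    rw [← hΔ, one_mul] at h2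
    exact h2

end

variable {K : Type} [Field K] {N : ℕ}

theorem reg_homog {s : Set (Pol N K)} (hs : ∀ p ∈ s, ∃ e, p.IsHomogeneous e) {w x : Pol N K}
    (hw : w - 1 ∈ mx N K) (hx : w * x ∈ Ideal.span s) : x ∈ Ideal.span s := by
  let := MvPolynomial.gradedAlgebra (σ := Fin N) (R := K)
  have hI := Ideal.homogeneous_span (homogeneousSubmodule (Fin N) K) s hs
  have hc : ∀ p ∈ Ideal.span s, ∀ d, homogeneousComponent d p ∈ Ideal.span s := fun p hp d =>
    decomposition.decompose'_apply p d ▸ hI d hp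
  rw [← sum_homogeneousComponent x]
  refine Ideal.sum_mem _ fun d _ => ?_
  obtain ⟨c, hc'⟩ := one_sub_dvd_one_sub_pow (1 - w) (d + 1)
  have h1 : (1 - w) ^ (d + 1) * x ∈ idealOfVars (Fin N) K ^ (d + 1) :=
    Ideal.mul_mem_right _ _ (Ideal.pow_mem_pow (by simpa [mx] using (mx N K).neg_mem hw) _)
  have h2 : homogeneousComponent d ((1 - w) ^ (d + 1) * x) = 0 :=
    homogeneousComponent_eq_zero' _ _ fun m hm => by
      have := (mem_pow_idealOfVars_iff _ _).1 h1 m hm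
      omega
  have e : x = c * (w * x) + (1 - w) ^ (d + 1) * x := by linear_combination x * hc'
  rw [e, map_add, h2, add_zero]
  exact hc _ (Ideal.mul_mem_left _ c hx) d

theorem reg_mem {p : Pol N K} (hp : ∃ e, 0 < e ∧ p.IsHomogeneous e) : p ∈ mx N K := by
  obtain ⟨e, he, hp⟩ := hp
  have h : p ∈ idealOfVars (Fin N) K ^ 1 := (mem_pow_idealOfVars_iff' _ _).2 fun m hm =>
    hp.coeff_eq_zero (by omega)
  rwa [pow_one] at h

theorem reg_step (u : Fin N → Pol N K) (hu : ∀ i, ∃ e, 0 < e ∧ (u i).IsHomogeneous e)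
    (hX : ∀ i, ∃ M, (X i : Pol N K) ^ M ∈ Ideal.span (Set.range u)) {T : Finset (Fin N)}
    (h : Dp (mx N K) (N - T.card) (Pol N K ⧸ Ideal.span (u '' T))) {j : Fin N} (hj : j ∉ T) :
    ∀ a, u j * a ∈ Ideal.span (u '' T) → a ∈ Ideal.span (u '' T) := by
  have hcard : (insert j T)ᶜ.card + 1 = N - T.card := by
    have h1 := Finset.card_le_univ (insert j T)
    rw [Finset.card_compl]
    rw [Finset.card_insert_of_notMem hj, Fintype.card_fin] at *
    omega
  have hrad : mx N K ≤ (Ideal.span (Set.range u)).radical := by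
    rw [mx, Ideal.span_le]
    rintro _ ⟨i, rfl⟩
    exact hX i
  obtain ⟨w, hw, hw'⟩ := reg_key (reg_mem (hu j)) u (fun i => reg_mem (hu i)) (insert j T)ᶜ _
    (hcard ▸ h) (fun b hb => by
      obtain ⟨r, hr⟩ := hrad hb
      refine ⟨r, Ideal.span_le.2 ?_ hr⟩
      rintro _ ⟨i, rfl⟩
      by_cases h1 : i ∈ T
      · exact Ideal.mem_sup_left (Ideal.subset_span ⟨i, h1, rfl⟩)
      by_cases h2 : i = j
      · exact Ideal.mem_sup_right (Ideal.mem_sup_left (h2 ▸ Ideal.mem_span_singleton_self _))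
      · exact Ideal.mem_sup_right (Ideal.mem_sup_right
          (Ideal.subset_span ⟨i, by simp [h1, h2], rfl⟩)))
  intro a ha
  refine reg_homog ?_ hw (hw' a ha)
  rintro _ ⟨i, -, rfl⟩
  exact (hu i).imp fun e he => he.2

theorem reg_all (u : Fin N → Pol N K) (hu : ∀ i, ∃ e, 0 < e ∧ (u i).IsHomogeneous e)
    (hX : ∀ i, ∃ M, (X i : Pol N K) ^ M ∈ Ideal.span (Set.range u)) (T : Finset (Fin N)) :
    Dp (mx N K) (N - T.card) (Pol N K ⧸ Ideal.span (u '' T)) ∧
      (RegCy (mx N K) (N - T.card) (Ideal.span (u '' T)) ↔ RegCy (mx N K) N ⊥) := by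
  induction T using Finset.induction_on with
  | empty =>
    rw [Finset.coe_empty, Set.image_empty, Ideal.span_empty]
    exact ⟨dp_pol.equiv (Submodule.quotEquivOfEqBot _ rfl), Iff.rfl⟩
  | insert j T hj ih =>
    have hcard : N - T.card = N - (insert j T).card + 1 := by
      have h1 := Finset.card_le_univ (insert j T)
      rw [Finset.card_insert_of_notMem hj, Fintype.card_fin] at *
      omega
    have hz := reg_step u hu hX ih.1 hj
    rw [hcard] at ih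
    rw [Finset.coe_insert, Set.image_insert_eq, Ideal.span_insert, sup_comm]
    exact ⟨reg_dp hz ih.1, (reg_cy hz (reg_mem (hu j)) ih.1).trans ih.2⟩

theorem regAll_of_param (u : Fin N → Pol N K) (hu : ∀ i, ∃ e, 0 < e ∧ (u i).IsHomogeneous e)
    (hX : ∀ i, ∃ M, (X i : Pol N K) ^ M ∈ Ideal.span (Set.range u)) : RegAll u :=
  fun T _ hj => reg_step u hu hX (reg_all u hu hX T).1 hj

/-- The socle of the quotient is cyclic. -/
theorem socle_of_param (u : Fin N → Pol N K) (hu : ∀ i, ∃ e, 0 < e ∧ (u i).IsHomogeneous e)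
    (hX : ∀ i, ∃ M, (X i : Pol N K) ^ M ∈ Ideal.span (Set.range u)) :
    ∃ Δ : Pol N K, (∀ i, X i * Δ ∈ Ideal.span (Set.range u)) ∧
      ∀ a : Pol N K, (∀ i, X i * a ∈ Ideal.span (Set.range u)) →
        ∃ c : Pol N K, a - c * Δ ∈ Ideal.span (Set.range u) := by
  have h1 := (reg_all u hu hX Finset.univ).2
  have h2 := (reg_all (X : Fin N → Pol N K) (fun i => ⟨1, Nat.one_pos, isHomogeneous_X K i⟩)
    (fun i => ⟨1, Ideal.subset_span ⟨i, (pow_one _).symm⟩⟩) Finset.univ).2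
  rw [Finset.card_univ, Fintype.card_fin, Nat.sub_self, Finset.coe_univ, Set.image_univ] at h1 h2
  obtain ⟨Δ, hΔ, h⟩ := reg_cy_zero (h1.2 (h2.1 reg_cy_self))
  refine ⟨Δ, fun i => hΔ _ (Ideal.subset_span ⟨i, rfl⟩), fun a ha => h a fun b hb => ?_⟩
  have hle : mx N K ≤ (Ideal.span (Set.range u)).colon {a} := by
    rw [mx, Ideal.span_le]
    rintro _ ⟨i, rfl⟩
    simpa using ha i
  simpa using hle hb

end Pool.Agent.Lib.MP_e9c0f3_ag
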