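import Pool.Agent.Lib.MP_e9c0f3_ag.Free
import Pool.Agent.Lib.MP_e9c0f3_ag.Contr

/-! Matrix factorisations extend over valuation rings, up to syzygies. -/

open MvPolynomial Matrix

namespace Pool.Agent.Lib.MP_e9c0f3_ag

variable {O L : Type} [CommRing O] [Field L] [Algebra O L] {N : ℕ} {ι α : Type} [Fintype ι]
  [DecidableEq ι] [Fintype α] [DecidableEq α]

/-- A graded matrix factorisation over `L` with a finite generating family. -/
structure Lat (d : ℕ) (F : Pol N L) (γ : ι → GG) (δ : Matrix ι ι (Pol N L)) (g : α → GG)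
    (Y : Matrix ι α (Pol N L)) : Prop where
  hom : IsHom xi γ γ (gd d) δ
  sq : δ * δ = scalar ι F
  homY : IsHom xi γ g 0 Y
  surj : ∀ v, ∃ u, Y *ᵥ u = v

/-- The integral relations. -/
def latKer (O : Type) [CommRing O] [Algebra O L] (δ : Matrix ι ι (Pol N L))
    (Y : Matrix ι α (Pol N L)) : Submodule (Pol N O) (α ⊕ α → Pol N O) where
  carrier := {v | fromCols Y (δ * Y) *ᵥ (fun i => map (algebraMap O L) (v i)) = 0}
  add_mem' := fun {a b} ha hb => by
    have : (fun i => map (algebraMap O L) ((a + b) i)) =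
        (fun i => map (algebraMap O L) (a i)) + fun i => map (algebraMap O L) (b i) := by
      funext i; simp
    rw [Set.mem_ofPred_eq] at ha hb ⊢
    rw [this, mulVec_add, ha, hb, add_zero]
  zero_mem' := by
    have : (fun i => map (algebraMap O L) ((0 : α ⊕ α → Pol N O) i)) = 0 := by
      funext i; simp
    rw [Set.mem_ofPred_eq, this, mulVec_zero]
  smul_mem' := fun c a ha => by
    have : (fun i => map (algebraMap O L) ((c • a) i)) =
        map (algebraMap O L) c • fun i => map (algebraMap O L) (a i) := by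
      funext i; simp
    rw [Set.mem_ofPred_eq] at ha ⊢
    rw [this, mulVec_smul, ha, smul_zero]

omit [DecidableEq ι] [DecidableEq α] in
theorem spec_mem_latKer {δ : Matrix ι ι (Pol N L)} {Y : Matrix ι α (Pol N L)}
    {v : α ⊕ α → Pol N O} : v ∈ latKer O δ Y ↔
      fromCols Y (δ * Y) *ᵥ (fun i => map (algebraMap O L) (v i)) = 0 := Iff.rfl

/-- The degrees of the trivial factorisation. -/
def dbl (d : ℕ) (g : α → GG) : α ⊕ α → GG := Sum.elim g fun a => g a + gd d

theorem isHom_triv {R : Type} [CommRing R] {d : ℕ} {F : Pol N R} (hF : F.IsHomogeneous d)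
    (g : α → GG) : IsHom xi (dbl d g) (dbl d g) (gd d) (triv α F) := by
  rintro (i | i) (j | j) m hm
  · simp [triv] at hm
  · simp only [triv, fromBlocks_apply₁₂, diagonal_apply] at hm
    by_cases hij : i = j
    · subst hij
      rw [if_pos rfl] at hm
      have h1 : m.degree = d := by
        by_contra h2
        exact hm (hF.coeff_eq_zero h2)
      simp only [dbl, Sum.elim_inl, Sum.elim_inr]
      rw [h1, ← gd_add_gd]
      abel
    · simp [hij] at hm
  · simp only [triv, fromBlocks_apply₂₁, one_apply] at hm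
    by_cases hij : i = j
    · subst hij
      rw [if_pos rfl, coeff_one] at hm
      have h1 : m = 0 := by
        by_contra h2
        exact hm (if_neg fun h3 => h2 h3.symm)
      simp only [dbl, Sum.elim_inl, Sum.elim_inr]
      rw [h1, map_zero, zero_smul]
      abel
    · simp [hij] at hm
  · simp [triv] at hm

/-- The restriction of a homogeneous endomorphism to a stable free submodule. -/
theorem exists_restrict {R : Type} [CommRing R] {μ : Type} [Fintype μ] [DecidableEq μ] {d : ℕ}
    {F : Pol N R} {g : α → GG} {g' : μ → GG} {T : Matrix α α (Pol N R)}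
    (hT : IsHom xi g g (gd d) T) (hT2 : T * T = scalar α F) {z : Matrix α μ (Pol N R)}
    (hz : IsHom xi g g' 0 z) (hi : ∀ v, z *ᵥ v = 0 → v = 0)
    (hs : ∀ v, ∃ u, T *ᵥ (z *ᵥ v) = z *ᵥ u) :
    ∃ δ' : Matrix μ μ (Pol N R), IsHom xi g' g' (gd d) δ' ∧ δ' * δ' = scalar μ F ∧
      T * z = z * δ' := by
  choose u hu using hs
  have h0 : T * z = z * (of fun i j => u (Pi.single j 1) i) := by
    ext1 i j
    have := congrFun (hu (Pi.single j 1)) i
    rw [mulVec_mulVec, mulVec_single_one] at this
    simpa [mul_apply, mulVec, dotProduct] using this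
  have h1 : IsHom xi g g' (0 + gd d) (T * z) := by
    have := hT.mul hz
    rwa [add_comm] at this
  have h2 : T * z = z * pr xi g' g' (gd d) (of fun i j => u (Pi.single j 1) i) := by
    rw [← pr_mul_left hz, ← h0, h1.pr_eq]
  refine ⟨_, isHom_pr _, ?_, h2⟩
  set δ' := pr xi g' g' (gd d) (of fun i j => u (Pi.single j 1) i)
  have h3 : z * (δ' * δ' - scalar μ F) = 0 := by
    rw [Matrix.mul_sub, ← Matrix.mul_assoc, ← h2, Matrix.mul_assoc, ← h2, ← Matrix.mul_assoc, hT2,
      sub_eq_zero]
    ext1 i j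
    simp [mul_comm]
  rw [← sub_eq_zero]
  ext1 i j
  have h4 := hi ((δ' * δ' - scalar μ F) *ᵥ Pi.single j 1) (by rw [mulVec_mulVec, h3, zero_mulVec])
  rw [mulVec_single_one] at h4
  exact congrFun h4 i

variable {d : ℕ} {F : Pol N O} {γ : ι → GG} {δ : Matrix ι ι (Pol N L)} {g : α → GG}
  {Y : Matrix ι α (Pol N L)}

theorem Lat.isHom_cols (h : Lat d (map (algebraMap O L) F) γ δ g Y) :
    IsHom xi γ (dbl d g) 0 (fromCols Y (δ * Y)) := by
  refine IsHom.fromCols h.homY fun i j m hm => ?_
  rw [h.hom.mul h.homY i j m hm]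
  abel

theorem Lat.mul_cols (h : Lat d (map (algebraMap O L) F) γ δ g Y) :
    δ * fromCols Y (δ * Y) = fromCols Y (δ * Y) * triv α (map (algebraMap O L) F) := by
  rw [triv, mul_fromCols, fromCols_mul_fromBlocks, ← Matrix.mul_assoc, h.sq, Matrix.mul_zero,
    Matrix.mul_zero, Matrix.mul_one, zero_add, add_zero]
  congr 1
  ext1 i j
  simp [mul_comm]

theorem spec_map_prv {β : Type} (γ : β → GG) (g : GG) (v : β → Pol N O) :
    (fun i => map (algebraMap O L) (prv γ g v i)) =
      prv γ g fun i => map (algebraMap O L) (v i) := by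
  funext i
  have := pr_map (ξ := xi) (a := γ) (b := fun _ : Unit => 0) (g := g) (algebraMap O L)
    (of fun i _ => v i)
  exact (congrFun (congrFun this i) ()).symm

theorem spec_prv_zero {R β : Type} [CommRing R] (γ : β → GG) (g : GG) :
    prv γ g (0 : β → Pol N R) = 0 := by
  funext i
  exact congrFun (congrFun (pr_zero (R := R) (N := N) (ξ := xi) (a := γ) (b := fun _ : Unit => 0)
    (g := g)) i) ()

theorem Lat.graded (h : Lat d (map (algebraMap O L) F) γ δ g Y) :
    Graded (dbl d g) (latKer O δ Y) := by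
  intro e v hv
  rw [spec_mem_latKer] at hv ⊢
  rw [spec_map_prv, ← prv_mulVec e h.isHom_cols, hv, spec_prv_zero]

theorem Lat.stable (h : Lat d (map (algebraMap O L) F) γ δ g Y) {v : α ⊕ α → Pol N O}
    (hv : v ∈ latKer O δ Y) : triv α F *ᵥ v ∈ latKer O δ Y := by
  rw [spec_mem_latKer] at hv ⊢
  have h1 : (triv α F).map (map (algebraMap O L)) = triv α (map (algebraMap O L) F) := by
    rw [triv, triv, fromBlocks_map, diagonal_map (map_zero _), Matrix.map_zero _ (map_zero _),
      Matrix.map_one _ (map_zero _) (map_one _)]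
  have h2 : (fun i => map (algebraMap O L) ((triv α F *ᵥ v) i)) =
      triv α (map (algebraMap O L) F) *ᵥ fun i => map (algebraMap O L) (v i) := by
    funext i
    rw [RingHom.map_mulVec, h1]
    rfl
  rw [h2, mulVec_mulVec, ← h.mul_cols, ← mulVec_mulVec, hv, mulVec_zero]

variable [IsDomain O] [IsFractionRing O L]

theorem satur_latKer : Satur (latKer O δ Y) := by
  intro a ha v hv
  rw [spec_mem_latKer] at hv ⊢
  have h1 : (fun i => map (algebraMap O L) (((C a : Pol N O) • v) i)) =
      (C (algebraMap O L a) : Pol N L) • fun i => map (algebraMap O L) (v i) := by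
    funext i; simp
  rw [h1, mulVec_smul] at hv
  have h2 : (C (algebraMap O L a) : Pol N L) ≠ 0 := by
    rw [Ne, C_eq_zero]
    exact fun h => ha (IsFractionRing.injective O L (h.trans (map_zero _).symm))
  funext i
  exact (mul_eq_zero.1 (congrFun hv i)).resolve_left h2

theorem exists_denom {μ : Type} [Finite μ] (v : μ → Pol N L) :
    ∃ c : O, c ≠ 0 ∧ ∃ u : μ → Pol N O,
      ∀ i, map (algebraMap O L) (u i) = C (algebraMap O L c) * v i := by
  classical
  cases nonempty_fintype μ
  obtain ⟨b, hb⟩ := IsLocalization.exist_integer_multiples_of_finset (nonZeroDivisors O)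
    (Finset.univ.biUnion fun i => (v i).coeffs)
  have h1 : ∀ i, C (algebraMap O L b) * v i ∈
      Set.range (MvPolynomial.map (σ := Fin N) (algebraMap O L)) := by
    intro i
    rw [mem_range_map_iff_coeffs_subset]
    intro x hx
    obtain ⟨m, hm, rfl⟩ := mem_coeffs_iff.1 (Finset.mem_coe.1 hx)
    rw [coeff_C_mul]
    have h2 : coeff m (v i) ≠ 0 := by
      intro h3
      rw [mem_support_iff, coeff_C_mul, h3, mul_zero] at hm
      exact hm rfl
    obtain ⟨y, hy⟩ := hb (coeff m (v i))
      (Finset.mem_biUnion.2 ⟨i, Finset.mem_univ _, coeff_mem_coeffs m h2⟩)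
    exact ⟨y, by rw [hy, Algebra.smul_def]⟩
  choose u hu using h1
  exact ⟨b, nonZeroDivisors.ne_zero b.2, u, hu⟩

end Pool.Agent.Lib.MP_e9c0f3_ag
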