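import Pool.Agent.Lib.MP_e9c0f3_ag.Base

/-! The standard polynomial and the Chern form. -/

open MvPolynomial Matrix

namespace Pool.Agent.Lib.MP_e9c0f3_ag

/-- The standard (alternating) polynomial. -/
def std {E : Type} [Ring E] : (m : ℕ) → (Fin m → E) → E
  | 0, _ => 1
  | m + 1, a => ∑ i : Fin (m + 1), (-1) ^ (i : ℕ) * (a i * std m fun j => a (i.succAbove j))

section

variable {E : Type} [Ring E]

theorem std_succ (m : ℕ) (a : Fin (m + 1) → E) : std (m + 1) a =
    ∑ i : Fin (m + 1), (-1) ^ (i : ℕ) * (a i * std m fun j => a (i.succAbove j)) := rfl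

theorem std_sign_comm (n : ℕ) (x y : E) : x * ((-1) ^ n * y) = (-1) ^ n * (x * y) := by
  rcases neg_one_pow_eq_or E n with h | h <;> simp [h]

theorem std_sign_map (D : E →+ E) (n : ℕ) (x : E) : D ((-1) ^ n * x) = (-1) ^ n * D x := by
  rcases neg_one_pow_eq_or E n with h | h <;> simp [h]

/-- Exchange of the two removed indices. -/
theorem std_swap {m : ℕ} (G : Fin (m + 2) → Fin (m + 2) → (Fin m → Fin (m + 2)) → E) :
    ∑ i : Fin (m + 2), ∑ j : Fin (m + 1), (-1) ^ ((i : ℕ) + j) *
        G i (i.succAbove j) (fun k => i.succAbove (j.succAbove k)) =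
      -∑ i : Fin (m + 2), ∑ j : Fin (m + 1), (-1) ^ ((i : ℕ) + j) *
        G (i.succAbove j) i (fun k => i.succAbove (j.succAbove k)) := by
  rw [← Finset.sum_product', ← Finset.sum_product', ← Finset.sum_neg_distrib]
  let e : Fin (m + 2) × Fin (m + 1) ≃ Fin (m + 2) × Fin (m + 1) :=
    Function.Involutive.toPerm (fun p => (p.1.succAbove p.2, p.2.predAbove p.1)) fun p => by
      simp [Fin.succAbove_succAbove_predAbove, Fin.predAbove_predAbove_succAbove]
  refine Finset.sum_equiv e (by simp) fun p _ => ?_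
  show _ = -((-1) ^ ((p.1.succAbove p.2 : ℕ) + (p.2.predAbove p.1 : ℕ)) *
    G ((p.1.succAbove p.2).succAbove (p.2.predAbove p.1)) (p.1.succAbove p.2)
      (fun k => (p.1.succAbove p.2).succAbove ((p.2.predAbove p.1).succAbove k)))
  simp only [Fin.neg_one_pow_succAbove_add_predAbove, Fin.succAbove_succAbove_predAbove,
    Fin.succAbove_succAbove_succAbove_predAbove, neg_mul, neg_neg]

theorem std_eq_sum_perm (m : ℕ) (a : Fin m → E) :
    std m a = ∑ π : Equiv.Perm (Fin m), Equiv.Perm.sign π • (List.ofFn fun j => a (π j)).prod := by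
  induction m with
  | zero => simp [std]
  | succ m ih =>
    rw [std_succ, Finset.univ_perm_fin_succ, ← Finset.univ_product_univ]
    simp only [Finset.sum_map, Equiv.toEmbedding_apply, Finset.sum_product]
    refine Finset.sum_congr rfl fun i _ => ?_
    rw [ih]
    simp only [List.ofFn_succ, List.prod_cons, Equiv.Perm.decomposeFin_symm_apply_zero,
      Equiv.Perm.decomposeFin_symm_apply_succ, Equiv.Perm.decomposeFin.symm_sign]
    refine Fin.cases ?_ (fun i => ?_) i
    · rw [Finset.mul_sum, Finset.mul_sum]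
      refine Finset.sum_congr rfl fun σ _ => ?_
      rcases Int.units_eq_one_or (Equiv.Perm.sign σ) with h' | h' <;> simp [h']
    · rw [← Equiv.sum_comp (Equiv.mulLeft i.cycleRange), Finset.mul_sum, Finset.mul_sum]
      refine Finset.sum_congr rfl fun σ _ => ?_
      simp only [Equiv.coe_mulLeft, Equiv.Perm.coe_mul, Function.comp_apply,
        Fin.succAbove_cycleRange, Equiv.Perm.sign_mul, Fin.sign_cycleRange,
        if_neg (Fin.succ_ne_zero i), Fin.val_succ, pow_succ]
      rcases Nat.even_or_odd (i : ℕ) with h | h <;>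
        rcases Int.units_eq_one_or (Equiv.Perm.sign σ) with h' | h' <;>
        simp [h.neg_one_pow, h']

theorem map_std {E' : Type} [Ring E'] (f : E →+* E') (m : ℕ) (a : Fin m → E) :
    f (std m a) = std m fun j => f (a j) := by
  induction m with
  | zero => simp [std]
  | succ m ih => simp [std_succ, map_sum, ih]

theorem std_eq_zero {m : ℕ} {a : Fin m → E} (j : Fin m) (h : a j = 0) : std m a = 0 := by
  induction m with
  | zero => exact j.elim0
  | succ m ih =>
    rw [std_succ]
    refine Finset.sum_eq_zero fun i _ => ?_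
    by_cases hij : j = i
    · rw [← hij, h, zero_mul, mul_zero]
    · obtain ⟨k, hk⟩ := Fin.exists_succAbove_eq hij
      rw [ih (a := fun j => a (i.succAbove j)) k (by rw [← h, ← hk]), mul_zero, mul_zero]

theorem std_neg (m : ℕ) (a : Fin m → E) : std m (fun j => -a j) = (-1) ^ m * std m a := by
  induction m with
  | zero => simp [std]
  | succ m ih =>
    rw [std_succ, std_succ, Finset.mul_sum]
    refine Finset.sum_congr rfl fun i _ => ?_
    rw [ih fun j => a (i.succAbove j), std_sign_comm, std_sign_comm i, pow_succ]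
    simp

/-- One step of the commutation rule. -/
theorem std_comm_step {m : ℕ} (δ : E) (a c : Fin (m + 1) → E)
    (h : ∀ i, δ * a i + a i * δ = c i) :
    δ * std (m + 1) a - (-1) ^ (m + 1) * (std (m + 1) a * δ) =
      ∑ i : Fin (m + 1), (-1) ^ (i : ℕ) * (c i * std m fun j => a (i.succAbove j)) -
      ∑ i : Fin (m + 1), (-1) ^ (i : ℕ) * (a i * (δ * std m (fun j => a (i.succAbove j)) -
        (-1) ^ m * (std m (fun j => a (i.succAbove j)) * δ))) := by
  rw [std_succ, Finset.mul_sum, Finset.sum_mul, Finset.mul_sum, ← Finset.sum_sub_distrib,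
    ← Finset.sum_sub_distrib]
  refine Finset.sum_congr rfl fun i _ => ?_
  rw [← h i, pow_succ]
  rcases neg_one_pow_eq_or E i with h1 | h1 <;> rcases neg_one_pow_eq_or E m with h2 | h2 <;>
    rw [h1, h2] <;> noncomm_ring

theorem std_comm {m : ℕ} (δ : E) (a c : Fin (m + 1) → E) (hc : ∀ i x, c i * x = x * c i)
    (h : ∀ i, δ * a i + a i * δ = c i) :
    δ * std (m + 1) a - (-1) ^ (m + 1) * (std (m + 1) a * δ) =
      ((m + 1 : ℕ) : E) *
        ∑ i : Fin (m + 1), (-1) ^ (i : ℕ) * (c i * std m fun j => a (i.succAbove j)) := by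
  induction m with
  | zero => rw [std_comm_step δ a c h]; simp [std]
  | succ m ih =>
    rw [std_comm_step δ a c h]
    have key : ∑ i : Fin (m + 2), (-1) ^ (i : ℕ) *
        (a i * (δ * std (m + 1) (fun j => a (i.succAbove j)) -
          (-1) ^ (m + 1) * (std (m + 1) (fun j => a (i.succAbove j)) * δ))) =
        ((m + 1 : ℕ) : E) * ∑ i : Fin (m + 2), ∑ j : Fin (m + 1), (-1) ^ ((i : ℕ) + j) *
          (a i * (c (i.succAbove j) * std m fun k => a (i.succAbove (j.succAbove k)))) := by
      rw [Finset.mul_sum]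
      refine Finset.sum_congr rfl fun i _ => ?_
      rw [ih (fun j => a (i.succAbove j)) (fun j => c (i.succAbove j)) (fun j => hc _)
        fun j => h _, ← mul_assoc (a i), ← (Nat.cast_commute (m + 1) (a i)).eq, mul_assoc,
        ← std_sign_comm]
      congr 1
      rw [Finset.mul_sum, Finset.mul_sum]
      refine Finset.sum_congr rfl fun j _ => ?_
      rw [std_sign_comm, pow_add, mul_assoc]
    have key2 : ∑ i : Fin (m + 2), ∑ j : Fin (m + 1), (-1) ^ ((i : ℕ) + j) *
          (a (i.succAbove j) * (c i * std m fun k => a (i.succAbove (j.succAbove k)))) =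
        ∑ i : Fin (m + 2), (-1) ^ (i : ℕ) * (c i * std (m + 1) fun j => a (i.succAbove j)) := by
      refine Finset.sum_congr rfl fun i _ => ?_
      rw [std_succ, Finset.mul_sum, Finset.mul_sum]
      refine Finset.sum_congr rfl fun j _ => ?_
      rw [std_sign_comm, pow_add, mul_assoc, ← mul_assoc (c i), hc i (a _), mul_assoc]
    rw [key, std_swap fun p q r => a p * (c q * std m fun k => a (r k)), key2]
    push_cast
    noncomm_ring

theorem std_closed (h2 : ∀ x : E, x + x = 0 → x = 0) {m : ℕ} (D : Fin (m + 1) → E →+ E)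
    (hD : ∀ i x y, D i (x * y) = D i x * y + x * D i y) (a : Fin (m + 1) → E)
    (hs : ∀ i j, D i (a j) = D j (a i)) :
    ∑ i : Fin (m + 1), (-1) ^ (i : ℕ) * D i (std m fun j => a (i.succAbove j)) = 0 := by
  induction m with
  | zero =>
    have h1 := hD 0 1 1
    simp only [mul_one, one_mul, left_eq_add] at h1
    simp [std, h1]
  | succ m ih =>
    have key : ∑ i : Fin (m + 2), (-1) ^ (i : ℕ) * D i (std (m + 1) fun j => a (i.succAbove j)) =
        ∑ i : Fin (m + 2), ∑ j : Fin (m + 1), (-1) ^ ((i : ℕ) + j) *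
          (D i (a (i.succAbove j)) * std m fun k => a (i.succAbove (j.succAbove k))) +
        ∑ i : Fin (m + 2), ∑ j : Fin (m + 1), (-1) ^ ((i : ℕ) + j) *
          (a (i.succAbove j) * D i (std m fun k => a (i.succAbove (j.succAbove k)))) := by
      rw [← Finset.sum_add_distrib]
      refine Finset.sum_congr rfl fun i _ => ?_
      rw [std_succ, map_sum, Finset.mul_sum, ← Finset.sum_add_distrib]
      refine Finset.sum_congr rfl fun j _ => ?_
      rw [std_sign_map, hD, pow_add, mul_assoc, mul_assoc, ← mul_add, ← mul_add]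
    have k1 : ∑ i : Fin (m + 2), ∑ j : Fin (m + 1), (-1) ^ ((i : ℕ) + j) *
          (D i (a (i.succAbove j)) * std m fun k => a (i.succAbove (j.succAbove k))) = 0 := by
      apply h2
      have h3 := std_swap fun p q r => D p (a q) * std m fun k => a (r k)
      simp only [hs (Fin.succAbove _ _)] at h3
      exact add_eq_zero_iff_eq_neg.2 h3
    have k2 : ∑ i : Fin (m + 2), ∑ j : Fin (m + 1), (-1) ^ ((i : ℕ) + j) *
          (a i * D (i.succAbove j) (std m fun k => a (i.succAbove (j.succAbove k)))) = 0 := by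
      refine Finset.sum_eq_zero fun i _ => ?_
      have h3 := ih (fun j => D (i.succAbove j)) (fun j => hD _) (fun j => a (i.succAbove j))
        fun j k => hs _ _
      have h4 := congrArg (fun x => (-1 : E) ^ (i : ℕ) * (a i * x)) h3
      simp only [mul_zero, Finset.mul_sum] at h4
      rw [← h4]
      refine Finset.sum_congr rfl fun j _ => ?_
      rw [std_sign_comm, pow_add, mul_assoc]
    rw [key, k1, std_swap fun p q r => a q * D p (std m fun k => a (r k)), k2]
    simp

theorem std_scalar (h2 : ∀ x : E, x + x = 0 → x = 0) {m : ℕ} (hm : 2 ≤ m) (c : Fin m → E)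
    (hc : ∀ i x, c i * x = x * c i) (y : E) : std m (fun j => c j * y) = 0 := by
  obtain ⟨m, rfl⟩ := Nat.exists_eq_add_of_le' hm
  have key : std (m + 2) (fun j => c j * y) =
      ∑ i : Fin (m + 2), ∑ j : Fin (m + 1), (-1) ^ ((i : ℕ) + j) *
        (c i * y * (c (i.succAbove j) * y *
          std m fun k => c (i.succAbove (j.succAbove k)) * y)) := by
    rw [std_succ]
    refine Finset.sum_congr rfl fun i _ => ?_
    rw [std_succ, Finset.mul_sum, Finset.mul_sum]
    refine Finset.sum_congr rfl fun j _ => ?_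
    rw [std_sign_comm, pow_add, mul_assoc ((-1 : E) ^ (i : ℕ))]
  have sym : ∀ (p q : Fin (m + 2)) (z : E),
      c p * y * (c q * y * z) = c q * y * (c p * y * z) := fun p q z => by
    have e : ∀ p q : Fin (m + 2), c p * y * (c q * y * z) = c p * c q * (y * y * z) := fun p q => by
      rw [mul_assoc (c p), mul_assoc (c q), ← mul_assoc y, ← hc q y]
      simp only [mul_assoc]
    rw [e, e, hc p (c q)]
  have h3 := std_swap fun p q r => c p * y * (c q * y * std m fun k => c (r k) * y)
  simp only [sym (Fin.succAbove _ _)] at h3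
  rw [key]
  exact h2 _ (add_eq_zero_iff_eq_neg.2 h3)

end

end Pool.Agent.Lib.MP_e9c0f3_ag
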