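import Pool.Agent.Lib.MP_e9c0f3_ag.Std

/-! Formal properties of the Chern form. -/

open MvPolynomial Matrix

namespace Pool.Agent.Lib.MP_e9c0f3_ag

variable {R : Type} [CommRing R] {N : ℕ} {ι κ μ : Type}

section

variable [Fintype ι] [DecidableEq ι]

theorem eps_mul_eps (par : ι → ℕ) : eps R par * eps R par = 1 := by
  unfold eps
  rw [diagonal_mul_diagonal, ← diagonal_one]
  congr 1
  funext i
  rw [← mul_pow, neg_one_mul, neg_neg, one_pow]

theorem std2_trace_eps (par : ι → ℕ) (M : Matrix ι ι R) :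
    trace (eps R par * M) = ∑ i, (-1) ^ par i * M i i := by
  unfold eps
  simp only [Matrix.trace, Matrix.diag, diagonal_mul]

theorem ch_eq (par : ι → ℕ) (δ : Matrix ι ι (Pol N R)) :
    ch par δ = trace (eps (Pol N R) par * std N fun a => δ.map (pderiv a)) := by
  rw [std_eq_sum_perm, Finset.mul_sum, trace_sum]
  unfold ch
  refine Finset.sum_congr rfl fun π _ => ?_
  rw [mul_smul_comm, trace_smul, std2_trace_eps]

theorem map_ch {R' : Type} [CommRing R'] (f : R →+* R') (par : ι → ℕ) (δ : Matrix ι ι (Pol N R)) :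
    map f (ch par δ) = ch par (δ.map (map f)) := by
  rw [ch_eq, ch_eq, std2_trace_eps, std2_trace_eps, map_sum]
  refine Finset.sum_congr rfl fun i _ => ?_
  have h := map_std (MvPolynomial.map f : Pol N R →+* Pol N R').mapMatrix N
    (fun a => δ.map (pderiv a))
  have h2 : (fun a => (MvPolynomial.map f : Pol N R →+* Pol N R').mapMatrix (δ.map (pderiv a))) =
      fun a : Fin N => (δ.map (MvPolynomial.map f)).map (pderiv a) := by
    funext a
    ext1 j l
    simp only [RingHom.mapMatrix_apply, Matrix.map_apply, pderiv_map]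
  rw [h2] at h
  rw [← h, map_mul, map_pow, map_neg, map_one]
  rfl

theorem ch_congr {p q : ι → ℕ} (h : ∀ i, p i % 2 = q i % 2) (δ : Matrix ι ι (Pol N R)) :
    ch p δ = ch q δ := by
  rw [ch_eq, ch_eq, std2_trace_eps, std2_trace_eps]
  refine Finset.sum_congr rfl fun i _ => ?_
  rw [neg_one_pow_eq_pow_mod_two, h i, ← neg_one_pow_eq_pow_mod_two]

theorem ch_succ (par : ι → ℕ) (δ : Matrix ι ι (Pol N R)) :
    ch (fun i => par i + 1) δ = -ch par δ := by
  rw [ch_eq, ch_eq, std2_trace_eps, std2_trace_eps, ← Finset.sum_neg_distrib]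
  refine Finset.sum_congr rfl fun i _ => ?_
  rw [pow_succ]
  ring

theorem ch_neg (hN : Even N) (par : ι → ℕ) (δ : Matrix ι ι (Pol N R)) :
    ch par (-δ) = ch par δ := by
  rw [ch_eq, ch_eq]
  have h : (fun a : Fin N => (-δ).map (pderiv a)) = fun a => -(δ.map (pderiv a)) := by
    funext a
    ext1 j l
    simp only [Matrix.map_apply, Matrix.neg_apply, map_neg]
  rw [h, std_neg, hN.neg_one_pow, one_mul]

theorem std2_prod_fromBlocks [Fintype κ] [DecidableEq κ] {α : Type} (A : α → Matrix ι ι R)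
    (B : α → Matrix ι κ R) (D : α → Matrix κ κ R) (l : List α) :
    ∃ B', (l.map fun a => fromBlocks (A a) (B a) 0 (D a)).prod =
      fromBlocks (l.map A).prod B' 0 (l.map D).prod := by
  induction l with
  | nil => exact ⟨0, by simp⟩
  | cons a l ih =>
    obtain ⟨B', hB⟩ := ih
    refine ⟨A a * B' + B a * (l.map D).prod, ?_⟩
    simp only [List.map_cons, List.prod_cons, hB, fromBlocks_multiply]
    simp

theorem ch_fromBlocks [Fintype κ] [DecidableEq κ] (p : ι → ℕ) (q : κ → ℕ)
    (A : Matrix ι ι (Pol N R)) (B : Matrix ι κ (Pol N R)) (D : Matrix κ κ (Pol N R)) :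
    ch (Sum.elim p q) (fromBlocks A B 0 D) = ch p A + ch q D := by
  unfold ch
  rw [← Finset.sum_add_distrib]
  refine Finset.sum_congr rfl fun π _ => ?_
  rw [← smul_add]
  congr 1
  obtain ⟨B', hB⟩ := std2_prod_fromBlocks (fun a : Fin N => A.map (pderiv (π a)))
    (fun a => B.map (pderiv (π a))) (fun a => D.map (pderiv (π a))) (List.finRange N)
  have h : (List.ofFn fun a => (fromBlocks A B 0 D).map (pderiv (π a))) =
      (List.finRange N).map fun a => fromBlocks (A.map (pderiv (π a))) (B.map (pderiv (π a))) 0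
        (D.map (pderiv (π a))) := by
    rw [List.ofFn_eq_map]
    refine List.map_congr_left fun a _ => ?_
    rw [fromBlocks_map, Matrix.map_zero _ (map_zero _)]
  rw [h, hB, List.ofFn_eq_map, List.ofFn_eq_map, Fintype.sum_sum_type]
  simp only [Sum.elim_inl, Sum.elim_inr, fromBlocks_apply₁₁, fromBlocks_apply₂₂]

omit [DecidableEq ι] in
theorem std2_homog_mul {wt : ι → ℤ} {e e' : ℤ} {M M' : Matrix ι ι (Pol N R)}
    (h : ∀ i j m, coeff m (M i j) ≠ 0 → 2 * (m.degree : ℤ) + wt i = e + wt j)
    (h' : ∀ i j m, coeff m (M' i j) ≠ 0 → 2 * (m.degree : ℤ) + wt i = e' + wt j) :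
    ∀ i j m, coeff m ((M * M') i j) ≠ 0 → 2 * (m.degree : ℤ) + wt i = e + e' + wt j := by
  intro i j m hm
  rw [Matrix.mul_apply, coeff_sum] at hm
  obtain ⟨l, -, hl⟩ := Finset.exists_ne_zero_of_sum_ne_zero hm
  rw [coeff_mul] at hl
  obtain ⟨x, hx, hx'⟩ := Finset.exists_ne_zero_of_sum_ne_zero hl
  have h1 := h i l x.1 (left_ne_zero_of_mul hx')
  have h2 := h' l j x.2 (right_ne_zero_of_mul hx')
  rw [← Finset.HasAntidiagonal.mem_antidiagonal.mp hx, map_add]
  push_cast
  omega

theorem std2_homog_prod {wt : ι → ℤ} {e : ℤ} (l : List (Matrix ι ι (Pol N R)))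
    (h : ∀ M ∈ l, ∀ i j m, coeff m (M i j) ≠ 0 → 2 * (m.degree : ℤ) + wt i = e + wt j) :
    ∀ i j m, coeff m (l.prod i j) ≠ 0 → 2 * (m.degree : ℤ) + wt i = l.length * e + wt j := by
  induction l with
  | nil =>
    intro i j m hm
    rw [List.prod_nil, Matrix.one_apply] at hm
    split_ifs at hm with hij
    · subst hij
      rw [coeff_one] at hm
      split_ifs at hm with h0
      · subst h0
        simp
      · exact absurd rfl hm
    · exact absurd (coeff_zero m) hm
  | cons M l ih =>
    intro i j m hm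
    rw [List.prod_cons] at hm
    have h1 := std2_homog_mul (h M List.mem_cons_self)
      (ih fun M' hM' => h M' (List.mem_cons_of_mem _ hM')) i j m hm
    rw [h1, List.length_cons]
    push_cast
    ring

theorem IsMF.ch_isHomogeneous {k d : ℕ} (hN : N = 2 * k) (hd : 2 ≤ d) {F : Pol N R} {par : ι → ℕ}
    {wt : ι → ℤ} {δ : Matrix ι ι (Pol N R)} (h : IsMF d F par wt δ) :
    (ch par δ).IsHomogeneous (k * (d - 2)) := by
  unfold ch
  refine IsHomogeneous.sum _ _ _ fun π _ => ?_
  have key : ∀ i, ((List.ofFn fun a => δ.map (pderiv (π a))).prod i i).IsHomogeneous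
      (k * (d - 2)) := by
    intro i m hm
    have h1 := std2_homog_prod (wt := wt) (e := (d : ℤ) - 2)
      (List.ofFn fun a => δ.map (pderiv (π a))) (by
        intro M hM
        obtain ⟨a, rfl⟩ := (List.mem_ofFn' _ _).mp hM
        intro i j m hm
        change coeff m (pderiv (π a) (δ i j)) ≠ 0 at hm
        rw [coeff_pderiv] at hm
        have h2 := h.homog i j _ (left_ne_zero_of_mul hm)
        rw [map_add, Finsupp.degree_single] at h2
        push_cast at h2
        omega) i i m hm
    have hN' : (N : ℤ) = 2 * k := by exact_mod_cast hN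
    rw [List.length_ofFn, hN'] at h1
    change Finsupp.weight (fun _ => 1) m = _
    rw [← Finsupp.degree_eq_weight_one]
    obtain ⟨e, rfl⟩ := Nat.exists_eq_add_of_le hd
    rw [Nat.add_sub_cancel_left]
    push_cast at h1
    have h3 : (m.degree : ℤ) = (k : ℤ) * e := by linarith
    exact_mod_cast h3
  have key2 : (∑ i, (-1) ^ par i * (List.ofFn fun a => δ.map (pderiv (π a))).prod i i :
      Pol N R).IsHomogeneous (k * (d - 2)) := by
    refine IsHomogeneous.sum _ _ _ fun i _ => ?_
    rcases neg_one_pow_eq_or (Pol N R) (par i) with h1 | h1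
    · rw [h1, one_mul]
      exact key i
    · rw [h1, neg_one_mul]
      exact (key i).neg
  rcases Int.units_eq_one_or (Equiv.Perm.sign π) with h1 | h1
  · rw [h1, one_smul]
    exact key2
  · rw [h1, Units.neg_smul, one_smul]
    exact key2.neg

theorem IsMF.map {R' : Type} [CommRing R'] (f : R →+* R') {d : ℕ} {F : Pol N R} {par : ι → ℕ}
    {wt : ι → ℤ} {δ : Matrix ι ι (Pol N R)} (h : IsMF d F par wt δ) :
    IsMF d (map f F) par wt (δ.map (map f)) := by
  refine ⟨fun i j hij => h.odd i j fun h0 => hij ?_, fun i j m hm => h.homog i j m fun h0 => hm ?_,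
    ?_⟩
  · rw [Matrix.map_apply, h0, map_zero]
  · rw [Matrix.map_apply, coeff_map, h0, map_zero]
  · rw [← Matrix.map_mul, h.sq, scalar_apply, scalar_apply, diagonal_map (map_zero _)]

end

theorem OddM.eps_mul [Fintype ι] [DecidableEq ι] [Fintype κ] [DecidableEq κ] {p : ι → ℕ}
    {q : κ → ℕ} {M : Matrix ι κ R} (h : OddM p q M) : eps R p * M = -(M * eps R q) := by
  ext i j
  unfold eps
  rw [Matrix.neg_apply, diagonal_mul, mul_diagonal]
  by_cases h0 : M i j = 0
  · rw [h0, mul_zero, zero_mul, neg_zero]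
  · have h1 := (h i j h0).neg_one_pow (α := R)
    have h2 : ((-1 : R) ^ q j) * (-1) ^ q j = 1 := by
      rw [← mul_pow, neg_one_mul, neg_neg, one_pow]
    rw [pow_add] at h1
    linear_combination (M i j * (-1) ^ q j) * h1 - ((-1) ^ p i * M i j) * h2

theorem EvenM.eps_mul [Fintype ι] [DecidableEq ι] [Fintype κ] [DecidableEq κ] {p : ι → ℕ}
    {q : κ → ℕ} {M : Matrix ι κ R} (h : EvenM p q M) : eps R p * M = M * eps R q := by
  ext i j
  unfold eps
  rw [diagonal_mul, mul_diagonal]
  by_cases h0 : M i j = 0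
  · rw [h0, mul_zero, zero_mul]
  · have h1 := (h i j h0).neg_one_pow (α := R)
    have h2 : ((-1 : R) ^ q j) * (-1) ^ q j = 1 := by
      rw [← mul_pow, neg_one_mul, neg_neg, one_pow]
    rw [pow_add] at h1
    linear_combination (M i j * (-1) ^ q j) * h1 - ((-1) ^ p i * M i j) * h2

end Pool.Agent.Lib.MP_e9c0f3_ag
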